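import Mathlib

/-!
# AmA (size S-M): the lacunary sets `cant B m` and mixing classes

`cant B m` is the set of all sums of subsets of `{B, B^2, ..., B^m}`; for `B ≥ 2` it has `2 ^ m`
elements, all at most `2 * B ^ m` and less than `B ^ (m + 1)`.

A `MixClass` is a class of bounded measurable functions, each with a constant `M` (`P M f`: `f` has
constant `M`), closed under sums, products and composition with the transformations `T a`
(constants may grow exponentially in the size of `a`), and such that correlations decay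
exponentially.

## Proofs
* `cant_lt` : induction, `u + B^(m+1) < 2 B^(m+1) ≤ B^(m+2)`; the case `u ≤ 2 * B ^ m`:
  `u + B^(m+1) ≤ 2 B^m + B^(m+1) ≤ 2 B^(m+1)`.
* `cant_card`, `sum_cant_succ` : the two parts of `cant B (m+1)` are disjoint by `cant_lt` and the
  second is the image of `cant B m` under an injective map.
* `bigS_succ` from `sum_cant_succ`: `T ((u + B^(m+1)) • e) x = T (u • e) (T (B^(m+1) • e) x)`.
* `bigS_mem` : induction on a Finset: sums of members are members (`add`, `const` with `c = 0`,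
  `mono`); each term has constant `M * exp (χ * sz (u • e)) ≤ M * exp (χ * a₂ * (2 * B ^ m))`.
* `pow_mem` : `f ^ 0 = 1` has constant `1 = |1|`; `f ^ (j+1) = f ^ j * f` has constant
  `2 * (2 M)^j * M = (2 M)^(j+1)`; note `0 ≤ M` follows from `bdd` (the space is nonempty since `μ`
  is a probability measure), and `f^0` has constant `(2 M)^0 = 1`.
-/

set_option autoImplicit false

namespace Pool.Agent.Work.MP_67388f_an.EM

open MeasureTheory Filter Topology

/-- sums of subsets of `{B, ..., B ^ m}` -/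
def cant (B : ℕ) : ℕ → Finset ℕ
  | 0 => {0}
  | m + 1 => cant B m ∪ (cant B m).image (fun u => u + B ^ (m + 1))

theorem cant_le {B : ℕ} (hB : 2 ≤ B) (m : ℕ) : ∀ u ∈ cant B m, u ≤ 2 * B ^ m := by
  induction m with
  | zero =>
    intro u hu
    rw [cant, Finset.mem_singleton] at hu
    omega
  | succ m ih =>
    intro u hu
    have h1 : 2 * B ^ m ≤ B ^ (m + 1) := by
      rw [pow_succ, mul_comm 2]
      exact Nat.mul_le_mul_left _ hB
    rw [cant, Finset.mem_union, Finset.mem_image] at hu
    rcases hu with hu | ⟨v, hv, rfl⟩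
    · have := ih u hu
      omega
    · have := ih v hv
      omega

theorem cant_lt {B : ℕ} (hB : 2 ≤ B) (m : ℕ) : ∀ u ∈ cant B m, u < B ^ (m + 1) := by
  induction m with
  | zero =>
    intro u hu
    rw [cant, Finset.mem_singleton] at hu
    rw [hu, zero_add, pow_one]
    omega
  | succ m ih =>
    intro u hu
    have h1 : 2 * B ^ (m + 1) ≤ B ^ (m + 1 + 1) := by
      rw [pow_succ B (m + 1), mul_comm 2]
      exact Nat.mul_le_mul_left _ hB
    rw [cant, Finset.mem_union, Finset.mem_image] at hu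
    rcases hu with hu | ⟨v, hv, rfl⟩
    · have := ih u hu
      omega
    · have := ih v hv
      omega

private theorem cant_disj {B : ℕ} (hB : 2 ≤ B) (m : ℕ) :
    Disjoint (cant B m) ((cant B m).image (fun u => u + B ^ (m + 1))) := by
  rw [Finset.disjoint_left]
  intro u hu hu'
  obtain ⟨v, -, rfl⟩ := Finset.mem_image.1 hu'
  have := cant_lt hB m _ hu
  omega

theorem cant_card {B : ℕ} (hB : 2 ≤ B) (m : ℕ) : (cant B m).card = 2 ^ m := by
  induction m with
  | zero => rfl
  | succ m ih =>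
    rw [cant, Finset.card_union_of_disjoint (cant_disj hB m),
      Finset.card_image_of_injective _ (add_left_injective _), ih, pow_succ]
    ring

theorem sum_cant_succ {B : ℕ} (hB : 2 ≤ B) (m : ℕ) (f : ℕ → ℝ) :
    ∑ u ∈ cant B (m + 1), f u =
      ∑ u ∈ cant B m, f u + ∑ u ∈ cant B m, f (u + B ^ (m + 1)) := by
  rw [cant, Finset.sum_union (cant_disj hB m),
    Finset.sum_image (fun a _ b _ h => add_left_injective _ h)]

/-- A class of functions with exponential decay of correlations. -/
structure MixClass {Λ X : Type} [AddCommGroup Λ] [MeasurableSpace X] (μ : Measure X)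
    (T : Λ → X → X) (sz : Λ → ℝ) (P : ℝ → (X → ℝ) → Prop) (χ κ C : ℝ) : Prop where
  chi_nonneg : 0 ≤ χ
  kappa_pos : 0 < κ
  C_nonneg : 0 ≤ C
  sz_nonneg : ∀ a, 0 ≤ sz a
  add_act : ∀ a b x, T (a + b) x = T a (T b x)
  zero_act : ∀ x, T 0 x = x
  mp : ∀ a, MeasurePreserving (T a) μ μ
  meas : ∀ M f, P M f → Measurable f
  bdd : ∀ M f, P M f → ∀ x, |f x| ≤ M
  const : ∀ c : ℝ, P |c| (fun _ => c)
  mono : ∀ M M' f, P M f → M ≤ M' → P M' f
  add : ∀ M M' f f', P M f → P M' f' → P (M + M') (fun x => f x + f' x)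
  mul : ∀ M M' f f', P M f → P M' f' → P (2 * M * M') (fun x => f x * f' x)
  comp : ∀ M f a, P M f → P (M * Real.exp (χ * sz a)) (fun x => f (T a x))
  mix : ∀ M M' f f' a, P M f → P M' f' →
    |∫ x, f (T a x) * f' x ∂μ - (∫ x, f x ∂μ) * ∫ x, f' x ∂μ| ≤
      C * M * M' * Real.exp (-κ * sz a)

section

variable {Λ X : Type} [AddCommGroup Λ] [MeasurableSpace X] {μ : Measure X}
  {T : Λ → X → X} {sz : Λ → ℝ} {P : ℝ → (X → ℝ) → Prop} {χ κ C : ℝ}

/-- the lacunary sum -/
def bigS (T : Λ → X → X) (e : Λ) (B m : ℕ) (F : X → ℝ) (x : X) : ℝ :=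
  ∑ u ∈ cant B m, F (T (u • e) x)

theorem bigS_zero (hM : MixClass μ T sz P χ κ C) (e : Λ) (B : ℕ) (F : X → ℝ) (x : X) :
    bigS T e B 0 F x = F x := by
  rw [bigS, cant, Finset.sum_singleton, zero_smul, hM.zero_act]

theorem bigS_succ (hM : MixClass μ T sz P χ κ C) (e : Λ) {B : ℕ} (hB : 2 ≤ B) (m : ℕ)
    (F : X → ℝ) (x : X) :
    bigS T e B (m + 1) F x = bigS T e B m F x + bigS T e B m F (T (B ^ (m + 1) • e) x) := by
  rw [bigS, sum_cant_succ hB m (fun u => F (T (u • e) x)), bigS, bigS]
  congr 1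
  refine Finset.sum_congr rfl fun u _ => ?_
  rw [add_smul, hM.add_act]

theorem mix_nonneg [IsProbabilityMeasure μ] (hM : MixClass μ T sz P χ κ C) {M : ℝ} {f : X → ℝ}
    (hf : P M f) : 0 ≤ M := by
  obtain ⟨x⟩ := nonempty_of_isProbabilityMeasure μ
  exact (abs_nonneg _).trans (hM.bdd M f hf x)

theorem bigS_mem [IsProbabilityMeasure μ] (hM : MixClass μ T sz P χ κ C) (e : Λ) {a₂ : ℝ}
    (h2 : ∀ u : ℕ, sz (u • e) ≤ a₂ * u) {B : ℕ} (hB : 2 ≤ B) (m : ℕ) {M : ℝ} {F : X → ℝ}
    (hF : P M F) :
    P (2 ^ m * M * Real.exp (2 * χ * a₂ * B ^ m)) (bigS T e B m F) := by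
  have hM0 : 0 ≤ M := mix_nonneg hM hF
  have ha : 0 ≤ a₂ := by
    have := (hM.sz_nonneg ((1 : ℕ) • e)).trans (h2 1)
    simpa using this
  set M' : ℝ := M * Real.exp (2 * χ * a₂ * B ^ m) with hM'
  have key : ∀ s : Finset ℕ, (∀ u ∈ s, u ≤ 2 * B ^ m) →
      P (s.card * M') (fun x => ∑ u ∈ s, F (T (u • e) x)) := by
    intro s
    induction s using Finset.induction_on with
    | empty =>
      intro _
      have := hM.const 0
      simpa using this
    | insert u s hu ih =>
      intro hs
      have h3 := ih fun v hv => hs v (Finset.mem_insert_of_mem hv)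
      have h4 := hM.comp M F (u • e) hF
      have h5 : M * Real.exp (χ * sz (u • e)) ≤ M' := by
        refine mul_le_mul_of_nonneg_left (Real.exp_le_exp.2 ?_) hM0
        have h6 : (u : ℝ) ≤ 2 * (B : ℝ) ^ m := by
          have := hs u (Finset.mem_insert_self _ _)
          exact_mod_cast this
        calc χ * sz (u • e) ≤ χ * (a₂ * u) := mul_le_mul_of_nonneg_left (h2 u) hM.chi_nonneg
          _ ≤ χ * (a₂ * (2 * (B : ℝ) ^ m)) :=
            mul_le_mul_of_nonneg_left (mul_le_mul_of_nonneg_left h6 ha) hM.chi_nonneg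
          _ = _ := by ring
      have h7 := hM.add _ _ _ _ (hM.mono _ _ _ h4 h5) h3
      have e1 : M' + (s.card : ℝ) * M' = ((insert u s).card : ℝ) * M' := by
        rw [Finset.card_insert_of_notMem hu]
        push_cast
        ring
      have e2 : (fun x => F (T (u • e) x) + ∑ v ∈ s, F (T (v • e) x)) =
          fun x => ∑ v ∈ insert u s, F (T (v • e) x) :=
        funext fun x => (Finset.sum_insert (f := fun v => F (T (v • e) x)) hu).symm
      rw [e1, e2] at h7
      exact h7
  have h8 := key (cant B m) (cant_le hB m)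
  rw [cant_card hB m] at h8
  have e3 : ((2 ^ m : ℕ) : ℝ) * M' = 2 ^ m * M * Real.exp (2 * χ * a₂ * B ^ m) := by
    rw [hM']
    push_cast
    ring
  rw [e3] at h8
  exact h8

theorem pow_mem [IsProbabilityMeasure μ] (hM : MixClass μ T sz P χ κ C) {M : ℝ} {f : X → ℝ}
    (hf : P M f) (j : ℕ) : P ((2 * M) ^ j) (fun x => f x ^ j) := by
  induction j with
  | zero =>
    have := hM.const 1
    simpa using this
  | succ j ih =>
    have h1 := hM.mul _ _ _ _ ih hf
    have e1 : 2 * (2 * M) ^ j * M = (2 * M) ^ (j + 1) := by ring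
    have e2 : (fun x => f x ^ j * f x) = fun x => f x ^ (j + 1) :=
      funext fun x => (pow_succ (f x) j).symm
    rw [e1, e2] at h1
    exact h1

end

end Pool.Agent.Work.MP_67388f_an.EM
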