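import Pool.Agent.Work.MP_67388f_an.EM.AmA

/-!
# AmB (size M): asymptotic independence of the two halves of the lacunary sum

## Proof of `err_bound`
Put `S = bigS T e B m F`, `M_m = 2 ^ m * M * exp (2 χ a₂ B ^ m)`. By `bigS_mem` and `pow_mem` the
function `S ^ i` has constant `(2 M_m) ^ i`. Apply `mix` with `f = S ^ j`, `f' = S ^ i`,
`a = B ^ (m+1) • e`, `sz a ≥ a₁ * B ^ (m+1)`: the difference is at most
`C * (2 M_m) ^ (i + j) * exp (-κ a₁ B ^ (m+1))`. As `0 ≤ 2 M_m ≤ (1 + 2 M) * 2 ^ m *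
exp (2 χ a₂ B ^ m)` and this bound is at least one, `(2 M_m) ^ (i + j)` is at most
`(1 + 2 M) ^ (2 q) * exp (2 q m log 2 + 4 q χ a₂ B ^ m)`. Since `m ≤ B ^ m` and `log 2 ≤ 1` the
exponent is at most `(2 q + 4 q χ a₂) B ^ m`, which is at most `κ a₁ B * B ^ m` if
`B ≥ β (q + 1)` with `β ≥ (2 + 4 χ a₂) / (κ a₁)`; so `β` = max of 2 and the ceiling of this.
(`0 ≤ a₂` follows from `h2` with `u = 1`, `sz_nonneg`.)
-/

set_option autoImplicit false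

namespace Pool.Agent.Work.MP_67388f_an.EM

open MeasureTheory Filter Topology

variable {Λ X : Type} [AddCommGroup Λ] [MeasurableSpace X] {μ : Measure X}
  {T : Λ → X → X} {sz : Λ → ℝ} {P : ℝ → (X → ℝ) → Prop} {χ κ C : ℝ}

theorem err_bound [IsProbabilityMeasure μ] (hM : MixClass μ T sz P χ κ C) (e : Λ) {a₁ a₂ : ℝ}
    (ha₁ : 0 < a₁) (h1 : ∀ u : ℕ, a₁ * u ≤ sz (u • e)) (h2 : ∀ u : ℕ, sz (u • e) ≤ a₂ * u) :
    ∃ β : ℕ, 2 ≤ β ∧ ∀ q B : ℕ, β * (q + 1) ≤ B → ∀ (M : ℝ) (F : X → ℝ), P M F →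
      ∀ m i j : ℕ, i + j ≤ 2 * q →
        |∫ x, bigS T e B m F x ^ i * bigS T e B m F (T (B ^ (m + 1) • e) x) ^ j ∂μ -
          (∫ x, bigS T e B m F x ^ i ∂μ) * ∫ x, bigS T e B m F x ^ j ∂μ| ≤
          C * (1 + 2 * M) ^ (2 * q) := by
  have ha₂ : 0 ≤ a₂ := by
    have e1 := h2 1
    have e2 := hM.sz_nonneg (1 • e)
    rw [Nat.cast_one, mul_one] at e1
    linarith
  have hχ := hM.chi_nonneg
  have hκ := hM.kappa_pos
  have hC := hM.C_nonneg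
  have hκa : 0 < κ * a₁ := mul_pos hκ ha₁
  refine ⟨max 2 ⌈(2 + 4 * χ * a₂) / (κ * a₁)⌉₊, le_max_left _ _, ?_⟩
  set β : ℕ := max 2 ⌈(2 + 4 * χ * a₂) / (κ * a₁)⌉₊ with hβ
  have hβ2 : 2 ≤ β := le_max_left _ _
  have hβr : 2 + 4 * χ * a₂ ≤ κ * a₁ * β := by
    have e1 : (2 + 4 * χ * a₂) / (κ * a₁) ≤ (β : ℝ) :=
      (Nat.le_ceil _).trans (by exact_mod_cast le_max_right _ _)
    rw [div_le_iff₀ hκa] at e1
    linarith
  intro q B hB M F hF m i j hij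
  have hB2 : 2 ≤ B := by nlinarith
  have hM0 : 0 ≤ M := mix_nonneg hM hF
  have hS := bigS_mem hM e h2 hB2 m hF
  set Mm : ℝ := 2 ^ m * M * Real.exp (2 * χ * a₂ * (B : ℝ) ^ m) with hMm
  have hMm0 : 0 ≤ Mm := by positivity
  have hSi := pow_mem hM hS i
  have hSj := pow_mem hM hS j
  have hmix := hM.mix _ _ _ _ (B ^ (m + 1) • e) hSj hSi
  have hre : (∫ x, bigS T e B m F x ^ i * bigS T e B m F (T (B ^ (m + 1) • e) x) ^ j ∂μ -
          (∫ x, bigS T e B m F x ^ i ∂μ) * ∫ x, bigS T e B m F x ^ j ∂μ) =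
      (∫ x, bigS T e B m F (T (B ^ (m + 1) • e) x) ^ j * bigS T e B m F x ^ i ∂μ -
          (∫ x, bigS T e B m F x ^ j ∂μ) * ∫ x, bigS T e B m F x ^ i ∂μ) := by
    rw [mul_comm (∫ x, bigS T e B m F x ^ i ∂μ)]
    congr 2
    funext x
    ring
  rw [hre]
  refine hmix.trans ?_
  have hsz := h1 (B ^ (m + 1))
  have hmB : (m : ℝ) ≤ (B : ℝ) ^ m := by
    have : m ≤ B ^ m := (Nat.lt_pow_self hB2).le
    exact_mod_cast this
  have hY1 : (1 : ℝ) ≤ (1 + 2 * M) * 2 ^ m * Real.exp (2 * χ * a₂ * (B : ℝ) ^ m) := by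
    have e1 : (1 : ℝ) ≤ 1 + 2 * M := by linarith
    have e2 : (1 : ℝ) ≤ 2 ^ m := one_le_pow₀ (by norm_num)
    have e3 : (1 : ℝ) ≤ Real.exp (2 * χ * a₂ * (B : ℝ) ^ m) := Real.one_le_exp (by positivity)
    have e4 : (1 : ℝ) ≤ (1 + 2 * M) * 2 ^ m := by nlinarith
    nlinarith
  have hY2 : 2 * Mm ≤ (1 + 2 * M) * 2 ^ m * Real.exp (2 * χ * a₂ * (B : ℝ) ^ m) := by
    rw [hMm]
    have e3 : (0 : ℝ) ≤ 2 ^ m * Real.exp (2 * χ * a₂ * (B : ℝ) ^ m) := by positivity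
    nlinarith
  have h3 : (2 * Mm) ^ j * (2 * Mm) ^ i ≤
      (1 + 2 * M) ^ (2 * q) * Real.exp ((2 * q + 4 * q * χ * a₂) * (B : ℝ) ^ m) := by
    calc (2 * Mm) ^ j * (2 * Mm) ^ i = (2 * Mm) ^ (i + j) := by rw [← pow_add, add_comm]
      _ ≤ ((1 + 2 * M) * 2 ^ m * Real.exp (2 * χ * a₂ * (B : ℝ) ^ m)) ^ (i + j) :=
          pow_le_pow_left₀ (by positivity) hY2 _
      _ ≤ ((1 + 2 * M) * 2 ^ m * Real.exp (2 * χ * a₂ * (B : ℝ) ^ m)) ^ (2 * q) :=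
          pow_le_pow_right₀ hY1 hij
      _ ≤ ((1 + 2 * M) * Real.exp ((B : ℝ) ^ m) * Real.exp (2 * χ * a₂ * (B : ℝ) ^ m)) ^
          (2 * q) := by
          apply pow_le_pow_left₀ (by positivity)
          have e1 : (2 : ℝ) ^ m ≤ Real.exp ((B : ℝ) ^ m) := by
            calc (2 : ℝ) ^ m ≤ (Real.exp 1) ^ m := by
                  apply pow_le_pow_left₀ (by norm_num)
                  have := Real.add_one_le_exp (1 : ℝ)
                  linarith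
              _ = Real.exp m := by rw [← Real.exp_nat_mul, mul_one]
              _ ≤ _ := Real.exp_le_exp.2 hmB
          gcongr
      _ = (1 + 2 * M) ^ (2 * q) * Real.exp ((2 * q + 4 * q * χ * a₂) * (B : ℝ) ^ m) := by
          rw [mul_assoc (1 + 2 * M), ← Real.exp_add, mul_pow, ← Real.exp_nat_mul]
          congr 2
          push_cast
          ring
  have h4 : (2 * (q : ℝ) + 4 * q * χ * a₂) * (B : ℝ) ^ m ≤ κ * sz (B ^ (m + 1) • e) := by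
    have e1 : (β : ℝ) * q ≤ B := by
      have : β * q ≤ B := le_trans (Nat.mul_le_mul_left _ (Nat.le_succ q)) hB
      exact_mod_cast this
    have hq0 : (0 : ℝ) ≤ q := Nat.cast_nonneg q
    have e2 : 2 * (q : ℝ) + 4 * q * χ * a₂ ≤ κ * a₁ * B := by
      calc 2 * (q : ℝ) + 4 * q * χ * a₂ = (2 + 4 * χ * a₂) * q := by ring
        _ ≤ (κ * a₁ * β) * q := mul_le_mul_of_nonneg_right hβr hq0
        _ = κ * a₁ * (β * q) := by ring
        _ ≤ κ * a₁ * B := mul_le_mul_of_nonneg_left e1 hκa.le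
    calc (2 * (q : ℝ) + 4 * q * χ * a₂) * (B : ℝ) ^ m ≤ (κ * a₁ * B) * (B : ℝ) ^ m :=
          mul_le_mul_of_nonneg_right e2 (by positivity)
      _ = κ * (a₁ * ((B ^ (m + 1) : ℕ) : ℝ)) := by
          push_cast
          ring
      _ ≤ _ := mul_le_mul_of_nonneg_left hsz hκ.le
  calc C * (2 * Mm) ^ j * (2 * Mm) ^ i * Real.exp (-κ * sz (B ^ (m + 1) • e)) =
        C * ((2 * Mm) ^ j * (2 * Mm) ^ i) * Real.exp (-κ * sz (B ^ (m + 1) • e)) := by ring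
    _ ≤ C * ((1 + 2 * M) ^ (2 * q) * Real.exp ((2 * q + 4 * q * χ * a₂) * (B : ℝ) ^ m)) *
        Real.exp (-κ * sz (B ^ (m + 1) • e)) := by gcongr
    _ = C * (1 + 2 * M) ^ (2 * q) * (Real.exp ((2 * q + 4 * q * χ * a₂) * (B : ℝ) ^ m +
        -κ * sz (B ^ (m + 1) • e))) := by
        rw [Real.exp_add]
        ring
    _ ≤ C * (1 + 2 * M) ^ (2 * q) * 1 := by
        apply mul_le_mul_of_nonneg_left _ (by positivity)
        rw [Real.exp_le_one_iff]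
        linarith
    _ = _ := mul_one _

end Pool.Agent.Work.MP_67388f_an.EM
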