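import Pool.Agent.Work.MP_67388f_an.EM.AmB
import Pool.Agent.Work.MP_67388f_an.EM.AmC

/-!
# AmD (size M): moments and large deviations of the lacunary averages

## Proof
`moment_bound` : with `β` from `err_bound` apply `moment_rec` with `J = 2 q` to
`a m j = ∫ S_m ^ j` (`S_m = bigS T e B m F`). `a m 0 = 1`. `a m 1 = ∫ S_m = 0` as each
`∫ F (T (u • e) x) = ∫ F = 0`. Recursion: `bigS_succ` and the binomial formula `add_pow` give
`S_{m+1}^j = ∑_{i ≤ j} S_m^i * (S_m ∘ T (B^(m+1) • e))^(j-i) * choose j i`; integrate (all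
functions are bounded and measurable, see `pow_mem`, `meas`, `bdd`, `comp`) and use `err_bound`:
the total error is at most `2 ^ (2 q) * C * (1 + 2 M) ^ (2 q)` (`Nat.sum_range_choose`).
The result for `j = 2 q`: `(3/2)^(m * (2 q)) = (9/4)^(q m)`.
`large_dev` : Markov's inequality for the function `S_m ^ (2 q)` at the level
`(δ * 2 ^ m) ^ (2 q)` (e.g. `MeasureTheory.mul_meas_ge_le_integral_of_nonneg`):
`μ {δ ≤ |S_m / 2^m|} ≤ ∫ S_m^(2q) / (δ 2^m)^(2q) ≤ Kc δ^(-2q) (9/4)^(q m) / 4^(q m)`.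
-/

set_option autoImplicit false

namespace Pool.Agent.Work.MP_67388f_an.EM

open MeasureTheory Filter Topology

variable {Λ X : Type} [AddCommGroup Λ] [MeasurableSpace X] {μ : Measure X}
  {T : Λ → X → X} {sz : Λ → ℝ} {P : ℝ → (X → ℝ) → Prop} {χ κ C : ℝ}

private theorem amd_int [IsProbabilityMeasure μ] (hM : MixClass μ T sz P χ κ C) {M : ℝ}
    {f : X → ℝ} (hf : P M f) : Integrable f μ :=
  Integrable.of_bound (hM.meas M f hf).aestronglyMeasurable M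
    (ae_of_all _ fun x => by rw [Real.norm_eq_abs]; exact hM.bdd M f hf x)

private theorem amd_comp (hM : MixClass μ T sz P χ κ C) {M : ℝ} {f : X → ℝ} (hf : P M f) (a : Λ) :
    ∫ x, f (T a x) ∂μ = ∫ x, f x ∂μ := by
  have h1 : ∫ x, f x ∂(μ.map (T a)) = ∫ x, f (T a x) ∂μ :=
    integral_map (hM.mp a).measurable.aemeasurable (hM.meas M f hf).aestronglyMeasurable
  rw [(hM.mp a).map_eq] at h1
  exact h1.symm

theorem moment_bound [IsProbabilityMeasure μ] (hM : MixClass μ T sz P χ κ C) (e : Λ) {a₁ a₂ : ℝ}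
    (ha₁ : 0 < a₁) (h1 : ∀ u : ℕ, a₁ * u ≤ sz (u • e)) (h2 : ∀ u : ℕ, sz (u • e) ≤ a₂ * u) :
    ∃ β : ℕ, 2 ≤ β ∧ ∀ q B : ℕ, β * (q + 1) ≤ B → ∀ (M : ℝ) (F : X → ℝ), P M F →
      ∫ x, F x ∂μ = 0 → ∃ Kc : ℝ, ∀ m : ℕ,
        ∫ x, bigS T e B m F x ^ (2 * q) ∂μ ≤ Kc * (9 / 4 : ℝ) ^ (q * m) := by
  obtain ⟨β, hβ, herr⟩ := err_bound hM e ha₁ h1 h2
  refine ⟨β, hβ, fun q B hB M F hF h0 => ?_⟩
  have hB2 : 2 ≤ B := by
    calc 2 ≤ β := hβ
      _ = β * 1 := (mul_one β).symm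
      _ ≤ β * (q + 1) := Nat.mul_le_mul_left β (by omega)
      _ ≤ B := hB
  have hM0 : 0 ≤ M := mix_nonneg hM hF
  have hSm : ∀ m, ∃ M', P M' (bigS T e B m F) := fun m => ⟨_, bigS_mem hM e h2 hB2 m hF⟩
  have hpp : ∀ m i j, ∃ M', P M' (fun x => bigS T e B m F x ^ i *
      bigS T e B m F (T (B ^ (m + 1) • e) x) ^ j) := by
    intro m i j
    obtain ⟨M', hM'⟩ := hSm m
    have k1 := pow_mem hM hM' i
    have k2 := hM.comp _ _ (B ^ (m + 1) • e) (pow_mem hM hM' j)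
    exact ⟨_, hM.mul _ _ _ _ k1 k2⟩
  set a : ℕ → ℕ → ℝ := fun m j => ∫ x, bigS T e B m F x ^ j ∂μ with ha
  have ha0 : ∀ m, a m 0 = 1 := by
    intro m
    simp [ha]
  have ha1 : ∀ m, a m 1 = 0 := by
    intro m
    have e1 : a m 1 = ∫ x, ∑ u ∈ cant B m, F (T (u • e) x) ∂μ := by
      simp [ha, bigS]
    rw [e1, integral_finsetSum (cant B m) fun u _ => amd_int hM (hM.comp M F (u • e) hF)]
    refine Finset.sum_eq_zero fun u _ => ?_
    rw [amd_comp hM hF, h0]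
  set E₀ : ℝ := C * (1 + 2 * M) ^ (2 * q) with hE₀
  have hE₀0 : 0 ≤ E₀ := mul_nonneg hM.C_nonneg (pow_nonneg (by linarith) _)
  have hrec : ∀ m j, j ≤ 2 * q →
      |a (m + 1) j - ∑ i ∈ Finset.range (j + 1), (j.choose i : ℝ) * a m i * a m (j - i)| ≤
        2 ^ (2 * q) * E₀ := by
    intro m j hj
    have e1 : a (m + 1) j = ∑ i ∈ Finset.range (j + 1), (j.choose i : ℝ) *
        ∫ x, bigS T e B m F x ^ i * bigS T e B m F (T (B ^ (m + 1) • e) x) ^ (j - i) ∂μ := by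
      have e2 : (fun x => bigS T e B (m + 1) F x ^ j) = fun x => ∑ i ∈ Finset.range (j + 1),
          (j.choose i : ℝ) * (bigS T e B m F x ^ i *
            bigS T e B m F (T (B ^ (m + 1) • e) x) ^ (j - i)) := by
        funext x
        rw [bigS_succ hM e hB2 m F x, add_pow]
        exact Finset.sum_congr rfl fun i _ => by ring
      show ∫ x, bigS T e B (m + 1) F x ^ j ∂μ = _
      rw [e2, integral_finsetSum _ fun i _ => ?_]
      · exact Finset.sum_congr rfl fun i _ => integral_const_mul _ _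
      · obtain ⟨M', hM'⟩ := hpp m i (j - i)
        exact (amd_int hM hM').const_mul _
    rw [e1, ← Finset.sum_sub_distrib]
    calc |∑ i ∈ Finset.range (j + 1), ((j.choose i : ℝ) *
          ∫ x, bigS T e B m F x ^ i * bigS T e B m F (T (B ^ (m + 1) • e) x) ^ (j - i) ∂μ -
          (j.choose i : ℝ) * a m i * a m (j - i))|
        ≤ ∑ i ∈ Finset.range (j + 1), (j.choose i : ℝ) * E₀ := by
          refine (Finset.abs_sum_le_sum_abs _ _).trans (Finset.sum_le_sum fun i hi => ?_)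
          have hi' : i ≤ j := Nat.lt_succ_iff.1 (Finset.mem_range.1 hi)
          rw [mul_assoc, ← mul_sub, abs_mul, abs_of_nonneg (Nat.cast_nonneg _)]
          exact mul_le_mul_of_nonneg_left (herr q B hB M F hF m i (j - i) (by omega))
            (Nat.cast_nonneg _)
      _ = 2 ^ j * E₀ := by
          rw [← Finset.sum_mul]
          congr 1
          exact_mod_cast Nat.sum_range_choose j
      _ ≤ 2 ^ (2 * q) * E₀ :=
          mul_le_mul_of_nonneg_right (pow_le_pow_right₀ (by norm_num) hj) hE₀0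
  obtain ⟨Kc, hKc⟩ := moment_rec (2 * q) (2 ^ (2 * q) * E₀) a ha0 ha1 hrec (2 * q) le_rfl
  refine ⟨Kc, fun m => (le_abs_self _).trans ((hKc m).trans (le_of_eq ?_))⟩
  congr 1
  rw [show m * (2 * q) = 2 * (q * m) by ring, pow_mul]
  norm_num

theorem large_dev [IsProbabilityMeasure μ] (hM : MixClass μ T sz P χ κ C) (e : Λ) {a₁ a₂ : ℝ}
    (ha₁ : 0 < a₁) (h1 : ∀ u : ℕ, a₁ * u ≤ sz (u • e)) (h2 : ∀ u : ℕ, sz (u • e) ≤ a₂ * u) :
    ∃ β : ℕ, 2 ≤ β ∧ ∀ q B : ℕ, β * (q + 1) ≤ B → ∀ (M : ℝ) (F : X → ℝ), P M F →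
      ∫ x, F x ∂μ = 0 → ∀ δ : ℝ, 0 < δ → ∃ Kc : ℝ, ∀ m : ℕ,
        μ.real {x | δ ≤ |bigS T e B m F x / 2 ^ m|} ≤ Kc * (9 / 16 : ℝ) ^ (q * m) := by
  obtain ⟨β, hβ, hmom⟩ := moment_bound hM e ha₁ h1 h2
  refine ⟨β, hβ, fun q B hB M F hF h0 δ hδ => ?_⟩
  obtain ⟨Kc, hKc⟩ := hmom q B hB M F hF h0
  have hB2 : 2 ≤ B := by
    calc 2 ≤ β := hβ
      _ = β * 1 := (mul_one β).symm
      _ ≤ β * (q + 1) := Nat.mul_le_mul_left β (by omega)
      _ ≤ B := hB
  refine ⟨Kc / δ ^ (2 * q), fun m => ?_⟩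
  have hPm := pow_mem hM (bigS_mem hM e h2 hB2 m hF) (2 * q)
  have hint : Integrable (fun x => (bigS T e B m F x / 2 ^ m) ^ (2 * q)) μ := by
    have e1 : (fun x => (bigS T e B m F x / 2 ^ m) ^ (2 * q)) =
        fun x => bigS T e B m F x ^ (2 * q) / (2 ^ m) ^ (2 * q) := by
      funext x
      rw [div_pow]
    rw [e1]
    exact (amd_int hM hPm).div_const _
  have heven : Even (2 * q) := even_two_mul q
  have h := mul_meas_ge_le_integral_of_nonneg (μ := μ)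
    (f := fun x => (bigS T e B m F x / 2 ^ m) ^ (2 * q))
    (ae_of_all _ fun x => heven.pow_nonneg _) hint (δ ^ (2 * q))
  have hsub : {x | δ ≤ |bigS T e B m F x / 2 ^ m|} ⊆
      {x | δ ^ (2 * q) ≤ (bigS T e B m F x / 2 ^ m) ^ (2 * q)} := by
    intro x hx
    have h1 : δ ^ (2 * q) ≤ |bigS T e B m F x / 2 ^ m| ^ (2 * q) :=
      pow_le_pow_left₀ hδ.le hx _
    rwa [heven.pow_abs] at h1
  have h3 : μ.real {x | δ ≤ |bigS T e B m F x / 2 ^ m|} ≤
      μ.real {x | δ ^ (2 * q) ≤ (bigS T e B m F x / 2 ^ m) ^ (2 * q)} := measureReal_mono hsub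
  have h4 : ∫ x, (bigS T e B m F x / 2 ^ m) ^ (2 * q) ∂μ ≤ Kc * (9 / 16 : ℝ) ^ (q * m) := by
    have e1 : (fun x => (bigS T e B m F x / 2 ^ m) ^ (2 * q)) =
        fun x => bigS T e B m F x ^ (2 * q) / (2 ^ m) ^ (2 * q) := by
      funext x
      rw [div_pow]
    rw [e1, integral_div]
    have e2 : ((2 : ℝ) ^ m) ^ (2 * q) = 4 ^ (q * m) := by
      rw [← pow_mul, show m * (2 * q) = 2 * (q * m) by ring, pow_mul]
      norm_num
    rw [e2, div_le_iff₀ (by positivity), mul_assoc, ← mul_pow]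
    have e3 : (9 / 16 : ℝ) * 4 = 9 / 4 := by norm_num
    rw [e3]
    exact hKc m
  have hpos : 0 < δ ^ (2 * q) := pow_pos hδ _
  rw [div_mul_eq_mul_div, le_div_iff₀ hpos, mul_comm]
  exact (mul_le_mul_of_nonneg_left h3 hpos.le).trans (h.trans h4)

end Pool.Agent.Work.MP_67388f_an.EM
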