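import Mathlib

/-!
# Mixing rates and measure rigidity: basic definitions

`GG n K` is the product of the groups `SL(n i, K i)` (finitely many local fields `K i`), `Lat n` is
the lattice of exponents, `dg π k` the diagonal element with entries `π i ^ k i j`.  A root is a
triple `φ = ⟨i, (j, l)⟩` with `j ≠ l`; `rv φ k = k i j - k i l` and `tv φ c` is the elementary
matrix `1 + c E_{jl}` at the place `i`.
-/

set_option autoImplicit false

namespace Pool.Agent.Work.MP_67388f_an.EM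

open MeasureTheory Filter Topology Matrix

/-- The product of the groups `SL(n i, K i)`. -/
abbrev GG {I : Type} (n : I → ℕ) (K : I → Type) [∀ i, NontriviallyNormedField (K i)] : Type :=
  ∀ i, SpecialLinearGroup (Fin (n i)) (K i)

/-- Families of integers `k i j`, `j < n i`, with sum zero for each `i`. -/
def Lat {I : Type} (n : I → ℕ) : AddSubgroup (∀ i, Fin (n i) → ℤ) where
  carrier := {k | ∀ i, ∑ j, k i j = 0}
  add_mem' := by
    intro a b ha hb i
    simp only [Pi.add_apply, Finset.sum_add_distrib]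
    rw [ha i, hb i, add_zero]
  zero_mem' := by
    intro i
    simp
  neg_mem' := by
    intro a ha i
    simp only [Pi.neg_apply, Finset.sum_neg_distrib]
    rw [ha i, neg_zero]

theorem lat_sum {I : Type} {n : I → ℕ} (k : Lat n) (i : I) : ∑ j, k.1 i j = 0 := k.2 i

/-- The size of `k`. -/
noncomputable def len {I : Type} [Fintype I] {n : I → ℕ} (k : Lat n) : ℝ :=
  ∑ i, ∑ j, |(k.1 i j : ℝ)|

/-- Index triples; the roots are those with `Off φ`. -/
abbrev Rt {I : Type} (n : I → ℕ) : Type := (i : I) × (Fin (n i) × Fin (n i))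

/-- The triple is off the diagonal. -/
def Off {I : Type} {n : I → ℕ} (φ : Rt n) : Prop := φ.2.1 ≠ φ.2.2

/-- The value of the root `φ` at `k`. -/
def rv {I : Type} {n : I → ℕ} (φ : Rt n) (k : Lat n) : ℤ := k.1 φ.1 φ.2.1 - k.1 φ.1 φ.2.2

section group

variable {I : Type} {n : I → ℕ} {K : I → Type} [∀ i, NontriviallyNormedField (K i)]

/-- The diagonal element with entries `π i ^ k i j`. -/
noncomputable def dg (π : ∀ i, (K i)ˣ) (k : Lat n) : GG n K := fun i =>
  ⟨diagonal fun j => ((π i ^ k.1 i j : (K i)ˣ) : K i), by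
    rw [det_diagonal]
    have h : ∀ s : Finset (Fin (n i)), (∏ j ∈ s, ((π i ^ k.1 i j : (K i)ˣ) : K i)) =
        ((π i ^ (∑ j ∈ s, k.1 i j) : (K i)ˣ) : K i) := by
      classical
      intro s
      induction s using Finset.induction_on with
      | empty => simp
      | insert a s ha ih => rw [Finset.prod_insert ha, Finset.sum_insert ha, ih, _root_.zpow_add,
          Units.val_mul]
    rw [h Finset.univ, lat_sum k i, _root_.zpow_zero, Units.val_one]⟩

/-- All entries of `g` are within `ε` of those of `1`. -/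
def Near (g : GG n K) (ε : ℝ) : Prop :=
  ∀ i j l, ‖(g i).1 j l - (1 : Matrix (Fin (n i)) (Fin (n i)) (K i)) j l‖ ≤ ε

open Classical in
/-- The elementary matrix `1 + c E_{jl}` at the place `i`, for `φ = ⟨i, (j, l)⟩`, `j ≠ l`
(and `1` if `j = l`). -/
noncomputable def tv (φ : Rt n) (c : K φ.1) : GG n K :=
  if h : φ.2.1 ≠ φ.2.2 then Pi.mulSingle φ.1 (SpecialLinearGroup.transvection h c) else 1

/-- The off-diagonal entries of `g` outside the pattern `J` vanish. -/
def InPat (J : ∀ i, Finset (Fin (n i) × Fin (n i))) (g : GG n K) : Prop :=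
  ∀ i j l, j ≠ l → (j, l) ∉ J i → (g i).1 j l = 0

/-- The off-diagonal entries of `g` in the pattern `J` vanish. -/
def OffPat (J : ∀ i, Finset (Fin (n i) × Fin (n i))) (g : GG n K) : Prop :=
  ∀ i j l, j ≠ l → (j, l) ∈ J i → (g i).1 j l = 0

end group

section action

variable {I : Type} {n : I → ℕ} {K : I → Type} [∀ i, NontriviallyNormedField (K i)]
variable (H : Type) [Group H] {X : Type} [MulAction (GG n K × H) X]

/-- `x ↦ a_k x`. -/
noncomputable def act (π : ∀ i, (K i)ˣ) (k : Lat n) (x : X) : X := (dg π k, (1 : H)) • x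

variable (n K) [TopologicalSpace X]

/-- `f` is continuous with compact support, bounded by `M` and Lipschitz with constant `M` along
the orbits of `GG n K`. -/
def Test (M : ℝ) (f : X → ℝ) : Prop :=
  Continuous f ∧ HasCompactSupport f ∧ (∀ x, |f x| ≤ M) ∧
    ∀ (g : GG n K) (ε : ℝ) (x : X), 0 ≤ ε → Near g ε → |f ((g, (1 : H)) • x) - f x| ≤ M * ε

variable {K} [Fintype I] [MeasurableSpace X]

variable {n} in
/-- The correlation of `f ∘ a_k` and `f'`. -/
noncomputable def corr (π : ∀ i, (K i)ˣ) (μ : Measure X) (f f' : X → ℝ) (k : Lat n) : ℝ :=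
  ∫ x, f (act H π k x) * f' x ∂μ - (∫ x, f x ∂μ) * ∫ x, f' x ∂μ

/-- Exponential mixing. -/
def ExpMix (π : ∀ i, (K i)ˣ) (μ : Measure X) : Prop :=
  ∃ C κ : ℝ, 0 < κ ∧ ∀ (M M' : ℝ) (f f' : X → ℝ), Test n K H M f → Test n K H M' f' →
    ∀ k : Lat n, |corr H π μ f f' k| ≤ C * M * M' * Real.exp (-κ * len k)

/-- Polynomial mixing with rates of order more than one. -/
def PolyMix (π : ∀ i, (K i)ˣ) (μ : Measure X) : Prop :=
  ∀ (M M' : ℝ) (f f' : X → ℝ), Test n K H M f → Test n K H M' f' →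
    ∃ C ρ : ℝ, 1 < ρ ∧ ∀ k : Lat n, |corr H π μ f f' k| ≤ C * (1 + len k) ^ (-ρ)

/-- Mixing on test functions. -/
def WM (π : ∀ i, (K i)ˣ) (μ : Measure X) : Prop :=
  ∀ (M M' : ℝ) (f f' : X → ℝ), Test n K H M f → Test n K H M' f' → ∀ ε : ℝ, 0 < ε →
    ∃ R : ℝ, ∀ k : Lat n, R ≤ len k → |corr H π μ f f' k| ≤ ε

/-- Invariance under all `a_k`. -/
def AInv (π : ∀ i, (K i)ˣ) (μ : Measure X) : Prop :=
  ∀ k : Lat n, μ.map (act H π k) = μ

variable {n}

/-- The average of `f ∘ a_k` over `k ∈ D`. -/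
noncomputable def avg (π : ∀ i, (K i)ˣ) (D : Finset (Lat n)) (f : X → ℝ) (x : X) : ℝ :=
  (∑ k ∈ D, f (act H π k x)) / (D.card : ℝ)

/-- `g ∈ GG n K` preserves `μ`. -/
def Fix (μ : Measure X) (g : GG n K) : Prop := μ.map (fun x : X => (g, (1 : H)) • x) = μ

/-- Sampling sets (see PLAN.md). -/
def HasSampler (π : ∀ i, (K i)ˣ) (μ : Measure X) (pl : ℤ × ℤ →+ Lat n) (η C₁ : ℝ) : Prop :=
  ∃ (S : ℕ → Finset (Finset (Lat n))) (s₁ : ℕ),
    (∀ s, ∀ D ∈ S s, D.Nonempty) ∧
    (∀ s, s₁ ≤ s → ∀ b : ℤ × ℤ, |(b.1 : ℝ)| ≤ C₁ * 2 ^ s → |(b.2 : ℝ)| ≤ C₁ * 2 ^ s →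
      ∀ φ : Rt n, Off φ →
        ∃ D ∈ S s, ∀ k ∈ D, rv φ k = rv φ (pl b) ∧ len (k - pl b) ≤ η * 2 ^ s) ∧
    (∀ (M : ℝ) (f : X → ℝ), Test n K H M f → ∀ δ : ℝ, 0 < δ →
      Summable fun s => ∑ D ∈ S s, μ.real {x | δ ≤ |avg H π D f x - ∫ y, f y ∂μ|})

end action

end Pool.Agent.Work.MP_67388f_an.EM
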