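import Pool.Agent.Work.MP_67388f_an.EM.Base

/-!
# Definitions for the correction step

`hh J c` is the product (in a fixed order) of the elementary matrices `1 + c φ E_φ`, `φ ∈ J`.
`NIProp K` : maps of `K^ι` close to the identity do not concentrate a suitable measure.
`SubProp K` : a closed nonzero additive subgroup of `K` stable under multiplication by `ϖ` and
`ϖ⁻¹`, `‖ϖ‖ > 1`, is everything.
-/

set_option autoImplicit false

namespace Pool.Agent.Work.MP_67388f_an.EM

open MeasureTheory Filter Topology Matrix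

open Classical in
/-- The elementary matrix `1 + c E_φ` (and `1` if `φ` is on the diagonal). -/
noncomputable def tvM {K : Type} [Field K] {m : ℕ} (φ : Fin m × Fin m) (c : K) :
    SpecialLinearGroup (Fin m) K :=
  if h : φ.1 ≠ φ.2 then SpecialLinearGroup.transvection h c else 1

/-- The ordered product of the elementary matrices with positions in `J`. -/
noncomputable def hh {K : Type} [Field K] {m : ℕ} (J : Finset (Fin m × Fin m))
    (c : Fin m × Fin m → K) : SpecialLinearGroup (Fin m) K :=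
  (J.toList.map fun φ => tvM φ (c φ)).prod

/-- `ψ` is `θ`-close to the identity on the ball of radius `ρ`. -/
def NearId {E : Type} [NormedAddCommGroup E] (θ ρ : ℝ) (ψ : E → E) : Prop :=
  ∀ x y, ‖x‖ ≤ ρ → ‖y‖ ≤ ρ → ‖ψ x - ψ y - (x - y)‖ ≤ θ * ‖x - y‖

/-- Maps close to the identity do not concentrate the measure `ν`. -/
structure NIMeas {E : Type} [NormedAddCommGroup E] [MeasurableSpace E] (ν : Measure E) (θ : ℝ)
    (C : ENNReal) : Prop where
  theta_pos : 0 < θ
  C_lt : C < ⊤
  ball_lt : ∀ ρ : ℝ, ν {x | ‖x‖ ≤ ρ} < ⊤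
  ball_pos : ∀ ρ : ℝ, 0 < ρ → 0 < ν {x | ‖x‖ ≤ ρ}
  ni : ∀ (ρ : ℝ) (ψ : E → E), 0 < ρ → NearId θ ρ ψ → ∀ s : Set E, MeasurableSet s →
    ν ({x | ‖x‖ ≤ ρ} ∩ ψ ⁻¹' s) ≤ C * ν s

/-- Every space `K ^ ι` has a measure which is not concentrated by maps near the identity. -/
def NIProp (K : Type) [NontriviallyNormedField K] : Prop :=
  ∀ (ι : Type) [Fintype ι], ∃ (ν : @Measure (ι → K) (borel (ι → K))) (θ : ℝ) (C : ENNReal),
    SigmaFinite ν ∧ @NIMeas (ι → K) _ (borel (ι → K)) ν θ C

/-- Closed subgroups stable under a contraction and its inverse are trivial or everything. -/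
def SubProp (K : Type) [NontriviallyNormedField K] : Prop :=
  ∀ (S : AddSubgroup K), IsClosed (S : Set K) → (∃ c ∈ S, c ≠ 0) → ∀ ϖ : K, 1 < ‖ϖ‖ →
    (∀ c ∈ S, ϖ * c ∈ S) → (∀ c ∈ S, ϖ⁻¹ * c ∈ S) → S = ⊤

section

variable {I : Type} {n : I → ℕ} {K : I → Type} [∀ i, NontriviallyNormedField (K i)]

/-- The parameter space of the corrections. -/
abbrev Par (n : I → ℕ) (K : I → Type) : Type := ∀ i, (Fin (n i) × Fin (n i) → K i)

/-- The family of the products `hh (J i) (c i)`. -/
noncomputable def hG (J : ∀ i, Finset (Fin (n i) × Fin (n i))) (c : Par n K) : GG n K :=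
  fun i => hh (J i) (c i)

end

end Pool.Agent.Work.MP_67388f_an.EM
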