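import Pool.Agent.Work.MP_67388f_an.EM.CoDefs

/-!
# CoP (size M): products of non-concentrating measures

## Proof
For each `i` let `ν i, θ i, C i` be from `NIProp (K i)` with `ι = Fin (n i) × Fin (n i)`;
`ν = Measure.pi ν` on `Par n K` (with the product of the Borel σ-algebras, which is the Borel
σ-algebra: `Pi.borelSpace`, second countability from `ProperSpace`), `θ = min θ i` (or 1 if `I` is
empty), `C = ∏ C i`. Boxes `{c | ∀ i, ‖c i‖ ≤ ρ}` are products of balls (`Measure.pi_pi`). Let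
`ψ i` be near the identity on the ball `B i` of radius `ρ`, and
`ψ' i x = ψ i x` for `x ∈ B i`, `0` otherwise: it is measurable, since `ψ i` is continuous on the
closed set `B i` (`NearId` gives a Lipschitz bound there). `ni` says
`((ν i).restrict (B i)).map (ψ' i) ≤ C i • ν i` (`Measure.le_iff`, `Measure.map_apply`,
`restrict_apply`). By `Measure.pi_map_pi` the image of `Measure.pi ((ν i).restrict (B i))` (equal to
`(Measure.pi ν).restrict (box)`: `Measure.restrict_pi_pi`) under `c ↦ (ψ' i (c i))_i` is the product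
of the images, at most `Measure.pi (C i • ν i) = (∏ C i) • Measure.pi ν` (monotonicity of products
of measures: `Measure.pi_mono` if present, or by `Measure.pi` as an outer measure infimum, or by
densities/induction); evaluate at the measurable set `s`.
-/

set_option autoImplicit false

namespace Pool.Agent.Work.MP_67388f_an.EM

open MeasureTheory Filter Topology

private theorem CoP_le {I : Type} [Fintype I] {E : I → Type} [∀ i, MeasurableSpace (E i)]
    (μ ν : ∀ i, Measure (E i)) [∀ i, SigmaFinite (μ i)] (C : I → ENNReal) (hC : ∀ i, C i < ⊤)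
    (h : ∀ i, ∀ s : Set (E i), MeasurableSet s → μ i s ≤ C i * ν i s) (s : Set (∀ i, E i))
    (hs : MeasurableSet s) :
    Measure.pi μ s ≤ (∏ i, (C i + 1)) * Measure.pi ν s := by
  set c : ENNReal := ∏ i, (C i + 1) with hc
  have hc0 : c ≠ 0 := by
    rw [hc, Finset.prod_ne_zero_iff]
    intro i _
    simp
  have hct : c ≠ ⊤ := by
    rw [hc]
    exact (ENNReal.prod_lt_top fun i _ => ENNReal.add_lt_top.2 ⟨hC i, ENNReal.one_lt_top⟩).ne
  have hall : ∀ i, ∀ t : Set (E i), μ i t ≤ (C i + 1) * ν i t := by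
    intro i t
    have h1 : μ i ≤ (C i) • ν i := by
      rw [Measure.le_iff]
      intro t ht
      rw [Measure.smul_apply, smul_eq_mul]
      exact h i t ht
    calc μ i t ≤ (C i • ν i) t := h1 t
      _ = C i * ν i t := by rw [Measure.smul_apply, smul_eq_mul]
      _ ≤ (C i + 1) * ν i t := by gcongr; exact le_self_add
  have h1 : c⁻¹ • (Measure.pi μ).toOuterMeasure ≤
      OuterMeasure.pi fun i => (ν i).toOuterMeasure := by
    rw [OuterMeasure.le_pi]
    intro t _
    rw [OuterMeasure.smul_apply, smul_eq_mul]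
    show c⁻¹ * Measure.pi μ (Set.pi Set.univ t) ≤ ∏ i, ν i (t i)
    rw [Measure.pi_pi]
    calc c⁻¹ * ∏ i, μ i (t i) ≤ c⁻¹ * ∏ i, ((C i + 1) * ν i (t i)) := by
          gcongr with i _
          exact hall i (t i)
      _ = c⁻¹ * (c * ∏ i, ν i (t i)) := by rw [Finset.prod_mul_distrib]
      _ = ∏ i, ν i (t i) := by
          rw [← mul_assoc, ENNReal.inv_mul_cancel hc0 hct, one_mul]
  have h2 : c⁻¹ * Measure.pi μ s ≤ Measure.pi ν s := by
    have h3 := h1 s
    rw [OuterMeasure.smul_apply, smul_eq_mul] at h3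
    refine h3.trans (le_of_eq ?_)
    rw [Measure.pi, toMeasure_apply _ _ hs]
  calc Measure.pi μ s = c * (c⁻¹ * Measure.pi μ s) := by
        rw [← mul_assoc, ENNReal.mul_inv_cancel hc0 hct, one_mul]
    _ ≤ c * Measure.pi ν s := by gcongr

private theorem CoP_meas {E : Type} [NormedAddCommGroup E] [MeasurableSpace E] [BorelSpace E]
    {θ ρ : ℝ} (hθ : 0 < θ) {ψ : E → E} (h : NearId θ ρ ψ) :
    Measurable ((open Classical in
      Set.piecewise {x : E | ‖x‖ ≤ ρ} ψ (fun _ => (0 : E)))) := by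
  classical
  refine ContinuousOn.measurable_piecewise ?_ continuousOn_const
    (isClosed_le continuous_norm continuous_const).measurableSet
  have hL : LipschitzOnWith (Real.toNNReal (1 + θ)) ψ {x : E | ‖x‖ ≤ ρ} := by
    refine LipschitzOnWith.of_dist_le_mul fun x hx y hy => ?_
    rw [Real.coe_toNNReal _ (by linarith), dist_eq_norm, dist_eq_norm]
    have h1 := h x y hx hy
    calc ‖ψ x - ψ y‖ = ‖(ψ x - ψ y - (x - y)) + (x - y)‖ := by rw [sub_add_cancel]
      _ ≤ ‖ψ x - ψ y - (x - y)‖ + ‖x - y‖ := norm_add_le _ _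
      _ ≤ θ * ‖x - y‖ + ‖x - y‖ := by gcongr
      _ = (1 + θ) * ‖x - y‖ := by ring
  exact hL.continuousOn

private theorem CoP_aux {I : Type} [Fintype I] (E : I → Type) [∀ i, NormedAddCommGroup (E i)]
    [∀ i, MeasurableSpace (E i)] [∀ i, BorelSpace (E i)] (ν : ∀ i, Measure (E i))
    [∀ i, SigmaFinite (ν i)] (θ : I → ℝ) (C : I → ENNReal) (h : ∀ i, NIMeas (ν i) (θ i) (C i)) :
    ∃ (ν' : Measure (∀ i, E i)) (θ' : ℝ) (C' : ENNReal), SigmaFinite ν' ∧
      0 < θ' ∧ C' < ⊤ ∧ (∀ ρ : ℝ, ν' {c | ∀ i, ‖c i‖ ≤ ρ} < ⊤) ∧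
      (∀ ρ : ℝ, 0 < ρ → 0 < ν' {c | ∀ i, ‖c i‖ ≤ ρ}) ∧
      ∀ (ρ : ℝ) (ψ : ∀ i, E i → E i), 0 < ρ →
        (∀ i, NearId θ' ρ (ψ i)) → ∀ s : Set (∀ i, E i), MeasurableSet s →
          ν' ({c | ∀ i, ‖c i‖ ≤ ρ} ∩ (fun c i => ψ i (c i)) ⁻¹' s) ≤ C' * ν' s := by
  have hbox : ∀ ρ : ℝ, {c : ∀ i, E i | ∀ i, ‖c i‖ ≤ ρ} =
      Set.pi Set.univ fun i => {x : E i | ‖x‖ ≤ ρ} := by
    intro ρ
    ext c
    simp
  obtain ⟨θ', hθ', hθle⟩ : ∃ θ' : ℝ, 0 < θ' ∧ ∀ i, θ' ≤ θ i := by
    rcases isEmpty_or_nonempty I with hI | hI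
    · exact ⟨1, one_pos, fun i => (hI.false i).elim⟩
    · obtain ⟨i₀, hi₀⟩ := Finite.exists_min θ
      exact ⟨θ i₀, (h i₀).theta_pos, hi₀⟩
  refine ⟨Measure.pi ν, θ', ∏ i, (C i + 1), inferInstance, hθ', ?_, ?_, ?_, ?_⟩
  · exact ENNReal.prod_lt_top fun i _ => ENNReal.add_lt_top.2 ⟨(h i).C_lt, ENNReal.one_lt_top⟩
  · intro ρ
    rw [hbox, Measure.pi_pi]
    exact ENNReal.prod_lt_top fun i _ => (h i).ball_lt ρ
  · intro ρ hρ
    rw [hbox, Measure.pi_pi, pos_iff_ne_zero, Finset.prod_ne_zero_iff]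
    exact fun i _ => ((h i).ball_pos ρ hρ).ne'
  · intro ρ ψ hρ hψ s hs
    classical
    set B : ∀ i, Set (E i) := fun i => {x : E i | ‖x‖ ≤ ρ} with hB
    have hBm : ∀ i, MeasurableSet (B i) := fun i =>
      (isClosed_le continuous_norm continuous_const).measurableSet
    have hψ' : ∀ i, NearId (θ i) ρ (ψ i) := by
      intro i x y hx hy
      exact (hψ i x y hx hy).trans (mul_le_mul_of_nonneg_right (hθle i) (norm_nonneg _))
    set f : ∀ i, E i → E i := fun i => (B i).piecewise (ψ i) (fun _ => 0) with hf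
    have hfm : ∀ i, Measurable (f i) := by
      intro i
      have := CoP_meas hθ' (hψ i)
      convert this
    have hset : {c : ∀ i, E i | ∀ i, ‖c i‖ ≤ ρ} ∩ (fun c i => ψ i (c i)) ⁻¹' s =
        ((fun c i => f i (c i)) ⁻¹' s) ∩ Set.pi Set.univ B := by
      rw [hbox, Set.inter_comm]
      ext c
      simp only [Set.mem_inter_iff, Set.mem_preimage]
      refine and_congr_left fun hc => ?_
      have : (fun i => ψ i (c i)) = fun i => f i (c i) := by
        funext i
        rw [hf]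
        exact (Set.piecewise_eq_of_mem _ _ _ (hc i (Set.mem_univ i))).symm
      rw [this]
    have hFm : Measurable (fun (c : ∀ i, E i) i => f i (c i)) :=
      measurable_pi_lambda _ fun i => (hfm i).comp (measurable_pi_apply i)
    haveI hfin : ∀ i, IsFiniteMeasure ((ν i).restrict (B i)) := fun i =>
      ⟨by rw [Measure.restrict_apply_univ]; exact (h i).ball_lt ρ⟩
    rw [hset, ← Measure.restrict_apply (hFm hs), ← Measure.map_apply hFm hs,
      Measure.restrict_pi_pi, Measure.pi_map_pi fun i => (hfm i).aemeasurable]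
    refine CoP_le _ ν C (fun i => (h i).C_lt) ?_ s hs
    intro i t ht
    rw [Measure.map_apply (hfm i) ht, Measure.restrict_apply ((hfm i) ht)]
    have h1 : (f i) ⁻¹' t ∩ B i = {x | ‖x‖ ≤ ρ} ∩ (ψ i) ⁻¹' t := by
      rw [Set.inter_comm]
      ext x
      simp only [Set.mem_inter_iff, Set.mem_preimage]
      refine and_congr_right fun hx => ?_
      rw [hf]
      simp only [Set.piecewise_eq_of_mem _ _ _ hx]
    rw [h1]
    exact (h i).ni ρ (ψ i) hρ (hψ' i) t ht

theorem ni_prod {I : Type} [Fintype I] (n : I → ℕ) (K : I → Type)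
    [∀ i, NontriviallyNormedField (K i)] [∀ i, ProperSpace (K i)] (h : ∀ i, NIProp (K i)) :
    ∃ (ν : @Measure (Par n K) (borel (Par n K))) (θ : ℝ) (C : ENNReal), SigmaFinite ν ∧
      0 < θ ∧ C < ⊤ ∧ (∀ ρ : ℝ, ν {c | ∀ i, ‖c i‖ ≤ ρ} < ⊤) ∧
      (∀ ρ : ℝ, 0 < ρ → 0 < ν {c | ∀ i, ‖c i‖ ≤ ρ}) ∧
      ∀ (ρ : ℝ) (ψ : ∀ i, (Fin (n i) × Fin (n i) → K i) → (Fin (n i) × Fin (n i) → K i)), 0 < ρ →
        (∀ i, NearId θ ρ (ψ i)) → ∀ s : Set (Par n K), @MeasurableSet _ (borel (Par n K)) s →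
          ν ({c | ∀ i, ‖c i‖ ≤ ρ} ∩ (fun c i => ψ i (c i)) ⁻¹' s) ≤ C * ν s := by
  letI : ∀ i, MeasurableSpace (Fin (n i) × Fin (n i) → K i) := fun i => borel _
  haveI : ∀ i, BorelSpace (Fin (n i) × Fin (n i) → K i) := fun i => ⟨rfl⟩
  choose ν θ C hσ hν using fun i => h i (Fin (n i) × Fin (n i))
  haveI := hσ
  have hb : (MeasurableSpace.pi : MeasurableSpace (Par n K)) = borel (Par n K) :=
    BorelSpace.measurable_eq
  rw [← hb]
  exact CoP_aux (fun i => Fin (n i) × Fin (n i) → K i) ν θ C hν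

end Pool.Agent.Work.MP_67388f_an.EM
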