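import Pool.Agent.Work.MP_67388f_an.EM.Base

/-!
# Basic lemmas on the diagonal elements, elementary matrices, `Near`, `len`, `act`, `Fix`

All statements are routine.
-/

set_option autoImplicit false

namespace Pool.Agent.Work.MP_67388f_an.EM

open MeasureTheory Filter Topology Matrix

section lat

variable {I : Type} {n : I → ℕ}

theorem rv_add (φ : Rt n) (k k' : Lat n) : rv φ (k + k') = rv φ k + rv φ k' := by
  simp only [rv, AddSubgroup.coe_add, Pi.add_apply]
  ring

theorem rv_neg (φ : Rt n) (k : Lat n) : rv φ (-k) = -rv φ k := by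
  simp only [rv, NegMemClass.coe_neg, Pi.neg_apply]
  ring

theorem rv_zsmul (φ : Rt n) (m : ℤ) (k : Lat n) : rv φ (m • k) = m * rv φ k := by
  simp only [rv, AddSubgroupClass.coe_zsmul, Pi.smul_apply, smul_eq_mul]
  ring

variable [Fintype I]

theorem len_nonneg (k : Lat n) : 0 ≤ len k :=
  Finset.sum_nonneg fun _ _ => Finset.sum_nonneg fun _ _ => abs_nonneg _

theorem len_zero : len (0 : Lat n) = 0 := by
  simp [len]

theorem len_neg (k : Lat n) : len (-k) = len k := by
  simp [len]

theorem len_add_le (k k' : Lat n) : len (k + k') ≤ len k + len k' := by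
  unfold len
  rw [← Finset.sum_add_distrib]
  refine Finset.sum_le_sum fun i _ => ?_
  rw [← Finset.sum_add_distrib]
  refine Finset.sum_le_sum fun j _ => ?_
  have : (((k + k' : Lat n).1 i j : ℤ) : ℝ) = (k.1 i j : ℝ) + (k'.1 i j : ℝ) := by
    simp
  rw [this]
  exact abs_add_le _ _

theorem len_sub_le (k k' : Lat n) : len (k - k') ≤ len k + len k' := by
  rw [sub_eq_add_neg, ← len_neg k']
  exact len_add_le k (-k')

theorem len_zsmul (m : ℤ) (k : Lat n) : len (m • k) = |(m : ℝ)| * len k := by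
  unfold len
  rw [Finset.mul_sum]
  refine Finset.sum_congr rfl fun i _ => ?_
  rw [Finset.mul_sum]
  refine Finset.sum_congr rfl fun j _ => ?_
  have : (((m • k : Lat n).1 i j : ℤ) : ℝ) = (m : ℝ) * (k.1 i j : ℝ) := by
    simp
  rw [this, abs_mul]

theorem len_nsmul (m : ℕ) (k : Lat n) : len (m • k) = (m : ℝ) * len k := by
  have h := len_zsmul (m : ℤ) k
  rw [natCast_zsmul] at h
  rw [h]
  simp

theorem abs_entry_le_len (k : Lat n) (i : I) (j : Fin (n i)) : |(k.1 i j : ℝ)| ≤ len k := by
  unfold len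
  refine le_trans ?_ (Finset.single_le_sum
    (f := fun i => ∑ j, |(k.1 i j : ℝ)|) (fun i _ => Finset.sum_nonneg fun _ _ => abs_nonneg _)
    (Finset.mem_univ i))
  exact Finset.single_le_sum (f := fun j => |(k.1 i j : ℝ)|) (fun _ _ => abs_nonneg _)
    (Finset.mem_univ j)

theorem one_le_len {k : Lat n} (hk : k ≠ 0) : 1 ≤ len k := by
  have : ∃ i j, k.1 i j ≠ 0 := by
    by_contra h
    push Not at h
    apply hk
    ext i j
    exact h i j
  obtain ⟨i, j, hij⟩ := this
  refine le_trans ?_ (abs_entry_le_len k i j)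
  have h1 : (1 : ℤ) ≤ |k.1 i j| := Int.one_le_abs hij
  have h2 : ((1 : ℤ) : ℝ) ≤ ((|k.1 i j| : ℤ) : ℝ) := by exact_mod_cast h1
  simpa using h2

theorem abs_rv_le_len (φ : Rt n) (k : Lat n) : |(rv φ k : ℝ)| ≤ len k := by
  classical
  obtain ⟨i, j, l⟩ := φ
  by_cases hjl : j = l
  · subst hjl
    simp only [rv, sub_self, Int.cast_zero, abs_zero]
    exact len_nonneg k
  · have h1 : ((rv (⟨i, (j, l)⟩ : Rt n) k : ℤ) : ℝ) = (k.1 i j : ℝ) - (k.1 i l : ℝ) := by
      simp [rv]
    rw [h1]
    refine le_trans (abs_sub _ _) ?_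
    unfold len
    refine le_trans ?_ (Finset.single_le_sum
      (f := fun i => ∑ j, |(k.1 i j : ℝ)|) (fun i _ => Finset.sum_nonneg fun _ _ => abs_nonneg _)
      (Finset.mem_univ i))
    rw [← Finset.sum_pair (f := fun j => |(k.1 i j : ℝ)|) hjl]
    exact Finset.sum_le_sum_of_subset_of_nonneg (Finset.subset_univ _) fun _ _ _ => abs_nonneg _

end lat

section group

variable {I : Type} {n : I → ℕ} {K : I → Type} [∀ i, NontriviallyNormedField (K i)]

theorem gg_mul_val (g g' : GG n K) (i : I) : ((g * g') i).1 = (g i).1 * (g' i).1 := rfl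

theorem gg_one_val (i : I) : ((1 : GG n K) i).1 = 1 := rfl

theorem gg_ext {g g' : GG n K} (h : ∀ i j l, (g i).1 j l = (g' i).1 j l) : g = g' := by
  funext i
  apply Subtype.ext
  funext j l
  exact h i j l

theorem dg_apply (π : ∀ i, (K i)ˣ) (k : Lat n) (i : I) :
    (dg π k i).1 = diagonal fun j => ((π i ^ k.1 i j : (K i)ˣ) : K i) := rfl

theorem dg_zero (π : ∀ i, (K i)ˣ) : dg π (0 : Lat n) = 1 := by
  refine gg_ext fun i j l => ?_
  rw [dg_apply, gg_one_val]
  simp [Matrix.diagonal_one]

theorem dg_add (π : ∀ i, (K i)ˣ) (k k' : Lat n) : dg π (k + k') = dg π k * dg π k' := by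
  refine gg_ext fun i j l => ?_
  rw [gg_mul_val, dg_apply, dg_apply, dg_apply, Matrix.diagonal_mul_diagonal]
  congr 2
  funext j
  rw [AddSubgroup.coe_add, Pi.add_apply, Pi.add_apply, _root_.zpow_add, Units.val_mul]

theorem dg_neg (π : ∀ i, (K i)ˣ) (k : Lat n) : dg π (-k) = (dg π k)⁻¹ := by
  apply eq_inv_of_mul_eq_one_left
  rw [← dg_add, neg_add_cancel, dg_zero]

/-- entries of a conjugate -/
theorem conj_apply (π : ∀ i, (K i)ˣ) (k : Lat n) (g : GG n K) (i : I) (j l : Fin (n i)) :
    ((dg π k * g * (dg π k)⁻¹) i).1 j l =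
      ((π i ^ (k.1 i j - k.1 i l) : (K i)ˣ) : K i) * (g i).1 j l := by
  rw [← dg_neg, gg_mul_val, gg_mul_val, dg_apply, dg_apply, Matrix.mul_diagonal,
    Matrix.diagonal_mul, NegMemClass.coe_neg, Pi.neg_apply, Pi.neg_apply, sub_eq_add_neg,
    _root_.zpow_add, Units.val_mul]
  ring

theorem tv_zero (φ : Rt n) : tv φ (0 : K φ.1) = 1 := by
  classical
  unfold tv
  split_ifs with h
  · rw [SpecialLinearGroup.transvection_coeff_zero, Pi.mulSingle_one]
  · rfl

theorem tv_add (φ : Rt n) (c c' : K φ.1) : tv φ (c + c') = tv φ c * tv φ c' := by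
  classical
  unfold tv
  split_ifs with h
  · rw [SpecialLinearGroup.transvection_add, Pi.mulSingle_mul]
  · rw [one_mul]

theorem tv_neg (φ : Rt n) (c : K φ.1) : tv φ (-c) = (tv φ c)⁻¹ := by
  apply eq_inv_of_mul_eq_one_left
  rw [← tv_add, neg_add_cancel, tv_zero]

theorem tv_apply_same {φ : Rt n} (hφ : Off φ) (c : K φ.1) :
    (tv φ c φ.1).1 = 1 + Matrix.single φ.2.1 φ.2.2 c := by
  classical
  have h1 : tv φ c φ.1 = SpecialLinearGroup.transvection hφ c := by
    unfold tv
    rw [dif_pos (show φ.2.1 ≠ φ.2.2 from hφ), Pi.mulSingle_eq_same]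
  rw [h1]
  exact SpecialLinearGroup.transvection_coe _ _

theorem tv_apply_ne (φ : Rt n) (c : K φ.1) {i : I} (hi : i ≠ φ.1) : tv φ c i = 1 := by
  classical
  unfold tv
  split_ifs with h
  · exact Pi.mulSingle_eq_of_ne hi _
  · rfl

theorem tv_of_not_off {φ : Rt n} (hφ : ¬ Off φ) (c : K φ.1) : tv φ c = 1 := by
  classical
  unfold tv
  rw [dif_neg]
  exact hφ

theorem conj_tv (π : ∀ i, (K i)ˣ) (k : Lat n) (φ : Rt n) (c : K φ.1) :
    dg π k * tv φ c * (dg π k)⁻¹ = tv φ (((π φ.1 ^ rv φ k : (K φ.1)ˣ) : K φ.1) * c) := by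
  classical
  by_cases hφ : Off φ
  · refine gg_ext fun i j l => ?_
    rw [conj_apply]
    by_cases hi : i = φ.1
    · subst hi
      rw [tv_apply_same hφ, tv_apply_same hφ]
      simp only [Matrix.add_apply, Matrix.single_apply, Matrix.one_apply]
      by_cases h1 : φ.2.1 = j ∧ φ.2.2 = l
      · obtain ⟨rfl, rfl⟩ := h1
        have h2 : ¬ φ.2.1 = φ.2.2 := hφ
        simp only [h2, if_false, and_self, if_true, zero_add]
        rfl
      · rw [if_neg h1, if_neg h1, add_zero]
        by_cases h3 : j = l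
        · subst h3
          simp
        · simp [h3]
    · rw [tv_apply_ne φ c hi, tv_apply_ne φ _ hi]
      change _ * (1 : Matrix (Fin (n i)) (Fin (n i)) (K i)) j l =
        (1 : Matrix (Fin (n i)) (Fin (n i)) (K i)) j l
      rw [Matrix.one_apply]
      by_cases h3 : j = l
      · subst h3
        simp
      · simp [h3]
  · rw [tv_of_not_off hφ, tv_of_not_off hφ, mul_one, mul_inv_cancel]

theorem continuous_tv (φ : Rt n) : Continuous fun c : K φ.1 => tv φ c := by
  classical
  by_cases hφ : Off φ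
  · refine continuous_pi fun i => ?_
    by_cases hi : i = φ.1
    · subst hi
      refine Continuous.subtype_mk (f := fun c : K φ.1 => (tv φ c φ.1).1) ?_ _
      have : (fun c : K φ.1 => (tv φ c φ.1).1) =
          fun c => (1 : Matrix (Fin (n φ.1)) (Fin (n φ.1)) (K φ.1)) +
            Matrix.single φ.2.1 φ.2.2 c := by
        funext c
        exact tv_apply_same hφ c
      rw [this]
      refine continuous_const.add ?_
      refine continuous_matrix fun j l => ?_
      simp only [Matrix.single_apply]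
      split_ifs
      · exact continuous_id
      · exact continuous_const
    · have : (fun c : K φ.1 => tv φ c i) = fun _ => 1 := by
        funext c
        exact tv_apply_ne φ c hi
      rw [this]
      exact continuous_const
  · have : (fun c : K φ.1 => tv φ c) = fun _ => 1 := by
      funext c
      exact tv_of_not_off hφ c
    rw [this]
    exact continuous_const

theorem near_mono {g : GG n K} {ε ε' : ℝ} (h : Near g ε) (hε : ε ≤ ε') : Near g ε' :=
  fun i j l => (h i j l).trans hε

theorem near_one {ε : ℝ} (hε : 0 ≤ ε) : Near (1 : GG n K) ε := by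
  intro i j l
  simp [hε]

theorem near_tv (φ : Rt n) (c : K φ.1) {ε : ℝ} (h : ‖c‖ ≤ ε) : Near (tv φ c) ε := by
  classical
  have hε : 0 ≤ ε := (norm_nonneg c).trans h
  by_cases hφ : Off φ
  · intro i j l
    by_cases hi : i = φ.1
    · subst hi
      rw [tv_apply_same hφ]
      simp only [Matrix.add_apply, Matrix.single_apply, add_sub_cancel_left]
      split_ifs
      · exact h
      · simpa using hε
    · rw [tv_apply_ne φ c hi]
      simp [hε]
  · rw [tv_of_not_off hφ]
    exact near_one hε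

theorem near_mul {g g' : GG n K} {ε ε' : ℝ} {N : ℕ} (hN : ∀ i, n i ≤ N) (h : Near g ε)
    (h' : Near g' ε') (hε : 0 ≤ ε) (hε' : 0 ≤ ε') : Near (g * g') (ε + ε' + N * ε * ε') := by
  intro i j l
  have h1 : ((g * g') i).1 - 1 = ((g i).1 - 1) + ((g' i).1 - 1) + ((g i).1 - 1) * ((g' i).1 - 1) := by
    rw [gg_mul_val]
    noncomm_ring
  have h2 : ((g * g') i).1 j l - (1 : Matrix (Fin (n i)) (Fin (n i)) (K i)) j l =
      ((g i).1 j l - (1 : Matrix (Fin (n i)) (Fin (n i)) (K i)) j l) +
      ((g' i).1 j l - (1 : Matrix (Fin (n i)) (Fin (n i)) (K i)) j l) +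
      ∑ m, ((g i).1 j m - (1 : Matrix (Fin (n i)) (Fin (n i)) (K i)) j m) *
        ((g' i).1 m l - (1 : Matrix (Fin (n i)) (Fin (n i)) (K i)) m l) := by
    have h3 := congrFun (congrFun h1 j) l
    simp only [Matrix.sub_apply, Matrix.add_apply, Matrix.mul_apply] at h3
    exact h3
  rw [h2]
  refine (norm_add_le _ _).trans (add_le_add ((norm_add_le _ _).trans
    (add_le_add (h i j l) (h' i j l))) ?_)
  refine (norm_sum_le _ _).trans ?_
  have h4 : ∀ m ∈ (Finset.univ : Finset (Fin (n i))),
      ‖((g i).1 j m - (1 : Matrix (Fin (n i)) (Fin (n i)) (K i)) j m) *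
        ((g' i).1 m l - (1 : Matrix (Fin (n i)) (Fin (n i)) (K i)) m l)‖ ≤ ε * ε' := by
    intro m _
    rw [norm_mul]
    exact mul_le_mul (h i j m) (h' i m l) (norm_nonneg _) hε
  refine (Finset.sum_le_sum h4).trans ?_
  rw [Finset.sum_const, Finset.card_univ, Fintype.card_fin, nsmul_eq_mul, mul_assoc]
  exact mul_le_mul_of_nonneg_right (by exact_mod_cast hN i) (mul_nonneg hε hε')

theorem near_conj (π : ∀ i, (K i)ˣ) (hπ : ∀ i, 1 < ‖(π i : K i)‖) [Fintype I] (k : Lat n)
    {g : GG n K} {ε : ℝ} (hε : 0 ≤ ε) (h : Near g ε) :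
    Near (dg π k * g * (dg π k)⁻¹)
      (ε * Real.exp ((∑ i, Real.log ‖(π i : K i)‖) * len k)) := by
  classical
  intro i j l
  have hlog : ∀ i, 0 < Real.log ‖(π i : K i)‖ := fun i => Real.log_pos (hπ i)
  have hsum : 0 ≤ ∑ i, Real.log ‖(π i : K i)‖ := Finset.sum_nonneg fun i _ => (hlog i).le
  have hexp : 1 ≤ Real.exp ((∑ i, Real.log ‖(π i : K i)‖) * len k) :=
    Real.one_le_exp (mul_nonneg hsum (len_nonneg k))
  rw [conj_apply]
  by_cases hjl : j = l
  · subst hjl
    rw [sub_self, _root_.zpow_zero, Units.val_one, one_mul]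
    exact (h i j j).trans (le_mul_of_one_le_right hε hexp)
  · have h1 : (1 : Matrix (Fin (n i)) (Fin (n i)) (K i)) j l = 0 := Matrix.one_apply_ne hjl
    have h2 := h i j l
    rw [h1, sub_zero] at h2 ⊢
    rw [norm_mul, mul_comm ε]
    refine mul_le_mul ?_ h2 (norm_nonneg _) (Real.exp_pos _).le
    have hpos : 0 < ‖(π i : K i)‖ := lt_trans one_pos (hπ i)
    rw [Units.val_zpow_eq_zpow_val, norm_zpow, ← Real.rpow_intCast, Real.rpow_def_of_pos hpos]
    refine Real.exp_le_exp.2 ?_
    have h3 : (((k.1 i j - k.1 i l : ℤ) : ℝ)) ≤ len k :=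
      (le_abs_self _).trans (abs_rv_le_len (⟨i, (j, l)⟩ : Rt n) k)
    refine (mul_le_mul_of_nonneg_left h3 (hlog i).le).trans ?_
    exact mul_le_mul_of_nonneg_right (Finset.single_le_sum (f := fun i => Real.log ‖(π i : K i)‖)
      (fun i _ => (hlog i).le) (Finset.mem_univ i)) (len_nonneg k)

variable [Fintype I]

theorem continuous_entry (i : I) (j l : Fin (n i)) : Continuous fun g : GG n K => (g i).1 j l := by
  have h1 : Continuous fun g : GG n K => (g i).1 := continuous_subtype_val.comp (continuous_apply i)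
  exact h1.matrix_elem j l

/-- the sets of elements `Near` to `1` are a basis of neighbourhoods of `1` -/
theorem hasBasis_near :
    (𝓝 (1 : GG n K)).HasBasis (fun ε : ℝ => 0 < ε) (fun ε => {g | Near g ε}) := by
  classical
  constructor
  intro t
  constructor
  · intro ht
    -- the embedding into functions
    let E : GG n K → (∀ i, Fin (n i) → Fin (n i) → K i) := fun g i j l => (g i).1 j l
    have hind : Topology.IsInducing E := by
      have h1 : ∀ i, Topology.IsInducing
          (fun g : SpecialLinearGroup (Fin (n i)) (K i) => fun j l => g.1 j l) := by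
        intro i
        exact Topology.IsInducing.subtypeVal
      exact Topology.IsInducing.piMap h1
    rw [hind.nhds_eq_comap, Filter.mem_comap] at ht
    obtain ⟨u, hu, hut⟩ := ht
    obtain ⟨ε, hε, hεu⟩ := Metric.mem_nhds_iff.1 hu
    refine ⟨ε / 2, half_pos hε, fun g hg => hut (hεu ?_)⟩
    rw [Metric.mem_ball]
    refine lt_of_le_of_lt ?_ (half_lt_self hε)
    rw [dist_pi_le_iff (half_pos hε).le]
    intro i
    rw [dist_pi_le_iff (half_pos hε).le]
    intro j
    rw [dist_pi_le_iff (half_pos hε).le]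
    intro l
    rw [dist_eq_norm]
    exact hg i j l
  · rintro ⟨ε, hε, hεt⟩
    refine Filter.mem_of_superset ?_ hεt
    have h1 : ∀ i j l, ∀ᶠ g : GG n K in 𝓝 1,
        ‖(g i).1 j l - (1 : Matrix (Fin (n i)) (Fin (n i)) (K i)) j l‖ ≤ ε := by
      intro i j l
      have h2 : Continuous fun g : GG n K =>
          ‖(g i).1 j l - (1 : Matrix (Fin (n i)) (Fin (n i)) (K i)) j l‖ :=
        ((continuous_entry i j l).sub continuous_const).norm
      have h3 := h2.tendsto (1 : GG n K)
      have h4 : ‖((1 : GG n K) i).1 j l - (1 : Matrix (Fin (n i)) (Fin (n i)) (K i)) j l‖ = 0 := by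
        rw [gg_one_val, sub_self, norm_zero]
      rw [h4] at h3
      exact (h3.eventually (gt_mem_nhds hε)).mono fun g hg => hg.le
    have h5 : ∀ᶠ g : GG n K in 𝓝 1, ∀ i j l,
        ‖(g i).1 j l - (1 : Matrix (Fin (n i)) (Fin (n i)) (K i)) j l‖ ≤ ε :=
      Filter.eventually_all.2 fun i => Filter.eventually_all.2 fun j =>
        Filter.eventually_all.2 fun l => h1 i j l
    exact h5

theorem isClosed_near (ε : ℝ) : IsClosed {g : GG n K | Near g ε} := by
  have : {g : GG n K | Near g ε} = ⋂ i, ⋂ j, ⋂ l, {g : GG n K |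
      ‖(g i).1 j l - (1 : Matrix (Fin (n i)) (Fin (n i)) (K i)) j l‖ ≤ ε} := by
    ext g
    simp only [Set.mem_ofPred_eq, Set.mem_iInter]
    rfl
  rw [this]
  refine isClosed_iInter fun i => isClosed_iInter fun j => isClosed_iInter fun l => ?_
  exact isClosed_le ((continuous_entry i j l).sub continuous_const).norm continuous_const

theorem isClosedEmbedding_entries :
    Topology.IsClosedEmbedding
      (fun (g : GG n K) (i : I) => ((g i).1 : Matrix (Fin (n i)) (Fin (n i)) (K i))) := by
  have h1 : ∀ i, Topology.IsClosedEmbedding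
      (fun g : SpecialLinearGroup (Fin (n i)) (K i) => (g.1 : Matrix (Fin (n i)) (Fin (n i)) (K i))) := by
    intro i
    refine Topology.IsClosedEmbedding.mk Topology.IsEmbedding.subtypeVal ?_
    have h2 : (Set.range fun g : SpecialLinearGroup (Fin (n i)) (K i) =>
        (g.1 : Matrix (Fin (n i)) (Fin (n i)) (K i))) = {A | A.det = 1} := by
      ext A
      constructor
      · rintro ⟨g, rfl⟩
        exact g.2
      · intro hA
        exact ⟨⟨A, hA⟩, rfl⟩
    rw [h2]
    exact isClosed_eq (Continuous.matrix_det continuous_id) continuous_const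
  constructor
  · exact Topology.IsEmbedding.piMap fun i => (h1 i).isEmbedding
  · rw [show (fun (g : GG n K) (i : I) => ((g i).1 : Matrix (Fin (n i)) (Fin (n i)) (K i))) =
        Pi.map (fun i (g : SpecialLinearGroup (Fin (n i)) (K i)) => g.1) from rfl, Set.range_piMap]
    exact isClosed_set_pi fun i _ => (h1 i).isClosed_range

theorem isCompact_near [∀ i, ProperSpace (K i)] (ε : ℝ) : IsCompact {g : GG n K | Near g ε} := by
  let B : Set (∀ i, Matrix (Fin (n i)) (Fin (n i)) (K i)) :=
    Set.pi Set.univ fun i => Set.pi Set.univ fun j => Set.pi Set.univ fun l =>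
      Metric.closedBall ((1 : Matrix (Fin (n i)) (Fin (n i)) (K i)) j l) ε
  have hB : IsCompact B := isCompact_univ_pi fun i => isCompact_univ_pi fun j =>
    isCompact_univ_pi fun l => isCompact_closedBall _ _
  have h := (isClosedEmbedding_entries (n := n) (K := K)).isCompact_preimage hB
  convert h using 1
  ext g
  constructor
  · intro hg i _ j _ l _
    rw [mem_closedBall_iff_norm]
    exact hg i j l
  · intro hg i j l
    have h2 := hg i trivial j trivial l trivial
    rw [mem_closedBall_iff_norm] at h2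
    exact h2

theorem isClosed_inPat (J : ∀ i, Finset (Fin (n i) × Fin (n i))) :
    IsClosed {g : GG n K | InPat J g} := by
  have : {g : GG n K | InPat J g} = ⋂ i, ⋂ j, ⋂ l, {g : GG n K |
      j ≠ l → (j, l) ∉ J i → (g i).1 j l = 0} := by
    ext g
    simp only [Set.mem_ofPred_eq, Set.mem_iInter]
    rfl
  rw [this]
  refine isClosed_iInter fun i => isClosed_iInter fun j => isClosed_iInter fun l => ?_
  by_cases h : j ≠ l ∧ (j, l) ∉ J i
  · have h2 : {g : GG n K | j ≠ l → (j, l) ∉ J i → (g i).1 j l = 0} =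
        {g : GG n K | (g i).1 j l = 0} := by
      ext g
      exact ⟨fun hg => hg h.1 h.2, fun hg _ _ => hg⟩
    rw [h2]
    exact isClosed_eq (continuous_entry i j l) continuous_const
  · have h2 : {g : GG n K | j ≠ l → (j, l) ∉ J i → (g i).1 j l = 0} = Set.univ := by
      ext g
      simp only [Set.mem_ofPred_eq, Set.mem_univ, iff_true]
      intro h3 h4
      exact absurd ⟨h3, h4⟩ h
    rw [h2]
    exact isClosed_univ

instance instLC [∀ i, ProperSpace (K i)] : LocallyCompactSpace (GG n K) := by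
  have : ∀ i, LocallyCompactSpace (Matrix (Fin (n i)) (Fin (n i)) (K i)) := fun i =>
    inferInstanceAs (LocallyCompactSpace (Fin (n i) → Fin (n i) → K i))
  exact (isClosedEmbedding_entries (n := n) (K := K)).locallyCompactSpace

instance instSC [∀ i, ProperSpace (K i)] : SecondCountableTopology (GG n K) := by
  have : ∀ i, SecondCountableTopology (Matrix (Fin (n i)) (Fin (n i)) (K i)) := fun i =>
    inferInstanceAs (SecondCountableTopology (Fin (n i) → Fin (n i) → K i))
  exact (isClosedEmbedding_entries (n := n) (K := K)).isEmbedding.secondCountableTopology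

end group

section action

variable {I : Type} {n : I → ℕ} {K : I → Type} [∀ i, NontriviallyNormedField (K i)]
variable (H : Type) [Group H] {X : Type} [MulAction (GG n K × H) X]

theorem act_zero (π : ∀ i, (K i)ˣ) (x : X) : act H π (0 : Lat n) x = x := by
  unfold act
  rw [dg_zero]
  exact one_smul _ x

theorem act_add (π : ∀ i, (K i)ˣ) (k k' : Lat n) (x : X) :
    act H π (k + k') x = act H π k (act H π k' x) := by
  unfold act
  rw [dg_add, smul_smul, Prod.mk_mul_mk, one_mul]

theorem act_neg_act (π : ∀ i, (K i)ˣ) (k : Lat n) (x : X) :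
    act H π (-k) (act H π k x) = x := by
  rw [← act_add, neg_add_cancel, act_zero]

theorem act_act_neg (π : ∀ i, (K i)ˣ) (k : Lat n) (x : X) :
    act H π k (act H π (-k) x) = x := by
  rw [← act_add, add_neg_cancel, act_zero]

theorem act_smul (π : ∀ i, (K i)ˣ) (k : Lat n) (g : GG n K) (h : H) (x : X) :
    act H π k ((g, h) • x) = (dg π k * g * (dg π k)⁻¹, h) • act H π k x := by
  unfold act
  rw [smul_smul, smul_smul, Prod.mk_mul_mk, Prod.mk_mul_mk, one_mul, mul_one,
    inv_mul_cancel_right]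

variable [TopologicalSpace H] [TopologicalSpace X] [ContinuousSMul (GG n K × H) X]

theorem continuous_smul_left (g : GG n K) (h : H) : Continuous fun x : X => (g, h) • x :=
  continuous_const_smul (g, h)

theorem continuous_act (π : ∀ i, (K i)ˣ) (k : Lat n) : Continuous fun x : X => act H π k x :=
  continuous_const_smul (dg π k, (1 : H))

variable [MeasurableSpace X] [BorelSpace X]

theorem measurePreserving_act {π : ∀ i, (K i)ˣ} {μ : Measure X} (hA : AInv n H π μ) (k : Lat n) :
    MeasurePreserving (act H π k : X → X) μ μ :=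
  ⟨(continuous_act H π k).measurable, hA k⟩

theorem integral_act {π : ∀ i, (K i)ˣ} {μ : Measure X} (hA : AInv n H π μ) (k : Lat n) (f : X → ℝ)
    (hf : Continuous f) : ∫ x, f (act H π k x) ∂μ = ∫ x, f x ∂μ := by
  conv_rhs => rw [← hA k]
  exact (integral_map (continuous_act H π k).measurable.aemeasurable
    hf.measurable.aestronglyMeasurable).symm

theorem fix_one (μ : Measure X) : Fix H μ (1 : GG n K) := by
  unfold Fix
  have : (fun x : X => ((1 : GG n K), (1 : H)) • x) = id := by
    funext x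
    exact one_smul _ x
  rw [this, Measure.map_id]

theorem fix_mul {μ : Measure X} {g g' : GG n K} (h : Fix H μ g) (h' : Fix H μ g') :
    Fix H μ (g * g') := by
  unfold Fix at *
  have : (fun x : X => (g * g', (1 : H)) • x) =
      (fun x : X => (g, (1 : H)) • x) ∘ fun x : X => (g', (1 : H)) • x := by
    funext x
    simp only [Function.comp_apply, smul_smul, Prod.mk_mul_mk, one_mul]
  rw [this, ← Measure.map_map (continuous_smul_left H g 1).measurable
    (continuous_smul_left H g' 1).measurable, h', h]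

theorem fix_inv {μ : Measure X} {g : GG n K} (h : Fix H μ g) : Fix H μ g⁻¹ := by
  unfold Fix at *
  conv_lhs => rw [← h]
  rw [Measure.map_map (continuous_smul_left H g⁻¹ 1).measurable
    (continuous_smul_left H g 1).measurable]
  have : ((fun x : X => (g⁻¹, (1 : H)) • x) ∘ fun x : X => (g, (1 : H)) • x) = id := by
    funext x
    simp only [Function.comp_apply, smul_smul, Prod.mk_mul_mk, one_mul, inv_mul_cancel, id]
    exact one_smul _ x
  rw [this, Measure.map_id]

theorem fix_dg {π : ∀ i, (K i)ˣ} {μ : Measure X} (hA : AInv n H π μ) (k : Lat n) :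
    Fix H μ (dg π k) := hA k

end action

section test

variable {I : Type} [Fintype I] {n : I → ℕ} {K : I → Type} [∀ i, NontriviallyNormedField (K i)]
variable (H : Type) [Group H] [TopologicalSpace H] {X : Type} [TopologicalSpace X]
  [MulAction (GG n K × H) X] [ContinuousSMul (GG n K × H) X]

theorem test_nonneg [Nonempty X] {M : ℝ} {f : X → ℝ} (hf : Test n K H M f) : 0 ≤ M := by
  obtain ⟨x⟩ := ‹Nonempty X›
  exact (abs_nonneg _).trans (hf.2.2.1 x)

theorem test_mono {M M' : ℝ} {f : X → ℝ} (hf : Test n K H M f) (h : M ≤ M') :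
    Test n K H M' f :=
  ⟨hf.1, hf.2.1, fun x => (hf.2.2.1 x).trans h, fun g ε x hε hg =>
    (hf.2.2.2 g ε x hε hg).trans (mul_le_mul_of_nonneg_right h hε)⟩

/-- the homeomorphism given by an element -/
def smulHomeo (g : GG n K) (h : H) : X ≃ₜ X where
  toFun x := (g, h) • x
  invFun x := (g, h)⁻¹ • x
  left_inv x := inv_smul_smul _ x
  right_inv x := smul_inv_smul _ x
  continuous_toFun := continuous_const_smul (g, h)
  continuous_invFun := continuous_const_smul (g, h)⁻¹

theorem hasCompactSupport_smul {f : X → ℝ} (hf : HasCompactSupport f) (g : GG n K) (h : H) :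
    HasCompactSupport fun x => f ((g, h) • x) :=
  hf.comp_homeomorph (smulHomeo H g h)

theorem near_conj_u (u : GG n K) : ∃ C : ℝ, 0 ≤ C ∧ ∀ (g : GG n K) (ε : ℝ), 0 ≤ ε → Near g ε →
    Near (u * g * u⁻¹) (C * ε) := by
  let c : I → ℝ := fun i => (∑ a, ∑ b, ‖(u i).1 a b‖) * (∑ a, ∑ b, ‖(u⁻¹ i).1 a b‖)
  have hc : ∀ i, 0 ≤ c i := fun i => mul_nonneg
    (Finset.sum_nonneg fun _ _ => Finset.sum_nonneg fun _ _ => norm_nonneg _)
    (Finset.sum_nonneg fun _ _ => Finset.sum_nonneg fun _ _ => norm_nonneg _)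
  refine ⟨∑ i, c i, Finset.sum_nonneg fun i _ => hc i, fun g ε hε hg i j l => ?_⟩
  have h0 : (u i).1 * (u⁻¹ i).1 = 1 := by
    rw [← gg_mul_val, mul_inv_cancel, gg_one_val]
  have h1 : ((u * g * u⁻¹) i).1 - 1 = (u i).1 * ((g i).1 - 1) * (u⁻¹ i).1 := by
    rw [gg_mul_val, gg_mul_val, Matrix.mul_sub, Matrix.sub_mul, Matrix.mul_one, h0]
  have h2 : ((u * g * u⁻¹) i).1 j l - (1 : Matrix (Fin (n i)) (Fin (n i)) (K i)) j l =
      ∑ b, (∑ a, (u i).1 j a *
        ((g i).1 a b - (1 : Matrix (Fin (n i)) (Fin (n i)) (K i)) a b)) * (u⁻¹ i).1 b l := by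
    have h3 := congrFun (congrFun h1 j) l
    simp only [Matrix.sub_apply, Matrix.mul_apply] at h3
    exact h3
  rw [h2]
  refine (norm_sum_le _ _).trans ?_
  have h4 : ∀ b ∈ (Finset.univ : Finset (Fin (n i))), ‖(∑ a, (u i).1 j a *
        ((g i).1 a b - (1 : Matrix (Fin (n i)) (Fin (n i)) (K i)) a b)) * (u⁻¹ i).1 b l‖ ≤
        (∑ a, ∑ b, ‖(u i).1 a b‖) * ε * ‖(u⁻¹ i).1 b l‖ := by
    intro b _
    rw [norm_mul]
    refine mul_le_mul_of_nonneg_right ?_ (norm_nonneg _)
    refine (norm_sum_le _ _).trans ?_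
    have h5 : ∀ a ∈ (Finset.univ : Finset (Fin (n i))), ‖(u i).1 j a *
        ((g i).1 a b - (1 : Matrix (Fin (n i)) (Fin (n i)) (K i)) a b)‖ ≤ ‖(u i).1 j a‖ * ε := by
      intro a _
      rw [norm_mul]
      exact mul_le_mul_of_nonneg_left (hg i a b) (norm_nonneg _)
    refine (Finset.sum_le_sum h5).trans ?_
    rw [← Finset.sum_mul]
    refine mul_le_mul_of_nonneg_right ?_ hε
    exact Finset.single_le_sum (f := fun a => ∑ b, ‖(u i).1 a b‖)
      (fun a _ => Finset.sum_nonneg fun _ _ => norm_nonneg _) (Finset.mem_univ j)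
  refine (Finset.sum_le_sum h4).trans ?_
  rw [← Finset.mul_sum]
  have h6 : ∑ b, ‖(u⁻¹ i).1 b l‖ ≤ ∑ a, ∑ b, ‖(u⁻¹ i).1 a b‖ :=
    Finset.sum_le_sum fun b _ => Finset.single_le_sum (f := fun l => ‖(u⁻¹ i).1 b l‖)
      (fun _ _ => norm_nonneg _) (Finset.mem_univ l)
  have h7 : c i ≤ ∑ i, c i := Finset.single_le_sum (f := c) (fun i _ => hc i) (Finset.mem_univ i)
  calc (∑ a, ∑ b, ‖(u i).1 a b‖) * ε * ∑ b, ‖(u⁻¹ i).1 b l‖
      ≤ (∑ a, ∑ b, ‖(u i).1 a b‖) * ε * ∑ a, ∑ b, ‖(u⁻¹ i).1 a b‖ :=
        mul_le_mul_of_nonneg_left h6 (mul_nonneg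
          (Finset.sum_nonneg fun _ _ => Finset.sum_nonneg fun _ _ => norm_nonneg _) hε)
    _ = c i * ε := by simp only [c]; ring
    _ ≤ _ := mul_le_mul_of_nonneg_right h7 hε

/-- translates of test functions are test functions -/
theorem test_smul (u : GG n K) {M : ℝ} {f : X → ℝ} (hf : Test n K H M f) :
    ∃ M', Test n K H M' (fun x => f ((u, (1 : H)) • x)) := by
  obtain ⟨C, hC, h⟩ := near_conj_u u
  have h0 : |M| ≤ |M| * (1 + C) := le_mul_of_one_le_right (abs_nonneg _) (by linarith)
  refine ⟨|M| * (1 + C), hf.1.comp (continuous_smul_left H u 1),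
    hasCompactSupport_smul H hf.2.1 u 1, fun x => ?_, fun g ε x hε hg => ?_⟩
  · exact (hf.2.2.1 _).trans ((le_abs_self M).trans h0)
  · have h1 : (u, (1 : H)) • (g, (1 : H)) • x = (u * g * u⁻¹, (1 : H)) • (u, (1 : H)) • x := by
      rw [smul_smul, smul_smul, Prod.mk_mul_mk, Prod.mk_mul_mk, inv_mul_cancel_right]
    change |f ((u, (1 : H)) • (g, (1 : H)) • x) - f ((u, (1 : H)) • x)| ≤ _
    rw [h1]
    refine (hf.2.2.2 _ _ _ (mul_nonneg hC hε) (h g ε hε hg)).trans ?_
    rw [← mul_assoc]
    refine mul_le_mul_of_nonneg_right ?_ hε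
    calc M * C ≤ |M| * C := mul_le_mul_of_nonneg_right (le_abs_self M) hC
      _ ≤ |M| * (1 + C) := mul_le_mul_of_nonneg_left (by linarith) (abs_nonneg _)

/-- continuous functions of compact support are uniformly continuous along the action -/
theorem unif_cont [IsTopologicalGroup H] {f : X → ℝ} (hf : Continuous f)
    (hc : HasCompactSupport f) {ε : ℝ} (hε : 0 < ε) :
    ∃ δ > 0, ∃ N ∈ 𝓝 (1 : H), ∀ (g : GG n K) (h : H) (x : X), Near g δ → h ∈ N →
      |f ((g, h) • x) - f x| ≤ ε := by
  have h1 : ∀ᶠ u : GG n K × H in 𝓝 1, ∀ x ∈ tsupport f, |f (u • x) - f x| ≤ ε := by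
    refine IsCompact.eventually_forall_of_forall_eventually hc fun x _ => ?_
    have h2 : Continuous fun z : (GG n K × H) × X => |f (z.1 • z.2) - f z.2| :=
      ((hf.comp continuous_smul).sub (hf.comp continuous_snd)).abs
    have h3 := h2.tendsto ((1 : GG n K × H), x)
    rw [one_smul, sub_self, abs_zero] at h3
    exact (h3.eventually (gt_mem_nhds hε)).mono fun z hz => hz.le
  have h4 : ∀ᶠ u : GG n K × H in 𝓝 1, ∀ x ∈ tsupport f, |f (u⁻¹ • x) - f x| ≤ ε := by
    have h5 : Tendsto (fun u : GG n K × H => u⁻¹) (𝓝 1) (𝓝 1) := by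
      have := (continuous_inv (G := GG n K × H)).tendsto 1
      rwa [inv_one] at this
    exact h5.eventually h1
  have h6 : ∀ᶠ u : GG n K × H in 𝓝 1, ∀ x, |f (u • x) - f x| ≤ ε := by
    filter_upwards [h1, h4] with u hu hu' x
    by_cases hx : x ∈ tsupport f
    · exact hu x hx
    · by_cases hux : u • x ∈ tsupport f
      · have := hu' _ hux
        rw [inv_smul_smul, abs_sub_comm] at this
        exact this
      · rw [image_eq_zero_of_notMem_tsupport hx, image_eq_zero_of_notMem_tsupport hux, sub_self,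
          abs_zero]
        exact hε.le
  rw [show (1 : GG n K × H) = ((1 : GG n K), (1 : H)) from rfl, nhds_prod_eq] at h6
  obtain ⟨s, hs, N, hN, hsN⟩ := Filter.mem_prod_iff.1 h6
  obtain ⟨δ, hδ, hδs⟩ := hasBasis_near.mem_iff.1 hs
  exact ⟨δ, hδ, N, hN, fun g h x hg hh => hsN (Set.mk_mem_prod (hδs hg) hh) x⟩

end test

end Pool.Agent.Work.MP_67388f_an.EM
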