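import Pool.Agent.Work.MP_67388f_an.EM.CoL
import Pool.Agent.Work.MP_67388f_an.EM.CoP
import Pool.Agent.Work.MP_67388f_an.EM.Lem

/-!
# CoF (size M-L): pairs of typical points whose displacement has no entries in the pattern

## Proof
Facts on `hG J c` (`fix_hG`, `continuous_hG`, `inPat_mul`, `inPat_hG`): it is a product of the
elementary matrices `tv ⟨i, φ⟩ (c i φ)`, `φ ∈ J i` (at the different places simultaneously), so it
preserves `μ` (`fix_mul`; write an element of `GG n K` as product over the places, e.g. via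
`Finset.noncommProd_mulSingle` or by induction over a finset of places); it is continuous in `c`;
`InPat` is closed under products by transitivity of `J` (entry `(j,l)` of `g g'`:
`∑_m g_jm g'_ml`, a nonzero term has `j = m` or `(j,m) ∈ J`, and `m = l` or `(m,l) ∈ J`) and the
elements `hG J c`, `(hG J c)⁻¹` are in the pattern.

`corrected_pair` : Let `ν, θ, C` be from `ni_prod`, `ρ₁ i` from `corr_place` for `J i, θ`, `ρ > 0` at
most all `ρ₁ i`; `B₁, B₂` the boxes of radius `ρ, 2 ρ`, `V₁ = ν B₁ ∈ (0, ∞)`, `V₂ = ν B₂ < ∞`,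
`β = V₁ / (2 (1 + C))`, and `εG > 0` with `V₂ εG ≤ β / 2`. Let `μ.real Gᶜ ≤ εG`. For `x ∈ X` let
`bad x = ν {c ∈ B₂ | (hG J c, 1) • x ∉ G}`; it is measurable in `x` (the map
`(x, c) ↦ (hG J c, 1) • x` is continuous; the Borel σ-algebra of `X × Par n K` is the product
σ-algebra; `measurable_measure_prodMk_left`), and by Tonelli
`∫⁻ bad x ∂μ = ∫⁻_{c ∈ B₂} μ {x | (hG J c, 1) • x ∉ G} ∂ν = V₂ μ Gᶜ ≤ β / 2`, as `hG J c` preserves
`μ`. So `G' = {x | bad x < β}` has `μ G'ᶜ ≤ 1/2`, `μ G' ≠ 0`.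
Given `ε > 0` let `δ` be the minimum of the `δ i` from `corr_place` for `ρ` and `ε i = min ε ρ`. Let
`x ∈ G'`, `Near g δ`, `y = (g, h) • x ∈ G'`, and `ψ i` from `corr_place` for `g i`;
`ψ c = (ψ i (c i))_i` maps `B₁` to `B₂`. The set of `c ∈ B₁` with `(hG J c, 1) • x ∉ G` has
`ν`-measure `< β`, and the set of `c ∈ B₁` with `ψ c ∈ {c' ∈ B₂ | (hG J c', 1) • y ∉ G}` has
measure at most `C β`; as `β + C β < V₁` there is `c ∈ B₁` in neither. Put
`x₁ = (hG J c, 1) • x ∈ G`, `g₁ = hG J (ψ c) * g * (hG J c)⁻¹`. Then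
`(g₁, h) • x₁ = (hG J (ψ c), 1) • y ∈ G`, `OffPat J g₁`, `Near g₁ ε` by `corr_place`, and
`g = (hG J (ψ c))⁻¹ * g₁ * hG J c`, so `InPat J g₁` implies `InPat J g`.
-/

set_option autoImplicit false

namespace Pool.Agent.Work.MP_67388f_an.EM

open MeasureTheory Filter Topology

section

variable {I : Type} {n : I → ℕ} {K : I → Type} [∀ i, NontriviallyNormedField (K i)]

theorem inPat_mul {J : ∀ i, Finset (Fin (n i) × Fin (n i))}
    (htrans : ∀ i j m l, (j, m) ∈ J i → (m, l) ∈ J i → j ≠ l → (j, l) ∈ J i)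
    {g g' : GG n K} (h : InPat J g) (h' : InPat J g') : InPat J (g * g') := by
  intro i j l hjl hJ
  show ((g i).1 * (g' i).1) j l = 0
  rw [Matrix.mul_apply]
  refine Finset.sum_eq_zero fun m _ => ?_
  by_cases h1 : j = m
  · subst h1
    rw [h' i j l hjl hJ, mul_zero]
  · by_cases h2 : (j, m) ∈ J i
    · by_cases h3 : m = l
      · subst h3
        exact absurd h2 hJ
      · have h4 : (m, l) ∉ J i := fun h4 => hJ (htrans i j m l h2 h4 hjl)
        rw [h' i m l h3 h4, mul_zero]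
    · rw [h i j m h1 h2, zero_mul]

private def patM {F : Type} [Field F] {m : ℕ} (J : Finset (Fin m × Fin m)) :
    Set (Matrix.SpecialLinearGroup (Fin m) F) :=
  {g | ∀ j l, j ≠ l → (j, l) ∉ J → g.1 j l = 0}

private theorem patM_one {F : Type} [Field F] {m : ℕ} (J : Finset (Fin m × Fin m)) :
    (1 : Matrix.SpecialLinearGroup (Fin m) F) ∈ patM J := by
  intro j l hjl _
  show (1 : Matrix (Fin m) (Fin m) F) j l = 0
  rw [Matrix.one_apply_ne hjl]

private theorem patM_mul {F : Type} [Field F] {m : ℕ} {J : Finset (Fin m × Fin m)}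
    (htrans : ∀ j m l, (j, m) ∈ J → (m, l) ∈ J → j ≠ l → (j, l) ∈ J)
    {g g' : Matrix.SpecialLinearGroup (Fin m) F} (h : g ∈ patM J) (h' : g' ∈ patM J) :
    g * g' ∈ patM J := by
  intro j l hjl hJ
  show (g.1 * g'.1) j l = 0
  rw [Matrix.mul_apply]
  refine Finset.sum_eq_zero fun m _ => ?_
  by_cases h1 : j = m
  · subst h1
    rw [h' j l hjl hJ, mul_zero]
  · by_cases h2 : (j, m) ∈ J
    · by_cases h3 : m = l
      · subst h3
        exact absurd h2 hJ
      · have h4 : (m, l) ∉ J := fun h4 => hJ (htrans j m l h2 h4 hjl)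
        rw [h' m l h3 h4, mul_zero]
    · rw [h j m h1 h2, zero_mul]

private theorem tvM_inv {F : Type} [Field F] {m : ℕ} (φ : Fin m × Fin m) (c : F) :
    (tvM φ c)⁻¹ = tvM φ (-c) := by
  unfold tvM
  by_cases h : φ.1 ≠ φ.2
  · rw [dif_pos h, dif_pos h, Matrix.SpecialLinearGroup.transvection_inv]
  · rw [dif_neg h, dif_neg h, inv_one]

private theorem tvM_mem {F : Type} [Field F] {m : ℕ} {J : Finset (Fin m × Fin m)}
    {φ : Fin m × Fin m} (hφ : φ ∈ J) (c : F) : tvM φ c ∈ patM J := by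
  unfold tvM
  by_cases h : φ.1 ≠ φ.2
  · rw [dif_pos h]
    intro j l hjl hJ
    rw [Matrix.SpecialLinearGroup.transvection_coe, Matrix.add_apply, Matrix.one_apply_ne hjl,
      zero_add, Matrix.single_apply]
    apply if_neg
    rintro ⟨rfl, rfl⟩
    exact hJ hφ
  · rw [dif_neg h]
    exact patM_one J

private theorem hh_mem {F : Type} [Field F] {m : ℕ} {J : Finset (Fin m × Fin m)}
    (htrans : ∀ j m l, (j, m) ∈ J → (m, l) ∈ J → j ≠ l → (j, l) ∈ J)
    (c : Fin m × Fin m → F) : hh J c ∈ patM J ∧ (hh J c)⁻¹ ∈ patM J := by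
  have h1 : ∀ L : List (Fin m × Fin m), (∀ φ ∈ L, φ ∈ J) →
      (L.map fun φ => tvM φ (c φ)).prod ∈ patM J ∧
      ((L.map fun φ => tvM φ (c φ)).prod)⁻¹ ∈ patM J := by
    intro L
    induction L with
    | nil =>
      intro _
      simp only [List.map_nil, List.prod_nil, inv_one]
      exact ⟨patM_one J, patM_one J⟩
    | cons φ L ih =>
      intro hL
      obtain ⟨i1, i2⟩ := ih fun ψ hψ => hL ψ (List.mem_cons_of_mem _ hψ)
      have hφ := hL φ List.mem_cons_self
      rw [List.map_cons, List.prod_cons, mul_inv_rev, tvM_inv]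
      exact ⟨patM_mul htrans (tvM_mem hφ _) i1, patM_mul htrans i2 (tvM_mem hφ _)⟩
  exact h1 J.toList fun φ hφ => Finset.mem_toList.1 hφ

theorem inPat_hG {J : ∀ i, Finset (Fin (n i) × Fin (n i))}
    (htrans : ∀ i j m l, (j, m) ∈ J i → (m, l) ∈ J i → j ≠ l → (j, l) ∈ J i) (c : Par n K) :
    InPat J (hG J c) ∧ InPat J (hG J c)⁻¹ := by
  constructor
  · intro i j l hjl hJ
    exact (hh_mem (fun a b d => htrans i a b d) (c i)).1 j l hjl hJ
  · intro i j l hjl hJ
    exact (hh_mem (fun a b d => htrans i a b d) (c i)).2 j l hjl hJ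

private theorem continuous_tvM {F : Type} [NontriviallyNormedField F] {m : ℕ}
    (φ : Fin m × Fin m) : Continuous fun c : F => tvM φ c := by
  unfold tvM
  by_cases h : φ.1 ≠ φ.2
  · simp only [dif_pos h]
    apply Continuous.subtype_mk
    show Continuous fun c : F => (1 : Matrix (Fin m) (Fin m) F) + Matrix.single φ.1 φ.2 c
    refine continuous_const.add ?_
    refine continuous_matrix fun i j => ?_
    simp only [Matrix.single_apply]
    by_cases hc : φ.1 = i ∧ φ.2 = j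
    · simp only [if_pos hc]
      exact continuous_id
    · simp only [if_neg hc]
      exact continuous_const
  · simp only [dif_neg h]
    exact continuous_const

theorem continuous_hG [Fintype I] (J : ∀ i, Finset (Fin (n i) × Fin (n i))) :
    Continuous fun c : Par n K => hG J c := by
  refine continuous_pi fun i => ?_
  show Continuous fun c : Par n K => hh (J i) (c i)
  unfold hh
  refine continuous_list_prod _ fun φ _ => ?_
  exact (continuous_tvM φ).comp ((continuous_apply φ).comp (continuous_apply i))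

end

variable {I : Type} [Fintype I] {n : I → ℕ} {K : I → Type} [∀ i, NontriviallyNormedField (K i)]
  [∀ i, ProperSpace (K i)]
  (H : Type) [Group H] [TopologicalSpace H] [IsTopologicalGroup H]
  {X : Type} [TopologicalSpace X] [T2Space X] [LocallyCompactSpace X] [SecondCountableTopology X]
  [MulAction (GG n K × H) X] [ContinuousSMul (GG n K × H) X] [MeasurableSpace X] [BorelSpace X]
  {μ : Measure X} [IsProbabilityMeasure μ]

theorem fix_hG {J : ∀ i, Finset (Fin (n i) × Fin (n i))}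
    (hfix : ∀ i, ∀ φ ∈ J i, ∀ c, Fix H μ (tv (K := K) (⟨i, φ⟩ : Rt n) c)) (c : Par n K) :
    Fix H μ (hG J c) := by
  classical
  let S : Subgroup (GG n K) :=
    { carrier := {g | Fix H μ g}
      mul_mem' := fun {a b} ha hb => fix_mul H ha hb
      one_mem' := fix_one H μ
      inv_mem' := fun {a} ha => fix_inv H ha }
  have h1 : ∀ i, Pi.mulSingle i (hh (J i) (c i)) ∈ S := by
    intro i
    have h2 : ∀ L : List (Fin (n i) × Fin (n i)), (∀ φ ∈ L, φ ∈ J i) →
        Pi.mulSingle i (L.map fun φ => tvM φ (c i φ)).prod ∈ S := by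
      intro L
      induction L with
      | nil =>
        intro _
        simp only [List.map_nil, List.prod_nil, Pi.mulSingle_one]
        exact S.one_mem
      | cons φ L ih =>
        intro hL
        have i1 := ih fun ψ hψ => hL ψ (List.mem_cons_of_mem _ hψ)
        have hφ := hL φ List.mem_cons_self
        rw [List.map_cons, List.prod_cons, Pi.mulSingle_mul]
        refine S.mul_mem ?_ i1
        have h3 := hfix i φ hφ (c i φ)
        have h4 : (tv (K := K) (⟨i, φ⟩ : Rt n) (c i φ)) = Pi.mulSingle i (tvM φ (c i φ)) := by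
          unfold tv tvM
          by_cases h : φ.1 ≠ φ.2
          · rw [dif_pos h, dif_pos h]
          · rw [dif_neg h, dif_neg h, Pi.mulSingle_one]
        rw [← h4]
        exact h3
    exact h2 (J i).toList fun φ hφ => Finset.mem_toList.1 hφ
  exact Subgroup.pi_mem_of_mulSingle_mem (H := S) (hG J c) h1

omit [∀ i, ProperSpace (K i)] [IsTopologicalGroup H] [T2Space X] [LocallyCompactSpace X]
  [SecondCountableTopology X] [IsProbabilityMeasure μ] in
private theorem fix_preimage {g : GG n K} (h : Fix H μ g) {s : Set X} (hs : MeasurableSet s) :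
    μ ((fun x : X => (g, (1 : H)) • x) ⁻¹' s) = μ s := by
  have h1 : Measurable fun x : X => (g, (1 : H)) • x := (continuous_smul_left H g 1).measurable
  rw [← Measure.map_apply h1 hs]
  rw [show μ.map (fun x : X => (g, (1 : H)) • x) = μ from h]

private theorem exists_box (hfin : Finite I) (r : I → ℝ) (hr : ∀ i, 0 < r i) :
    ∃ ρ : ℝ, 0 < ρ ∧ ∀ i, ρ ≤ r i := by
  have h1 : ∀ᶠ ρ : ℝ in 𝓝[>] 0, ∀ i, ρ ≤ r i := by
    rw [Filter.eventually_all]
    intro i
    exact Filter.Eventually.filter_mono nhdsWithin_le_nhds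
      ((gt_mem_nhds (hr i)).mono fun x hx => le_of_lt hx)
  have h2 : ∀ᶠ ρ : ℝ in 𝓝[>] 0, 0 < ρ := self_mem_nhdsWithin
  obtain ⟨ρ, h3, h4⟩ := (h2.and h1).exists
  exact ⟨ρ, h3, h4⟩

theorem corrected_pair (hNI : ∀ i, NIProp (K i)) (J : ∀ i, Finset (Fin (n i) × Fin (n i)))
    (hJ : ∀ i, ∀ φ ∈ J i, φ.1 ≠ φ.2)
    (htrans : ∀ i j m l, (j, m) ∈ J i → (m, l) ∈ J i → j ≠ l → (j, l) ∈ J i)
    (hfix : ∀ i, ∀ φ ∈ J i, ∀ c, Fix H μ (tv (K := K) (⟨i, φ⟩ : Rt n) c)) :
    ∃ εG : ℝ, 0 < εG ∧ ∀ G : Set X, MeasurableSet G → μ.real Gᶜ ≤ εG →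
      ∃ G' : Set X, MeasurableSet G' ∧ μ G' ≠ 0 ∧ ∀ ε : ℝ, 0 < ε → ∃ δ > 0,
        ∀ x ∈ G', ∀ (g : GG n K) (h : H), Near g δ → (g, h) • x ∈ G' →
          ∃ x₁ ∈ G, ∃ g₁ : GG n K, (g₁, h) • x₁ ∈ G ∧ OffPat J g₁ ∧ Near g₁ ε ∧
            (¬ InPat J g → ¬ InPat J g₁) := by
  classical
  let mP : MeasurableSpace (Par n K) := borel (Par n K)
  have bP : BorelSpace (Par n K) := ⟨rfl⟩
  obtain ⟨ν, θ, C, hσ, hθ, hC, hlt, hpos, hni⟩ := ni_prod n K hNI
  choose ρ₁ hρ₁ hcorr using fun i => corr_place (J i) (hJ i) (K := K i) hθ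
  obtain ⟨ρ, hρ, hρle⟩ := exists_box (inferInstance : Finite I) ρ₁ hρ₁
  set V₁ : ENNReal := ν {c | ∀ i, ‖c i‖ ≤ ρ} with hV₁
  have hV₁0 : V₁ ≠ 0 := (hpos ρ hρ).ne'
  have hV₁t : V₁ ≠ ⊤ := (hlt ρ).ne
  set B₂ : Set (Par n K) := {c | ∀ i, ‖c i‖ ≤ 2 * ρ} with hB₂
  have hB₂m : MeasurableSet B₂ := by
    apply IsClosed.measurableSet
    rw [hB₂, Set.ofPred_forall]
    exact isClosed_iInter fun i => isClosed_le ((continuous_apply i).norm) continuous_const
  have hV₂t : ν B₂ ≠ ⊤ := (hlt (2 * ρ)).ne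
  have hC1 : (1 + C) ≠ ⊤ := ENNReal.add_ne_top.2 ⟨ENNReal.one_ne_top, hC.ne⟩
  have hC0 : (1 + C) ≠ 0 := by simp
  set β : ENNReal := V₁ / 2 / (1 + C) with hβ
  have hβ0 : β ≠ 0 := by
    rw [hβ]
    exact (ENNReal.div_pos (ENNReal.div_pos hV₁0 ENNReal.ofNat_ne_top).ne' hC1).ne'
  have hβt : β ≠ ⊤ := by
    rw [hβ]
    exact ENNReal.div_ne_top (ENNReal.div_ne_top hV₁t two_ne_zero) hC0
  have hβC : β + C * β < V₁ := by
    have e1 : β + C * β = V₁ / 2 := by
      rw [← one_add_mul, hβ, ENNReal.mul_div_cancel hC0 hC1]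
    rw [e1]
    exact ENNReal.half_lt_self hV₁0 hV₁t
  -- the choice of `εG`
  obtain ⟨εG, hεG, hεGβ⟩ : ∃ εG : ℝ, 0 < εG ∧ ENNReal.ofReal εG * ν B₂ ≤ β / 2 := by
    obtain ⟨b, hb, hb2⟩ : ∃ b : ℝ, 0 < b ∧ β / 2 = ENNReal.ofReal b :=
      ⟨(β / 2).toReal, ENNReal.toReal_pos
        (ENNReal.div_pos hβ0 ENNReal.ofNat_ne_top).ne' (ENNReal.div_ne_top hβt two_ne_zero),
        (ENNReal.ofReal_toReal (ENNReal.div_ne_top hβt two_ne_zero)).symm⟩
    obtain ⟨v, hv, hv2⟩ : ∃ v : ℝ, 0 ≤ v ∧ ν B₂ = ENNReal.ofReal v :=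
      ⟨(ν B₂).toReal, ENNReal.toReal_nonneg, (ENNReal.ofReal_toReal hV₂t).symm⟩
    refine ⟨b / (v + 1), by positivity, ?_⟩
    rw [hv2, hb2, ← ENNReal.ofReal_mul (by positivity)]
    apply ENNReal.ofReal_le_ofReal
    rw [div_mul_eq_mul_div, div_le_iff₀ (by positivity)]
    nlinarith
  refine ⟨εG, hεG, fun G hGm hGε => ?_⟩
  have hcontF : Continuous fun q : X × Par n K => (hG J q.2, (1 : H)) • q.1 := by
    have e1 : Continuous fun q : X × Par n K => ((hG J q.2, (1 : H)) : GG n K × H) :=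
      ((continuous_hG J).comp continuous_snd).prodMk continuous_const
    exact e1.smul continuous_fst
  set ν₂ : Measure (Par n K) := ν.restrict B₂ with hν₂
  have : IsFiniteMeasure ν₂ := ⟨by rw [hν₂, Measure.restrict_apply_univ]; exact hlt (2 * ρ)⟩
  set E : Set (X × Par n K) := {q | (hG J q.2, (1 : H)) • q.1 ∉ G} with hE
  have hEm : MeasurableSet E := hcontF.measurable hGm.compl
  set bad : X → ENNReal := fun x => ν₂ (Prod.mk x ⁻¹' E) with hbad
  have hbadm : Measurable bad := measurable_measure_prodMk_left hEm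
  have hint : ∫⁻ x, bad x ∂μ ≤ β / 2 := by
    rw [hbad, ← Measure.prod_apply hEm, Measure.prod_apply_symm hEm]
    have e1 : ∀ c : Par n K, μ ((fun x => (x, c)) ⁻¹' E) = μ Gᶜ := by
      intro c
      exact fix_preimage H (fix_hG H hfix c) hGm.compl
    simp only [e1]
    rw [lintegral_const, hν₂, Measure.restrict_apply_univ]
    refine le_trans ?_ hεGβ
    gcongr
    rw [Measure.real, ← ENNReal.le_ofReal_iff_toReal_le (measure_ne_top _ _) hεG.le] at hGε
    exact hGε
  refine ⟨{x | bad x < β}, measurableSet_lt hbadm measurable_const, ?_, ?_⟩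
  · intro h0
    have e1 : μ {x | β ≤ bad x} ≤ 1 / 2 := by
      refine (meas_ge_le_lintegral_div hbadm.aemeasurable hβ0 hβt).trans ?_
      calc (∫⁻ x, bad x ∂μ) / β ≤ β / 2 / β := by gcongr
        _ = 1 / 2 := by
          rw [ENNReal.div_eq_inv_mul, ENNReal.div_eq_inv_mul, mul_left_comm,
            ENNReal.inv_mul_cancel hβ0 hβt, mul_one, ENNReal.div_eq_inv_mul, mul_one]
    have e2 : {x | bad x < β}ᶜ = {x | β ≤ bad x} := by
      ext x
      simp
    have e3 : μ (Set.univ : Set X) ≤ μ {x | bad x < β} + μ {x | bad x < β}ᶜ := by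
      rw [← Set.union_compl_self {x | bad x < β}]
      exact measure_union_le _ _
    rw [h0, e2, zero_add, measure_univ] at e3
    have e4 : (1 : ENNReal) ≤ 1 / 2 := e3.trans e1
    rw [one_div] at e4
    exact absurd e4 (not_le.2 ENNReal.one_half_lt_one)
  · intro ε hε
    choose δ hδ hψ using fun i => hcorr i ρ hρ (hρle i) (min ε ρ) (lt_min hε hρ)
    obtain ⟨δ₀, hδ₀, hδle⟩ := exists_box (inferInstance : Finite I) δ hδ
    refine ⟨δ₀, hδ₀, ?_⟩
    intro x hx g h hg hy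
    have hgi : ∀ i, ∀ j l, ‖(g i).1 j l - (1 : Matrix (Fin (n i)) (Fin (n i)) (K i)) j l‖ ≤ δ i :=
      fun i j l => (hg i j l).trans (hδle i)
    choose ψ hψ1 hψ2 using fun i => hψ i (g i) (hgi i)
    set y : X := (g, h) • x with hydef
    set s₂ : Set (Par n K) := {c | c ∈ B₂ ∧ (hG J c, (1 : H)) • y ∉ G} with hs₂
    have hs₂m : MeasurableSet s₂ := by
      refine hB₂m.inter ?_
      have e1 : Continuous fun c : Par n K => (hG J c, (1 : H)) • y :=
        ((continuous_hG J).prodMk continuous_const).smul continuous_const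
      exact e1.measurable hGm.compl
    have hB₁₂ : {c : Par n K | ∀ i, ‖c i‖ ≤ ρ} ⊆ B₂ := by
      intro c hc i
      exact (hc i).trans (by linarith)
    have hbadeq : ∀ z : X, ν {c | c ∈ B₂ ∧ (hG J c, (1 : H)) • z ∉ G} = bad z := by
      intro z
      have e1 : MeasurableSet (Prod.mk z ⁻¹' E) := measurable_prodMk_left hEm
      show _ = ν₂ (Prod.mk z ⁻¹' E)
      rw [hν₂, Measure.restrict_apply e1]
      congr 1
      ext c
      constructor
      · rintro ⟨h1, h2⟩
        exact ⟨h2, h1⟩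
      · rintro ⟨h1, h2⟩
        exact ⟨h2, h1⟩
    have hN1 : ν {c | (∀ i, ‖c i‖ ≤ ρ) ∧ (hG J c, (1 : H)) • x ∉ G} < β := by
      refine lt_of_le_of_lt (measure_mono ?_) (lt_of_eq_of_lt (hbadeq x) hx)
      rintro c ⟨h1, h2⟩
      exact ⟨hB₁₂ h1, h2⟩
    have hN2 : ν ({c | ∀ i, ‖c i‖ ≤ ρ} ∩ (fun c i => ψ i (c i)) ⁻¹' s₂) ≤ C * β := by
      refine (hni ρ ψ hρ hψ1 s₂ hs₂m).trans ?_
      gcongr
      exact (lt_of_eq_of_lt (hbadeq y) hy).le
    obtain ⟨c, hc1, hc2, hc3⟩ : ∃ c : Par n K, (∀ i, ‖c i‖ ≤ ρ) ∧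
        (hG J c, (1 : H)) • x ∈ G ∧ (fun i => ψ i (c i)) ∉ s₂ := by
      by_contra hcon
      push Not at hcon
      have e1 : {c : Par n K | ∀ i, ‖c i‖ ≤ ρ} ⊆
          {c | (∀ i, ‖c i‖ ≤ ρ) ∧ (hG J c, (1 : H)) • x ∉ G} ∪
          ({c | ∀ i, ‖c i‖ ≤ ρ} ∩ (fun c i => ψ i (c i)) ⁻¹' s₂) := by
        intro c hc
        by_cases h1 : (hG J c, (1 : H)) • x ∈ G
        · exact Or.inr ⟨hc, hcon c hc h1⟩
        · exact Or.inl ⟨hc, h1⟩
      have e2 : V₁ ≤ β + C * β := by
        refine (measure_mono e1).trans ((measure_union_le _ _).trans ?_)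
        exact add_le_add hN1.le hN2
      exact absurd e2 (not_le.2 hβC)
    set ψc : Par n K := fun i => ψ i (c i) with hψc
    have hψcB : ψc ∈ B₂ := by
      intro i
      have e1 := (hψ2 i (c i) (hc1 i)).1
      have e2 : ‖ψ i (c i)‖ ≤ ‖ψ i (c i) - c i‖ + ‖c i‖ := by
        have := norm_add_le (ψ i (c i) - c i) (c i)
        rwa [sub_add_cancel] at this
      have e3 : min ε ρ ≤ ρ := min_le_right _ _
      have e4 := hc1 i
      show ‖ψ i (c i)‖ ≤ 2 * ρ
      linarith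
    have hψcG : (hG J ψc, (1 : H)) • y ∈ G := by
      by_contra hcon
      exact hc3 ⟨hψcB, hcon⟩
    refine ⟨(hG J c, (1 : H)) • x, hc2, hG J ψc * g * (hG J c)⁻¹, ?_, ?_, ?_, ?_⟩
    · rw [smul_smul]
      have e1 : ((hG J ψc * g * (hG J c)⁻¹, h) * (hG J c, (1 : H)) : GG n K × H) =
          (hG J ψc, (1 : H)) * (g, h) := by
        apply Prod.ext
        · show hG J ψc * g * (hG J c)⁻¹ * hG J c = hG J ψc * g
          rw [inv_mul_cancel_right]
        · show h * 1 = 1 * h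
          rw [mul_one, one_mul]
      rw [e1, ← smul_smul]
      exact hψcG
    · intro i j l _ hjl
      exact (hψ2 i (c i) (hc1 i)).2.1 (j, l) hjl
    · intro i j l
      exact ((hψ2 i (c i) (hc1 i)).2.2 j l).trans (min_le_left _ _)
    · intro hnot hpat
      apply hnot
      have e1 : g = (hG J ψc)⁻¹ * (hG J ψc * g * (hG J c)⁻¹) * hG J c := by group
      rw [e1]
      exact inPat_mul htrans (inPat_mul htrans (inPat_hG htrans ψc).2 hpat) (inPat_hG htrans c).1

end Pool.Agent.Work.MP_67388f_an.EM
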