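import Pool.Agent.Work.MP_67388f_an.EM.CoDefs

/-!
# CoQ (size M): the p-adic case of `NIProp`

## Proof
`E = ι → ℚ_[p]` (sup norm, ultrametric), `ν` a Haar measure for the Borel σ-algebra
(`MeasureTheory.Measure.addHaar`; `E` is locally compact, second countable; it is enough to
have a translation invariant measure finite on compact and positive on nonempty open sets),
`θ = 1/2`, `C = 1`. Let `NearId (1/2) ρ ψ`, `B = {‖x‖ ≤ ρ}`. For `x, y ∈ B`, `x ≠ y`:
`‖ψ x - ψ y - (x - y)‖ < ‖x - y‖`, hence `‖ψ x - ψ y‖ = ‖x - y‖` (ultrametric). Let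
`λ A = ν (B ∩ ψ⁻¹' A)`; we show `λ A ≤ ν A` for measurable `A`.
(1) `A` a closed ball `b` of radius `t > 0`: if `B ∩ ψ⁻¹' b` is nonempty, let `x₀` be in it; for
another `x` in it `‖x - x₀‖ = ‖ψ x - ψ x₀‖ ≤ t`; so it is contained in the closed ball of radius `t`
about `x₀`, and `λ b ≤ ν (closedBall x₀ t) = ν b` by translation invariance.
(2) `A = U` open: for `j : ℕ`, `t = 2 ^ (-j)`, let `U_j` be the union of the closed balls of radius `t`
contained in `U`. These balls are cosets of the open subgroup `{‖x‖ ≤ t}` and there are only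
countably many cosets (second countable), they are disjoint; so `λ U_j ≤ ν U_j` by (1) and countable
(sub)additivity. `U_j` increases to `U`, so `λ U ≤ ν U`: `λ U = sup λ U_j` also for
the outer measure `ν` of arbitrary increasing unions (`measure_iUnion_eq_iSup` with directedness
needs no measurability in Mathlib), so measurability of `B ∩ ψ⁻¹' U_j` is not needed.
(3) `A` measurable: outer regularity of `ν` (`Set.measure_eq_iInf_isOpen` or
`MeasureTheory.Measure.OuterRegular`): `λ A ≤ λ U ≤ ν U` for all open `U ⊇ A`, infimum `ν A`.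
-/

set_option autoImplicit false

namespace Pool.Agent.Work.MP_67388f_an.EM

open MeasureTheory Metric

private theorem CoQ_ball {E : Type} [NormedAddCommGroup E] [IsUltrametricDist E]
    [MeasurableSpace E] [BorelSpace E] (ν : Measure E) [ν.IsAddLeftInvariant] {ρ : ℝ} {ψ : E → E}
    (h : NearId (1 / 2) ρ ψ) (y : E) (t : ℝ) :
    ν ({x | ‖x‖ ≤ ρ} ∩ ψ ⁻¹' closedBall y t) ≤ ν (closedBall y t) := by
  rcases ({x : E | ‖x‖ ≤ ρ} ∩ ψ ⁻¹' closedBall y t).eq_empty_or_nonempty with h0 | ⟨x₀, hx₀, hx₀'⟩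
  · rw [h0, measure_empty]
    exact zero_le
  · have hsub : {x : E | ‖x‖ ≤ ρ} ∩ ψ ⁻¹' closedBall y t ⊆
        (fun x => (y - x₀) + x) ⁻¹' closedBall y t := by
      rintro x ⟨hx, hx'⟩
      rw [Set.mem_preimage, mem_closedBall, dist_eq_norm,
        show y - x₀ + x - y = x - x₀ by abel]
      have h1 := h x x₀ hx hx₀
      have h2 : ‖ψ x - ψ x₀‖ ≤ t := by
        rw [← dist_eq_norm]
        refine (dist_triangle_max (ψ x) y (ψ x₀)).trans (max_le hx' ?_)
        rw [dist_comm]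
        exact hx₀'
      have h3 : ‖x - x₀‖ ≤ max ‖ψ x - ψ x₀‖ ‖ψ x - ψ x₀ - (x - x₀)‖ := by
        have e1 : x - x₀ = (ψ x - ψ x₀) + -(ψ x - ψ x₀ - (x - x₀)) := by abel
        rw [← norm_neg (ψ x - ψ x₀ - (x - x₀))]
        conv_lhs => rw [e1]
        exact IsUltrametricDist.norm_add_le_max _ _
      rcases le_max_iff.1 h3 with h4 | h4
      · exact h4.trans h2
      · have h5 : ‖x - x₀‖ = 0 := by
          have := norm_nonneg (x - x₀)
          linarith
        rw [h5]
        exact (norm_nonneg _).trans h2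
    calc ν ({x | ‖x‖ ≤ ρ} ∩ ψ ⁻¹' closedBall y t)
        ≤ ν ((fun x => (y - x₀) + x) ⁻¹' closedBall y t) := measure_mono hsub
      _ = ν (closedBall y t) := measure_preimage_add ν (y - x₀) _

private theorem CoQ_fin {E : Type} [NormedAddCommGroup E] [IsUltrametricDist E]
    [MeasurableSpace E] [BorelSpace E] (ν : Measure E) [ν.IsAddLeftInvariant] {ρ : ℝ} {ψ : E → E}
    (h : NearId (1 / 2) ρ ψ) (S : Finset (Set E)) (hS : ∀ b ∈ S, ∃ y t, b = closedBall y t) :
    ν ({x | ‖x‖ ≤ ρ} ∩ ψ ⁻¹' (⋃ b ∈ S, b)) ≤ ν (⋃ b ∈ S, b) := by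
  classical
  induction S using Finset.strongInduction with
  | H S ih =>
    by_cases hex : ∃ b ∈ S, ∃ b' ∈ S, b ≠ b' ∧ b ⊆ b'
    · obtain ⟨b, hb, b', hb', hne, hsub⟩ := hex
      have hU : (⋃ c ∈ S, c) = ⋃ c ∈ S.erase b, c := by
        apply Set.Subset.antisymm
        · intro x hx
          obtain ⟨c, hc, hxc⟩ := Set.mem_iUnion₂.1 hx
          by_cases hcb : c = b
          · subst hcb
            exact Set.mem_iUnion₂.2 ⟨b', Finset.mem_erase.2 ⟨hne.symm, hb'⟩, hsub hxc⟩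
          · exact Set.mem_iUnion₂.2 ⟨c, Finset.mem_erase.2 ⟨hcb, hc⟩, hxc⟩
        · intro x hx
          obtain ⟨c, hc, hxc⟩ := Set.mem_iUnion₂.1 hx
          exact Set.mem_iUnion₂.2 ⟨c, Finset.mem_of_mem_erase hc, hxc⟩
      rw [hU]
      exact ih _ (Finset.erase_ssubset hb) fun c hc => hS c (Finset.mem_of_mem_erase hc)
    · push Not at hex
      have hd : Set.PairwiseDisjoint (S : Set (Set E)) id := by
        intro b hb b' hb' hne
        obtain ⟨y, t, hbe⟩ := hS b hb
        obtain ⟨y', t', hbe'⟩ := hS b' hb'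
        show Disjoint b b'
        rcases IsUltrametricDist.closedBall_subset_trichotomy y y' t t' with h1 | h1 | h1
        · rw [← hbe, ← hbe'] at h1
          exact absurd h1 (hex b hb b' hb' hne)
        · rw [← hbe, ← hbe'] at h1
          exact absurd h1 (hex b' hb' b hb hne.symm)
        · rwa [← hbe, ← hbe'] at h1
      have hm : ∀ b ∈ S, MeasurableSet (id b : Set E) := by
        intro b hb
        obtain ⟨y, t, hbe⟩ := hS b hb
        rw [id, hbe]
        exact isClosed_closedBall.measurableSet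
      have e1 : ν (⋃ b ∈ S, b) = ∑ b ∈ S, ν b := measure_biUnion_finset hd hm
      have e2 : {x : E | ‖x‖ ≤ ρ} ∩ ψ ⁻¹' (⋃ b ∈ S, b) =
          ⋃ b ∈ S, ({x : E | ‖x‖ ≤ ρ} ∩ ψ ⁻¹' b) := by
        rw [Set.preimage_iUnion₂, Set.inter_iUnion₂]
      rw [e1, e2]
      refine (measure_biUnion_finset_le _ _).trans (Finset.sum_le_sum fun b hb => ?_)
      obtain ⟨y, t, hbe⟩ := hS b hb
      rw [hbe]
      exact CoQ_ball ν h y t

private theorem CoQ_open {E : Type} [NormedAddCommGroup E] [IsUltrametricDist E]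
    [SecondCountableTopology E] [MeasurableSpace E] [BorelSpace E] (ν : Measure E)
    [ν.IsAddLeftInvariant] {ρ : ℝ} {ψ : E → E}
    (h : NearId (1 / 2) ρ ψ) (U : Set E) (hU : IsOpen U) :
    ν ({x | ‖x‖ ≤ ρ} ∩ ψ ⁻¹' U) ≤ ν U := by
  classical
  obtain ⟨T, hTc, hTS, hTU⟩ := TopologicalSpace.isOpen_sUnion_countable
    {b : Set E | (∃ y t, 0 < t ∧ b = closedBall y t) ∧ b ⊆ U} (by
      rintro b ⟨⟨y, t, ht, rfl⟩, -⟩
      exact IsUltrametricDist.isOpen_closedBall y ht.ne')
  have hSU : ⋃₀ {b : Set E | (∃ y t, 0 < t ∧ b = closedBall y t) ∧ b ⊆ U} = U := by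
    apply Set.Subset.antisymm
    · exact Set.sUnion_subset fun b hb => hb.2
    · intro x hx
      obtain ⟨t, ht, hb⟩ := Metric.nhds_basis_closedBall.mem_iff.1 (hU.mem_nhds hx)
      exact Set.mem_sUnion.2 ⟨closedBall x t, ⟨⟨x, t, ht, rfl⟩, hb⟩, mem_closedBall_self ht.le⟩
  rw [hSU] at hTU
  rcases T.eq_empty_or_nonempty with hT0 | hT0
  · rw [hT0, Set.sUnion_empty] at hTU
    rw [← hTU]
    simp
  · obtain ⟨b, hb⟩ := hTc.exists_eq_range hT0
    have hU' : U = ⋃ n : ℕ, ⋃ c ∈ (Finset.range (n + 1)).image b, c := by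
      rw [← hTU, hb, Set.sUnion_range]
      ext x
      simp only [Set.mem_iUnion]
      constructor
      · rintro ⟨n, hn⟩
        exact ⟨n, b n, Finset.mem_image.2 ⟨n, Finset.mem_range.2 (Nat.lt_succ_self n), rfl⟩, hn⟩
      · rintro ⟨n, c, hc, hx⟩
        obtain ⟨k, -, rfl⟩ := Finset.mem_image.1 hc
        exact ⟨k, hx⟩
    have hmono : Monotone fun n : ℕ => {x : E | ‖x‖ ≤ ρ} ∩
        ψ ⁻¹' (⋃ c ∈ (Finset.range (n + 1)).image b, c) := by
      intro m n hmn
      apply Set.inter_subset_inter_right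
      apply Set.preimage_mono
      apply Set.biUnion_subset_biUnion_left
      intro c hc
      exact Finset.image_subset_image (Finset.range_mono (by omega)) hc
    have e1 : {x : E | ‖x‖ ≤ ρ} ∩ ψ ⁻¹' U = ⋃ n : ℕ, ({x : E | ‖x‖ ≤ ρ} ∩
        ψ ⁻¹' (⋃ c ∈ (Finset.range (n + 1)).image b, c)) := by
      conv_lhs => rw [hU']
      rw [Set.preimage_iUnion, Set.inter_iUnion]
    rw [e1, hmono.measure_iUnion]
    refine iSup_le fun n => ?_
    refine (CoQ_fin ν h _ ?_).trans (measure_mono ?_)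
    · intro c hc
      obtain ⟨k, -, rfl⟩ := Finset.mem_image.1 hc
      have hk : b k ∈ T := by rw [hb]; exact Set.mem_range_self k
      obtain ⟨⟨y, t, -, hbe⟩, -⟩ := hTS hk
      exact ⟨y, t, hbe⟩
    · conv_rhs => rw [hU']
      exact Set.subset_iUnion (fun n : ℕ => ⋃ c ∈ (Finset.range (n + 1)).image b, c) n

private theorem CoQ_all {E : Type} [NormedAddCommGroup E] [IsUltrametricDist E]
    [SecondCountableTopology E] [MeasurableSpace E] [BorelSpace E] (ν : Measure E)
    [ν.IsAddLeftInvariant] [ν.OuterRegular] {ρ : ℝ} {ψ : E → E}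
    (h : NearId (1 / 2) ρ ψ) (s : Set E) :
    ν ({x | ‖x‖ ≤ ρ} ∩ ψ ⁻¹' s) ≤ ν s := by
  rw [Set.measure_eq_iInf_isOpen s]
  refine le_iInf₂ fun U hsU => le_iInf fun hU => ?_
  exact (measure_mono (Set.inter_subset_inter_right _ (Set.preimage_mono hsU))).trans
    (CoQ_open ν h U hU)

theorem niProp_padic (p : ℕ) [Fact p.Prime] : NIProp ℚ_[p] := by
  intro ι _
  letI : MeasurableSpace (ι → ℚ_[p]) := borel _
  haveI : BorelSpace (ι → ℚ_[p]) := ⟨rfl⟩
  haveI : ProperSpace (ι → ℚ_[p]) := inferInstance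
  refine ⟨Measure.addHaar, 1 / 2, 1, inferInstance, ?_⟩
  refine ⟨by norm_num, ENNReal.one_lt_top, ?_, ?_, ?_⟩
  · intro ρ
    have : {x : ι → ℚ_[p] | ‖x‖ ≤ ρ} = closedBall 0 ρ := by
      ext x
      simp
    rw [this]
    exact (isCompact_closedBall _ _).measure_lt_top
  · intro ρ hρ
    refine lt_of_lt_of_le (measure_ball_pos Measure.addHaar (0 : ι → ℚ_[p]) hρ)
      (measure_mono ?_)
    intro x hx
    rw [mem_ball_zero_iff] at hx
    exact hx.le
  · intro ρ ψ _ hψ s _
    rw [one_mul]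
    exact CoQ_all _ hψ s

end Pool.Agent.Work.MP_67388f_an.EM
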