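import Pool.Agent.Work.MP_67388f_an.EM.CoDefs

/-!
# CoR (size S-M): the real case of `NIProp`

## Proof
`E = ι → ℝ` (sup norm), `ν` = Lebesgue measure (`volume`; the given σ-algebra is `borel`, equal to
the instance by `BorelSpace.measurable_eq`, so rewrite it), `θ = 1/2`, `C = 2 ^ card ι`. Balls are
boxes: finite and positive measure. Let `ψ` satisfy `NearId (1/2) ρ ψ`, `B = {‖x‖ ≤ ρ}`: for
`x, y ∈ B`: `‖ψ x - ψ y‖ ≥ ‖x - y‖ - ‖x - y‖ / 2 = ‖x - y‖ / 2`. So `ψ` is injective on `B` and its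
inverse `χ` on `ψ '' B` is 2-Lipschitz. For a measurable `s`:
`B ∩ ψ⁻¹' s = χ '' (ψ '' B ∩ s)`, so by `LipschitzOnWith.hausdorffMeasure_image_le` and
`MeasureTheory.hausdorffMeasure_pi_real` (`μH[card ι] = volume` on `ι → ℝ`) its measure is at most
`2 ^ card ι * ν (ψ '' B ∩ s) ≤ C ν s`. (`AntilipschitzWith.hausdorffMeasure_preimage_le` or
`le_hausdorffMeasure_image` may also be used, for the restriction of `ψ` to `B`.)
-/

set_option autoImplicit false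

namespace Pool.Agent.Work.MP_67388f_an.EM

open MeasureTheory

private theorem ni_aux {ι : Type} [Fintype ι] {ρ : ℝ} {ψ : (ι → ℝ) → (ι → ℝ)}
    (h : NearId (1 / 2) ρ ψ) (s : Set (ι → ℝ)) :
    volume ({x | ‖x‖ ≤ ρ} ∩ ψ ⁻¹' s) ≤ ((2 : NNReal) : ENNReal) ^ (Fintype.card ι : ℝ) *
      volume s := by
  set B : Set (ι → ℝ) := {x | ‖x‖ ≤ ρ} with hB
  have hanti : AntilipschitzWith 2 (fun x : B => ψ x.1) := by
    apply AntilipschitzWith.of_le_mul_dist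
    intro x y
    have h1 := h x.1 y.1 x.2 y.2
    have h2 : ‖(x.1 - y.1 : ι → ℝ)‖ ≤ ‖ψ x.1 - ψ y.1‖ + 1 / 2 * ‖(x.1 - y.1 : ι → ℝ)‖ := by
      have e1 : (x.1 - y.1 : ι → ℝ) = (ψ x.1 - ψ y.1) - (ψ x.1 - ψ y.1 - (x.1 - y.1)) := by abel
      calc ‖(x.1 - y.1 : ι → ℝ)‖ = ‖(ψ x.1 - ψ y.1) - (ψ x.1 - ψ y.1 - (x.1 - y.1))‖ := by
            rw [← e1]
        _ ≤ ‖ψ x.1 - ψ y.1‖ + ‖ψ x.1 - ψ y.1 - (x.1 - y.1)‖ := norm_sub_le _ _
        _ ≤ _ := by gcongr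
    rw [Subtype.dist_eq, dist_eq_norm, dist_eq_norm]
    push_cast
    linarith
  have h1 := hanti.hausdorffMeasure_preimage_le (d := (Fintype.card ι : ℝ)) (by positivity) s
  have h2 := (isometry_subtype_coe (s := B)).hausdorffMeasure_image (d := (Fintype.card ι : ℝ))
    (Or.inl (by positivity)) ((fun x : B => ψ x.1) ⁻¹' s)
  have h3 : (Subtype.val : B → (ι → ℝ)) '' ((fun x : B => ψ x.1) ⁻¹' s) = B ∩ ψ ⁻¹' s := by
    ext x
    constructor
    · rintro ⟨y, hy, rfl⟩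
      exact ⟨y.2, hy⟩
    · rintro ⟨hx, hs⟩
      exact ⟨⟨x, hx⟩, hs, rfl⟩
  rw [← hausdorffMeasure_pi_real, ← h3, h2]
  exact h1

private theorem ni_real_aux (ι : Type) [Fintype ι] (ms : MeasurableSpace (ι → ℝ))
    (hms : ms = MeasurableSpace.pi) :
    ∃ (ν : @Measure (ι → ℝ) ms) (θ : ℝ) (C : ENNReal),
      SigmaFinite ν ∧ @NIMeas (ι → ℝ) _ ms ν θ C := by
  subst hms
  refine ⟨volume, 1 / 2, ((2 : NNReal) : ENNReal) ^ (Fintype.card ι : ℝ), inferInstance, ?_⟩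
  have hball : ∀ ρ : ℝ, {x : ι → ℝ | ‖x‖ ≤ ρ} = Metric.closedBall 0 ρ := by
    intro ρ
    ext x
    simp
  refine ⟨by norm_num, ?_, ?_, ?_, ?_⟩
  · exact ENNReal.rpow_lt_top_of_nonneg (by positivity) ENNReal.coe_ne_top
  · intro ρ
    rw [hball]
    exact measure_closedBall_lt_top
  · intro ρ hρ
    rw [hball]
    exact Metric.measure_closedBall_pos volume 0 hρ
  · intro ρ ψ _ h s _
    exact ni_aux h s

theorem niProp_real : NIProp ℝ := by
  intro ι _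
  exact ni_real_aux ι (borel (ι → ℝ)) (BorelSpace.measurable_eq (α := ι → ℝ)).symm

end Pool.Agent.Work.MP_67388f_an.EM
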