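import Mathlib

/-!
# GEa (size M-L): the facet lemma in the plane

`q φ ∈ ℝ²` (`φ` in a finite type) are nonzero vectors no two of which have the same direction. If
`L φ ≥ Lm > 0` for `φ ∈ Φ'` with equality for some `φ`, there are `t` of size `O(Lm)` and
`φ₀ ∈ Φ'` with `⟨q φ₀, t⟩ = L φ₀` and `⟨q φ, t⟩ ≤ L φ - c₃ Lm` for all other `φ ∈ Φ'`.

## Proof
Write `⟨q, t⟩ = q.1 t.1 + q.2 t.2`, `q⊥ = (-q.2, q.1)`. Let `N = card Φ + 1` and for `φm ∈ Φ`,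
`r = 0, ..., N - 1` put `u_r = q φm + (κ r) q φm⊥` with `κ = 1 / N`; so `⟨q φm, u_r⟩ = |q φm|^2 > 0`
(Euclidean norm squared) and the `u_r` are pairwise non-parallel: `det (u_r, u_r') =
κ (r' - r) |q φm|^2`. Fix `Φ', L, Lm, φm` with `L φm = Lm`. For each `r` let `τ_r > 0` be the minimum
over the `φ ∈ Φ'` with `⟨q φ, u_r⟩ > 0` (there is one: `φm`) of `L φ / ⟨q φ, u_r⟩`. Then
`t_r = τ_r u_r` satisfies `⟨q φ, t_r⟩ ≤ L φ` for all `φ ∈ Φ'`, with equality for some `φ = ψ(r)`;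
`τ_r ≤ Lm / |q φm|^2`, and `τ_r ≥ Lm / A` with `A` a bound for all `⟨q φ, u_r⟩`. By the pigeonhole
principle there are `r ≠ r'` with `ψ(r) = ψ(r') =: φ₀` (`N > card Φ`). Let
`t = (t_r + t_r') / 2`. Then `⟨q φ₀, t⟩ = L φ₀`, `|t.1|, |t.2| ≤ C₁ Lm`. Let `φ ∈ Φ'`, `φ ≠ φ₀`,
`a = L φ - ⟨q φ, t_r⟩ ≥ 0`, `a' = L φ - ⟨q φ, t_r'⟩ ≥ 0`, so `L φ - ⟨q φ, t⟩ = (a + a') / 2`.
The vector `d = t_r - t_r'` is orthogonal to `q φ₀`, hence `d = λ q φ₀⊥`, and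
`det (t_r, d) = - det (t_r, t_r') = - τ_r τ_r' det (u_r, u_r')`, so `|λ| |q φ₀| |t_r| ≥
τ_r τ_r' κ |q φm|^2`, i.e. `|λ| ≥ c Lm`. Case 1: `det (q φ₀, q φ) ≠ 0`: then `|⟨q φ, d⟩| =
|λ| |det (q φ₀, q φ)| ≥ c' Lm` and `|⟨q φ, d⟩| = |a - a'| ≤ a + a'`. Case 2: `q φ = - s q φ₀` with
`s > 0` (not the same direction): `⟨q φ, t⟩ = - s L φ₀ < 0`, so `L φ - ⟨q φ, t⟩ ≥ L φ ≥ Lm`.
All constants depend only on `q` (take minima over the finitely many `φm, r, r', φ₀, φ`; note that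
`|det(q φ₀, q φ)|` has a positive minimum over the pairs where it is nonzero).

Only existence of the constants matters; any other proof is fine (for instance one may
normalize `Lm = 1` by scaling `t` and `L`).
-/

set_option autoImplicit false

namespace Pool.Agent.Work.MP_67388f_an.EM

private theorem GEa_min {ι : Type} [Finite ι] (P : ι → ℝ → Prop)
    (h : ∀ i, ∃ c, 0 < c ∧ P i c) (hm : ∀ i c c', 0 < c' → c' ≤ c → P i c → P i c') :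
    ∃ c, 0 < c ∧ ∀ i, P i c := by
  choose c hc hP using h
  rcases isEmpty_or_nonempty ι with hι | hι
  · exact ⟨1, one_pos, fun i => (hι.false i).elim⟩
  · obtain ⟨i₀, hi₀⟩ := Finite.exists_min c
    exact ⟨c i₀, hc i₀, fun i => hm i (c i) (c i₀) (hc i₀) (hi₀ i) (hP i)⟩

private theorem GEa_max {ι : Type} [Finite ι] (f : ι → ℝ) : ∃ c, 0 < c ∧ ∀ i, f i ≤ c := by
  rcases isEmpty_or_nonempty ι with hι | hι
  · exact ⟨1, one_pos, fun i => (hι.false i).elim⟩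
  · obtain ⟨i₀, hi₀⟩ := Finite.exists_max f
    exact ⟨max (f i₀) 1, lt_of_lt_of_le one_pos (le_max_right _ _),
      fun i => (hi₀ i).trans (le_max_left _ _)⟩

/-- two vectors with different directions -/
private theorem GEa_dir {a b : ℝ × ℝ} (ha : a ≠ 0) (hb : b ≠ 0)
    (hab : ∀ x y : ℝ, 0 < x → 0 < y → x • a ≠ y • b) :
    ∃ c, 0 < c ∧ ∀ x y : ℝ, 0 ≤ x → 0 ≤ y → c * (x + y) ≤ ‖x • a - y • b‖ := by
  have hcont : Continuous fun s : ℝ => ‖s • a - (1 - s) • b‖ := by fun_prop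
  obtain ⟨s₀, hs₀, hmin⟩ := isCompact_Icc.exists_isMinOn (Set.nonempty_Icc.2 zero_le_one)
    hcont.continuousOn (s := Set.Icc (0 : ℝ) 1)
  have hpos : 0 < ‖s₀ • a - (1 - s₀) • b‖ := by
    rw [norm_pos_iff, sub_ne_zero]
    rcases eq_or_lt_of_le hs₀.1 with h0 | h0
    · rw [← h0]
      simpa using hb.symm
    · rcases eq_or_lt_of_le hs₀.2 with h1 | h1
      · rw [h1]
        simpa using ha
      · exact hab s₀ (1 - s₀) h0 (by linarith)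
  refine ⟨_, hpos, fun x y hx hy => ?_⟩
  rcases eq_or_lt_of_le (add_nonneg hx hy) with h0 | h0
  · rw [← h0, mul_zero]
    exact norm_nonneg _
  · have h1 : x / (x + y) ∈ Set.Icc (0 : ℝ) 1 :=
      ⟨by positivity, (div_le_one h0).2 (by linarith)⟩
    have h2 := isMinOn_iff.1 hmin _ h1
    have h3 : x • a - y • b = (x + y) • ((x / (x + y)) • a - (1 - x / (x + y)) • b) := by
      rw [smul_sub, smul_smul, smul_smul, mul_div_cancel₀ _ h0.ne', mul_sub,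
        mul_div_cancel₀ _ h0.ne', mul_one]
      congr 2
      ring
    rw [h3, norm_smul, Real.norm_of_nonneg h0.le, mul_comm]
    exact mul_le_mul_of_nonneg_left h2 h0.le

/-- two linearly independent functionals -/
private theorem GEa_det {u v : ℝ × ℝ} (hD : u.1 * v.2 - u.2 * v.1 ≠ 0) :
    ∃ c, 0 < c ∧ ∀ w : ℝ × ℝ, c * ‖w‖ ≤ max |w.1 * u.1 + w.2 * u.2| |w.1 * v.1 + w.2 * v.2| := by
  set D := u.1 * v.2 - u.2 * v.1 with hDdef
  have hDp : 0 < |D| := abs_pos.2 hD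
  set s := |u.1| + |u.2| + |v.1| + |v.2| + 1 with hs
  have hsp : 0 < s := by positivity
  refine ⟨|D| / s, by positivity, fun w => ?_⟩
  set m := max |w.1 * u.1 + w.2 * u.2| |w.1 * v.1 + w.2 * v.2| with hm
  have hm1 : |w.1 * u.1 + w.2 * u.2| ≤ m := le_max_left _ _
  have hm2 : |w.1 * v.1 + w.2 * v.2| ≤ m := le_max_right _ _
  have hm0 : 0 ≤ m := (abs_nonneg _).trans hm1
  have h1 : |D| * |w.1| ≤ m * s := by
    rw [← abs_mul]
    have e1 : D * w.1 = (w.1 * u.1 + w.2 * u.2) * v.2 - (w.1 * v.1 + w.2 * v.2) * u.2 := by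
      rw [hDdef]; ring
    rw [e1]
    calc |(w.1 * u.1 + w.2 * u.2) * v.2 - (w.1 * v.1 + w.2 * v.2) * u.2|
        ≤ |(w.1 * u.1 + w.2 * u.2) * v.2| + |(w.1 * v.1 + w.2 * v.2) * u.2| := abs_sub _ _
      _ = |w.1 * u.1 + w.2 * u.2| * |v.2| + |w.1 * v.1 + w.2 * v.2| * |u.2| := by
          rw [abs_mul, abs_mul]
      _ ≤ m * |v.2| + m * |u.2| := by gcongr
      _ ≤ m * s := by
          rw [← mul_add]
          apply mul_le_mul_of_nonneg_left _ hm0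
          rw [hs]
          linarith [abs_nonneg u.1, abs_nonneg v.1]
  have h2 : |D| * |w.2| ≤ m * s := by
    rw [← abs_mul]
    have e1 : D * w.2 = (w.1 * v.1 + w.2 * v.2) * u.1 - (w.1 * u.1 + w.2 * u.2) * v.1 := by
      rw [hDdef]; ring
    rw [e1]
    calc |(w.1 * v.1 + w.2 * v.2) * u.1 - (w.1 * u.1 + w.2 * u.2) * v.1|
        ≤ |(w.1 * v.1 + w.2 * v.2) * u.1| + |(w.1 * u.1 + w.2 * u.2) * v.1| := abs_sub _ _
      _ = |w.1 * v.1 + w.2 * v.2| * |u.1| + |w.1 * u.1 + w.2 * u.2| * |v.1| := by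
          rw [abs_mul, abs_mul]
      _ ≤ m * |u.1| + m * |v.1| := by gcongr
      _ ≤ m * s := by
          rw [← mul_add]
          apply mul_le_mul_of_nonneg_left _ hm0
          rw [hs]
          linarith [abs_nonneg u.2, abs_nonneg v.2]
  rw [Prod.norm_def, Real.norm_eq_abs, Real.norm_eq_abs, div_mul_eq_mul_div, div_le_iff₀ hsp]
  rcases max_choice |w.1| |w.2| with h | h
  · rw [h]; exact h1
  · rw [h]; exact h2

/-- the directions -/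
private def GEa_u (a : ℝ × ℝ) (r : ℕ) : ℝ × ℝ := (a.1 - r * a.2, a.2 + r * a.1)

theorem facets {Φ : Type} [Fintype Φ] (q : Φ → ℝ × ℝ) (hq : ∀ φ, q φ ≠ 0)
    (hqq : ∀ φ φ', φ ≠ φ' → ∀ a c : ℝ, 0 < a → 0 < c → a • q φ ≠ c • q φ') :
    ∃ C₁ c₃ : ℝ, 0 < C₁ ∧ 0 < c₃ ∧ ∀ (Φ' : Finset Φ) (L : Φ → ℝ) (Lm : ℝ), 0 < Lm →
      (∀ φ ∈ Φ', Lm ≤ L φ) → (∃ φ ∈ Φ', L φ = Lm) →
      ∃ t : ℝ × ℝ, ∃ φ₀ ∈ Φ', |t.1| ≤ C₁ * Lm ∧ |t.2| ≤ C₁ * Lm ∧
        (q φ₀).1 * t.1 + (q φ₀).2 * t.2 = L φ₀ ∧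
        ∀ φ ∈ Φ', φ ≠ φ₀ → (q φ).1 * t.1 + (q φ).2 * t.2 ≤ L φ - c₃ * Lm := by
  classical
  have hn : ∀ φ, 0 < (q φ).1 ^ 2 + (q φ).2 ^ 2 := by
    intro φ
    by_contra hcon
    rw [not_lt] at hcon
    have h1 : (q φ).1 = 0 := by nlinarith [sq_nonneg (q φ).1, sq_nonneg (q φ).2]
    have h2 : (q φ).2 = 0 := by nlinarith [sq_nonneg (q φ).1, sq_nonneg (q φ).2]
    exact hq φ (Prod.ext h1 h2)
  set N := Fintype.card (Φ × Φ) + 1 with hN
  -- constants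
  obtain ⟨cA, hcA, hA⟩ := GEa_min (ι := {x : Φ × Φ // x.1 ≠ x.2})
    (fun x c => ∀ a b : ℝ, 0 ≤ a → 0 ≤ b → c * (a + b) ≤ ‖a • q x.1.1 - b • q x.1.2‖)
    (fun x => GEa_dir (hq _) (hq _) (hqq _ _ x.2))
    (fun x c c' _ hcc h a b ha hb =>
      (mul_le_mul_of_nonneg_right hcc (add_nonneg ha hb)).trans (h a b ha hb))
  obtain ⟨cB, hcB, hB⟩ := GEa_min (ι := {x : Φ × Fin N × Fin N // x.2.1 ≠ x.2.2})
    (fun x c => ∀ w : ℝ × ℝ, c * ‖w‖ ≤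
      max |w.1 * (GEa_u (q x.1.1) x.1.2.1).1 + w.2 * (GEa_u (q x.1.1) x.1.2.1).2|
        |w.1 * (GEa_u (q x.1.1) x.1.2.2).1 + w.2 * (GEa_u (q x.1.1) x.1.2.2).2|)
    (fun x => by
      apply GEa_det
      have h1 : (GEa_u (q x.1.1) x.1.2.1).1 * (GEa_u (q x.1.1) x.1.2.2).2 -
          (GEa_u (q x.1.1) x.1.2.1).2 * (GEa_u (q x.1.1) x.1.2.2).1 =
          (((x.1.2.2 : ℕ) : ℝ) - ((x.1.2.1 : ℕ) : ℝ)) * ((q x.1.1).1 ^ 2 + (q x.1.1).2 ^ 2) := by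
        simp only [GEa_u]
        ring
      rw [h1]
      refine mul_ne_zero (sub_ne_zero.2 ?_) (hn _).ne'
      intro h2
      exact x.2 (Fin.ext (by exact_mod_cast h2.symm)))
    (fun x c c' _ hcc h w => (mul_le_mul_of_nonneg_right hcc (norm_nonneg _)).trans (h w))
  obtain ⟨A, hA0, hAb⟩ := GEa_max (ι := Φ × Φ × Fin N)
    (fun x => (q x.1).1 * (GEa_u (q x.2.1) x.2.2).1 + (q x.1).2 * (GEa_u (q x.2.1) x.2.2).2)
  obtain ⟨C, hC0, hCb⟩ := GEa_max (ι := Φ × Fin N)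
    (fun x => (|(GEa_u (q x.1) x.2).1| + |(GEa_u (q x.1) x.2).2|) /
      ((q x.1).1 ^ 2 + (q x.1).2 ^ 2))
  refine ⟨C, min 1 (cB * cA / A), hC0, lt_min one_pos (by positivity), ?_⟩
  intro Φ' L Lm hLm hL ⟨φm, hφm, hLφm⟩
  have hLpos : ∀ φ ∈ Φ', 0 < L φ := fun φ hφ => hLm.trans_le (hL φ hφ)
  -- a good direction
  obtain ⟨r, hr⟩ : ∃ r : Fin N, ∀ φ ∈ Φ', ∀ φ' ∈ Φ', φ ≠ φ' →
      cB * cA * (L φ' + L φ) ≤
        |(L φ' • q φ - L φ • q φ').1 * (GEa_u (q φm) r).1 +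
          (L φ' • q φ - L φ • q φ').2 * (GEa_u (q φm) r).2| := by
    by_contra hcon
    push Not at hcon
    choose f hf f' hf' hne hlt using hcon
    obtain ⟨r, r', hrr, hff⟩ := Fintype.exists_ne_map_eq_of_card_lt
      (fun r : Fin N => (f r, f' r)) (by rw [Fintype.card_fin, hN]; omega)
    have e1 : f r = f r' := congrArg Prod.fst hff
    have e2 : f' r = f' r' := congrArg Prod.snd hff
    have h1 := hlt r
    have h2 := hlt r'
    rw [← e1, ← e2] at h2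
    have h3 := hB ⟨(φm, r, r'), hrr⟩ (L (f' r) • q (f r) - L (f r) • q (f' r))
    have h4 := hA ⟨(f r, f' r), hne r⟩ (L (f' r)) (L (f r)) (hLpos _ (hf' r)).le
      (hLpos _ (hf r)).le
    have h5 := lt_of_le_of_lt h3 (max_lt h1 h2)
    have h6 := mul_le_mul_of_nonneg_left h4 hcB.le
    rw [← mul_assoc] at h6
    exact absurd h5 (not_lt.2 h6)
  set u := GEa_u (q φm) r with hu
  have huφm : (q φm).1 * u.1 + (q φm).2 * u.2 = (q φm).1 ^ 2 + (q φm).2 ^ 2 := by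
    rw [hu]
    simp only [GEa_u]
    ring
  obtain ⟨φ₀, hφ₀, hmin⟩ := Finset.exists_min_image
    (Φ'.filter fun φ => 0 < (q φ).1 * u.1 + (q φ).2 * u.2)
    (fun φ => L φ / ((q φ).1 * u.1 + (q φ).2 * u.2))
    ⟨φm, Finset.mem_filter.2 ⟨hφm, by rw [huφm]; exact hn φm⟩⟩
  obtain ⟨hφ₀, hφ₀p⟩ := Finset.mem_filter.1 hφ₀
  set τ := L φ₀ / ((q φ₀).1 * u.1 + (q φ₀).2 * u.2) with hτ
  have hτ0 : 0 < τ := div_pos (hLpos _ hφ₀) hφ₀p
  have hτm : τ ≤ Lm / ((q φm).1 ^ 2 + (q φm).2 ^ 2) := by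
    have h1 := hmin φm (Finset.mem_filter.2 ⟨hφm, by rw [huφm]; exact hn φm⟩)
    rw [huφm, hLφm] at h1
    exact h1
  have hCu := hCb (φm, r)
  have hτC : τ * (|u.1| + |u.2|) ≤ C * Lm := by
    calc τ * (|u.1| + |u.2|) ≤ Lm / ((q φm).1 ^ 2 + (q φm).2 ^ 2) * (|u.1| + |u.2|) := by
          gcongr
      _ = (|u.1| + |u.2|) / ((q φm).1 ^ 2 + (q φm).2 ^ 2) * Lm := by ring
      _ ≤ C * Lm := by
          apply mul_le_mul_of_nonneg_right _ hLm.le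
          exact hCu
  refine ⟨(τ * u.1, τ * u.2), φ₀, hφ₀, ?_, ?_, ?_, ?_⟩
  · show |τ * u.1| ≤ C * Lm
    rw [abs_mul, abs_of_pos hτ0]
    refine le_trans ?_ hτC
    apply mul_le_mul_of_nonneg_left _ hτ0.le
    linarith [abs_nonneg u.2]
  · show |τ * u.2| ≤ C * Lm
    rw [abs_mul, abs_of_pos hτ0]
    refine le_trans ?_ hτC
    apply mul_le_mul_of_nonneg_left _ hτ0.le
    linarith [abs_nonneg u.1]
  · show (q φ₀).1 * (τ * u.1) + (q φ₀).2 * (τ * u.2) = L φ₀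
    have : (q φ₀).1 * (τ * u.1) + (q φ₀).2 * (τ * u.2) =
        τ * ((q φ₀).1 * u.1 + (q φ₀).2 * u.2) := by ring
    rw [this, hτ, div_mul_cancel₀ _ hφ₀p.ne']
  · intro φ hφ hne
    show (q φ).1 * (τ * u.1) + (q φ).2 * (τ * u.2) ≤ L φ - min 1 (cB * cA / A) * Lm
    have e1 : (q φ).1 * (τ * u.1) + (q φ).2 * (τ * u.2) =
        τ * ((q φ).1 * u.1 + (q φ).2 * u.2) := by ring
    rw [e1]
    by_cases hpos : 0 < (q φ).1 * u.1 + (q φ).2 * u.2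
    · have h1 := hmin φ (Finset.mem_filter.2 ⟨hφ, hpos⟩)
      have h2 : τ * ((q φ).1 * u.1 + (q φ).2 * u.2) ≤ L φ := by
        rwa [← le_div_iff₀ hpos]
      have h3 := hr φ₀ hφ₀ φ hφ hne.symm
      have e2 : (L φ • q φ₀ - L φ₀ • q φ).1 * u.1 + (L φ • q φ₀ - L φ₀ • q φ).2 * u.2 =
          (L φ - τ * ((q φ).1 * u.1 + (q φ).2 * u.2)) * ((q φ₀).1 * u.1 + (q φ₀).2 * u.2) := by
        have e3 : τ * ((q φ₀).1 * u.1 + (q φ₀).2 * u.2) = L φ₀ := by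
          rw [hτ, div_mul_cancel₀ _ hφ₀p.ne']
        have e4 : (L φ - τ * ((q φ).1 * u.1 + (q φ).2 * u.2)) *
            ((q φ₀).1 * u.1 + (q φ₀).2 * u.2) =
            L φ * ((q φ₀).1 * u.1 + (q φ₀).2 * u.2) -
              ((q φ).1 * u.1 + (q φ).2 * u.2) * (τ * ((q φ₀).1 * u.1 + (q φ₀).2 * u.2)) := by
          ring
        rw [e4, e3]
        simp only [Prod.fst_sub, Prod.snd_sub, Prod.smul_fst, Prod.smul_snd, smul_eq_mul]
        ring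
      rw [e2, abs_of_nonneg (mul_nonneg (by linarith) hφ₀p.le)] at h3
      have h4 : (q φ₀).1 * u.1 + (q φ₀).2 * u.2 ≤ A := hAb (φ₀, φm, r)
      have h5 : cB * cA * Lm ≤ (L φ - τ * ((q φ).1 * u.1 + (q φ).2 * u.2)) * A := by
        calc cB * cA * Lm ≤ cB * cA * (L φ + L φ₀) := by
              apply mul_le_mul_of_nonneg_left _ (mul_pos hcB hcA).le
              linarith [hL φ hφ, hLpos φ₀ hφ₀]
          _ ≤ _ := h3
          _ ≤ _ := by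
              apply mul_le_mul_of_nonneg_left h4
              linarith
      have h6 : min 1 (cB * cA / A) * Lm ≤ cB * cA / A * Lm :=
        mul_le_mul_of_nonneg_right (min_le_right _ _) hLm.le
      have h7 : cB * cA / A * Lm ≤ L φ - τ * ((q φ).1 * u.1 + (q φ).2 * u.2) := by
        rw [div_mul_eq_mul_div, div_le_iff₀ hA0]
        exact h5
      linarith
    · rw [not_lt] at hpos
      have h1 : τ * ((q φ).1 * u.1 + (q φ).2 * u.2) ≤ 0 :=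
        mul_nonpos_of_nonneg_of_nonpos hτ0.le hpos
      have h6 : min 1 (cB * cA / A) * Lm ≤ 1 * Lm :=
        mul_le_mul_of_nonneg_right (min_le_left _ _) hLm.le
      linarith [hL φ hφ]

end Pool.Agent.Work.MP_67388f_an.EM
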