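import Pool.Agent.Work.MP_67388f_an.EM.Lem
import Pool.Agent.Work.MP_67388f_an.EM.GEa

/-!
# FIa (size M-L): displacements become elements of one root group

`Displ π pl η C₁ Q` : every `g` near 1 whose entries in `J` vanish and which has another nonzero
off-diagonal entry is moved by conjugation with `dg π k` near an element `tv φ w`,
`φ ∉ J`, `exp (-Q) ≤ ‖w‖ ≤ exp Q`, the same for all `k` with `rv φ k = rv φ (pl b)`,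
`len (k - pl b) ≤ η 2 ^ s`.

## Proof of `displacement`
Let `lam i = log ‖π i‖ > 0`, `Λ = ∑ lam i + 1`. Apply `facets` to `Φ = {φ : Rt n // Off φ}` with
`q' φ = lam φ.1 • (q φ : ℝ × ℝ)` (nonzero, pairwise different directions by `hqq`); let `C₁', c₃` be
the constants. Put `η = c₃ / (2 Λ)`, `C₁ = 2 C₁' + 1`, `Q = ∑ φ, (|(q' φ).1| + |(q' φ).2|)`.
Given `J, ε > 0, s₀` let `ε₁ = ε / (1 + exp Q)` and `δ = exp (-L₀)` with `L₀ ≥ 2 ^ (s₀ + 1)`,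
`L₀ ≥ 1`, `Q - c₃ L₀ / 2 ≤ log ε₁`, `exp (-L₀) ≤ ε₁`. Let `g` be as in the statement and
`Φ' = {φ ∈ Φ | g_φ ≠ 0}` (entry of `g φ.1` at `φ.2`), nonempty since `¬ InPat J g`; each `φ ∈ Φ'` has
`φ.2 ∉ J φ.1` since `OffPat J g`. `L φ = - log ‖g_φ‖ ≥ L₀` as `‖g_φ‖ ≤ δ` (off-diagonal entry),
`Lm` = the minimum of `L φ`, `φ ∈ Φ'`. `facets` gives `t, φ₀`. Let `s` with `2^s ≤ Lm < 2^(s+1)`
(`s ≥ s₀`), `b = (⌊t.1⌋, ⌊t.2⌋)`, so `|b.1| ≤ C₁' Lm + 1 ≤ (2 C₁' + 1) 2^s`. Let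
`w = π^(rv φ₀ (pl b)) g_φ₀`. As `lam rv φ₀ (pl b) = ⟨q' φ₀, b⟩` (`hpl`) and `⟨q' φ₀, t⟩ = L φ₀`:
`log ‖w‖ = ⟨q' φ₀, b - t⟩ ∈ [-Q, Q]`. Let `rv φ₀ k = rv φ₀ (pl b)`, `len (k - pl b) ≤ η 2^s` and
`g' = dg π k * g * (dg π k)⁻¹`. By `conj_apply` its entry at `φ₀` is `w`. For another
`φ ∈ Φ'`: `log ‖g'_φ‖ = lam rv φ k - L φ ≤ ⟨q' φ, b⟩ + Λ len (k - pl b) - L φ
≤ ⟨q' φ, t⟩ + Q + Λ η Lm - L φ ≤ Q + c₃ Lm / 2 - c₃ Lm ≤ log ε₁` (`abs_rv_le_len`, `rv_add`). The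
entries outside `Φ'` (off-diagonal) are zero; the diagonal entries of `g'` are those of `g`, within
`δ ≤ ε₁` of 1. So all entries of `g' - tv φ₀ w` are at most `ε₁` (at other places: of `g' - 1`).
Finally `g' * tv φ₀ (-w) - 1 = (g' - tv φ₀ w) * tv φ₀ (-w)` has entries at most `ε₁ (1 + ‖w‖) ≤ ε`.
-/

set_option autoImplicit false

namespace Pool.Agent.Work.MP_67388f_an.EM

variable {I : Type} [Fintype I] {n : I → ℕ} {K : I → Type} [∀ i, NontriviallyNormedField (K i)]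

private theorem FIa_log {F : Type} [NontriviallyNormedField F] (u : Fˣ) (m : ℤ) {x : F} (hx : x ≠ 0) :
    Real.log ‖((u ^ m : Fˣ) : F) * x‖ = m * Real.log ‖(u : F)‖ + Real.log ‖x‖ := by
  have hu : ‖(u : F)‖ ≠ 0 := norm_ne_zero_iff.2 u.ne_zero
  rw [norm_mul, Units.val_zpow_eq_zpow_val, norm_zpow,
    Real.log_mul (zpow_ne_zero m hu) (norm_ne_zero_iff.2 hx), Real.log_zpow]

omit [Fintype I] in
/-- the entries of `tv` -/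
private theorem FIa_tv {φ₀ : Rt n} (hφ₀ : Off φ₀) (w : K φ₀.1) :
    (∀ i j, (tv φ₀ w i).1 j j = 1) ∧ ((tv φ₀ w φ₀.1).1 φ₀.2.1 φ₀.2.2 = w) ∧
      ∀ φ : Rt n, Off φ → φ ≠ φ₀ → (tv φ₀ w φ.1).1 φ.2.1 φ.2.2 = 0 := by
  have hne : φ₀.2.1 ≠ φ₀.2.2 := hφ₀
  refine ⟨fun i j => ?_, ?_, fun φ hφ hφφ => ?_⟩
  · by_cases hi : i = φ₀.1
    · subst hi
      rw [tv_apply_same hφ₀, Matrix.add_apply, Matrix.one_apply_eq, Matrix.single_apply,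
        if_neg (fun h => hne (h.1.trans h.2.symm)), add_zero]
    · rw [tv_apply_ne φ₀ w hi]
      exact Matrix.one_apply_eq j
  · rw [tv_apply_same hφ₀, Matrix.add_apply, Matrix.one_apply_ne hne, Matrix.single_apply,
      if_pos ⟨rfl, rfl⟩, zero_add]
  · obtain ⟨i, j, l⟩ := φ
    have hjl : j ≠ l := hφ
    show (tv φ₀ w i).1 j l = 0
    by_cases hi : i = φ₀.1
    · subst hi
      rw [tv_apply_same hφ₀, Matrix.add_apply, Matrix.one_apply_ne hjl, Matrix.single_apply,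
        if_neg, add_zero]
      rintro ⟨h1, h2⟩
      apply hφφ
      subst h1
      subst h2
      rfl
    · rw [tv_apply_ne φ₀ w hi]
      exact Matrix.one_apply_ne hjl

omit [Fintype I] in
private theorem FIa_fin {φ₀ : Rt n} (hφ₀ : Off φ₀) (w : K φ₀.1) (g' : GG n K) {ε₁ E : ℝ}
    (hw : ‖w‖ ≤ E) (h : ∀ i j l, ‖(g' i).1 j l - (tv φ₀ w i).1 j l‖ ≤ ε₁) :
    Near (g' * tv φ₀ (-w)) (ε₁ * (1 + E)) := by
  intro i j l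
  have hε : 0 ≤ ε₁ := (norm_nonneg _).trans (h i j l)
  have hE : 0 ≤ E := (norm_nonneg _).trans hw
  have h1 : tv φ₀ w * tv φ₀ (-w) = 1 := by rw [← tv_add, add_neg_cancel, tv_zero]
  have h2 : (tv φ₀ w i).1 * (tv φ₀ (-w) i).1 = 1 := by
    have h3 := congrFun h1 i
    exact congrArg Subtype.val h3
  have h3 : ((g' * tv φ₀ (-w)) i).1 - 1 = ((g' i).1 - (tv φ₀ w i).1) * (tv φ₀ (-w) i).1 := by
    rw [Matrix.sub_mul, h2]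
    rfl
  have h4 : ((g' * tv φ₀ (-w)) i).1 j l - (1 : Matrix (Fin (n i)) (Fin (n i)) (K i)) j l =
      (((g' i).1 - (tv φ₀ w i).1) * (tv φ₀ (-w) i).1) j l := by
    rw [← h3, Matrix.sub_apply]
  rw [h4]
  by_cases hi : i = φ₀.1
  · subst hi
    rw [tv_apply_same hφ₀ (-w), Matrix.mul_add, mul_one, Matrix.add_apply, Matrix.mul_apply]
    have h5 : ∑ m, ((g' φ₀.1).1 - (tv φ₀ w φ₀.1).1) j m *
        Matrix.single φ₀.2.1 φ₀.2.2 (-w) m l =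
        if φ₀.2.2 = l then ((g' φ₀.1).1 - (tv φ₀ w φ₀.1).1) j φ₀.2.1 * (-w) else 0 := by
      rw [Finset.sum_eq_single φ₀.2.1]
      · rw [Matrix.single_apply]
        by_cases h6 : φ₀.2.2 = l
        · rw [if_pos ⟨rfl, h6⟩, if_pos h6]
        · rw [if_neg (fun h => h6 h.2), if_neg h6, mul_zero]
      · intro m _ hm
        rw [Matrix.single_apply, if_neg (fun h => hm h.1.symm), mul_zero]
      · intro hm
        exact absurd (Finset.mem_univ _) hm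
    rw [h5]
    have h7 : ‖((g' φ₀.1).1 - (tv φ₀ w φ₀.1).1) j l‖ ≤ ε₁ := h _ _ _
    have h8 : ‖if φ₀.2.2 = l then ((g' φ₀.1).1 - (tv φ₀ w φ₀.1).1) j φ₀.2.1 * (-w) else 0‖ ≤
        ε₁ * E := by
      split_ifs
      · rw [norm_mul, norm_neg]
        exact mul_le_mul (h _ _ _) hw (norm_nonneg _) hε
      · rw [norm_zero]
        positivity
    calc _ ≤ _ := norm_add_le _ _
      _ ≤ ε₁ + ε₁ * E := add_le_add h7 h8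
      _ = ε₁ * (1 + E) := by ring
  · rw [tv_apply_ne φ₀ (-w) hi]
    have h5 : ((1 : Matrix.SpecialLinearGroup (Fin (n i)) (K i))).1 = 1 := rfl
    rw [h5, mul_one, Matrix.sub_apply]
    refine (h i j l).trans ?_
    nlinarith [mul_nonneg hε hE]

/-- see the header -/
def Displ (π : ∀ i, (K i)ˣ) (pl : ℤ × ℤ →+ Lat n) (η C₁ Q : ℝ) : Prop :=
  ∀ (J : ∀ i, Finset (Fin (n i) × Fin (n i))) (ε : ℝ) (s₀ : ℕ), 0 < ε → ∃ δ > 0,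
    ∀ g : GG n K, Near g δ → OffPat J g → ¬ InPat J g →
      ∃ (s : ℕ) (b : ℤ × ℤ) (φ : Rt n) (w : K φ.1), s₀ ≤ s ∧ |(b.1 : ℝ)| ≤ C₁ * 2 ^ s ∧
        |(b.2 : ℝ)| ≤ C₁ * 2 ^ s ∧ Off φ ∧ φ.2 ∉ J φ.1 ∧ Real.exp (-Q) ≤ ‖w‖ ∧
        ‖w‖ ≤ Real.exp Q ∧ ∀ k : Lat n, rv φ k = rv φ (pl b) → len (k - pl b) ≤ η * 2 ^ s →
          Near (dg π k * g * (dg π k)⁻¹ * tv φ (-w)) ε

theorem displacement {π : ∀ i, (K i)ˣ} (hπ : ∀ i, 1 < ‖(π i : K i)‖)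
    (pl : ℤ × ℤ →+ Lat n) (q : Rt n → ℤ × ℤ)
    (hpl : ∀ φ b, rv φ (pl b) = (q φ).1 * b.1 + (q φ).2 * b.2)
    (hq : ∀ φ, Off φ → q φ ≠ 0)
    (hqq : ∀ φ φ', Off φ → Off φ' → φ ≠ φ' → ∀ a c : ℝ, 0 < a → 0 < c →
        ¬ (a * ((q φ).1 : ℝ) = c * ((q φ').1 : ℝ) ∧ a * ((q φ).2 : ℝ) = c * ((q φ').2 : ℝ))) :
    ∃ η C₁ Q : ℝ, 0 < η ∧ 0 < C₁ ∧ Displ π pl η C₁ Q := by
  classical
  obtain ⟨lam, hlamd⟩ : ∃ lam : I → ℝ, lam = fun i => Real.log ‖(π i : K i)‖ := ⟨_, rfl⟩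
  have hlam : ∀ i, 0 < lam i := fun i => by
    rw [hlamd]
    exact Real.log_pos (hπ i)
  have hlam' : ∀ i, Real.log ‖(π i : K i)‖ = lam i := fun i => by rw [hlamd]
  obtain ⟨q', hq'd⟩ : ∃ q' : {φ : Rt n // Off φ} → ℝ × ℝ,
      q' = fun φ => (lam φ.1.1 * ((q φ.1).1 : ℝ), lam φ.1.1 * ((q φ.1).2 : ℝ)) := ⟨_, rfl⟩
  have hq'1 : ∀ φ, (q' φ).1 = lam φ.1.1 * ((q φ.1).1 : ℝ) := fun φ => by rw [hq'd]
  have hq'2 : ∀ φ, (q' φ).2 = lam φ.1.1 * ((q φ.1).2 : ℝ) := fun φ => by rw [hq'd]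
  have hq'0 : ∀ φ, q' φ ≠ 0 := by
    intro φ h0
    apply hq φ.1 φ.2
    have h1 := congrArg Prod.fst h0
    have h2 := congrArg Prod.snd h0
    rw [hq'1] at h1
    rw [hq'2] at h2
    refine Prod.ext ?_ ?_
    · exact_mod_cast (mul_eq_zero.1 h1).resolve_left (hlam _).ne'
    · exact_mod_cast (mul_eq_zero.1 h2).resolve_left (hlam _).ne'
  have hqq' : ∀ φ φ', φ ≠ φ' → ∀ a c : ℝ, 0 < a → 0 < c → a • q' φ ≠ c • q' φ' := by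
    intro φ φ' hne a c ha hc h0
    refine hqq φ.1 φ'.1 φ.2 φ'.2 (fun h => hne (Subtype.ext h)) (a * lam φ.1.1)
      (c * lam φ'.1.1) (mul_pos ha (hlam _)) (mul_pos hc (hlam _)) ⟨?_, ?_⟩
    · have h1 := congrArg Prod.fst h0
      rw [Prod.smul_fst, Prod.smul_fst, hq'1, hq'1, smul_eq_mul, smul_eq_mul] at h1
      linarith
    · have h1 := congrArg Prod.snd h0
      rw [Prod.smul_snd, Prod.smul_snd, hq'2, hq'2, smul_eq_mul, smul_eq_mul] at h1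
      linarith
  obtain ⟨C₁', c₃, hC, hc, hfac⟩ := facets q' hq'0 hqq'
  obtain ⟨Lam, hLamd⟩ : ∃ Lam, Lam = ∑ i, lam i + 1 := ⟨_, rfl⟩
  have hLam : 0 < Lam := by
    rw [hLamd]
    have : 0 ≤ ∑ i, lam i := Finset.sum_nonneg fun i _ => (hlam i).le
    linarith
  have hlamL : ∀ i, lam i ≤ Lam := by
    intro i
    have : lam i ≤ ∑ i, lam i :=
      Finset.single_le_sum (f := lam) (fun i _ => (hlam i).le) (Finset.mem_univ i)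
    linarith
  obtain ⟨Q, hQd⟩ : ∃ Q, Q = ∑ φ : {φ : Rt n // Off φ}, (|(q' φ).1| + |(q' φ).2|) := ⟨_, rfl⟩
  have hQ : ∀ φ, |(q' φ).1| + |(q' φ).2| ≤ Q := by
    intro φ
    rw [hQd]
    exact Finset.single_le_sum (f := fun φ => |(q' φ).1| + |(q' φ).2|)
      (fun φ _ => by positivity) (Finset.mem_univ φ)
  refine ⟨c₃ / (2 * Lam), 2 * C₁' + 1, Q, by positivity, by positivity, ?_⟩
  intro J ε s₀ hε
  obtain ⟨ε₁, hε₁d⟩ : ∃ ε₁, ε₁ = ε / (1 + Real.exp Q) := ⟨_, rfl⟩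
  have hε₁ : 0 < ε₁ := by
    rw [hε₁d]
    positivity
  obtain ⟨L₀, hL1, hL2, hL3, hL4⟩ : ∃ L₀ : ℝ, (2 : ℝ) ^ (s₀ + 1) ≤ L₀ ∧ 1 ≤ L₀ ∧
      Q - c₃ * L₀ / 2 ≤ Real.log ε₁ ∧ -L₀ ≤ Real.log ε₁ := by
    refine ⟨max ((2 : ℝ) ^ (s₀ + 1)) (max 1 (max (2 * (Q - Real.log ε₁) / c₃) (-Real.log ε₁))),
      le_max_left _ _, (le_max_left _ _).trans (le_max_right _ _), ?_, ?_⟩
    · have h1 : 2 * (Q - Real.log ε₁) / c₃ ≤
        max ((2 : ℝ) ^ (s₀ + 1)) (max 1 (max (2 * (Q - Real.log ε₁) / c₃) (-Real.log ε₁))) :=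
        ((le_max_left _ _).trans (le_max_right _ _)).trans (le_max_right _ _)
      rw [div_le_iff₀ hc] at h1
      linarith
    · have h1 : -Real.log ε₁ ≤
        max ((2 : ℝ) ^ (s₀ + 1)) (max 1 (max (2 * (Q - Real.log ε₁) / c₃) (-Real.log ε₁))) :=
        ((le_max_right _ _).trans (le_max_right _ _)).trans (le_max_right _ _)
      linarith
  have hδε : Real.exp (-L₀) ≤ ε₁ := by
    rw [← Real.exp_log hε₁]
    exact Real.exp_le_exp.2 hL4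
  refine ⟨Real.exp (-L₀), Real.exp_pos _, ?_⟩
  intro g hg hoff hin
  obtain ⟨Φ', hΦ'd⟩ : ∃ Φ' : Finset {φ : Rt n // Off φ},
      Φ' = Finset.univ.filter fun φ => (g φ.1.1).1 φ.1.2.1 φ.1.2.2 ≠ 0 := ⟨_, rfl⟩
  have hmem : ∀ φ : {φ : Rt n // Off φ}, φ ∈ Φ' ↔ (g φ.1.1).1 φ.1.2.1 φ.1.2.2 ≠ 0 := by
    intro φ
    rw [hΦ'd, Finset.mem_filter]
    exact and_iff_right (Finset.mem_univ _)
  have hne : Φ'.Nonempty := by
    by_contra hcon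
    apply hin
    intro i j l hjl _
    by_contra h0
    apply hcon
    exact ⟨⟨⟨i, (j, l)⟩, hjl⟩, (hmem _).2 h0⟩
  obtain ⟨L, hLd⟩ : ∃ L : {φ : Rt n // Off φ} → ℝ,
      L = fun φ => -Real.log ‖(g φ.1.1).1 φ.1.2.1 φ.1.2.2‖ := ⟨_, rfl⟩
  have hL : ∀ φ, Real.log ‖(g φ.1.1).1 φ.1.2.1 φ.1.2.2‖ = -L φ := by
    intro φ
    rw [hLd, neg_neg]
  have hLL : ∀ φ ∈ Φ', L₀ ≤ L φ := by
    intro φ hφ
    have h0 := (hmem φ).1 hφ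
    have h1 := hg φ.1.1 φ.1.2.1 φ.1.2.2
    rw [Matrix.one_apply_ne φ.2, sub_zero] at h1
    have h2 := Real.log_le_log (norm_pos_iff.2 h0) h1
    rw [Real.log_exp, hL] at h2
    linarith
  obtain ⟨φm, hφm, hmin⟩ := Finset.exists_min_image Φ' L hne
  have hLm0 : L₀ ≤ L φm := hLL φm hφm
  obtain ⟨Lm, hLmd⟩ : ∃ Lm, Lm = L φm := ⟨_, rfl⟩
  rw [← hLmd] at hLm0
  obtain ⟨t, φ₀, hφ₀, ht1, ht2, heq, hle⟩ := hfac Φ' L Lm (by linarith)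
    (fun φ hφ => by rw [hLmd]; exact hmin φ hφ) ⟨φm, hφm, hLmd.symm⟩
  obtain ⟨s, hs1, hs2⟩ := exists_nat_pow_near (x := Lm) (y := 2) (by linarith) (by norm_num)
  have hss : s₀ ≤ s := by
    have h1 : (2 : ℝ) ^ (s₀ + 1) < 2 ^ (s + 1) := lt_of_le_of_lt (hL1.trans hLm0) hs2
    have h2 := (pow_lt_pow_iff_right₀ (by norm_num : (1 : ℝ) < 2)).1 h1
    omega
  have h2s : (1 : ℝ) ≤ 2 ^ s := one_le_pow₀ (by norm_num)
  have hfl : ∀ x : ℝ, |(⌊x⌋ : ℝ) - x| ≤ 1 := by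
    intro x
    rw [abs_le]
    constructor <;> linarith [Int.floor_le x, Int.lt_floor_add_one x]
  have hbb : ∀ x : ℝ, |x| ≤ C₁' * Lm → |(⌊x⌋ : ℝ)| ≤ (2 * C₁' + 1) * 2 ^ s := by
    intro x hx
    have h1 : |(⌊x⌋ : ℝ)| ≤ |x| + 1 := by
      have h2 := hfl x
      have h3 : (⌊x⌋ : ℝ) = x + ((⌊x⌋ : ℝ) - x) := by ring
      rw [h3]
      exact (abs_add_le _ _).trans (by linarith)
    have h2 : C₁' * Lm ≤ C₁' * (2 * 2 ^ s) :=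
      mul_le_mul_of_nonneg_left (by rw [← pow_succ']; exact hs2.le) hC.le
    linarith
  -- the inner products
  have hip : ∀ φ : {φ : Rt n // Off φ},
      |((q' φ).1 * (⌊t.1⌋ : ℝ) + (q' φ).2 * (⌊t.2⌋ : ℝ)) - ((q' φ).1 * t.1 + (q' φ).2 * t.2)| ≤
        Q := by
    intro φ
    have h1 : ((q' φ).1 * (⌊t.1⌋ : ℝ) + (q' φ).2 * (⌊t.2⌋ : ℝ)) -
        ((q' φ).1 * t.1 + (q' φ).2 * t.2) =
        (q' φ).1 * ((⌊t.1⌋ : ℝ) - t.1) + (q' φ).2 * ((⌊t.2⌋ : ℝ) - t.2) := by ring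
    rw [h1]
    refine (abs_add_le _ _).trans ?_
    rw [abs_mul, abs_mul]
    have h2 := mul_le_mul_of_nonneg_left (hfl t.1) (abs_nonneg (q' φ).1)
    have h3 := mul_le_mul_of_nonneg_left (hfl t.2) (abs_nonneg (q' φ).2)
    have h4 := hQ φ
    linarith
  have hrv : ∀ φ : {φ : Rt n // Off φ}, (rv φ.1 (pl (⌊t.1⌋, ⌊t.2⌋)) : ℝ) * lam φ.1.1 =
      (q' φ).1 * (⌊t.1⌋ : ℝ) + (q' φ).2 * (⌊t.2⌋ : ℝ) := by
    intro φ
    rw [hpl, hq'1, hq'2]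
    push_cast
    ring
  have hφ₀e := (hmem φ₀).1 hφ₀
  obtain ⟨w, hwd⟩ : ∃ w : K φ₀.1.1, w =
      ((π φ₀.1.1 ^ rv φ₀.1 (pl (⌊t.1⌋, ⌊t.2⌋)) : (K φ₀.1.1)ˣ) : K φ₀.1.1) *
        (g φ₀.1.1).1 φ₀.1.2.1 φ₀.1.2.2 := ⟨_, rfl⟩
  have hw0 : w ≠ 0 := by
    rw [hwd]
    exact mul_ne_zero (Units.ne_zero _) hφ₀e
  have hlw : |Real.log ‖w‖| ≤ Q := by
    rw [hwd, FIa_log _ _ hφ₀e, hlam', hrv, hL]
    have h1 := hip φ₀
    rw [heq] at h1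
    exact h1
  rw [abs_le] at hlw
  have hw1 : Real.exp (-Q) ≤ ‖w‖ := by
    rw [← Real.exp_log (norm_pos_iff.2 hw0)]
    exact Real.exp_le_exp.2 hlw.1
  have hw2 : ‖w‖ ≤ Real.exp Q := by
    rw [← Real.exp_log (norm_pos_iff.2 hw0)]
    exact Real.exp_le_exp.2 hlw.2
  refine ⟨s, (⌊t.1⌋, ⌊t.2⌋), φ₀.1, w, hss, hbb _ ht1, hbb _ ht2, φ₀.2, ?_, hw1, hw2, ?_⟩
  · intro hJ
    exact hφ₀e (hoff φ₀.1.1 φ₀.1.2.1 φ₀.1.2.2 φ₀.2 hJ)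
  intro k hk1 hk2
  have hεε : ε₁ * (1 + Real.exp Q) = ε := by
    rw [hε₁d]
    exact div_mul_cancel₀ _ (by positivity)
  rw [← hεε]
  refine FIa_fin φ₀.2 w _ hw2 ?_
  have hbound : ∀ φ : Rt n, Off φ → φ ≠ φ₀.1 →
      ‖((π φ.1 ^ rv φ k : (K φ.1)ˣ) : K φ.1) * (g φ.1).1 φ.2.1 φ.2.2‖ ≤ ε₁ := by
    intro φ hφ hφφ
    by_cases h0 : (g φ.1).1 φ.2.1 φ.2.2 = 0
    · rw [h0, mul_zero, norm_zero]
      exact hε₁.le
    have hx : ((π φ.1 ^ rv φ k : (K φ.1)ˣ) : K φ.1) * (g φ.1).1 φ.2.1 φ.2.2 ≠ 0 :=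
      mul_ne_zero (Units.ne_zero _) h0
    rw [← Real.log_le_log_iff (norm_pos_iff.2 hx) hε₁, FIa_log _ _ h0, hlam']
    have h1 := hle ⟨φ, hφ⟩ ((hmem ⟨φ, hφ⟩).2 h0) (fun h => hφφ (congrArg Subtype.val h))
    have h2 := hip ⟨φ, hφ⟩
    rw [abs_le] at h2
    have h3 := hrv ⟨φ, hφ⟩
    have h4 := hL ⟨φ, hφ⟩
    have h5 : (rv φ k : ℝ) = rv φ (pl (⌊t.1⌋, ⌊t.2⌋)) + rv φ (k - pl (⌊t.1⌋, ⌊t.2⌋)) := by
      have h6 : k = pl (⌊t.1⌋, ⌊t.2⌋) + (k - pl (⌊t.1⌋, ⌊t.2⌋)) := by abel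
      have h7 := congrArg (rv φ) h6
      rw [rv_add] at h7
      exact_mod_cast h7
    have h6 := (le_abs_self _).trans (abs_rv_le_len φ (k - pl (⌊t.1⌋, ⌊t.2⌋)))
    have h7 : (rv φ (k - pl (⌊t.1⌋, ⌊t.2⌋)) : ℝ) * lam φ.1 ≤
        len (k - pl (⌊t.1⌋, ⌊t.2⌋)) * Lam := by
      calc _ ≤ len (k - pl (⌊t.1⌋, ⌊t.2⌋)) * lam φ.1 :=
            mul_le_mul_of_nonneg_right h6 (hlam _).le
        _ ≤ _ := mul_le_mul_of_nonneg_left (hlamL _) (len_nonneg _)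
    have h8 : len (k - pl (⌊t.1⌋, ⌊t.2⌋)) * Lam ≤ c₃ / 2 * Lm := by
      calc len (k - pl (⌊t.1⌋, ⌊t.2⌋)) * Lam ≤ (c₃ / (2 * Lam) * 2 ^ s) * Lam :=
            mul_le_mul_of_nonneg_right hk2 hLam.le
        _ = c₃ / 2 * 2 ^ s := by
            field_simp
        _ ≤ c₃ / 2 * Lm := mul_le_mul_of_nonneg_left hs1 (by positivity)
    have h9 : c₃ * L₀ ≤ c₃ * Lm := mul_le_mul_of_nonneg_left hLm0 hc.le
    have h10 : (rv φ k : ℝ) * lam φ.1 =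
        (rv φ (pl (⌊t.1⌋, ⌊t.2⌋)) : ℝ) * lam φ.1 +
          (rv φ (k - pl (⌊t.1⌋, ⌊t.2⌋)) : ℝ) * lam φ.1 := by
      rw [h5]
      ring
    rw [h10]
    simp only at h1 h2 h3 h4
    rw [h4, h3]
    linarith [h2.2]
  obtain ⟨htv1, htv2, htv3⟩ := FIa_tv (K := K) φ₀.2 w
  intro i j l
  rw [conj_apply]
  by_cases hjl : j = l
  · subst hjl
    rw [sub_self, zpow_zero, Units.val_one, one_mul, htv1]
    have h1 := hg i j j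
    rw [Matrix.one_apply_eq] at h1
    exact h1.trans hδε
  · by_cases hφφ : (⟨i, (j, l)⟩ : Rt n) = φ₀.1
    · obtain ⟨⟨i', j', l'⟩, h'⟩ := φ₀
      have h1 : (⟨i, (j, l)⟩ : Rt n) = ⟨i', (j', l')⟩ := hφφ
      cases h1
      have h2 : ((π i ^ (k.1 i j - k.1 i l) : (K i)ˣ) : K i) * (g i).1 j l = w := by
        rw [hwd]
        have h3 : k.1 i j - k.1 i l = rv (⟨i, (j, l)⟩ : Rt n) (pl (⌊t.1⌋, ⌊t.2⌋)) := hk1
        rw [h3]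
      have h3 : (tv (⟨i, (j, l)⟩ : Rt n) w i).1 j l = w := htv2
      rw [h2, h3, sub_self, norm_zero]
      exact hε₁.le
    · have h1 := htv3 ⟨i, (j, l)⟩ hjl hφφ
      have h2 : (tv φ₀.1 w i).1 j l = 0 := h1
      rw [h2, sub_zero]
      exact hbound ⟨i, (j, l)⟩ hjl hφφ

end Pool.Agent.Work.MP_67388f_an.EM
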