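import Pool.Agent.Work.MP_67388f_an.EM.Lem

/-!
# FIb (size S-M): comparison of averages at two close points; finite nets

## Proof
`compare_avg` : take `δ, N` from `unif_cont`. By `act_smul`
`act k ((g,h) • x) = (g_k, h) • act k x = (g_k u⁻¹, h) • ((u, 1) • act k x)` with
`g_k = dg π k * g * (dg π k)⁻¹`; so each term of the difference of the averages is at most `ε`
(if `D = ∅` both averages are `0`).
`finite_net` : take `δ` from `unif_cont` (with `h = 1`), cover the compact ball `{‖w‖ ≤ R}` of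
`K φ.1` by finitely many balls of radius `δ` with centers `w'` in `W` and use
`tv φ w = tv φ (w - w') * tv φ w'` (`tv_add`, `near_tv`).
-/

set_option autoImplicit false

namespace Pool.Agent.Work.MP_67388f_an.EM

open MeasureTheory Filter Topology

variable {I : Type} [Fintype I] {n : I → ℕ} {K : I → Type} [∀ i, NontriviallyNormedField (K i)]
  (H : Type) [Group H] [TopologicalSpace H] [IsTopologicalGroup H]
  {X : Type} [TopologicalSpace X] [MulAction (GG n K × H) X] [ContinuousSMul (GG n K × H) X]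

theorem compare_avg {f : X → ℝ} (hf : Continuous f) (hc : HasCompactSupport f) {ε : ℝ}
    (hε : 0 < ε) :
    ∃ δ > 0, ∃ N ∈ 𝓝 (1 : H), ∀ (π : ∀ i, (K i)ˣ) (D : Finset (Lat n)) (x : X) (g u : GG n K)
      (h : H), h ∈ N → (∀ k ∈ D, Near (dg π k * g * (dg π k)⁻¹ * u⁻¹) δ) →
      |avg H π D f ((g, h) • x) - avg H π D (fun z => f ((u, (1 : H)) • z)) x| ≤ ε := by
  obtain ⟨δ, hδ, N, hN, hu⟩ := unif_cont (n := n) (K := K) H hf hc hε
  refine ⟨δ, hδ, N, hN, fun π D x g u h hh hD => ?_⟩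
  have key : ∀ k ∈ D, |f (act H π k ((g, h) • x)) - f ((u, (1 : H)) • act H π k x)| ≤ ε := by
    intro k hk
    have h1 := hu _ h ((u, (1 : H)) • act H π k x) (hD k hk) hh
    rw [smul_smul] at h1
    have h2 : ((dg π k * g * (dg π k)⁻¹ * u⁻¹, h) * (u, (1 : H)) : GG n K × H) =
        (dg π k * g * (dg π k)⁻¹, h) := by
      rw [Prod.mk_mul_mk, mul_one, inv_mul_cancel_right]
    rw [h2] at h1
    rw [act_smul]
    exact h1
  unfold avg
  rw [← sub_div, ← Finset.sum_sub_distrib, abs_div, Nat.abs_cast]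
  rcases Nat.eq_zero_or_pos D.card with h0 | h0
  · rw [h0]
    simp only [Nat.cast_zero, div_zero]
    exact hε.le
  · rw [div_le_iff₀ (by exact_mod_cast h0)]
    refine (Finset.abs_sum_le_sum_abs _ _).trans ?_
    refine (Finset.sum_le_sum key).trans ?_
    rw [Finset.sum_const, nsmul_eq_mul, mul_comm]

theorem finite_net [∀ i, ProperSpace (K i)] {f : X → ℝ} (hf : Continuous f)
    (hc : HasCompactSupport f) (φ : Rt n) (R : ℝ) {ε : ℝ} (hε : 0 < ε) :
    ∃ W : Finset (K φ.1), ∀ w : K φ.1, ‖w‖ ≤ R → ∃ w' ∈ W, ∀ x : X,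
      |f ((tv φ w, (1 : H)) • x) - f ((tv φ w', (1 : H)) • x)| ≤ ε := by
  obtain ⟨δ, hδ, N, hN, hu⟩ := unif_cont (n := n) (K := K) H hf hc hε
  obtain ⟨t, _, htf, ht⟩ := (isCompact_closedBall (0 : K φ.1) R).finite_cover_balls hδ
  refine ⟨htf.toFinset, fun w hw => ?_⟩
  have hw' : w ∈ Metric.closedBall (0 : K φ.1) R := by
    rwa [mem_closedBall_zero_iff]
  have h1 := ht hw'
  simp only [Set.mem_iUnion, exists_prop] at h1
  obtain ⟨w', hw't, hd⟩ := h1
  refine ⟨w', htf.mem_toFinset.2 hw't, fun x => ?_⟩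
  rw [Metric.mem_ball, dist_eq_norm] at hd
  have h2 := hu (tv φ (w - w')) 1 ((tv φ w', (1 : H)) • x) (near_tv φ _ hd.le)
    (mem_of_mem_nhds hN)
  rw [smul_smul, Prod.mk_mul_mk, mul_one, ← tv_add, sub_add_cancel] at h2
  exact h2

end Pool.Agent.Work.MP_67388f_an.EM
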