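import Pool.Agent.Work.MP_67388f_an.EM.Lem

/-!
# PR (size M): close pairs of points of a given set, not on a common pattern leaf

## Proof
Let `G'` be a set with `μ G' ≠ 0`, and `ρ₀, N₀` with all leaf boxes null. Since `X` is second
countable there is `x ∈ G'` such that `μ (G' ∩ V) ≠ 0` for every neighbourhood `V` of `x`
(`exists_mem_forall_mem_nhdsWithin_pos_measure` in Mathlib, for `μ.restrict G'`, or that lemma
itself). Given `δ > 0` and a neighbourhood `N` of `1` in `H` put
`U = {g | Near g (min δ ρ₀)} × (N ∩ N₀)`, a neighbourhood of `1` in `GG n K × H` (`hasBasis_near`).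
The orbit map `g ↦ g • x` is open: `isOpenMap_smul_of_sigmaCompact` (Mathlib; `GG n K × H` is
σ-compact as locally compact and second countable, `X` is a locally compact Hausdorff, hence Baire,
space, the action is transitive and continuous). So `V = U • x` is a neighbourhood of `x`, and
`μ (G' ∩ V) ≠ 0`, while the leaf box of `x` is null: there is
`y ∈ G' ∩ V` outside the leaf box of `x`: `y = (g, h) • x` with `(g, h) ∈ U`. If `InPat J g` held
then `y` would be in the leaf box (`Near g ρ₀`, `h ∈ N₀`). So `¬ InPat J g`.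
-/

set_option autoImplicit false

namespace Pool.Agent.Work.MP_67388f_an.EM

open MeasureTheory Filter Topology

variable {I : Type} [Fintype I] {n : I → ℕ} {K : I → Type} [∀ i, NontriviallyNormedField (K i)]
  [∀ i, ProperSpace (K i)]
  (H : Type) [Group H] [TopologicalSpace H] [IsTopologicalGroup H] [LocallyCompactSpace H]
  [SecondCountableTopology H] [T2Space H]
  {X : Type} [TopologicalSpace X] [T2Space X] [LocallyCompactSpace X] [SecondCountableTopology X]
  [MulAction (GG n K × H) X] [ContinuousSMul (GG n K × H) X]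
  [MulAction.IsPretransitive (GG n K × H) X] [MeasurableSpace X] [BorelSpace X]

theorem close_pair {μ : Measure X} (J : ∀ i, Finset (Fin (n i) × Fin (n i)))
    {ρ₀ : ℝ} (hρ₀ : 0 < ρ₀) {N₀ : Set H} (hN₀ : N₀ ∈ 𝓝 (1 : H))
    (hnull : ∀ x : X,
      μ {y | ∃ (g : GG n K) (h : H), InPat J g ∧ Near g ρ₀ ∧ h ∈ N₀ ∧ y = (g, h) • x} = 0)
    {G' : Set X} (hG' : μ G' ≠ 0) {δ : ℝ} (hδ : 0 < δ) {N : Set H} (hN : N ∈ 𝓝 (1 : H)) :
    ∃ x ∈ G', ∃ (g : GG n K) (h : H), Near g δ ∧ h ∈ N ∧ (g, h) • x ∈ G' ∧ ¬ InPat J g := by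
  have hne : G'.Nonempty := by
    rw [Set.nonempty_iff_ne_empty]
    rintro rfl
    exact hG' measure_empty
  have hop : ∀ x : X, IsOpenMap (fun g : GG n K × H => g • x) := fun x =>
    isOpenMap_smul_of_sigmaCompact x
  obtain ⟨x0, hx0⟩ := hne
  have hq : Topology.IsQuotientMap (fun g : GG n K × H => g • x0) :=
    (hop x0).isQuotientMap (by fun_prop) (fun y => MulAction.exists_smul_eq _ x0 y)
  have : SecondCountableTopology X := hq.secondCountableTopology (hop x0)
  obtain ⟨x, hx, hpos⟩ := exists_mem_forall_mem_nhdsWithin_pos_measure hG'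
  have hU : {g : GG n K | Near g (min δ ρ₀)} ×ˢ (N ∩ N₀) ∈ 𝓝 (1 : GG n K × H) := by
    rw [Prod.one_eq_mk, nhds_prod_eq]
    exact prod_mem_prod (hasBasis_near.mem_of_mem (lt_min hδ hρ₀)) (inter_mem hN hN₀)
  set V : Set X := (fun g : GG n K × H => g • x) ''
    ({g : GG n K | Near g (min δ ρ₀)} ×ˢ (N ∩ N₀)) with hV
  have hVx : V ∈ 𝓝 x := by
    have h1 := (hop x).image_mem_nhds hU
    simpa using h1
  have h1 : 0 < μ (V ∩ G') := hpos _ (inter_mem (mem_nhdsWithin_of_mem_nhds hVx) self_mem_nhdsWithin)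
  have h2 : ¬ (V ∩ G' ⊆ {y | ∃ (g : GG n K) (h : H), InPat J g ∧ Near g ρ₀ ∧ h ∈ N₀ ∧
      y = (g, h) • x}) := by
    intro hsub
    exact h1.ne' (measure_mono_null hsub (hnull x))
  rw [Set.not_subset] at h2
  obtain ⟨y, ⟨⟨⟨g, h⟩, ⟨hg, hh⟩, rfl⟩, hyG⟩, hy⟩ := h2
  refine ⟨x, hx, g, h, near_mono hg (min_le_left _ _), hh.1, hyG, fun hpat => hy ?_⟩
  exact ⟨g, h, hpat, near_mono hg (min_le_right _ _), hh.2, rfl⟩

end Pool.Agent.Work.MP_67388f_an.EM
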