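import Pool.Agent.Work.MP_67388f_an.EM.Lem

/-!
# TY (size S-M): typical points (Borel-Cantelli)

## Proof
For `f ∈ F` the series `∑_s ∑_{D ∈ S s} μ.real {δ ≤ |avg D f - ∫ f|}` converges, so its tail from
some `s₀` on is at most `ε / (card F + 1)` for all `f ∈ F` at the same time
(`Summable`, `tendsto_sum_nat_add` / `summable_nat_add_iff`). Let `Gᶜ` be the union over `f ∈ F`,
`s ≥ s₀`, `D ∈ S s` of the closed (measurable) sets `{δ ≤ |avg D f - ∫ f|}` (`avg` is continuous);
countable subadditivity (`measure_iUnion_le`, `measure_biUnion_finset_le`, in `ENNReal` with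
`ofReal_measureReal`) gives `μ Gᶜ ≤ ε`.
-/

set_option autoImplicit false

namespace Pool.Agent.Work.MP_67388f_an.EM

open MeasureTheory Filter Topology

variable {I : Type} [Fintype I] {n : I → ℕ} {K : I → Type} [∀ i, NontriviallyNormedField (K i)]
  (H : Type) [Group H] [TopologicalSpace H]
  {X : Type} [TopologicalSpace X] [MulAction (GG n K × H) X] [ContinuousSMul (GG n K × H) X]
  [MeasurableSpace X] [BorelSpace X] {μ : Measure X} [IsProbabilityMeasure μ]

theorem continuous_avg (π : ∀ i, (K i)ˣ) (D : Finset (Lat n)) {f : X → ℝ} (hf : Continuous f) :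
    Continuous (avg H π D f) := by
  unfold avg
  exact (continuous_finsetSum _ fun k _ => hf.comp (continuous_act H π k)).div_const _

theorem typical {π : ∀ i, (K i)ˣ} (S : ℕ → Finset (Finset (Lat n)))
    (hS : ∀ (M : ℝ) (f : X → ℝ), Test n K H M f → ∀ δ : ℝ, 0 < δ →
      Summable fun s => ∑ D ∈ S s, μ.real {x | δ ≤ |avg H π D f x - ∫ y, f y ∂μ|})
    (F : Finset (X → ℝ)) (hF : ∀ f ∈ F, ∃ M, Test n K H M f) {δ ε : ℝ} (hδ : 0 < δ)
    (hε : 0 < ε) :
    ∃ (s₀ : ℕ) (G : Set X), MeasurableSet G ∧ μ.real Gᶜ ≤ ε ∧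
      ∀ x ∈ G, ∀ s, s₀ ≤ s → ∀ D ∈ S s, ∀ f ∈ F, |avg H π D f x - ∫ y, f y ∂μ| < δ := by
  classical
  let B : Finset (Lat n) → (X → ℝ) → Set X := fun D f => {x | δ ≤ |avg H π D f x - ∫ y, f y ∂μ|}
  obtain ⟨g, hg⟩ : ∃ g : ℕ → ℝ, g = fun s => ∑ f ∈ F, ∑ D ∈ S s, μ.real (B D f) := ⟨_, rfl⟩
  have hg0 : ∀ s, 0 ≤ g s := by
    intro s
    rw [hg]
    exact Finset.sum_nonneg fun f _ => Finset.sum_nonneg fun D _ => measureReal_nonneg
  have hsum : Summable g := by
    rw [hg]
    refine summable_sum fun f hf => ?_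
    obtain ⟨M, hM⟩ := hF f hf
    exact hS M f hM δ hδ
  obtain ⟨s₀, hs₀⟩ := ((tendsto_sum_nat_add g).eventually (gt_mem_nhds hε)).exists
  have hBm : ∀ D, ∀ f ∈ F, MeasurableSet (B D f) := by
    intro D f hf
    obtain ⟨M, hM⟩ := hF f hf
    have h1 : Continuous (avg H π D f) := continuous_avg H π D hM.1
    exact (isClosed_le continuous_const (h1.sub continuous_const).abs).measurableSet
  let U : Set X := ⋃ s : ℕ, ⋃ f ∈ F, ⋃ D ∈ S (s + s₀), B D f
  refine ⟨s₀, Uᶜ, ?_, ?_, ?_⟩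
  · refine MeasurableSet.compl (MeasurableSet.iUnion fun s => ?_)
    exact Finset.measurableSet_biUnion _ fun f hf =>
      Finset.measurableSet_biUnion _ fun D _ => hBm D f hf
  · rw [compl_compl]
    have h1 : μ U ≤ ∑' s, ∑ f ∈ F, ∑ D ∈ S (s + s₀), μ (B D f) := by
      refine (measure_iUnion_le _).trans (ENNReal.tsum_le_tsum fun s => ?_)
      refine (measure_biUnion_finset_le _ _).trans (Finset.sum_le_sum fun f _ => ?_)
      exact measure_biUnion_finset_le _ _
    have h2 : ∀ s, ∑ f ∈ F, ∑ D ∈ S (s + s₀), μ (B D f) = ENNReal.ofReal (g (s + s₀)) := by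
      intro s
      rw [hg, ENNReal.ofReal_sum_of_nonneg fun f _ => Finset.sum_nonneg fun D _ =>
        measureReal_nonneg]
      refine Finset.sum_congr rfl fun f _ => ?_
      rw [ENNReal.ofReal_sum_of_nonneg fun D _ => measureReal_nonneg]
      exact Finset.sum_congr rfl fun D _ => (ofReal_measureReal (measure_ne_top μ _)).symm
    have h3 : ENNReal.ofReal (∑' s, g (s + s₀)) = ∑' s, ENNReal.ofReal (g (s + s₀)) :=
      ENNReal.ofReal_tsum_of_nonneg (fun s => hg0 _) ((summable_nat_add_iff s₀).2 hsum)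
    rw [tsum_congr h2, ← h3] at h1
    exact ENNReal.toReal_le_of_le_ofReal hε.le (h1.trans (ENNReal.ofReal_le_ofReal hs₀.le))
  · intro x hx s hs D hD f hf
    by_contra hc
    refine hx ?_
    obtain ⟨m, rfl⟩ := Nat.exists_eq_add_of_le' hs
    simp only [U, Set.mem_iUnion]
    exact ⟨m, f, hf, D, hD, not_lt.1 hc⟩

end Pool.Agent.Work.MP_67388f_an.EM
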