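import Pool.Agent.Work.MP_67388f_an.EM.FIa
import Pool.Agent.Work.MP_67388f_an.EM.FIb
import Pool.Agent.Work.MP_67388f_an.EM.TY
import Pool.Agent.Work.MP_67388f_an.EM.CoF
import Pool.Agent.Work.MP_67388f_an.EM.PR

/-!
# FId (size M-L): almost invariance under an element of a root group outside `J`

## Proof
Let `F` be a finite set of test functions, `ε > 0`. For `f ∈ F` and `φ : Rt n` let `W f φ` be the net of
`finite_net` for `R = exp Q` and accuracy `ε / 4`. Let `F'` consist of the `f ∈ F` and of all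
`f_w' = fun x => f ((tv φ w', 1) • x)`, `f ∈ F`, `φ : Rt n`, `w' ∈ W f φ`; these are test functions
(`test_smul`). Let `S, s₁` be from `HasSampler`, `εG` from `corrected_pair`. `typical` for `S`, `F'`,
`δ' = ε / 8`, `εG` gives `s₀` and `G`; `corrected_pair` gives `G'` for `G`. `compare_avg` for `f ∈ F` and
accuracy `ε / 4` gives `δ₂ > 0` and `N₂ ∈ 𝓝 1` good for all `f ∈ F` (minimum, intersection). `Displ` for
`J`, `δ₂`, `max s₀ s₁` gives `δ₃`; `corrected_pair` with `ε := δ₃` gives `δ₄`; `close_pair` with `δ₄`,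
`N₂` gives `x ∈ G'`, `g`, `h` with `Near g δ₄`, `h ∈ N₂`, `(g,h) • x ∈ G'`, `¬ InPat J g`. So there are
`x₁ ∈ G`, `g₁` with `y₁ = (g₁,h) • x₁ ∈ G`, `OffPat J g₁`, `Near g₁ δ₃`, `¬ InPat J g₁`. `Displ` gives
`s ≥ max s₀ s₁`, `b`, `φ`, `w`; `HasSampler` (second clause) gives `D ∈ S s` with
`rv φ k = rv φ (pl b)`, `len (k - pl b) ≤ η 2^s` for `k ∈ D`, so
`Near (dg π k * g₁ * (dg π k)⁻¹ * (tv φ w)⁻¹) δ₂` (`tv_neg`). For `f ∈ F` choose `w' ∈ W f φ` for `w`.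
Then `|∫ f_w - ∫ f| ≤ |∫ f_w - ∫ f_w'| + |∫ f_w' - avg D f_w' x₁| + |avg D f_w' x₁ - avg D f_w x₁|
+ |avg D f_w x₁ - avg D f y₁| + |avg D f y₁ - ∫ f| ≤ ε/4 + ε/8 + ε/4 + ε/4 + ε/8 = ε`
(integrals of continuous compactly supported functions; `μ` is a probability measure).
-/

set_option autoImplicit false

namespace Pool.Agent.Work.MP_67388f_an.EM

open MeasureTheory Filter Topology

private theorem FId_avg {I : Type} {n : I → ℕ} {K : I → Type} [∀ i, NontriviallyNormedField (K i)]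
    (H : Type) [Group H] {X : Type} [MulAction (GG n K × H) X] (π : ∀ i, (K i)ˣ)
    (D : Finset (Lat n)) {f f' : X → ℝ} {c : ℝ} (hc : 0 ≤ c) (h : ∀ z, |f z - f' z| ≤ c) (x : X) :
    |avg H π D f x - avg H π D f' x| ≤ c := by
  unfold avg
  rw [← sub_div, ← Finset.sum_sub_distrib, abs_div, abs_of_nonneg (Nat.cast_nonneg (α := ℝ) D.card)]
  refine div_le_of_le_mul₀ (Nat.cast_nonneg _) hc ?_
  refine (Finset.abs_sum_le_sum_abs _ _).trans ?_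
  refine (Finset.sum_le_card_nsmul D _ c fun k _ => h _).trans ?_
  rw [nsmul_eq_mul, mul_comm]

private theorem FId_unif {H : Type} [Group H] [TopologicalSpace H] {A : Type} (F : Finset A)
    (P : A → ℝ → Set H → Prop)
    (hm : ∀ f δ δ' N N', δ' ≤ δ → N' ⊆ N → P f δ N → P f δ' N')
    (h : ∀ f ∈ F, ∃ δ > 0, ∃ N ∈ 𝓝 (1 : H), P f δ N) :
    ∃ δ > 0, ∃ N ∈ 𝓝 (1 : H), ∀ f ∈ F, P f δ N := by
  classical
  induction F using Finset.induction_on with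
  | empty => exact ⟨1, one_pos, Set.univ, univ_mem, fun f hf => absurd hf (Finset.notMem_empty f)⟩
  | insert a F ha ih =>
    obtain ⟨δ, hδ, N, hN, h1⟩ := ih fun f hf => h f (Finset.mem_insert_of_mem hf)
    obtain ⟨δ', hδ', N', hN', h2⟩ := h a (Finset.mem_insert_self a F)
    refine ⟨min δ δ', lt_min hδ hδ', N ∩ N', inter_mem hN hN', fun f hf => ?_⟩
    rcases Finset.mem_insert.1 hf with rfl | hf
    · exact hm _ _ _ _ _ (min_le_right _ _) Set.inter_subset_right h2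
    · exact hm _ _ _ _ _ (min_le_left _ _) Set.inter_subset_left (h1 f hf)

variable {I : Type} [Fintype I] {n : I → ℕ} {K : I → Type} [∀ i, NontriviallyNormedField (K i)]
  [∀ i, ProperSpace (K i)]
  (H : Type) [Group H] [TopologicalSpace H] [IsTopologicalGroup H] [LocallyCompactSpace H]
  [SecondCountableTopology H] [T2Space H]
  {X : Type} [TopologicalSpace X] [T2Space X] [LocallyCompactSpace X] [SecondCountableTopology X]
  [MulAction (GG n K × H) X] [ContinuousSMul (GG n K × H) X]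
  [MulAction.IsPretransitive (GG n K × H) X] [MeasurableSpace X] [BorelSpace X]
  {μ : Measure X} [IsProbabilityMeasure μ]

theorem almost_inv {π : ∀ i, (K i)ˣ} (hNI : ∀ i, NIProp (K i))
    (J : ∀ i, Finset (Fin (n i) × Fin (n i))) (hJ : ∀ i, ∀ φ ∈ J i, φ.1 ≠ φ.2)
    (htrans : ∀ i j m l, (j, m) ∈ J i → (m, l) ∈ J i → j ≠ l → (j, l) ∈ J i)
    (hfix : ∀ i, ∀ φ ∈ J i, ∀ c, Fix H μ (tv (K := K) (⟨i, φ⟩ : Rt n) c))
    {ρ₀ : ℝ} (hρ₀ : 0 < ρ₀) {N₀ : Set H} (hN₀ : N₀ ∈ 𝓝 (1 : H))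
    (hnull : ∀ x : X,
      μ {y | ∃ (g : GG n K) (h : H), InPat J g ∧ Near g ρ₀ ∧ h ∈ N₀ ∧ y = (g, h) • x} = 0)
    {pl : ℤ × ℤ →+ Lat n} {η C₁ Q : ℝ} (hD : Displ π pl η C₁ Q)
    (hS : HasSampler H π μ pl η C₁)
    (F : Finset (X → ℝ)) (hF : ∀ f ∈ F, ∃ M, Test n K H M f) {ε : ℝ} (hε : 0 < ε) :
    ∃ (φ : Rt n) (w : K φ.1), Off φ ∧ φ.2 ∉ J φ.1 ∧ Real.exp (-Q) ≤ ‖w‖ ∧ ‖w‖ ≤ Real.exp Q ∧
      ∀ f ∈ F, |∫ x, f ((tv φ w, (1 : H)) • x) ∂μ - ∫ x, f x ∂μ| ≤ ε := by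
  classical
  have hnet : ∀ f ∈ F, ∀ φ : Rt n, ∃ W : Finset (K φ.1), ∀ w : K φ.1, ‖w‖ ≤ Real.exp Q →
      ∃ w' ∈ W, ∀ x : X, |f ((tv φ w, (1 : H)) • x) - f ((tv φ w', (1 : H)) • x)| ≤ ε / 4 := by
    intro f hf φ
    obtain ⟨M, hM⟩ := hF f hf
    exact finite_net H hM.1 hM.2.1 φ (Real.exp Q) (by positivity)
  choose! W hW using hnet
  obtain ⟨F', hF'd⟩ : ∃ F' : Finset (X → ℝ), F' = F ∪ F.biUnion fun f =>
      (Finset.univ : Finset (Rt n)).biUnion fun φ =>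
        (W f φ).image fun w' => fun x => f ((tv φ w', (1 : H)) • x) := ⟨_, rfl⟩
  have hFF' : ∀ f ∈ F, f ∈ F' := by
    intro f hf
    rw [hF'd]
    exact Finset.mem_union_left _ hf
  have hWF' : ∀ f ∈ F, ∀ φ : Rt n, ∀ w' ∈ W f φ, (fun x => f ((tv φ w', (1 : H)) • x)) ∈ F' := by
    intro f hf φ w' hw'
    rw [hF'd]
    refine Finset.mem_union_right _ (Finset.mem_biUnion.2 ⟨f, hf, Finset.mem_biUnion.2
      ⟨φ, Finset.mem_univ _, Finset.mem_image.2 ⟨w', hw', rfl⟩⟩⟩)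
  have hF'T : ∀ f ∈ F', ∃ M, Test n K H M f := by
    intro f hf
    rw [hF'd] at hf
    rcases Finset.mem_union.1 hf with hf | hf
    · exact hF f hf
    · obtain ⟨f₀, hf₀, hf⟩ := Finset.mem_biUnion.1 hf
      obtain ⟨φ, -, hf⟩ := Finset.mem_biUnion.1 hf
      obtain ⟨w', -, rfl⟩ := Finset.mem_image.1 hf
      obtain ⟨M, hM⟩ := hF f₀ hf₀
      exact test_smul H _ hM
  obtain ⟨S, s₁, hSne, hSrich, hSsum⟩ := hS
  obtain ⟨εG, hεG, hcp⟩ := corrected_pair H (μ := μ) hNI J hJ htrans hfix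
  obtain ⟨s₀, G, hGm, hGμ, hG⟩ := typical H S hSsum F' hF'T (δ := ε / 8) (by positivity) hεG
  obtain ⟨G', hG'm, hG'0, hG'⟩ := hcp G hGm hGμ
  obtain ⟨δ₂, hδ₂, N₂, hN₂, hcmp⟩ := FId_unif (H := H) F
    (fun f δ N => ∀ (π : ∀ i, (K i)ˣ) (D : Finset (Lat n)) (x : X) (g u : GG n K)
      (h : H), h ∈ N → (∀ k ∈ D, Near (dg π k * g * (dg π k)⁻¹ * u⁻¹) δ) →
      |avg H π D f ((g, h) • x) - avg H π D (fun z => f ((u, (1 : H)) • z)) x| ≤ ε / 4)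
    (fun f δ δ' N N' hδ hN h π D x g u h' hh' hk =>
      h π D x g u h' (hN hh') fun k hkD => near_mono (hk k hkD) hδ)
    (fun f hf => by
      obtain ⟨M, hM⟩ := hF f hf
      exact compare_avg H hM.1 hM.2.1 (by positivity))
  obtain ⟨δ₃, hδ₃, hdis⟩ := hD J δ₂ (max s₀ s₁) hδ₂
  obtain ⟨δ₄, hδ₄, hcp2⟩ := hG' δ₃ hδ₃
  obtain ⟨x, hx, g, h, hg, hh, hgx, hgJ⟩ := close_pair H J hρ₀ hN₀ hnull hG'0 hδ₄ hN₂
  obtain ⟨x₁, hx₁, g₁, hy₁, hoff, hnear, hpat⟩ := hcp2 x hx g h hg hgx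
  obtain ⟨s, b, φ, w, hs, hb1, hb2, hφ, hφJ, hw1, hw2, hk⟩ := hdis g₁ hnear hoff (hpat hgJ)
  obtain ⟨D, hDS, hDk⟩ := hSrich s ((le_max_right _ _).trans hs) b hb1 hb2 φ hφ
  refine ⟨φ, w, hφ, hφJ, hw1, hw2, fun f hf => ?_⟩
  obtain ⟨w', hw', hww⟩ := hW f hf φ w hw2
  obtain ⟨M, hM⟩ := hF f hf
  have hint : ∀ u : GG n K, Integrable (fun x => f ((u, (1 : H)) • x)) μ := by
    intro u
    obtain ⟨M', hM'⟩ := test_smul H u hM
    exact hM'.1.integrable_of_hasCompactSupport hM'.2.1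
  have ha : |∫ x, f ((tv φ w, (1 : H)) • x) ∂μ - ∫ x, f ((tv φ w', (1 : H)) • x) ∂μ| ≤ ε / 4 := by
    rw [← integral_sub (hint _) (hint _)]
    have h1 := norm_integral_le_of_norm_le_const (μ := μ)
      (f := fun x => f ((tv φ w, (1 : H)) • x) - f ((tv φ w', (1 : H)) • x)) (C := ε / 4)
      (Filter.Eventually.of_forall fun x => by
        rw [Real.norm_eq_abs]
        exact hww x)
    rw [Real.norm_eq_abs, probReal_univ, mul_one] at h1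
    exact h1
  have hs0 : s₀ ≤ s := (le_max_left _ _).trans hs
  have hb := hG x₁ hx₁ s hs0 D hDS _ (hWF' f hf φ w' hw')
  have hc := FId_avg H π D (by positivity) hww x₁
  have hd := hcmp f hf π D x₁ g₁ (tv φ w) h hh fun k hkD => by
    have h1 := hk k (hDk k hkD).1 (hDk k hkD).2
    rwa [tv_neg] at h1
  have he := hG _ hy₁ s hs0 D hDS f (hFF' f hf)
  rw [abs_le] at ha hc hd ⊢
  rw [abs_lt] at hb he
  constructor <;> linarith [ha.1, ha.2, hb.1, hb.2, hc.1, hc.2, hd.1, hd.2, he.1, he.2]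

end Pool.Agent.Work.MP_67388f_an.EM
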