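import Pool.Agent.Work.MP_67388f_an.EM.ST
import Pool.Agent.Work.MP_67388f_an.EM.CoDefs

/-!
# FIe (size M): from almost invariance to exact invariance, and to the whole root group

## Proof
`exact_inv` : suppose that `tv φ w` does not preserve `μ` for all `φ` with `P φ` and all `w` in the
compact set `A φ = {exp (-Q) ≤ ‖w‖ ≤ exp Q}` of `K φ.1`. By `fix_of_test` there is for each such pair a
test function `f` with `∫ f ((tv φ w,1) • x) ≠ ∫ f`, and by continuity of
`w' ↦ ∫ f ((tv φ w',1) • x) ∂μ` (`continuous_integral_smul`, `continuous_tv`) a neighbourhood `V` of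
`w` and `ε > 0` with `|∫ f ((tv φ w',1) • x) - ∫ f| > ε` for `w' ∈ V`. Finitely many of the `V` cover
`A φ`; let `F` be the finite set of the functions and `ε` the minimum, over the finitely many
`φ : Rt n` as well. This contradicts the hypothesis for `F, ε`. (If there is no `φ` with `P φ` take
`F = ∅`.) `w ≠ 0` as `‖w‖ ≥ exp (-Q) > 0`.
`full_root` : `S = {c : K φ.1 | Fix H μ (tv φ c)}` is an additive subgroup (`tv_add`, `fix_mul`,
`tv_neg`, `fix_inv`, `tv_zero`, `fix_one`), closed (`isClosed_fix`, `continuous_tv`), contains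
`w ≠ 0`. Let `k ∈ Lat n` be `1` at `j`, `-1` at `l` (place `i`, `φ = ⟨i, (j, l)⟩`), `rv φ k = 2`,
`ϖ = π i ^ 2`, `‖ϖ‖ > 1`. By `conj_tv` and `fix_dg` (for `k` and `-k`) `S` is stable under `ϖ` and
`ϖ⁻¹`. `SubProp` gives `S = ⊤`.
-/

set_option autoImplicit false

namespace Pool.Agent.Work.MP_67388f_an.EM

open MeasureTheory Filter Topology

variable {I : Type} [Fintype I] {n : I → ℕ} {K : I → Type} [∀ i, NontriviallyNormedField (K i)]
  [∀ i, ProperSpace (K i)]
  (H : Type) [Group H] [TopologicalSpace H] [IsTopologicalGroup H]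
  {X : Type} [TopologicalSpace X] [T2Space X] [LocallyCompactSpace X] [SecondCountableTopology X]
  [MulAction (GG n K × H) X] [ContinuousSMul (GG n K × H) X] [MeasurableSpace X] [BorelSpace X]
  {μ : Measure X} [IsProbabilityMeasure μ]

theorem exact_inv (P : Rt n → Prop) (Q : ℝ)
    (h : ∀ F : Finset (X → ℝ), (∀ f ∈ F, ∃ M, Test n K H M f) → ∀ ε : ℝ, 0 < ε →
      ∃ (φ : Rt n) (w : K φ.1), P φ ∧ Real.exp (-Q) ≤ ‖w‖ ∧ ‖w‖ ≤ Real.exp Q ∧
        ∀ f ∈ F, |∫ x, f ((tv φ w, (1 : H)) • x) ∂μ - ∫ x, f x ∂μ| ≤ ε) :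
    ∃ (φ : Rt n) (w : K φ.1), P φ ∧ w ≠ 0 ∧ Fix H μ (tv φ w) := by
  classical
  by_contra hcon
  push Not at hcon
  have h1 : ∀ φ : Rt n, P φ → ∃ F : Finset (X → ℝ), (∀ f ∈ F, ∃ M, Test n K H M f) ∧
      ∃ ε : ℝ, 0 < ε ∧ ∀ w ∈ {w : K φ.1 | Real.exp (-Q) ≤ ‖w‖ ∧ ‖w‖ ≤ Real.exp Q},
        ∃ f ∈ F, ε < |∫ x, f ((tv φ w, (1 : H)) • x) ∂μ - ∫ x, f x ∂μ| := by
    intro φ hφ
    have hc : IsCompact {w : K φ.1 | Real.exp (-Q) ≤ ‖w‖ ∧ ‖w‖ ≤ Real.exp Q} := by
      have h2 : {w : K φ.1 | Real.exp (-Q) ≤ ‖w‖ ∧ ‖w‖ ≤ Real.exp Q} =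
          Metric.closedBall 0 (Real.exp Q) ∩ {w : K φ.1 | Real.exp (-Q) ≤ ‖w‖} := by
        ext w
        simp only [Set.mem_ofPred_eq, Set.mem_inter_iff, Metric.mem_closedBall, dist_zero_right]
        exact and_comm
      rw [h2]
      exact (isCompact_closedBall _ _).inter_right (isClosed_le continuous_const continuous_norm)
    refine hc.induction_on (p := fun s => ∃ F : Finset (X → ℝ), (∀ f ∈ F, ∃ M, Test n K H M f) ∧
      ∃ ε : ℝ, 0 < ε ∧ ∀ w ∈ s,
        ∃ f ∈ F, ε < |∫ x, f ((tv φ w, (1 : H)) • x) ∂μ - ∫ x, f x ∂μ|) ?_ ?_ ?_ ?_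
    · exact ⟨∅, fun f hf => absurd hf (Finset.notMem_empty f), 1, one_pos,
        fun w hw => absurd hw (Set.notMem_empty w)⟩
    · rintro s t hst ⟨F, hF, ε, hε, hs⟩
      exact ⟨F, hF, ε, hε, fun w hw => hs w (hst hw)⟩
    · rintro s t ⟨F, hF, ε, hε, hs⟩ ⟨F', hF', ε', hε', hs'⟩
      refine ⟨F ∪ F', fun f hf => ?_, min ε ε', lt_min hε hε', fun w hw => ?_⟩
      · rcases Finset.mem_union.1 hf with hf | hf
        · exact hF f hf
        · exact hF' f hf
      · rcases hw with hw | hw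
        · obtain ⟨f, hf, hlt⟩ := hs w hw
          exact ⟨f, Finset.mem_union_left _ hf, (min_le_left _ _).trans_lt hlt⟩
        · obtain ⟨f, hf, hlt⟩ := hs' w hw
          exact ⟨f, Finset.mem_union_right _ hf, (min_le_right _ _).trans_lt hlt⟩
    · intro w hw
      have hw0 : w ≠ 0 := by
        rintro rfl
        have h3 := hw.1
        rw [norm_zero] at h3
        exact absurd (Real.exp_pos (-Q)) (not_lt.2 h3)
      have h3 : ∃ (M : ℝ) (f : X → ℝ), Test n K H M f ∧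
          ∫ x, f ((tv φ w, (1 : H)) • x) ∂μ ≠ ∫ x, f x ∂μ := by
        by_contra h4
        push Not at h4
        exact hcon φ w hφ hw0 (fix_of_test H h4)
      obtain ⟨M, f, hf, hne⟩ := h3
      set d : ℝ := |∫ x, f ((tv φ w, (1 : H)) • x) ∂μ - ∫ x, f x ∂μ| with hd
      have hd0 : 0 < d := abs_pos.2 (sub_ne_zero.2 hne)
      have hcont : Continuous fun w' : K φ.1 =>
          |∫ x, f ((tv φ w', (1 : H)) • x) ∂μ - ∫ x, f x ∂μ| :=
        (((continuous_integral_smul H hf.1 hf.2.1).comp (continuous_tv φ)).sub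
          continuous_const).abs
      refine ⟨{w' | d / 2 < |∫ x, f ((tv φ w', (1 : H)) • x) ∂μ - ∫ x, f x ∂μ|},
        mem_nhdsWithin_of_mem_nhds ((isOpen_lt continuous_const hcont).mem_nhds ?_), {f}, ?_,
        d / 2, by positivity, fun w' hw' => ⟨f, Finset.mem_singleton_self f, hw'⟩⟩
      · change d / 2 < d
        linarith
      · intro f' hf'
        rw [Finset.mem_singleton] at hf'
        subst hf'
        exact ⟨M, hf⟩
  have h2 : ∀ s : Finset (Rt n), ∃ F : Finset (X → ℝ), (∀ f ∈ F, ∃ M, Test n K H M f) ∧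
      ∃ ε : ℝ, 0 < ε ∧ ∀ φ ∈ s, P φ → ∀ w : K φ.1, Real.exp (-Q) ≤ ‖w‖ → ‖w‖ ≤ Real.exp Q →
        ∃ f ∈ F, ε < |∫ x, f ((tv φ w, (1 : H)) • x) ∂μ - ∫ x, f x ∂μ| := by
    intro s
    induction s using Finset.induction_on with
    | empty => exact ⟨∅, fun f hf => absurd hf (Finset.notMem_empty f), 1, one_pos,
        fun φ hφ => absurd hφ (Finset.notMem_empty φ)⟩
    | insert φ s hφ ih =>
      obtain ⟨F, hF, ε, hε, hs⟩ := ih
      by_cases hP : P φ
      · obtain ⟨F', hF', ε', hε', hs'⟩ := h1 φ hP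
        refine ⟨F ∪ F', fun f hf => ?_, min ε ε', lt_min hε hε', fun ψ hψ hPψ w hw1 hw2 => ?_⟩
        · rcases Finset.mem_union.1 hf with hf | hf
          · exact hF f hf
          · exact hF' f hf
        · rcases Finset.mem_insert.1 hψ with rfl | hψ
          · obtain ⟨f, hf, hlt⟩ := hs' w ⟨hw1, hw2⟩
            exact ⟨f, Finset.mem_union_right _ hf, (min_le_right _ _).trans_lt hlt⟩
          · obtain ⟨f, hf, hlt⟩ := hs ψ hψ hPψ w hw1 hw2
            exact ⟨f, Finset.mem_union_left _ hf, (min_le_left _ _).trans_lt hlt⟩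
      · refine ⟨F, hF, ε, hε, fun ψ hψ hPψ w hw1 hw2 => ?_⟩
        rcases Finset.mem_insert.1 hψ with rfl | hψ
        · exact absurd hPψ hP
        · exact hs ψ hψ hPψ w hw1 hw2
  obtain ⟨F, hF, ε, hε, hs⟩ := h2 Finset.univ
  obtain ⟨φ, w, hP, hw1, hw2, hle⟩ := h F hF ε hε
  obtain ⟨f, hf, hlt⟩ := hs φ (Finset.mem_univ _) hP w hw1 hw2
  exact absurd (hle f hf) (not_le.2 hlt)

theorem full_root {π : ∀ i, (K i)ˣ} (hπ : ∀ i, 1 < ‖(π i : K i)‖) (hA : AInv n H π μ)
    {φ : Rt n} (hφ : Off φ) (hK : SubProp (K φ.1)) {w : K φ.1} (hw : w ≠ 0)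
    (hf : Fix H μ (tv φ w)) (c : K φ.1) : Fix H μ (tv φ c) := by
  classical
  let S : AddSubgroup (K φ.1) :=
    { carrier := {c | Fix H μ (tv φ c)}
      add_mem' := fun {a b} ha hb => by
        change Fix H μ (tv φ (a + b))
        rw [tv_add]
        exact fix_mul H ha hb
      zero_mem' := by
        change Fix H μ (tv φ 0)
        rw [tv_zero]
        exact fix_one H μ
      neg_mem' := fun {a} ha => by
        change Fix H μ (tv φ (-a))
        rw [tv_neg]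
        exact fix_inv H ha }
  have hcl : IsClosed (S : Set (K φ.1)) := (isClosed_fix H (μ := μ)).preimage (continuous_tv φ)
  let k : Lat n := ⟨Pi.single φ.1 (Pi.single φ.2.1 1 - Pi.single φ.2.2 1), fun i => by
    by_cases hi : i = φ.1
    · subst hi
      rw [Pi.single_eq_same]
      simp
    · rw [Pi.single_eq_of_ne hi]
      simp⟩
  have hk : rv φ k = 2 := by
    have h1 : k.1 φ.1 = Pi.single φ.2.1 1 - Pi.single φ.2.2 1 := by
      change (Pi.single φ.1 (Pi.single φ.2.1 1 - Pi.single φ.2.2 1) :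
        ∀ i, Fin (n i) → ℤ) φ.1 = _
      rw [Pi.single_eq_same]
    rw [rv, h1]
    have h2 : φ.2.1 ≠ φ.2.2 := hφ
    simp [h2, h2.symm]
  have hk' : rv φ (-k) = -2 := by rw [rv_neg, hk]
  have key : ∀ k : Lat n, ∀ c ∈ S, ((π φ.1 ^ rv φ k : (K φ.1)ˣ) : K φ.1) * c ∈ S := by
    intro k c hc
    change Fix H μ (tv φ _)
    rw [← conj_tv]
    exact fix_mul H (fix_mul H (fix_dg H hA k) hc) (fix_inv H (fix_dg H hA k))
  have hS := hK S hcl ⟨w, hf, hw⟩ ((π φ.1 ^ (2 : ℤ) : (K φ.1)ˣ) : K φ.1) ?_ ?_ ?_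
  · have : c ∈ S := by
      rw [hS]
      trivial
    exact this
  · rw [Units.val_zpow_eq_zpow_val, norm_zpow]
    exact one_lt_zpow₀ (hπ φ.1) (by norm_num)
  · intro c hc
    have := key k c hc
    rwa [hk] at this
  · intro c hc
    have := key (-k) c hc
    rwa [hk', zpow_neg, Units.val_inv_eq_inv_val] at this

end Pool.Agent.Work.MP_67388f_an.EM
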