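import Pool.Agent.Work.MP_67388f_an.EM.Lem

/-!
# GEb (size M): a plane in the lattice on which all roots have different directions

## Proof
Number the pairs `(i, j)` by an injection `t : (Σ i, Fin (n i)) → ℕ` (`Fintype.equivFin`) and put
`u (i,j) = (2 ^ t, 4 ^ t) ∈ ℤ²`, `p i j = n i • u (i,j) - ∑_l u (i,l)`; so `∑_j p i j = 0`, and
`pl b = fun i j => (p i j).1 * b.1 + (p i j).2 * b.2` is an additive map to `Lat n`. For
`φ = ⟨i, (j, l)⟩` put `q φ = p i j - p i l = n i • (u (i,j) - u (i,l))`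
`= n i (2^t - 2^t') (1, 2^t + 2^t')` with `t = t(i,j)`, `t' = t(i,l)`. If `j ≠ l` this is not zero
(`n i > 0` as `Fin (n i)` is inhabited). Same direction for `φ ≠ φ'`: let `a • q φ = c • q φ'` with
`a, c > 0`; comparing first components: `2^t - 2^t'` and `2^s - 2^s'` have the same sign; the
quotient of the components: `2^t + 2^t' = 2^s + 2^s'`, hence `{t, t'} = {s, s'}` (uniqueness of
binary expansions; e.g. let w.l.o.g. `t' < t`, `s' < s` (same signs) and compare the largest terms: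
if `t < s` then `2^t + 2^t' < 2^(t+1) ≤ 2^s`, contradiction) and with the signs `t = s`, `t' = s'`,
so `φ = φ'` by injectivity.
-/

set_option autoImplicit false

namespace Pool.Agent.Work.MP_67388f_an.EM

private theorem two_pow_pair {t t' s s' : ℕ} (h1 : t' < t) (h2 : s' < s)
    (h : 2 ^ t + 2 ^ t' = 2 ^ s + 2 ^ s') : t = s ∧ t' = s' := by
  have key : ∀ {t t' s s' : ℕ}, t' < t → s' < s → 2 ^ t + 2 ^ t' = 2 ^ s + 2 ^ s' → ¬ t < s := by
    intro t t' s s' h1 h2 h hlt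
    have e1 : 2 ^ t' < 2 ^ t := Nat.pow_lt_pow_right (by norm_num) h1
    have e2 : 2 ^ (t + 1) ≤ 2 ^ s := Nat.pow_le_pow_right (by norm_num) hlt
    have e3 : 0 < 2 ^ s' := by positivity
    rw [pow_succ] at e2
    omega
  have e1 : t = s := by
    have a := key h1 h2 h
    have b := key h2 h1 h.symm
    omega
  subst e1
  refine ⟨rfl, ?_⟩
  have e2 : 2 ^ t' = 2 ^ s' := by omega
  exact Nat.pow_right_injective (le_refl 2) e2

private theorem same_dir {N N' : ℤ} (hN : 0 < N) (hN' : 0 < N') {t t' s s' : ℕ} (h1 : t ≠ t')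
    (h2 : s ≠ s') {a c : ℝ} (ha : 0 < a) (hc : 0 < c)
    (e1 : a * ((N * (2 ^ t - 2 ^ t') : ℤ) : ℝ) = c * ((N' * (2 ^ s - 2 ^ s') : ℤ) : ℝ))
    (e2 : a * ((N * (4 ^ t - 4 ^ t') : ℤ) : ℝ) = c * ((N' * (4 ^ s - 4 ^ s') : ℤ) : ℝ)) :
    t = s ∧ t' = s' := by
  have hNr : (0 : ℝ) < N := by exact_mod_cast hN
  have hNr' : (0 : ℝ) < N' := by exact_mod_cast hN'
  have h4 : ∀ k : ℕ, (4 : ℝ) ^ k = 2 ^ k * 2 ^ k := by
    intro k
    rw [← mul_pow]
    norm_num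
  push_cast at e1 e2
  rw [h4, h4, h4, h4] at e2
  have hd : (2 : ℝ) ^ s - 2 ^ s' ≠ 0 := by
    intro h
    have e3 : (2 : ℝ) ^ s = 2 ^ s' := by linarith
    have e4 : (2 : ℕ) ^ s = 2 ^ s' := by exact_mod_cast e3
    exact h2 (Nat.pow_right_injective (le_refl 2) e4)
  have e3 : (2 : ℝ) ^ t + 2 ^ t' = 2 ^ s + 2 ^ s' := by
    have e4 : (c * (N' * ((2 : ℝ) ^ s - 2 ^ s'))) * (2 ^ t + 2 ^ t') =
        (c * (N' * ((2 : ℝ) ^ s - 2 ^ s'))) * (2 ^ s + 2 ^ s') := by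
      rw [← e1]
      linear_combination e2 - e1 * (2 ^ s + 2 ^ s')
    exact mul_left_cancel₀ (mul_ne_zero hc.ne' (mul_ne_zero hNr'.ne' hd)) e4
  have e3' : 2 ^ t + 2 ^ t' = 2 ^ s + 2 ^ s' := by exact_mod_cast e3
  -- signs
  have hmono : ∀ {x y : ℕ}, x < y → (2 : ℝ) ^ x < 2 ^ y := by
    intro x y hxy
    exact pow_lt_pow_right₀ (by norm_num) hxy
  rcases lt_or_gt_of_ne h1 with h | h
  · rcases lt_or_gt_of_ne h2 with h' | h'
    · have := two_pow_pair h h' (by omega)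
      exact ⟨this.2, this.1⟩
    · exfalso
      have f1 : a * (N * ((2 : ℝ) ^ t - 2 ^ t')) < 0 := by
        apply mul_neg_of_pos_of_neg ha
        apply mul_neg_of_pos_of_neg hNr
        linarith [hmono h]
      have f2 : 0 < c * (N' * ((2 : ℝ) ^ s - 2 ^ s')) := by
        apply mul_pos hc
        apply mul_pos hNr'
        linarith [hmono h']
      linarith
  · rcases lt_or_gt_of_ne h2 with h' | h'
    · exfalso
      have f1 : 0 < a * (N * ((2 : ℝ) ^ t - 2 ^ t')) := by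
        apply mul_pos ha
        apply mul_pos hNr
        linarith [hmono h]
      have f2 : c * (N' * ((2 : ℝ) ^ s - 2 ^ s')) < 0 := by
        apply mul_neg_of_pos_of_neg hc
        apply mul_neg_of_pos_of_neg hNr'
        linarith [hmono h']
      linarith
    · exact two_pow_pair h h' e3'

theorem exists_plane {I : Type} [Fintype I] (n : I → ℕ) :
    ∃ (pl : ℤ × ℤ →+ Lat n) (q : Rt n → ℤ × ℤ),
      (∀ φ b, rv φ (pl b) = (q φ).1 * b.1 + (q φ).2 * b.2) ∧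
      (∀ φ, Off φ → q φ ≠ 0) ∧
      ∀ φ φ', Off φ → Off φ' → φ ≠ φ' → ∀ a c : ℝ, 0 < a → 0 < c →
        ¬ (a * ((q φ).1 : ℝ) = c * ((q φ').1 : ℝ) ∧ a * ((q φ).2 : ℝ) = c * ((q φ').2 : ℝ)) := by
  classical
  let t : ((i : I) × Fin (n i)) → ℕ := fun x => (Fintype.equivFin ((i : I) × Fin (n i)) x : ℕ)
  have ht : Function.Injective t := by
    intro x y h
    exact (Fintype.equivFin _).injective (Fin.ext h)
  let p : ∀ i : I, Fin (n i) → ℤ × ℤ := fun i j =>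
    ((n i : ℤ) * 2 ^ t ⟨i, j⟩ - ∑ l, 2 ^ t ⟨i, l⟩, (n i : ℤ) * 4 ^ t ⟨i, j⟩ - ∑ l, 4 ^ t ⟨i, l⟩)
  have hp1 : ∀ i, ∑ j, (p i j).1 = 0 := by
    intro i
    simp only [p, Finset.sum_sub_distrib, Finset.sum_const, Finset.card_univ, Fintype.card_fin,
      nsmul_eq_mul, ← Finset.mul_sum]
    ring
  have hp2 : ∀ i, ∑ j, (p i j).2 = 0 := by
    intro i
    simp only [p, Finset.sum_sub_distrib, Finset.sum_const, Finset.card_univ, Fintype.card_fin,
      nsmul_eq_mul, ← Finset.mul_sum]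
    ring
  let pl : ℤ × ℤ →+ Lat n :=
    { toFun := fun b => ⟨fun i j => (p i j).1 * b.1 + (p i j).2 * b.2, by
        intro i
        rw [Finset.sum_add_distrib, ← Finset.sum_mul, ← Finset.sum_mul, hp1, hp2]
        ring⟩
      map_zero' := by
        apply Subtype.ext
        funext i j
        simp
      map_add' := by
        intro a b
        apply Subtype.ext
        funext i j
        simp only [Prod.fst_add, Prod.snd_add]
        show (p i j).1 * (a.1 + b.1) + (p i j).2 * (a.2 + b.2) =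
          ((p i j).1 * a.1 + (p i j).2 * a.2) + ((p i j).1 * b.1 + (p i j).2 * b.2)
        ring }
  let q : Rt n → ℤ × ℤ := fun φ => p φ.1 φ.2.1 - p φ.1 φ.2.2
  have hq1 : ∀ φ : Rt n, (q φ).1 = (n φ.1 : ℤ) * (2 ^ t ⟨φ.1, φ.2.1⟩ - 2 ^ t ⟨φ.1, φ.2.2⟩) := by
    intro φ
    simp only [q, p, Prod.fst_sub]
    ring
  have hq2 : ∀ φ : Rt n, (q φ).2 = (n φ.1 : ℤ) * (4 ^ t ⟨φ.1, φ.2.1⟩ - 4 ^ t ⟨φ.1, φ.2.2⟩) := by
    intro φ
    simp only [q, p, Prod.snd_sub]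
    ring
  have hn : ∀ φ : Rt n, (0 : ℤ) < (n φ.1 : ℤ) := by
    intro φ
    have := φ.2.1.pos
    exact_mod_cast this
  have htne : ∀ φ : Rt n, Off φ → t ⟨φ.1, φ.2.1⟩ ≠ t ⟨φ.1, φ.2.2⟩ := by
    intro φ hφ h
    have h1 := ht h
    apply hφ
    simpa using h1
  refine ⟨pl, q, ?_, ?_, ?_⟩
  · intro φ b
    show ((p φ.1 φ.2.1).1 * b.1 + (p φ.1 φ.2.1).2 * b.2) -
      ((p φ.1 φ.2.2).1 * b.1 + (p φ.1 φ.2.2).2 * b.2) = _
    simp only [q, Prod.fst_sub, Prod.snd_sub]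
    ring
  · intro φ hφ h
    have h1 : (q φ).1 = 0 := by rw [h]; rfl
    rw [hq1] at h1
    rcases mul_eq_zero.1 h1 with h2 | h2
    · exact (hn φ).ne' h2
    · have h3 : (2 : ℤ) ^ t ⟨φ.1, φ.2.1⟩ = 2 ^ t ⟨φ.1, φ.2.2⟩ := by linarith
      have h4 : (2 : ℕ) ^ t ⟨φ.1, φ.2.1⟩ = 2 ^ t ⟨φ.1, φ.2.2⟩ := by exact_mod_cast h3
      exact htne φ hφ (Nat.pow_right_injective (le_refl 2) h4)
  · intro φ φ' hφ hφ' hne a c ha hc h
    obtain ⟨h1, h2⟩ := h
    rw [hq1, hq1] at h1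
    rw [hq2, hq2] at h2
    have h3 := same_dir (hn φ) (hn φ') (htne φ hφ) (htne φ' hφ') ha hc h1 h2
    apply hne
    obtain ⟨i, j, l⟩ := φ
    obtain ⟨i', j', l'⟩ := φ'
    have h4 := ht h3.1
    have h5 := ht h3.2
    simp only [Sigma.mk.injEq] at h4 h5
    obtain ⟨h6, h7⟩ := h4
    subst h6
    rw [eq_of_heq h7, eq_of_heq h5.2]

end Pool.Agent.Work.MP_67388f_an.EM
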