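import Pool.Agent.Work.MP_67388f_an.EM.Lem

/-!
# KerV (size S-M): vectors in the kernel of a root

The rank of `Lat n` is `∑ i, (n i - 1)`. Let `φ = ⟨i, (j, l)⟩`, `j ≠ l` (so `n i ≥ 2`).

## Proof
`ker_vec` (rank at least 2): if `n i ≥ 3` take a third index `m` and `e = (1 at j, 1 at l, -2 at m)`
at the place `i`, `0` elsewhere. If `n i = 2` then some other place `i'` has `n i' ≥ 2` (otherwise
the sum would be 1); take `e = (1 at one index, -1 at another index)` at `i'`.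
`ker_vec2` (rank at least 3): find `e₁, e₂` in the kernel and two entries (positions) such that the
entries of `a e₁ + b e₂` there are `±a` and `±b`; then `len (a e₁ + b e₂) ≥ |a| + |b|`.
* `n i ≥ 4`, further indices `m₁ ≠ m₂`: `e₁ = (1 at j, 1 at l, -2 at m₁)`, `e₂ = (1 at m₁, -1 at m₂)`
  (entries at `j`: `a`, at `m₂`: `-b`).
* `n i = 3`: some other place `i'` has `n i' ≥ 2`: `e₁ = (1, 1, -2)` at `i`, `e₂ = (1, -1)` at `i'`.
* `n i = 2`: the other places have total rank at least 2. Either a place `i'` has `n i' ≥ 3`: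
  `e₁ = (1 at m₁, -1 at m₂)`, `e₂ = (1 at m₂, -1 at m₃)` (entries at `m₁`: `a`, at `m₃`: `-b`); or
  two places `i' ≠ i''` have `n ≥ 2`: `e₁ = (1,-1)` at `i'`, `e₂ = (1,-1)` at `i''`.
-/

set_option autoImplicit false

namespace Pool.Agent.Work.MP_67388f_an.EM

variable {I : Type} [Fintype I] {n : I → ℕ}

section aux

open Classical in
omit [Fintype I] in
private noncomputable def sv (i : I) (v : Fin (n i) → ℤ) (hv : ∑ j, v j = 0) : Lat n :=
  ⟨Pi.single i v, by
    intro i'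
    by_cases h : i' = i
    · subst h
      rw [Pi.single_eq_same]
      exact hv
    · rw [Pi.single_eq_of_ne h]
      simp⟩

omit [Fintype I] in
private theorem sv_same (i : I) (v : Fin (n i) → ℤ) (hv : ∑ j, v j = 0) :
    (sv i v hv).1 i = v := by
  classical
  exact Pi.single_eq_same (M := fun i => Fin (n i) → ℤ) i v

omit [Fintype I] in
private theorem sv_ne (i : I) (v : Fin (n i) → ℤ) (hv : ∑ j, v j = 0) {i' : I} (h : i' ≠ i) :
    (sv i v hv).1 i' = 0 := by
  classical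
  exact Pi.single_eq_of_ne (M := fun i => Fin (n i) → ℤ) h v

private theorem exists_idx {N : ℕ} (s : Finset (Fin N)) (h : s.card < N) : ∃ m, m ∉ s := by
  by_contra hc
  push Not at hc
  have h1 : s = Finset.univ := Finset.eq_univ_of_forall hc
  rw [h1, Finset.card_univ, Fintype.card_fin] at h
  exact lt_irrefl _ h

private theorem len_two (k : Lat n) {p q : (i : I) × Fin (n i)} (hpq : p ≠ q) :
    |(k.1 p.1 p.2 : ℝ)| + |(k.1 q.1 q.2 : ℝ)| ≤ len k := by
  classical
  unfold len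
  rw [Finset.sum_sigma']
  rw [← Finset.sum_pair (f := fun x : (i : I) × Fin (n i) => |(k.1 x.1 x.2 : ℝ)|) hpq]
  refine Finset.sum_le_sum_of_subset_of_nonneg ?_ fun _ _ _ => abs_nonneg _
  intro x _
  simp

private theorem two_ent {e₁ e₂ : Lat n} {p q : (i : I) × Fin (n i)} (hpq : p ≠ q)
    (h1 : |e₁.1 p.1 p.2| = 1) (h2 : e₂.1 p.1 p.2 = 0) (h3 : e₁.1 q.1 q.2 = 0)
    (h4 : |e₂.1 q.1 q.2| = 1) (a b : ℤ) : |(a : ℝ)| + |(b : ℝ)| ≤ len (a • e₁ + b • e₂) := by
  refine le_trans (le_of_eq ?_) (len_two (a • e₁ + b • e₂) hpq)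
  have e1 : (a • e₁ + b • e₂).1 p.1 p.2 = a * e₁.1 p.1 p.2 + b * e₂.1 p.1 p.2 := rfl
  have e2 : (a • e₁ + b • e₂).1 q.1 q.2 = a * e₁.1 q.1 q.2 + b * e₂.1 q.1 q.2 := rfl
  have h1' : |(e₁.1 p.1 p.2 : ℝ)| = 1 := by exact_mod_cast h1
  have h4' : |(e₂.1 q.1 q.2 : ℝ)| = 1 := by exact_mod_cast h4
  rw [e1, e2, h2, h3]
  push_cast
  rw [mul_zero, mul_zero, add_zero, zero_add, abs_mul, abs_mul, h1', h4', mul_one, mul_one]

/-- `1` at `a`, `-1` at `b` -/
private def v2 {N : ℕ} (a b : Fin N) : Fin N → ℤ := Pi.single a 1 - Pi.single b 1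

private theorem v2_sum {N : ℕ} (a b : Fin N) : ∑ j, v2 a b j = 0 := by
  simp [v2]

private theorem v2_a {N : ℕ} {a b : Fin N} (h : a ≠ b) : v2 a b a = 1 := by
  simp [v2, h]

private theorem v2_b {N : ℕ} {a b : Fin N} (h : a ≠ b) : v2 a b b = -1 := by
  simp [v2, h.symm]

private theorem v2_c {N : ℕ} {a b c : Fin N} (h : c ≠ a) (h' : c ≠ b) : v2 a b c = 0 := by
  simp [v2, h, h']

/-- `1` at `a`, `1` at `b`, `-2` at `c` -/
private def v3 {N : ℕ} (a b c : Fin N) : Fin N → ℤ :=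
  Pi.single a 1 + Pi.single b 1 - Pi.single c 2

private theorem v3_sum {N : ℕ} (a b c : Fin N) : ∑ j, v3 a b c j = 0 := by
  simp [v3, Finset.sum_add_distrib]

private theorem v3_a {N : ℕ} {a b c : Fin N} (h : a ≠ b) (h' : a ≠ c) : v3 a b c a = 1 := by
  simp [v3, h, h']

private theorem v3_b {N : ℕ} {a b c : Fin N} (h : a ≠ b) (h' : b ≠ c) : v3 a b c b = 1 := by
  simp [v3, h.symm, h']

private theorem v3_d {N : ℕ} {a b c d : Fin N} (h : d ≠ a) (h' : d ≠ b) (h'' : d ≠ c) :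
    v3 a b c d = 0 := by
  simp [v3, h, h', h'']

end aux

/-- another place with `n ≥ 2` -/
private theorem other {i : I} (h : n i < ∑ i, (n i - 1) + 1) (hi : 1 ≤ n i) :
    ∃ i', i' ≠ i ∧ 2 ≤ n i' := by
  classical
  have h1 := Finset.add_sum_erase Finset.univ (fun i => n i - 1) (Finset.mem_univ i)
  have h2 : ∑ i ∈ Finset.univ.erase i, (n i - 1) ≠ 0 := by omega
  obtain ⟨i', hi', h3⟩ := Finset.exists_ne_zero_of_sum_ne_zero h2
  exact ⟨i', Finset.ne_of_mem_erase hi', by omega⟩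

theorem ker_vec (hr : 2 ≤ ∑ i, (n i - 1)) (φ : Rt n) (hφ : Off φ) :
    ∃ e : Lat n, e ≠ 0 ∧ rv φ e = 0 := by
  obtain ⟨i, j, l⟩ := φ
  have hjl : j ≠ l := hφ
  have hn2 : 2 ≤ n i := by
    by_contra hc
    apply hjl
    ext
    have := j.2
    have := l.2
    omega
  rcases Nat.lt_or_ge (n i) 3 with h3 | h3
  · obtain ⟨i', hi', h4⟩ := other (n := n) (i := i) (by omega) (by omega)
    let a : Fin (n i') := ⟨0, by omega⟩
    let b : Fin (n i') := ⟨1, by omega⟩
    have hab : a ≠ b := by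
      intro h
      exact absurd (congrArg Fin.val h) (by simp [a, b])
    refine ⟨sv i' (v2 a b) (v2_sum a b), ?_, ?_⟩
    · intro h0
      have h5 : (sv i' (v2 a b) (v2_sum a b)).1 i' a = 0 := by rw [h0]; rfl
      rw [sv_same, v2_a hab] at h5
      exact one_ne_zero h5
    · change (sv i' (v2 a b) (v2_sum a b)).1 i j - (sv i' (v2 a b) (v2_sum a b)).1 i l = 0
      rw [sv_ne _ _ _ hi'.symm]
      rfl
  · obtain ⟨m, hm⟩ := exists_idx ({j, l} : Finset (Fin (n i)))
      (lt_of_le_of_lt Finset.card_le_two (by omega))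
    rw [Finset.mem_insert, Finset.mem_singleton, not_or] at hm
    refine ⟨sv i (v3 j l m) (v3_sum j l m), ?_, ?_⟩
    · intro h0
      have h5 : (sv i (v3 j l m) (v3_sum j l m)).1 i j = 0 := by rw [h0]; rfl
      rw [sv_same, v3_a hjl (Ne.symm hm.1)] at h5
      exact one_ne_zero h5
    · change (sv i (v3 j l m) (v3_sum j l m)).1 i j - (sv i (v3 j l m) (v3_sum j l m)).1 i l = 0
      rw [sv_same, v3_a hjl (Ne.symm hm.1), v3_b hjl (Ne.symm hm.2), sub_self]

omit [Fintype I] in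
private theorem two_places (s : Finset I) (f : I → ℕ) (h : 2 ≤ ∑ i ∈ s, f i) :
    (∃ i ∈ s, 2 ≤ f i) ∨ ∃ i ∈ s, ∃ i' ∈ s, i ≠ i' ∧ 1 ≤ f i ∧ 1 ≤ f i' := by
  classical
  have h2 : ∑ i ∈ s, f i ≠ 0 := by omega
  obtain ⟨i, hi, h3⟩ := Finset.exists_ne_zero_of_sum_ne_zero h2
  rcases Nat.lt_or_ge (f i) 2 with h4 | h4
  · right
    have h5 := Finset.add_sum_erase s f hi
    have h6 : ∑ i ∈ s.erase i, f i ≠ 0 := by omega
    obtain ⟨i', hi', h7⟩ := Finset.exists_ne_zero_of_sum_ne_zero h6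
    exact ⟨i, hi, i', Finset.mem_of_mem_erase hi', (Finset.ne_of_mem_erase hi').symm, by omega,
      by omega⟩
  · exact Or.inl ⟨i, hi, h4⟩

theorem ker_vec2 (hr : 3 ≤ ∑ i, (n i - 1)) (φ : Rt n) (hφ : Off φ) :
    ∃ e₁ e₂ : Lat n, rv φ e₁ = 0 ∧ rv φ e₂ = 0 ∧
      ∀ a b : ℤ, |(a : ℝ)| + |(b : ℝ)| ≤ len (a • e₁ + b • e₂) := by
  classical
  obtain ⟨i, j, l⟩ := φ
  have hjl : j ≠ l := hφ
  have hn2 : 2 ≤ n i := by
    by_contra hc
    apply hjl
    ext
    have := j.2
    have := l.2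
    omega
  -- vectors at another place are in the kernel
  have hout : ∀ (i' : I) (v : Fin (n i') → ℤ) (hv : ∑ j, v j = 0), i' ≠ i →
      rv (⟨i, (j, l)⟩ : Rt n) (sv i' v hv) = 0 := by
    intro i' v hv hi'
    change (sv i' v hv).1 i j - (sv i' v hv).1 i l = 0
    rw [sv_ne _ _ _ hi'.symm]
    rfl
  rcases Nat.lt_or_ge (n i) 3 with h3 | h3
  · -- `n i = 2`
    have h1 := Finset.add_sum_erase Finset.univ (fun i => n i - 1) (Finset.mem_univ i)
    rcases two_places (Finset.univ.erase i) (fun i => n i - 1) (by omega) with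
      ⟨i', hi', h4⟩ | ⟨i', hi', i'', hi'', hne, h4, h5⟩
    · have hi := Finset.ne_of_mem_erase hi'
      let a : Fin (n i') := ⟨0, by omega⟩
      let b : Fin (n i') := ⟨1, by omega⟩
      let c : Fin (n i') := ⟨2, by omega⟩
      have hab : a ≠ b := fun h => absurd (congrArg Fin.val h) (by simp [a, b])
      have hac : a ≠ c := fun h => absurd (congrArg Fin.val h) (by simp [a, c])
      have hbc : b ≠ c := fun h => absurd (congrArg Fin.val h) (by simp [b, c])
      refine ⟨sv i' (v2 a b) (v2_sum a b), sv i' (v2 b c) (v2_sum b c), hout _ _ _ hi,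
        hout _ _ _ hi, two_ent (p := ⟨i', a⟩) (q := ⟨i', c⟩) ?_ ?_ ?_ ?_ ?_⟩
      · intro h
        exact hac (eq_of_heq (Sigma.mk.inj h).2)
      · change |(sv i' (v2 a b) (v2_sum a b)).1 i' a| = 1
        rw [sv_same, v2_a hab, abs_one]
      · change (sv i' (v2 b c) (v2_sum b c)).1 i' a = 0
        rw [sv_same, v2_c hab hac]
      · change (sv i' (v2 a b) (v2_sum a b)).1 i' c = 0
        rw [sv_same, v2_c hac.symm hbc.symm]
      · change |(sv i' (v2 b c) (v2_sum b c)).1 i' c| = 1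
        rw [sv_same, v2_b hbc, abs_neg, abs_one]
    · let a : Fin (n i') := ⟨0, by omega⟩
      let b : Fin (n i') := ⟨1, by omega⟩
      have hab : a ≠ b := fun h => absurd (congrArg Fin.val h) (by simp [a, b])
      let a' : Fin (n i'') := ⟨0, by omega⟩
      let b' : Fin (n i'') := ⟨1, by omega⟩
      have hab' : a' ≠ b' := fun h => absurd (congrArg Fin.val h) (by simp [a', b'])
      refine ⟨sv i' (v2 a b) (v2_sum a b), sv i'' (v2 a' b') (v2_sum a' b'),
        hout _ _ _ (Finset.ne_of_mem_erase hi'), hout _ _ _ (Finset.ne_of_mem_erase hi''),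
        two_ent (p := ⟨i', a⟩) (q := ⟨i'', a'⟩) ?_ ?_ ?_ ?_ ?_⟩
      · intro h
        exact hne (Sigma.mk.inj h).1
      · change |(sv i' (v2 a b) (v2_sum a b)).1 i' a| = 1
        rw [sv_same, v2_a hab, abs_one]
      · change (sv i'' (v2 a' b') (v2_sum a' b')).1 i' a = 0
        rw [sv_ne _ _ _ hne]
        rfl
      · change (sv i' (v2 a b) (v2_sum a b)).1 i'' a' = 0
        rw [sv_ne _ _ _ hne.symm]
        rfl
      · change |(sv i'' (v2 a' b') (v2_sum a' b')).1 i'' a'| = 1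
        rw [sv_same, v2_a hab', abs_one]
  · obtain ⟨m, hm⟩ := exists_idx ({j, l} : Finset (Fin (n i)))
      (lt_of_le_of_lt Finset.card_le_two (by omega))
    rw [Finset.mem_insert, Finset.mem_singleton, not_or] at hm
    have hin : rv (⟨i, (j, l)⟩ : Rt n) (sv i (v3 j l m) (v3_sum j l m)) = 0 := by
      change (sv i (v3 j l m) (v3_sum j l m)).1 i j - (sv i (v3 j l m) (v3_sum j l m)).1 i l = 0
      rw [sv_same, v3_a hjl (Ne.symm hm.1), v3_b hjl (Ne.symm hm.2), sub_self]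
    rcases Nat.lt_or_ge (n i) 4 with h4 | h4
    · obtain ⟨i', hi', h5⟩ := other (n := n) (i := i) (by omega) (by omega)
      let a : Fin (n i') := ⟨0, by omega⟩
      let b : Fin (n i') := ⟨1, by omega⟩
      have hab : a ≠ b := fun h => absurd (congrArg Fin.val h) (by simp [a, b])
      refine ⟨sv i (v3 j l m) (v3_sum j l m), sv i' (v2 a b) (v2_sum a b), hin, hout _ _ _ hi',
        two_ent (p := ⟨i, j⟩) (q := ⟨i', a⟩) ?_ ?_ ?_ ?_ ?_⟩
      · intro h
        exact hi' (Sigma.mk.inj h).1.symm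
      · change |(sv i (v3 j l m) (v3_sum j l m)).1 i j| = 1
        rw [sv_same, v3_a hjl (Ne.symm hm.1), abs_one]
      · change (sv i' (v2 a b) (v2_sum a b)).1 i j = 0
        rw [sv_ne _ _ _ hi'.symm]
        rfl
      · change (sv i (v3 j l m) (v3_sum j l m)).1 i' a = 0
        rw [sv_ne _ _ _ hi']
        rfl
      · change |(sv i' (v2 a b) (v2_sum a b)).1 i' a| = 1
        rw [sv_same, v2_a hab, abs_one]
    · obtain ⟨m', hm'⟩ := exists_idx ({j, l, m} : Finset (Fin (n i)))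
        (lt_of_le_of_lt Finset.card_le_three (by omega))
      simp only [Finset.mem_insert, Finset.mem_singleton, not_or] at hm'
      refine ⟨sv i (v3 j l m) (v3_sum j l m), sv i (v2 m m') (v2_sum m m'), hin, ?_,
        two_ent (p := ⟨i, j⟩) (q := ⟨i, m'⟩) ?_ ?_ ?_ ?_ ?_⟩
      · change (sv i (v2 m m') (v2_sum m m')).1 i j - (sv i (v2 m m') (v2_sum m m')).1 i l = 0
        rw [sv_same, v2_c (Ne.symm hm.1) (Ne.symm hm'.1), v2_c (Ne.symm hm.2) (Ne.symm hm'.2.1),
          sub_self]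
      · intro h
        exact hm'.1 (eq_of_heq (Sigma.mk.inj h).2).symm
      · change |(sv i (v3 j l m) (v3_sum j l m)).1 i j| = 1
        rw [sv_same, v3_a hjl (Ne.symm hm.1), abs_one]
      · change (sv i (v2 m m') (v2_sum m m')).1 i j = 0
        rw [sv_same, v2_c (Ne.symm hm.1) (Ne.symm hm'.1)]
      · change (sv i (v3 j l m) (v3_sum j l m)).1 i m' = 0
        rw [sv_same, v3_d hm'.1 hm'.2.1 hm'.2.2]
      · change |(sv i (v2 m m') (v2_sum m m')).1 i m'| = 1
        rw [sv_same, v2_b (Ne.symm hm'.2.2), abs_neg, abs_one]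

end Pool.Agent.Work.MP_67388f_an.EM
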