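import Pool.Agent.Work.MP_67388f_an.EM.Lem

/-!
# LA (size M-L): approximation of compactly supported functions by test functions

## Proof
Put the Borel σ-algebra on `GG n K` (`borel`, locally) and let `ν` be a Haar measure
(`MeasureTheory.Measure.haar`; `GG n K` is locally compact, second countable, `instLC`, `instSC`).
Let `f` be continuous with compact support contained in the open set `U`, `0 < ε`.
By `unif_cont` and compactness there is `r > 0` such that `|f ((g,1)⁻¹ • x) - f x| ≤ ε` for all `x`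
and `(g,1) • y ∈ U` for all `y ∈ tsupport f`, whenever `Near g r` (the second: the map
`(g, y) ↦ (g,1) • y` is continuous and `{1} × tsupport f` is compact; generalized tube lemma).
Let `d g = ∑ i, ∑ j, ∑ l, ‖g i j l - 1 j l‖` (continuous on `GG n K`) and
`ψ₀ g = max 0 (r - d g)`: continuous, `≥ 0`, positive at `1`, supported in
`{d g ≤ r} ⊆ {Near g r}`, compact (`isCompact_near`). Put `ψ = ψ₀ / ∫ ψ₀ ∂ν` and
`F x = ∫ g, ψ g * f ((g,1)⁻¹ • x) ∂ν`.
* `|F x - f x| ≤ ∫ ψ g |f ((g,1)⁻¹ x) - f x| ≤ ε`. `f ≥ 0` implies `F ≥ 0`. `|F| ≤ sup |f|`.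
* `F` is continuous: parametric integrals with compactly supported integrand in `g`
  (`continuous_parametric_integral_of_continuous` or dominated convergence).
* `F x ≠ 0` implies `(g,1)⁻¹ x ∈ tsupport f` for some `g` in the compact set `tsupport ψ`, so
  `x ∈ Q := (tsupport ψ) • (tsupport f)`, the continuous image of a compact set, contained in `U`;
  `Q` is compact, hence closed; so `tsupport F ⊆ Q ⊆ U` and `HasCompactSupport F`.
* Lipschitz: by left invariance of `ν` (`g = h g'`) `F ((h,1) • x) = ∫ ψ (h g) f ((g,1)⁻¹ x) ∂ν`, so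
  `|F (h x) - F x| ≤ sup|f| ∫ |ψ (h g) - ψ g| ∂ν(g)`. If `Near h ε'` with `ε' ≤ 1` then the integrand
  vanishes outside the compact set `Q' = {g : Near g R}` for suitable `R` (if `ψ (h g) ≠ 0` then
  `h g` is near 1, `g = h⁻¹ (h g)`, and `h⁻¹` stays in a compact set: the set
  `{h | Near h 1}⁻¹ * {g | Near g r}` is compact, so contained in some `{Near g R}`), and
  `|ψ (h g) - ψ g| ≤ c |d (h g) - d g| ≤ c ∑ ‖(h g - g) i j l‖ ≤ c' ε' ` on `Q'` (entries of
  `(h - 1) g`). If `ε' > 1`: `|F (h x) - F x| ≤ 2 sup|f| ≤ 2 sup|f| ε'`. So `M = ` the maximum of the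
  constants. (It is enough that `ν Q' < ∞`.)

The proof below does not use Haar measure but an inf-convolution: with
`d g = ∑ i, ∑ j, ∑ l, ‖g i j l - 1 j l‖` one has `1 + d (g h) ≤ (1 + d g) (1 + d h)`, so
`ρ g = log (1 + d g)` is subadditive, and `F x = inf_g (f (g x) + Λ ρ g)` (the infimum over the
compact set of the `g` near `1`, which is the infimum over all `g` if `Λ` is large) is Lipschitz.
-/

set_option autoImplicit false

namespace Pool.Agent.Work.MP_67388f_an.EM

open MeasureTheory Filter Topology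

section LAaux

/-- the sum of the norms of the entries -/
private noncomputable def la_p {m : ℕ} {k : Type} [NontriviallyNormedField k]
    (A : Matrix (Fin m) (Fin m) k) : ℝ := ∑ j, ∑ l, ‖A j l‖

private theorem la_p_nonneg {m : ℕ} {k : Type} [NontriviallyNormedField k]
    (A : Matrix (Fin m) (Fin m) k) : 0 ≤ la_p A :=
  Finset.sum_nonneg fun _ _ => Finset.sum_nonneg fun _ _ => norm_nonneg _

private theorem la_p_add {m : ℕ} {k : Type} [NontriviallyNormedField k]
    (A B : Matrix (Fin m) (Fin m) k) : la_p (A + B) ≤ la_p A + la_p B := by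
  unfold la_p
  rw [← Finset.sum_add_distrib]
  refine Finset.sum_le_sum fun j _ => ?_
  rw [← Finset.sum_add_distrib]
  exact Finset.sum_le_sum fun l _ => norm_add_le _ _

private theorem la_p_neg {m : ℕ} {k : Type} [NontriviallyNormedField k]
    (A : Matrix (Fin m) (Fin m) k) : la_p (-A) = la_p A := by
  unfold la_p
  simp only [Matrix.neg_apply, norm_neg]

private theorem la_p_mul {m : ℕ} {k : Type} [NontriviallyNormedField k]
    (A B : Matrix (Fin m) (Fin m) k) : la_p (A * B) ≤ la_p A * la_p B := by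
  have h1 : ∀ j l, ‖(A * B) j l‖ ≤ ∑ i, ‖A j i‖ * ‖B i l‖ := by
    intro j l
    rw [Matrix.mul_apply]
    exact (norm_sum_le _ _).trans (Finset.sum_le_sum fun i _ => (norm_mul _ _).le)
  calc la_p (A * B) ≤ ∑ j, ∑ l, ∑ i, ‖A j i‖ * ‖B i l‖ :=
        Finset.sum_le_sum fun j _ => Finset.sum_le_sum fun l _ => h1 j l
    _ = ∑ j, ∑ i, ‖A j i‖ * ∑ l, ‖B i l‖ := by
        refine Finset.sum_congr rfl fun j _ => ?_
        rw [Finset.sum_comm]
        exact Finset.sum_congr rfl fun i _ => (Finset.mul_sum _ _ _).symm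
    _ ≤ ∑ j, ∑ i, ‖A j i‖ * la_p B := by
        refine Finset.sum_le_sum fun j _ => Finset.sum_le_sum fun i _ => ?_
        refine mul_le_mul_of_nonneg_left ?_ (norm_nonneg _)
        exact Finset.single_le_sum (f := fun i => ∑ l, ‖B i l‖)
          (fun i _ => Finset.sum_nonneg fun _ _ => norm_nonneg _) (Finset.mem_univ i)
    _ = la_p A * la_p B := by
        simp_rw [← Finset.sum_mul]
        rfl

variable {I : Type} [Fintype I] {n : I → ℕ} {K : I → Type} [∀ i, NontriviallyNormedField (K i)]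

private noncomputable def la_d (g : GG n K) : ℝ := ∑ i, la_p ((g i).1 - 1)

private theorem la_d_nonneg (g : GG n K) : 0 ≤ la_d g :=
  Finset.sum_nonneg fun _ _ => la_p_nonneg _

private theorem la_d_one : la_d (1 : GG n K) = 0 := by
  refine Finset.sum_eq_zero fun i _ => ?_
  have e : ((1 : GG n K) i).1 - 1 = 0 := sub_self _
  rw [e]
  unfold la_p
  simp

private theorem la_sum_mul {ι : Type} (s : Finset ι) {a b : ι → ℝ} (ha : ∀ i, 0 ≤ a i)
    (hb : ∀ i, 0 ≤ b i) : ∑ i ∈ s, a i * b i ≤ (∑ i ∈ s, a i) * ∑ i ∈ s, b i := by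
  rw [Finset.sum_mul]
  refine Finset.sum_le_sum fun i hi => mul_le_mul_of_nonneg_left ?_ (ha i)
  exact Finset.single_le_sum (f := b) (fun i _ => hb i) hi

private theorem la_d_mul (g h : GG n K) : la_d (g * h) ≤ la_d g * la_d h + la_d g + la_d h := by
  have h1 : ∀ i, la_p (((g * h) i).1 - 1) ≤
      la_p ((g i).1 - 1) * la_p ((h i).1 - 1) + la_p ((g i).1 - 1) + la_p ((h i).1 - 1) := by
    intro i
    have e : ((g * h) i).1 - 1 = ((g i).1 - 1) * ((h i).1 - 1) + ((g i).1 - 1) +
        ((h i).1 - 1) := by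
      have e1 : ((g * h) i).1 = (g i).1 * (h i).1 := rfl
      rw [e1]
      noncomm_ring
    rw [e]
    have k1 := la_p_add (((g i).1 - 1) * ((h i).1 - 1) + ((g i).1 - 1)) ((h i).1 - 1)
    have k2 := la_p_add (((g i).1 - 1) * ((h i).1 - 1)) ((g i).1 - 1)
    have k3 := la_p_mul ((g i).1 - 1) ((h i).1 - 1)
    linarith
  calc la_d (g * h) ≤ ∑ i, (la_p ((g i).1 - 1) * la_p ((h i).1 - 1) + la_p ((g i).1 - 1) +
        la_p ((h i).1 - 1)) := Finset.sum_le_sum fun i _ => h1 i
    _ = (∑ i, la_p ((g i).1 - 1) * la_p ((h i).1 - 1)) + la_d g + la_d h := by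
        rw [Finset.sum_add_distrib, Finset.sum_add_distrib]
        rfl
    _ ≤ la_d g * la_d h + la_d g + la_d h := by
        have := la_sum_mul Finset.univ (a := fun i => la_p ((g i).1 - 1))
          (b := fun i => la_p ((h i).1 - 1)) (fun i => la_p_nonneg _) (fun i => la_p_nonneg _)
        unfold la_d
        linarith

private theorem la_d_inv (g : GG n K) : la_d g⁻¹ ≤ la_d g⁻¹ * la_d g + la_d g := by
  have h1 : ∀ i, la_p (((g⁻¹) i).1 - 1) ≤
      la_p (((g⁻¹) i).1 - 1) * la_p ((g i).1 - 1) + la_p ((g i).1 - 1) := by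
    intro i
    have e0 : ((g⁻¹) i).1 * (g i).1 = 1 := by
      have e1 : ((g⁻¹) i).1 * (g i).1 = ((g⁻¹ * g) i).1 := rfl
      rw [e1, inv_mul_cancel]
      rfl
    have e : ((g⁻¹) i).1 - 1 = -((((g⁻¹) i).1 - 1) * ((g i).1 - 1)) + -((g i).1 - 1) := by
      have e2 : (((g⁻¹) i).1 - 1) * ((g i).1 - 1) = 1 - ((g⁻¹) i).1 - (g i).1 + 1 := by
        rw [sub_mul, mul_sub, mul_sub, e0, mul_one, one_mul, mul_one]
        abel
      rw [e2]
      abel
    have k1 := la_p_add (-((((g⁻¹) i).1 - 1) * ((g i).1 - 1))) (-((g i).1 - 1))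
    rw [← e, la_p_neg, la_p_neg] at k1
    exact k1.trans (add_le_add (la_p_mul _ _) le_rfl)
  calc la_d g⁻¹ ≤ ∑ i, (la_p (((g⁻¹) i).1 - 1) * la_p ((g i).1 - 1) + la_p ((g i).1 - 1)) :=
        Finset.sum_le_sum fun i _ => h1 i
    _ = (∑ i, la_p (((g⁻¹) i).1 - 1) * la_p ((g i).1 - 1)) + la_d g := by
        rw [Finset.sum_add_distrib]
        rfl
    _ ≤ la_d g⁻¹ * la_d g + la_d g := by
        have := la_sum_mul Finset.univ (a := fun i => la_p (((g⁻¹) i).1 - 1))
          (b := fun i => la_p ((g i).1 - 1)) (fun i => la_p_nonneg _) (fun i => la_p_nonneg _)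
        unfold la_d
        linarith

private theorem la_d_near : ∃ c : ℝ, 0 ≤ c ∧ ∀ (g : GG n K) (ε : ℝ), Near g ε → la_d g ≤ c * ε := by
  refine ⟨∑ i : I, (n i : ℝ) * n i, Finset.sum_nonneg fun i _ => by positivity, fun g ε h => ?_⟩
  unfold la_d la_p
  rw [Finset.sum_mul]
  refine Finset.sum_le_sum fun i _ => ?_
  calc ∑ j, ∑ l, ‖((g i).1 - 1) j l‖ ≤ ∑ _j : Fin (n i), ∑ _l : Fin (n i), ε :=
        Finset.sum_le_sum fun j _ => Finset.sum_le_sum fun l _ => h i j l
    _ = (n i : ℝ) * n i * ε := by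
        simp only [Finset.sum_const, Finset.card_univ, Fintype.card_fin, nsmul_eq_mul]
        ring

private theorem la_near_d {g : GG n K} {r : ℝ} (h : ¬ Near g r) : r ≤ la_d g := by
  unfold Near at h
  push Not at h
  obtain ⟨i, j, l, h⟩ := h
  refine h.le.trans ?_
  have h1 : ‖((g i).1 - 1) j l‖ ≤ ∑ l, ‖((g i).1 - 1) j l‖ :=
    Finset.single_le_sum (f := fun l => ‖((g i).1 - 1) j l‖) (fun _ _ => norm_nonneg _)
      (Finset.mem_univ l)
  have h2 : ∑ l, ‖((g i).1 - 1) j l‖ ≤ la_p ((g i).1 - 1) :=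
    Finset.single_le_sum (f := fun j => ∑ l, ‖((g i).1 - 1) j l‖)
      (fun _ _ => Finset.sum_nonneg fun _ _ => norm_nonneg _) (Finset.mem_univ j)
  have h3 : la_p ((g i).1 - 1) ≤ la_d g :=
    Finset.single_le_sum (f := fun i => la_p ((g i).1 - 1))
      (fun _ _ => la_p_nonneg _) (Finset.mem_univ i)
  exact h1.trans (h2.trans h3)

private theorem la_d_cont : Continuous fun g : GG n K => la_d g := by
  unfold la_d la_p
  refine continuous_finsetSum _ fun i _ => continuous_finsetSum _ fun j _ =>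
    continuous_finsetSum _ fun l _ => ?_
  refine Continuous.norm ?_
  have h1 : Continuous fun g : GG n K => (g i).1 :=
    continuous_subtype_val.comp (continuous_apply i)
  have h2 : Continuous fun g : GG n K => ((g i).1 - 1) := h1.sub continuous_const
  exact h2.matrix_elem j l

private noncomputable def la_r (g : GG n K) : ℝ := Real.log (1 + la_d g)

private theorem la_r_nonneg (g : GG n K) : 0 ≤ la_r g :=
  Real.log_nonneg (by have := la_d_nonneg g; linarith)

private theorem la_r_one : la_r (1 : GG n K) = 0 := by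
  unfold la_r
  rw [la_d_one, add_zero, Real.log_one]

private theorem la_r_mul (g h : GG n K) : la_r (g * h) ≤ la_r g + la_r h := by
  have h1 := la_d_nonneg g
  have h2 := la_d_nonneg h
  have h3 := la_d_nonneg (g * h)
  unfold la_r
  rw [← Real.log_mul (by linarith) (by linarith)]
  refine Real.log_le_log (by linarith) ?_
  have := la_d_mul g h
  nlinarith

private theorem la_r_le (g : GG n K) : la_r g ≤ la_d g := by
  have h1 := la_d_nonneg g
  have := Real.log_le_sub_one_of_pos (by linarith : 0 < 1 + la_d g)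
  unfold la_r
  linarith

private theorem la_r_cont : Continuous fun g : GG n K => la_r g := by
  unfold la_r
  refine Continuous.log (continuous_const.add la_d_cont) fun g => ?_
  have h1 := la_d_nonneg g
  linarith

end LAaux

variable {I : Type} [Fintype I] {n : I → ℕ} {K : I → Type} [∀ i, NontriviallyNormedField (K i)]
  [∀ i, ProperSpace (K i)]
  (H : Type) [Group H] [TopologicalSpace H] [IsTopologicalGroup H]
  {X : Type} [TopologicalSpace X] [T2Space X] [LocallyCompactSpace X]
  [MulAction (GG n K × H) X] [ContinuousSMul (GG n K × H) X]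

theorem lip_approx {f : X → ℝ} (hf : Continuous f) (hc : HasCompactSupport f) {U : Set X}
    (hU : IsOpen U) (hfU : tsupport f ⊆ U) {ε : ℝ} (hε : 0 < ε) :
    ∃ (M : ℝ) (F : X → ℝ), Test n K H M F ∧ (∀ x, |F x - f x| ≤ ε) ∧ tsupport F ⊆ U ∧
      ((∀ x, 0 ≤ f x) → ∀ x, 0 ≤ F x) := by
  -- a bound
  obtain ⟨B, hB0, hB⟩ : ∃ B : ℝ, 0 ≤ B ∧ ∀ x, |f x| ≤ B := by
    obtain ⟨B, hB⟩ := hc.exists_bound_of_continuous hf
    exact ⟨max B 0, le_max_right _ _, fun x => by
      have := hB x
      rw [Real.norm_eq_abs] at this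
      exact this.trans (le_max_left _ _)⟩
  -- the radius
  obtain ⟨r₁, hr₁, N, hN, hunif⟩ := unif_cont (n := n) (K := K) H hf hc hε
  obtain ⟨r₂, hr₂, htube⟩ : ∃ r₂ : ℝ, 0 < r₂ ∧ ∀ (g : GG n K) (y : X), Near g r₂ →
      y ∈ tsupport f → ((g⁻¹, (1 : H)) : GG n K × H) • y ∈ U := by
    have hcont : Continuous fun p : GG n K × X => ((p.1⁻¹, (1 : H)) : GG n K × H) • p.2 :=
      Continuous.smul (Continuous.prodMk (continuous_fst.inv) continuous_const) continuous_snd
    have hopen : IsOpen ((fun p : GG n K × X => ((p.1⁻¹, (1 : H)) : GG n K × H) • p.2) ⁻¹' U) :=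
      hU.preimage hcont
    have hsub : ({(1 : GG n K)} : Set (GG n K)) ×ˢ tsupport f ⊆
        (fun p : GG n K × X => ((p.1⁻¹, (1 : H)) : GG n K × H) • p.2) ⁻¹' U := by
      rintro ⟨g, y⟩ ⟨hg, hy⟩
      have hg1 : g = 1 := hg
      subst hg1
      show (((1 : GG n K)⁻¹, (1 : H)) : GG n K × H) • y ∈ U
      rw [inv_one]
      have e : (((1 : GG n K), (1 : H)) : GG n K × H) = 1 := rfl
      rw [e, one_smul]
      exact hfU hy
    obtain ⟨u, v, hu, hv, h1u, htv, huv⟩ :=
      generalized_tube_lemma isCompact_singleton hc hopen hsub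
    have hun : u ∈ 𝓝 (1 : GG n K) := hu.mem_nhds (h1u rfl)
    obtain ⟨r, hr, hru⟩ := hasBasis_near.mem_iff.1 hun
    exact ⟨r, hr, fun g y hg hy => huv (Set.mk_mem_prod (hru hg) (htv hy))⟩
  set r : ℝ := min r₁ r₂ with hr
  have hr0 : 0 < r := lt_min hr₁ hr₂
  set C : Set (GG n K) := {g | Near g r} with hC
  have hCc : IsCompact C := isCompact_near r
  have h1C : (1 : GG n K) ∈ C := near_one hr0.le
  have hlog : 0 < Real.log (1 + r) := Real.log_pos (by linarith)
  set Λ : ℝ := 2 * B / Real.log (1 + r) with hΛ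
  have hΛ0 : 0 ≤ Λ := by positivity
  set G : X → GG n K → ℝ := fun x g => f (((g, (1 : H)) : GG n K × H) • x) + Λ * la_r g with hG
  have hGc : Continuous ↿G := by
    have h1 : Continuous fun p : X × GG n K => f (((p.2, (1 : H)) : GG n K × H) • p.1) :=
      hf.comp (Continuous.smul (Continuous.prodMk continuous_snd continuous_const) continuous_fst)
    exact h1.add (continuous_const.mul (la_r_cont.comp continuous_snd))
  set F : X → ℝ := fun x => sInf (G x '' C) with hF
  have hFc : Continuous F := hCc.continuous_sInf hGc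
  have hGB : ∀ x g, -B ≤ G x g := by
    intro x g
    have h1 := (abs_le.1 (hB (((g, (1 : H)) : GG n K × H) • x))).1
    have h2 := mul_nonneg hΛ0 (la_r_nonneg g)
    show -B ≤ f (((g, (1 : H)) : GG n K × H) • x) + Λ * la_r g
    linarith
  have hbdd : ∀ x, BddBelow (G x '' C) := fun x => ⟨-B, by
    rintro _ ⟨g, -, rfl⟩
    exact hGB x g⟩
  have hne : ∀ x, (G x '' C).Nonempty := fun x => ⟨_, ⟨1, h1C, rfl⟩⟩
  have hG1 : ∀ x, G x 1 = f x := by
    intro x
    show f ((((1 : GG n K), (1 : H)) : GG n K × H) • x) + Λ * la_r 1 = f x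
    have e : (((1 : GG n K), (1 : H)) : GG n K × H) = 1 := rfl
    rw [e, one_smul, la_r_one, mul_zero, add_zero]
  have hFf : ∀ x, F x ≤ f x := by
    intro x
    rw [← hG1 x]
    exact csInf_le (hbdd x) ⟨1, h1C, rfl⟩
  have hle : ∀ x g, F x ≤ G x g := by
    intro x g
    by_cases hg : g ∈ C
    · exact csInf_le (hbdd x) ⟨g, hg, rfl⟩
    · have h1 : r ≤ la_d g := la_near_d hg
      have h2 : Real.log (1 + r) ≤ la_r g :=
        Real.log_le_log (by linarith) (by linarith)
      have h3 : 2 * B ≤ Λ * la_r g := by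
        calc 2 * B = Λ * Real.log (1 + r) := by
              rw [hΛ]
              field_simp
          _ ≤ Λ * la_r g := mul_le_mul_of_nonneg_left h2 hΛ0
      have h4 := (abs_le.1 (hB (((g, (1 : H)) : GG n K × H) • x))).1
      have h5 := (abs_le.1 (hB x)).2
      have h6 := hFf x
      show F x ≤ f (((g, (1 : H)) : GG n K × H) • x) + Λ * la_r g
      linarith
  have hge : ∀ x a, (∀ g ∈ C, a ≤ G x g) → a ≤ F x := by
    intro x a h
    refine le_csInf (hne x) ?_
    rintro _ ⟨g, hg, rfl⟩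
    exact h g hg
  -- the translation estimate
  have htrans : ∀ (h : GG n K) (x : X), F (((h, (1 : H)) : GG n K × H) • x) ≤
      F x + Λ * la_r h⁻¹ := by
    intro h x
    have h1 : F (((h, (1 : H)) : GG n K × H) • x) - Λ * la_r h⁻¹ ≤ F x := by
      refine hge x _ fun g _ => ?_
      have h2 := hle (((h, (1 : H)) : GG n K × H) • x) (g * h⁻¹)
      have h3 : G (((h, (1 : H)) : GG n K × H) • x) (g * h⁻¹) =
          f (((g, (1 : H)) : GG n K × H) • x) + Λ * la_r (g * h⁻¹) := by
        show f (((g * h⁻¹, (1 : H)) : GG n K × H) • (((h, (1 : H)) : GG n K × H) • x)) + _ = _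
        rw [smul_smul, Prod.mk_mul_mk, inv_mul_cancel_right, mul_one]
      rw [h3] at h2
      have h4 : Λ * la_r (g * h⁻¹) ≤ Λ * (la_r g + la_r h⁻¹) :=
        mul_le_mul_of_nonneg_left (la_r_mul g h⁻¹) hΛ0
      show _ ≤ f (((g, (1 : H)) : GG n K × H) • x) + Λ * la_r g
      linarith
    linarith
  have htrans' : ∀ (h : GG n K) (x : X), F x ≤
      F (((h, (1 : H)) : GG n K × H) • x) + Λ * la_r h := by
    intro h x
    have h1 := htrans h⁻¹ (((h, (1 : H)) : GG n K × H) • x)
    rw [smul_smul, Prod.mk_mul_mk, inv_mul_cancel, mul_one, inv_inv] at h1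
    have e : (((1 : GG n K), (1 : H)) : GG n K × H) = 1 := rfl
    rwa [e, one_smul] at h1
  have hFB : ∀ x, |F x| ≤ B := by
    intro x
    rw [abs_le]
    exact ⟨hge x _ fun g _ => hGB x g, (hFf x).trans (abs_le.1 (hB x)).2⟩
  -- the support
  set Q : Set X := (fun p : GG n K × X => ((p.1⁻¹, (1 : H)) : GG n K × H) • p.2) ''
    (C ×ˢ tsupport f) with hQ
  have hQc : IsCompact Q := by
    refine (hCc.prod hc).image ?_
    exact Continuous.smul (Continuous.prodMk (continuous_fst.inv) continuous_const) continuous_snd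
  have hQU : Q ⊆ U := by
    rintro _ ⟨⟨g, y⟩, ⟨hg, hy⟩, rfl⟩
    exact htube g y (near_mono hg (min_le_right _ _)) hy
  have hF0 : ∀ x, x ∉ Q → F x = 0 := by
    intro x hx
    have h1 : ∀ g ∈ C, f (((g, (1 : H)) : GG n K × H) • x) = 0 := by
      intro g hg
      by_contra hne
      apply hx
      refine ⟨(g, ((g, (1 : H)) : GG n K × H) • x), ⟨hg, subset_tsupport _ hne⟩, ?_⟩
      show ((g⁻¹, (1 : H)) : GG n K × H) • (((g, (1 : H)) : GG n K × H) • x) = x
      rw [smul_smul, Prod.mk_mul_mk, inv_mul_cancel, mul_one]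
      have e : (((1 : GG n K), (1 : H)) : GG n K × H) = 1 := rfl
      rw [e, one_smul]
    have h2 : f x = 0 := by
      have h3 := h1 1 h1C
      have e : (((1 : GG n K), (1 : H)) : GG n K × H) = 1 := rfl
      rwa [e, one_smul] at h3
    refine le_antisymm ((hFf x).trans h2.le) (hge x 0 fun g hg => ?_)
    show 0 ≤ f (((g, (1 : H)) : GG n K × H) • x) + Λ * la_r g
    rw [h1 g hg, zero_add]
    exact mul_nonneg hΛ0 (la_r_nonneg g)
  have hsupp : tsupport F ⊆ Q := by
    refine closure_minimal (fun x hx => ?_) hQc.isClosed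
    by_contra hxQ
    exact hx (hF0 x hxQ)
  obtain ⟨c₀, hc₀, hnear⟩ := la_d_near (n := n) (K := K)
  refine ⟨B + 2 * Λ * c₀ + 4 * B * c₀, F, ⟨hFc, HasCompactSupport.intro hQc hF0, fun x => ?_,
    fun g δ x hδ hg => ?_⟩, fun x => ?_, hsupp.trans hQU, fun hpos x => ?_⟩
  · have h1 : 0 ≤ 2 * Λ * c₀ + 4 * B * c₀ := by positivity
    have h2 := hFB x
    linarith
  · have hd := hnear g δ hg
    have h0 := la_d_nonneg g
    have hi0 := la_d_nonneg g⁻¹
    have hcδ : 0 ≤ c₀ * δ := mul_nonneg hc₀ hδ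
    have e : (B + 2 * Λ * c₀ + 4 * B * c₀) * δ = B * δ + 2 * Λ * (c₀ * δ) + 4 * B * (c₀ * δ) := by
      ring
    have hBδ : 0 ≤ B * δ := mul_nonneg hB0 hδ
    have hBc : 0 ≤ B * (c₀ * δ) := mul_nonneg hB0 hcδ
    have hΛc : 0 ≤ Λ * (c₀ * δ) := mul_nonneg hΛ0 hcδ
    rw [e]
    by_cases hsm : c₀ * δ ≤ 1 / 2
    · have h1 : la_d g⁻¹ ≤ 2 * (c₀ * δ) := by
        have h2 := la_d_inv g
        have h3 : la_d g⁻¹ * la_d g ≤ la_d g⁻¹ * (1 / 2) :=
          mul_le_mul_of_nonneg_left (hd.trans hsm) hi0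
        linarith
      have h2 : Λ * la_r g⁻¹ ≤ Λ * (2 * (c₀ * δ)) :=
        mul_le_mul_of_nonneg_left ((la_r_le _).trans h1) hΛ0
      have h3 : Λ * la_r g ≤ Λ * (c₀ * δ) :=
        mul_le_mul_of_nonneg_left ((la_r_le _).trans hd) hΛ0
      have h4 := htrans g x
      have h5 := htrans' g x
      rw [abs_le]
      constructor <;> linarith
    · push Not at hsm
      have h1 := hFB (((g, (1 : H)) : GG n K × H) • x)
      have h2 := hFB x
      have h3 := abs_sub (F (((g, (1 : H)) : GG n K × H) • x)) (F x)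
      have h4 : B * (1 / 2) ≤ B * (c₀ * δ) := mul_le_mul_of_nonneg_left hsm.le hB0
      linarith
  · have h1 := hFf x
    have h2 : f x - ε ≤ F x := by
      refine hge x _ fun g hg => ?_
      have h3 := hunif g 1 x (near_mono hg (min_le_left _ _)) (mem_of_mem_nhds hN)
      have h4 := (abs_le.1 h3).1
      have h5 := mul_nonneg hΛ0 (la_r_nonneg g)
      show f x - ε ≤ f (((g, (1 : H)) : GG n K × H) • x) + Λ * la_r g
      linarith
    rw [abs_le]
    constructor <;> linarith
  · refine hge x 0 fun g _ => ?_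
    have h5 := mul_nonneg hΛ0 (la_r_nonneg g)
    have h6 := hpos (((g, (1 : H)) : GG n K × H) • x)
    show 0 ≤ f (((g, (1 : H)) : GG n K × H) • x) + Λ * la_r g
    linarith

end Pool.Agent.Work.MP_67388f_an.EM
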