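import Pool.Agent.Work.MP_67388f_an.EM.MS

/-!
# LF (size M-L): pattern leaves are null sets, unless the measure is a point mass

`J i` is a transitive set of pairs of different indices; `InPat J g`: the off-diagonal entries of
`g` outside `J` vanish.

## Proof of `leaf_null`
(1) There are a place `i₀` and a proper nonempty set `A ⊂ Fin (n i₀)` such that
`(j, l) ∈ J i₀, l ∈ A → j ∈ A`: let `j₀ ≠ l₀`, `(j₀, l₀) ∉ J i₀` and
`A = {j | j = l₀ ∨ (j, l₀) ∈ J i₀}` (transitivity; `j₀ ∉ A`, `l₀ ∈ A`).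
(2) Let `k⁰ ∈ Lat n` be `-(n i₀ - |A|)` at the indices of `A`, `|A|` at the other indices of `i₀`, and
`0` at the other places (`∑ = 0`), `k⁰ ≠ 0`. For `g` with `InPat J g` and `a = dg π (m • k⁰)`, `m ∈ ℕ`,
the conjugate `a g a⁻¹` has entries `π^(k_j - k_l) g_jl` (`conj_apply`), where `k = m k⁰`. If
`g_jl ≠ 0`, `j ≠ l`, then `(j, l) ∈ J i₀` (or the place is not `i₀` and `k_j - k_l = 0`), so
`l ∈ A → j ∈ A`, thus `k_j - k_l ≤ 0` and `‖π^(k_j - k_l)‖ ≤ 1`. Hence: `InPat J g`, `Near g ρ`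
imply `InPat J (a g a⁻¹)`, `Near (a g a⁻¹) ρ` (diagonal entries are unchanged).
(3) Suppose that the conclusion fails: for all `ρ₀ > 0` and neighbourhoods `N₀` of `1` in `H` some
leaf box `Bx(x) = {(g,h) • x | InPat J g, Near g ρ₀, h ∈ N₀}` has positive (outer) measure; we show
that `μ` is a point mass. Let `x₁, x₂` be points of the support of `μ` (every open neighbourhood has
positive measure). Suppose `x₁ ≠ x₂`. By the Hausdorff property and continuity of the action at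
`(1, x₁)` there are a neighbourhood `U` of `1` in `GG n K × H` and open neighbourhoods
`V₁ ∋ x₁`, `V₂ ∋ x₂` with `(u • V₁) ∩ V₂ = ∅` for all `u ∈ U`. Choose `ρ₀ > 0` and a compact
neighbourhood `N₀` of `1` in `H` with `w' * w⁻¹ ∈ U` for all `w, w'` in
`{g | Near g ρ₀} × N₀` (`hasBasis_near`, continuity of `(w, w') ↦ w' w⁻¹`, local compactness of
`H`). Let `x` be such that `B = Bx(x)` has positive measure; `B` is compact (image of the compact set
`({InPat} ∩ {Near}) × N₀`: `isClosed_inPat`, `isCompact_near`), hence measurable. By `mix_sets` with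
`V₁` and with `V₂` for `k = m • k⁰`, `m` large (`len (m • k⁰) → ∞`), there are `z₁ ∈ B` with
`act k z₁ ∈ V₁` and `z₂ ∈ B` with `act k z₂ ∈ V₂`. `z₁ = w₁ • x`, `act k z₁ = w₁' • act k x` where
`w₁' = (a g₁ a⁻¹, h₁)` (`act_smul`), `Near (a g₁ a⁻¹) ρ₀` by (2), similarly
`act k z₂ = w₂' • act k x`. So `act k z₂ = (w₂' w₁'⁻¹) • act k z₁ ∈ (U • V₁) ∩ V₂ = ∅`,
contradiction. Hence the support of `μ` has at most one point; as `X` is second countable, the
complement of the support is null, so the support is a point `x` and `μ = dirac x`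
(`μ {x} = 1`: e.g. `Measure.ext` with `μ s = 1` or `0` according to `x ∈ s`).
-/

set_option autoImplicit false

namespace Pool.Agent.Work.MP_67388f_an.EM

open MeasureTheory Filter Topology

section lattice

variable {I : Type} {n : I → ℕ}

open Classical in
/-- the vector with the entries `-(n - |A|)` on `A` and `|A|` outside `A` at the place `i₀` -/
private noncomputable def vA (i₀ : I) (A : Finset (Fin (n i₀))) : ∀ i, Fin (n i) → ℤ :=
  Pi.single i₀ (fun j => if j ∈ A then -((n i₀ : ℤ) - A.card) else A.card)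

open Classical in
private theorem vA_mem (i₀ : I) (A : Finset (Fin (n i₀))) : vA i₀ A ∈ Lat n := by
  intro i
  by_cases hi : i = i₀
  · subst hi
    have h1 : ∀ j, vA i A i j = if j ∈ A then -((n i : ℤ) - A.card) else (A.card : ℤ) := by
      intro j
      unfold vA
      rw [Pi.single_eq_same]
    simp only [h1]
    rw [Finset.sum_ite, Finset.sum_const, Finset.sum_const]
    have h2 : (Finset.univ.filter fun j => j ∈ A) = A := by
      ext j
      simp
    have h3 : (Finset.univ.filter fun j => j ∉ A) = Aᶜ := by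
      ext j
      simp
    rw [h2, h3, Finset.card_compl, Fintype.card_fin, nsmul_eq_mul, nsmul_eq_mul]
    have h4 : A.card ≤ n i := by
      have := Finset.card_le_univ A
      rwa [Fintype.card_fin] at this
    push_cast [Nat.cast_sub h4]
    ring
  · unfold vA
    simp [Pi.single_eq_of_ne hi]

end lattice

variable {I : Type} [Fintype I] {n : I → ℕ} {K : I → Type} [∀ i, NontriviallyNormedField (K i)]
  [∀ i, ProperSpace (K i)]
  (H : Type) [Group H] [TopologicalSpace H] [IsTopologicalGroup H] [LocallyCompactSpace H]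
  {X : Type} [TopologicalSpace X] [T2Space X] [LocallyCompactSpace X] [SecondCountableTopology X]
  [MulAction (GG n K × H) X] [ContinuousSMul (GG n K × H) X] [MeasurableSpace X] [BorelSpace X]

theorem leaf_null {π : ∀ i, (K i)ˣ} (hπ : ∀ i, 1 < ‖(π i : K i)‖) {μ : Measure X}
    [IsProbabilityMeasure μ] (hA : AInv n H π μ) (hW : WM n H π μ)
    (J : ∀ i, Finset (Fin (n i) × Fin (n i))) (hJ : ∀ i, ∀ φ ∈ J i, φ.1 ≠ φ.2)
    (htrans : ∀ i j m l, (j, m) ∈ J i → (m, l) ∈ J i → j ≠ l → (j, l) ∈ J i)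
    (hne : ∃ φ : Rt n, Off φ ∧ φ.2 ∉ J φ.1) (hnd : ∀ x, μ ≠ Measure.dirac x) :
    ∃ ρ₀ > 0, ∃ N₀ ∈ 𝓝 (1 : H), ∀ x : X,
      μ {y | ∃ (g : GG n K) (h : H), InPat J g ∧ Near g ρ₀ ∧ h ∈ N₀ ∧ y = (g, h) • x} = 0 := by
  classical
  by_contra hcon
  push Not at hcon
  -- the lattice vector
  obtain ⟨⟨i₀, j₀, l₀⟩, hoff, hφ⟩ := hne
  have hoff' : j₀ ≠ l₀ := hoff
  simp only at hφ
  let A : Finset (Fin (n i₀)) := Finset.univ.filter fun j => j = l₀ ∨ (j, l₀) ∈ J i₀
  have hAcl : ∀ j l, (j, l) ∈ J i₀ → l ∈ A → j ∈ A := by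
    intro j l hjl hl
    simp only [A, Finset.mem_filter, Finset.mem_univ, true_and] at hl ⊢
    by_cases hj : j = l₀
    · exact Or.inl hj
    · right
      rcases hl with rfl | hl
      · exact hjl
      · exact htrans i₀ j l l₀ hjl hl hj
  have hl₀ : l₀ ∈ A := by simp [A]
  have hj₀ : j₀ ∉ A := by
    simp only [A, Finset.mem_filter, Finset.mem_univ, true_and]
    rintro (h | h)
    · exact hoff' h
    · exact hφ h
  have hcardA : 0 < A.card := Finset.card_pos.2 ⟨l₀, hl₀⟩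
  have hcardA' : A.card ≤ n i₀ := by
    have := Finset.card_le_univ A
    rwa [Fintype.card_fin] at this
  let k₀ : Lat n := ⟨vA i₀ A, vA_mem i₀ A⟩
  have hk₀ : k₀ ≠ 0 := by
    intro h
    have h1 : k₀.1 i₀ j₀ = 0 := by rw [h]; rfl
    have h2 : k₀.1 i₀ j₀ = A.card := by
      show vA i₀ A i₀ j₀ = _
      unfold vA
      rw [Pi.single_eq_same, if_neg hj₀]
    rw [h2] at h1
    have : A.card = 0 := by exact_mod_cast h1
    omega
  have hk₀le : ∀ i j l, (j, l) ∈ J i → k₀.1 i j - k₀.1 i l ≤ 0 := by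
    intro i j l hjl
    show vA i₀ A i j - vA i₀ A i l ≤ 0
    by_cases hi : i = i₀
    · subst hi
      unfold vA
      rw [Pi.single_eq_same]
      have hc : (A.card : ℤ) ≤ n i := by exact_mod_cast hcardA'
      by_cases hl : l ∈ A
      · rw [if_pos hl, if_pos (hAcl j l hjl hl)]
        omega
      · rw [if_neg hl]
        split_ifs <;> omega
    · unfold vA
      simp [Pi.single_eq_of_ne hi]
  have hnear : ∀ (m : ℕ) (g : GG n K) (ρ : ℝ), 0 ≤ ρ → InPat J g → Near g ρ →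
      Near (dg π (m • k₀) * g * (dg π (m • k₀))⁻¹) ρ := by
    intro m g ρ hρ hg hgρ i j l
    rw [conj_apply]
    by_cases hjl : j = l
    · subst hjl
      rw [sub_self, zpow_zero, Units.val_one, one_mul]
      exact hgρ i j j
    · rw [Matrix.one_apply_ne hjl, sub_zero]
      have h1 := hgρ i j l
      rw [Matrix.one_apply_ne hjl, sub_zero] at h1
      by_cases hJ' : (j, l) ∈ J i
      · have h2 : (m • k₀).1 i j - (m • k₀).1 i l ≤ 0 := by
          have h3 : (m • k₀).1 i j - (m • k₀).1 i l = (m : ℤ) * (k₀.1 i j - k₀.1 i l) := by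
            have h4 : (m • k₀).1 = m • k₀.1 := rfl
            rw [h4]
            simp only [Pi.smul_apply, nsmul_eq_mul]
            ring
          rw [h3]
          exact mul_nonpos_of_nonneg_of_nonpos (by positivity) (hk₀le i j l hJ')
        rw [norm_mul, Units.val_zpow_eq_zpow_val, norm_zpow]
        have h5 : ‖(π i : K i)‖ ^ ((m • k₀).1 i j - (m • k₀).1 i l) ≤ 1 :=
          zpow_le_one_of_nonpos₀ (hπ i).le h2
        calc _ ≤ 1 * ‖(g i).1 j l‖ := mul_le_mul_of_nonneg_right h5 (norm_nonneg _)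
          _ ≤ ρ := by rw [one_mul]; exact h1
      · rw [hg i j l hjl hJ', mul_zero, norm_zero]
        exact hρ
  -- the support has at most one point
  have hsupp : ∀ x₁ ∈ μ.support, ∀ x₂ ∈ μ.support, x₁ = x₂ := by
    intro x₁ hx₁ x₂ hx₂
    by_contra hx
    obtain ⟨W₁, W₂, hW₁, hW₂, hxW₁, hxW₂, hdisj⟩ := t2_separation hx
    have hc1 : ContinuousAt (fun p : (GG n K × H) × X => p.1 • p.2) (1, x₁) :=
      continuous_smul.continuousAt
    have h1 : {p : (GG n K × H) × X | p.1 • p.2 ∈ W₁} ∈ 𝓝 ((1 : GG n K × H), x₁) := by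
      apply hc1
      simp only [one_smul]
      exact hW₁.mem_nhds hxW₁
    obtain ⟨U, hU, V₁, hV₁, hUV⟩ := mem_nhds_prod_iff.1 h1
    obtain ⟨V₁', hV₁', hV₁o, hxV₁⟩ := mem_nhds_iff.1 hV₁
    have hc2 : ContinuousAt (fun p : (GG n K × H) × (GG n K × H) => p.2 * p.1⁻¹) (1, 1) := by
      fun_prop
    have h2 : {p : (GG n K × H) × (GG n K × H) | p.2 * p.1⁻¹ ∈ U} ∈
        𝓝 ((1 : GG n K × H), (1 : GG n K × H)) := by
      apply hc2
      simp only [inv_one, mul_one]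
      exact hU
    obtain ⟨M, hM, M', hM', hMM⟩ := mem_nhds_prod_iff.1 h2
    have hMMn : M ∩ M' ∈ 𝓝 ((1 : GG n K), (1 : H)) := Filter.inter_mem hM hM'
    obtain ⟨M₁, hM₁, M₂, hM₂, hM12⟩ := mem_nhds_prod_iff.1 hMMn
    obtain ⟨ρ₀, hρ₀, hρM⟩ := (hasBasis_near (n := n) (K := K)).mem_iff.1 hM₁
    obtain ⟨N₀, hN₀, hN₀M, hN₀c⟩ := local_compact_nhds hM₂
    obtain ⟨x, hx0⟩ := hcon ρ₀ hρ₀ N₀ hN₀
    set B : Set X := {y | ∃ (g : GG n K) (h : H), InPat J g ∧ Near g ρ₀ ∧ h ∈ N₀ ∧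
      y = (g, h) • x} with hBdef
    have hBimg : B = (fun w : GG n K × H => w • x) ''
        (({g | InPat J g} ∩ {g | Near g ρ₀}) ×ˢ N₀) := by
      ext y
      constructor
      · rintro ⟨g, h, hg1, hg2, hh, rfl⟩
        exact ⟨(g, h), ⟨⟨hg1, hg2⟩, hh⟩, rfl⟩
      · rintro ⟨⟨g, h⟩, ⟨⟨hg1, hg2⟩, hh⟩, rfl⟩
        exact ⟨g, h, hg1, hg2, hh, rfl⟩
    have hBc : IsCompact B := by
      rw [hBimg]
      refine (((isCompact_near ρ₀).inter_left (isClosed_inPat J)).prod hN₀c).image ?_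
      fun_prop
    have hBm : MeasurableSet B := hBc.isClosed.measurableSet
    have hV₁0 : μ V₁' ≠ 0 :=
      ((Measure.mem_support_iff_forall x₁).1 hx₁ V₁' (hV₁o.mem_nhds hxV₁)).ne'
    have hW₂0 : μ W₂ ≠ 0 :=
      ((Measure.mem_support_iff_forall x₂).1 hx₂ W₂ (hW₂.mem_nhds hxW₂)).ne'
    obtain ⟨R₁, hR₁⟩ := mix_sets H hW hBm hx0 hV₁o hV₁0
    obtain ⟨R₂, hR₂⟩ := mix_sets H hW hBm hx0 hW₂ hW₂0
    obtain ⟨m, hm⟩ := exists_nat_ge (max R₁ R₂)
    have hlen : (m : ℝ) ≤ len (m • k₀) := by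
      rw [len_nsmul]
      exact le_mul_of_one_le_right (by positivity) (one_le_len hk₀)
    have h3 := hR₁ (m • k₀) (((le_max_left _ _).trans hm).trans hlen)
    have h4 := hR₂ (m • k₀) (((le_max_right _ _).trans hm).trans hlen)
    obtain ⟨z₁, hz₁B, hz₁V⟩ := nonempty_of_measure_ne_zero h3
    obtain ⟨z₂, hz₂B, hz₂V⟩ := nonempty_of_measure_ne_zero h4
    obtain ⟨g₁, h₁, hg₁, hg₁', hh₁, rfl⟩ := hz₁B
    obtain ⟨g₂, h₂, hg₂, hg₂', hh₂, rfl⟩ := hz₂B
    rw [Set.mem_preimage, act_smul] at hz₁V hz₂V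
    set a := dg π (m • k₀)
    have hw₁ : ((a * g₁ * a⁻¹, h₁) : GG n K × H) ∈ M ∩ M' :=
      hM12 ⟨hρM (hnear m g₁ ρ₀ hρ₀.le hg₁ hg₁'), hN₀M hh₁⟩
    have hw₂ : ((a * g₂ * a⁻¹, h₂) : GG n K × H) ∈ M ∩ M' :=
      hM12 ⟨hρM (hnear m g₂ ρ₀ hρ₀.le hg₂ hg₂'), hN₀M hh₂⟩
    have h5 : ((a * g₂ * a⁻¹, h₂) : GG n K × H) * ((a * g₁ * a⁻¹, h₁) : GG n K × H)⁻¹ ∈ U :=
      hMM (show ((((a * g₁ * a⁻¹, h₁) : GG n K × H), ((a * g₂ * a⁻¹, h₂) : GG n K × H)) :
        (GG n K × H) × (GG n K × H)) ∈ M ×ˢ M' from ⟨hw₁.1, hw₂.2⟩)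
    have h6 : (((a * g₂ * a⁻¹, h₂) : GG n K × H) * ((a * g₁ * a⁻¹, h₁) : GG n K × H)⁻¹) •
        (((a * g₁ * a⁻¹, h₁) : GG n K × H) • act H π (m • k₀) x) ∈ W₁ :=
      hUV (show ((((a * g₂ * a⁻¹, h₂) : GG n K × H) * ((a * g₁ * a⁻¹, h₁) : GG n K × H)⁻¹,
        (((a * g₁ * a⁻¹, h₁) : GG n K × H) • act H π (m • k₀) x)) : (GG n K × H) × X) ∈ U ×ˢ V₁
        from ⟨h5, hV₁' hz₁V⟩)
    rw [smul_smul, inv_mul_cancel_right] at h6
    exact Set.disjoint_left.1 hdisj h6 hz₂V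
  -- so the measure is a point mass
  obtain ⟨x, hx⟩ := Measure.nonempty_support (μ := μ) (IsProbabilityMeasure.ne_zero μ)
  have hs : μ.support = {x} := by
    ext y
    constructor
    · intro hy
      exact hsupp y hy x hx
    · rintro rfl
      exact hx
  have hc : μ ({x}ᶜ : Set X) = 0 := by
    rw [← hs]
    exact Measure.measure_compl_support
  have hx1 : μ {x} = 1 := by
    have := prob_add_prob_compl (μ := μ) (MeasurableSet.singleton x)
    rw [hc, add_zero] at this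
    exact this
  apply hnd x
  have h7 : μ.restrict {x} = μ := by
    apply Measure.restrict_eq_self_of_ae_mem
    rw [ae_iff]
    exact hc
  rw [← h7, Measure.restrict_singleton, hx1, one_smul]

end Pool.Agent.Work.MP_67388f_an.EM
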