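import Pool.Agent.Work.MP_67388f_an.EM.Lem
import Pool.Agent.Work.MP_67388f_an.EM.AmA

/-!
# MCl (size M): exponential mixing gives a mixing class

`PC M f` : `f` is continuous, differs from a constant `c`, `|c| ≤ M`, by a compactly supported
function, is bounded by `M` and Lipschitz with constant `M` along the orbits of `GG n K`.

## Proof
With `χ = ∑ i, log ‖π i‖` and the constants `C₀, κ` of `ExpMix`, `C = 4 |C₀|`:
* `const`, `mono`, `add` : immediate (`f - c` for `f` constant has support `∅`).
* `mul` : `f f' - c c' = (f - c) f' + c (f' - c')` has compact support, `|c c'| ≤ M M' ≤ 2 M M'`,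
  `|f(gx) f'(gx) - f(x) f'(x)| ≤ |f(gx)| |f'(gx) - f'(x)| + |f'(x)| |f(gx) - f(x)| ≤ 2 M M' ε`.
* `comp` : `act H π k` is a homeomorphism (inverse `act H π (-k)`), so compact supports are
  preserved; `M ≤ M exp (χ len k)`; Lipschitz: by `act_smul`, `act k ((g,1) • x) =
  (g', 1) • act k x` with `g' = dg k * g * (dg k)⁻¹`, `Near g' (ε exp (χ len k))` by `near_conj`.
* `mp` : `measurePreserving_act`. `meas` : continuous. `sz_nonneg` : `len_nonneg`.
* `mix` : write `f = c + f₀`, `f' = c' + f₀'`; `f₀, f₀'` are `Test` functions with constants `2 M`,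
  `2 M'`. Since `μ` is an invariant probability the constants cancel:
  `∫ f∘a f' - ∫f ∫f' = ∫ f₀∘a f₀' - ∫f₀ ∫f₀'` and `ExpMix` gives the bound
  `C₀ * (2M) * (2M') * exp (-κ len k)`.
The space is nonempty because `μ` is a probability measure, so `0 ≤ M` whenever `|f| ≤ M`.
-/

set_option autoImplicit false

namespace Pool.Agent.Work.MP_67388f_an.EM

open MeasureTheory Filter Topology

variable {I : Type} {n : I → ℕ} {K : I → Type} [∀ i, NontriviallyNormedField (K i)]

section

variable (n K) (H : Type) [Group H] {X : Type} [MulAction (GG n K × H) X] [TopologicalSpace X]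

/-- compactly supported perturbations of constants, bounded by `M` and `GG`-Lipschitz -/
def PC (M : ℝ) (f : X → ℝ) : Prop :=
  Continuous f ∧ (∃ c : ℝ, |c| ≤ M ∧ HasCompactSupport fun x => f x - c) ∧ (∀ x, |f x| ≤ M) ∧
    ∀ (g : GG n K) (ε : ℝ) (x : X), 0 ≤ ε → Near g ε → |f ((g, (1 : H)) • x) - f x| ≤ M * ε

end

variable [Fintype I] (H : Type) [Group H] [TopologicalSpace H]
  {X : Type} [TopologicalSpace X] [MulAction (GG n K × H) X] [ContinuousSMul (GG n K × H) X]

theorem pc_sub_const [Nonempty X] {M : ℝ} {f : X → ℝ} (hf : Test n K H M f) (c : ℝ) :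
    PC n K H (M + |c|) (fun x => f x - c) := by
  obtain ⟨h1, h2, h3, h4⟩ := hf
  have hM : 0 ≤ M := by
    obtain ⟨x⟩ := ‹Nonempty X›
    exact (abs_nonneg _).trans (h3 x)
  refine ⟨h1.sub continuous_const, ⟨-c, ?_, ?_⟩, ?_, ?_⟩
  · rw [abs_neg]
    linarith
  · have : (fun x => f x - c - -c) = f := by
      funext x
      ring
    rw [this]
    exact h2
  · intro x
    have := h3 x
    calc |f x - c| ≤ |f x| + |c| := abs_sub _ _
      _ ≤ M + |c| := by linarith
  · intro g ε x hε hg
    have e1 := h4 g ε x hε hg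
    have e2 : f ((g, (1 : H)) • x) - c - (f x - c) = f ((g, (1 : H)) • x) - f x := by ring
    rw [e2]
    have e3 : 0 ≤ |c| * ε := mul_nonneg (abs_nonneg _) hε
    linarith

omit [Fintype I] [TopologicalSpace H] [ContinuousSMul (GG n K × H) X] in
private theorem pc_nonneg [Nonempty X] {M : ℝ} {f : X → ℝ} (hf : PC n K H M f) : 0 ≤ M := by
  obtain ⟨x⟩ := ‹Nonempty X›
  exact (abs_nonneg _).trans (hf.2.2.1 x)

omit [Fintype I] [TopologicalSpace H] [ContinuousSMul (GG n K × H) X] in
private theorem pc_mul [Nonempty X] {M M' : ℝ} {f f' : X → ℝ} (hf : PC n K H M f)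
    (hf' : PC n K H M' f') : PC n K H (2 * M * M') (fun x => f x * f' x) := by
  have hM := pc_nonneg H hf
  have hM' := pc_nonneg H hf'
  obtain ⟨h1, ⟨c, hc, hcs⟩, h3, h4⟩ := hf
  obtain ⟨h1', ⟨c', hc', hcs'⟩, h3', h4'⟩ := hf'
  refine ⟨h1.mul h1', ⟨c * c', ?_, ?_⟩, ?_, ?_⟩
  · rw [abs_mul]
    have : |c| * |c'| ≤ M * M' := mul_le_mul hc hc' (abs_nonneg _) hM
    nlinarith [mul_nonneg hM hM']
  · have e1 : (fun x => f x * f' x - c * c') =
        (fun x => f x - c) * f' + (fun _ => c) * (fun x => f' x - c') := by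
      funext x
      simp only [Pi.add_apply, Pi.mul_apply]
      ring
    rw [e1]
    exact hcs.mul_right.add hcs'.mul_left
  · intro x
    rw [abs_mul]
    have : |f x| * |f' x| ≤ M * M' := mul_le_mul (h3 x) (h3' x) (abs_nonneg _) hM
    nlinarith [mul_nonneg hM hM']
  · intro g ε x hε hg
    have e1 := h4 g ε x hε hg
    have e1' := h4' g ε x hε hg
    have e2 : f ((g, (1 : H)) • x) * f' ((g, (1 : H)) • x) - f x * f' x =
        f ((g, (1 : H)) • x) * (f' ((g, (1 : H)) • x) - f' x) +
        f' x * (f ((g, (1 : H)) • x) - f x) := by ring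
    rw [e2]
    calc _ ≤ |f ((g, (1 : H)) • x) * (f' ((g, (1 : H)) • x) - f' x)| +
          |f' x * (f ((g, (1 : H)) • x) - f x)| := abs_add_le _ _
      _ ≤ M * (M' * ε) + M' * (M * ε) := by
          rw [abs_mul, abs_mul]
          exact add_le_add (mul_le_mul (h3 _) e1' (abs_nonneg _) hM)
            (mul_le_mul (h3' _) e1 (abs_nonneg _) hM')
      _ = 2 * M * M' * ε := by ring

omit [ContinuousSMul (GG n K × H) X] in
private theorem pc_comp_aux {π : ∀ i, (K i)ˣ} (hπ : ∀ i, 1 < ‖(π i : K i)‖) {M : ℝ} {f : X → ℝ}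
    (hM : 0 ≤ M) (hf : PC n K H M f) (k : Lat n)
    (hk : Continuous fun x : X => act H π k x) (hk' : Continuous fun x : X => act H π (-k) x) :
    PC n K H (M * Real.exp ((∑ i, Real.log ‖(π i : K i)‖) * len k))
      (fun x => f (act H π k x)) := by
  have hχ : 0 ≤ ∑ i, Real.log ‖(π i : K i)‖ :=
    Finset.sum_nonneg fun i _ => Real.log_nonneg (hπ i).le
  have he : 1 ≤ Real.exp ((∑ i, Real.log ‖(π i : K i)‖) * len k) :=
    Real.one_le_exp (mul_nonneg hχ (len_nonneg k))
  have hMe : M ≤ M * Real.exp ((∑ i, Real.log ‖(π i : K i)‖) * len k) :=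
    le_mul_of_one_le_right hM he
  obtain ⟨h1, ⟨c, hc, hcs⟩, h3, h4⟩ := hf
  let e : X ≃ₜ X :=
    { toFun := fun x => act H π k x
      invFun := fun x => act H π (-k) x
      left_inv := fun x => act_neg_act H π k x
      right_inv := fun x => act_act_neg H π k x
      continuous_toFun := hk
      continuous_invFun := hk' }
  refine ⟨h1.comp hk, ⟨c, hc.trans hMe, ?_⟩, fun x => (h3 _).trans hMe, ?_⟩
  · exact hcs.comp_homeomorph e
  · intro g ε x hε hg
    show |f (act H π k ((g, (1 : H)) • x)) - f (act H π k x)| ≤ _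
    rw [act_smul]
    have e1 := near_conj π hπ k hε hg
    refine (h4 _ _ _ (by positivity) e1).trans (le_of_eq ?_)
    ring

theorem mixClass_of_exp [MeasurableSpace X] [BorelSpace X] {μ : Measure X}
    [IsProbabilityMeasure μ] {π : ∀ i, (K i)ˣ} (hπ : ∀ i, 1 < ‖(π i : K i)‖)
    (hA : AInv n H π μ) (h : ExpMix n H π μ) :
    ∃ χ κ C : ℝ, MixClass μ (fun (k : Lat n) (x : X) => act H π k x) len (PC n K H) χ κ C := by
  obtain ⟨C₀, κ, hκ, hmix⟩ := h
  have hne : Nonempty X := by
    by_contra hne
    rw [not_nonempty_iff] at hne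
    have h1 : μ Set.univ = 1 := measure_univ
    rw [Set.univ_eq_empty_iff.2 hne, measure_empty] at h1
    exact zero_ne_one h1
  have hχ : 0 ≤ ∑ i, Real.log ‖(π i : K i)‖ :=
    Finset.sum_nonneg fun i _ => Real.log_nonneg (hπ i).le
  refine ⟨∑ i, Real.log ‖(π i : K i)‖, κ, 4 * |C₀|, ?_⟩
  refine
    { chi_nonneg := hχ
      kappa_pos := hκ
      C_nonneg := by positivity
      sz_nonneg := len_nonneg
      add_act := fun a b x => act_add H π a b x
      zero_act := fun x => act_zero H π x
      mp := fun a => measurePreserving_act H hA a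
      meas := fun M f hf => hf.1.measurable
      bdd := fun M f hf => hf.2.2.1
      const := ?_
      mono := ?_
      add := ?_
      mul := fun M M' f f' hf hf' => pc_mul H hf hf'
      comp := fun M f a hf => pc_comp_aux H hπ (pc_nonneg H hf) hf a (continuous_act H π a)
        (continuous_act H π (-a))
      mix := ?_ }
  · intro c
    refine ⟨continuous_const, ⟨c, le_rfl, ?_⟩, fun _ => le_rfl, ?_⟩
    · have : (fun _ : X => c - c) = fun _ => (0 : ℝ) := by
        funext x
        ring
      rw [this]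
      exact HasCompactSupport.zero
    · intro g ε x hε _
      rw [sub_self, abs_zero]
      positivity
  · intro M M' f hf hMM
    obtain ⟨h1, ⟨c, hc, hcs⟩, h3, h4⟩ := hf
    exact ⟨h1, ⟨c, hc.trans hMM, hcs⟩, fun x => (h3 x).trans hMM, fun g ε x hε hg =>
      (h4 g ε x hε hg).trans (mul_le_mul_of_nonneg_right hMM hε)⟩
  · intro M M' f f' hf hf'
    obtain ⟨h1, ⟨c, hc, hcs⟩, h3, h4⟩ := hf
    obtain ⟨h1', ⟨c', hc', hcs'⟩, h3', h4'⟩ := hf'
    refine ⟨h1.add h1', ⟨c + c', (abs_add_le _ _).trans (add_le_add hc hc'), ?_⟩,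
      fun x => (abs_add_le _ _).trans (add_le_add (h3 x) (h3' x)), ?_⟩
    · have : (fun x => f x + f' x - (c + c')) = (fun x => f x - c) + (fun x => f' x - c') := by
        funext x
        simp only [Pi.add_apply]
        ring
      rw [this]
      exact hcs.add hcs'
    · intro g ε x hε hg
      have e2 : f ((g, (1 : H)) • x) + f' ((g, (1 : H)) • x) - (f x + f' x) =
        (f ((g, (1 : H)) • x) - f x) + (f' ((g, (1 : H)) • x) - f' x) := by ring
      rw [e2, add_mul]
      exact (abs_add_le _ _).trans (add_le_add (h4 g ε x hε hg) (h4' g ε x hε hg))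
  · intro M M' f f' a hf hf'
    have hM := pc_nonneg H hf
    have hM' := pc_nonneg H hf'
    obtain ⟨h1, ⟨c, hc, hcs⟩, h3, h4⟩ := hf
    obtain ⟨h1', ⟨c', hc', hcs'⟩, h3', h4'⟩ := hf'
    set f₀ : X → ℝ := fun x => f x - c with hf₀
    set f₀' : X → ℝ := fun x => f' x - c' with hf₀'
    have hb : ∀ x, |f₀ x| ≤ 2 * M := fun x => by
      calc |f x - c| ≤ |f x| + |c| := abs_sub _ _
        _ ≤ 2 * M := by linarith [h3 x]
    have hb' : ∀ x, |f₀' x| ≤ 2 * M' := fun x => by
      calc |f' x - c'| ≤ |f' x| + |c'| := abs_sub _ _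
        _ ≤ 2 * M' := by linarith [h3' x]
    have ht : Test n K H (2 * M) f₀ := by
      refine ⟨h1.sub continuous_const, hcs, hb, ?_⟩
      intro g ε x hε hg
      have e2 : f₀ ((g, (1 : H)) • x) - f₀ x = f ((g, (1 : H)) • x) - f x := by
        simp only [hf₀]
        ring
      rw [e2]
      have := h4 g ε x hε hg
      nlinarith [mul_nonneg hM hε]
    have ht' : Test n K H (2 * M') f₀' := by
      refine ⟨h1'.sub continuous_const, hcs', hb', ?_⟩
      intro g ε x hε hg
      have e2 : f₀' ((g, (1 : H)) • x) - f₀' x = f' ((g, (1 : H)) • x) - f' x := by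
        simp only [hf₀']
        ring
      rw [e2]
      have := h4' g ε x hε hg
      nlinarith [mul_nonneg hM' hε]
    have hact : Continuous fun x : X => act H π a x := continuous_act H π a
    have hc1 : Continuous f₀ := ht.1
    have hc1' : Continuous f₀' := ht'.1
    have hc2 : Continuous fun x => f₀ (act H π a x) := hc1.comp hact
    have int1 : Integrable f₀ μ :=
      Integrable.of_bound hc1.aestronglyMeasurable (2 * M)
        (Eventually.of_forall fun x => by rw [Real.norm_eq_abs]; exact hb x)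
    have int1' : Integrable f₀' μ :=
      Integrable.of_bound hc1'.aestronglyMeasurable (2 * M')
        (Eventually.of_forall fun x => by rw [Real.norm_eq_abs]; exact hb' x)
    have int2 : Integrable (fun x => f₀ (act H π a x)) μ :=
      Integrable.of_bound hc2.aestronglyMeasurable (2 * M)
        (Eventually.of_forall fun x => by rw [Real.norm_eq_abs]; exact hb _)
    have int3 : Integrable (fun x => f₀ (act H π a x) * f₀' x) μ := by
      refine Integrable.of_bound (hc2.mul hc1').aestronglyMeasurable (2 * M * (2 * M'))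
        (Eventually.of_forall fun x => ?_)
      rw [Real.norm_eq_abs, abs_mul]
      exact mul_le_mul (hb _) (hb' _) (abs_nonneg _) (by positivity)
    have hact2 : ∫ x, f₀ (act H π a x) ∂μ = ∫ x, f₀ x ∂μ := integral_act H hA a f₀ hc1
    have e1 : ∫ x, f (act H π a x) * f' x ∂μ =
        ∫ x, f₀ (act H π a x) * f₀' x ∂μ + c * ∫ x, f₀' x ∂μ + c' * ∫ x, f₀ x ∂μ + c * c' := by
      have e2 : (fun x => f (act H π a x) * f' x) = fun x =>
          ((f₀ (act H π a x) * f₀' x + c * f₀' x) + c' * f₀ (act H π a x)) + c * c' := by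
        funext x
        simp only [hf₀, hf₀']
        ring
      have i1 : Integrable (fun x => f₀ (act H π a x) * f₀' x + c * f₀' x) μ :=
        int3.add (int1'.const_mul c)
      have i2 : Integrable (fun x => f₀ (act H π a x) * f₀' x + c * f₀' x +
          c' * f₀ (act H π a x)) μ := i1.add (int2.const_mul c')
      rw [e2, integral_add i2 (integrable_const _), integral_add i1 (int2.const_mul c'),
        integral_add int3 (int1'.const_mul c), integral_const_mul, integral_const_mul, hact2,
        integral_const]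
      simp
    have e3 : ∫ x, f x ∂μ = ∫ x, f₀ x ∂μ + c := by
      have e2 : f = fun x => f₀ x + c := by
        funext x
        simp only [hf₀]
        ring
      conv_lhs => rw [e2]
      rw [integral_add int1 (integrable_const _), integral_const]
      simp
    have e3' : ∫ x, f' x ∂μ = ∫ x, f₀' x ∂μ + c' := by
      have e2 : f' = fun x => f₀' x + c' := by
        funext x
        simp only [hf₀']
        ring
      conv_lhs => rw [e2]
      rw [integral_add int1' (integrable_const _), integral_const]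
      simp
    have e4 : ∫ x, f (act H π a x) * f' x ∂μ - (∫ x, f x ∂μ) * ∫ x, f' x ∂μ =
        corr H π μ f₀ f₀' a := by
      rw [e1, e3, e3']
      unfold corr
      ring
    show |∫ x, f (act H π a x) * f' x ∂μ - (∫ x, f x ∂μ) * ∫ x, f' x ∂μ| ≤ _
    rw [e4]
    refine (hmix _ _ _ _ ht ht' a).trans ?_
    have e5 : C₀ ≤ |C₀| := le_abs_self _
    have e6 : 0 ≤ 4 * M * M' * Real.exp (-κ * len a) := by positivity
    nlinarith

end Pool.Agent.Work.MP_67388f_an.EM
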