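import Pool.Agent.Work.MP_67388f_an.EM.LA

/-!
# MS (size M): mixing of sets

## Proof of `mix_sets`
Let `V` be open with `μ V ≠ 0` and `B` measurable with `μ B ≠ 0`.
(1) There is a test function `f` with `0 ≤ f ≤ 1_V` (that is `tsupport f ⊆ V`, `f ≤ 1`) and
`α = ∫ f ∂μ > 0`: by inner regularity there is a compact `Q ⊆ V` with `μ Q > 0`; Urysohn gives
`f₀` continuous, compactly supported in `V`, `0 ≤ f₀ ≤ 1`, `f₀ = 1` on `Q`
(`exists_continuous_one_of_compact_subset_open` or `exists_continuous_support...`); `lip_approx`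
with `ε = 1/2` gives a test function `F ≥ 0` with `F ≥ 1/2` on `Q`, `F ≤ 2`, `tsupport F ⊆ V`; take
`f = F / 2` (a multiple of a test function by `1/2` is a test function).
(2) For `ε > 0` there is a test function `f'` with `∫ |f' - 1_B| ∂μ ≤ ε`: compactly supported
continuous functions are dense in `L¹` (e.g. `MeasureTheory.Integrable.exists_hasCompactSupport_integral_sub_le`
or `MemLp.exists_hasCompactSupport_...`), then `lip_approx`.
(3) With `b = μ.real B`, choose `ε` with `ε (α + 2) < α b` e.g. `ε = α b / 8` (`α ≤ 1`), and `R` from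
`WM` for `f, f', ε`. For `len k ≥ R`: `0 ≤ f ≤ 1` gives
`∫ f (a_k x) 1_B(x) ≥ ∫ f (a_k x) f' x - ε ≥ α ∫ f' - 2 ε ≥ α (b - ε) - 2 ε > 0`.
As `f (a_k x) 1_B x` vanishes outside `B ∩ a_k⁻¹ V`, this set has positive measure.
`wm_of_exp`, `wm_of_poly` : the bounds tend to zero as `len k → ∞`.
-/

set_option autoImplicit false

namespace Pool.Agent.Work.MP_67388f_an.EM

open MeasureTheory Filter Topology

section

variable {I : Type} [Fintype I] {n : I → ℕ} {K : I → Type} [∀ i, NontriviallyNormedField (K i)]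
  (H : Type) [Group H] {X : Type} [TopologicalSpace X]
  [MulAction (GG n K × H) X] [MeasurableSpace X]

theorem wm_of_exp {π : ∀ i, (K i)ˣ} {μ : Measure X} (h : ExpMix n H π μ) : WM n H π μ := by
  obtain ⟨C, κ, hκ, h⟩ := h
  intro M M' f f' hf hf' ε hε
  have h1 : Tendsto (fun x : ℝ => C * M * M' * Real.exp (-κ * x)) atTop (𝓝 (C * M * M' * 0)) := by
    refine Tendsto.const_mul _ (Real.tendsto_exp_atBot.comp ?_)
    exact tendsto_id.const_mul_atTop_of_neg (neg_lt_zero.2 hκ)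
  rw [mul_zero] at h1
  obtain ⟨R, hR⟩ := eventually_atTop.1 (h1.eventually_lt_const hε)
  exact ⟨R, fun k hk => (h M M' f f' hf hf' k).trans (hR _ hk).le⟩

theorem wm_of_poly {π : ∀ i, (K i)ˣ} {μ : Measure X} (h : PolyMix n H π μ) : WM n H π μ := by
  intro M M' f f' hf hf' ε hε
  obtain ⟨C, ρ, hρ, h⟩ := h M M' f f' hf hf'
  have h1 : Tendsto (fun x : ℝ => C * (1 + x) ^ (-ρ)) atTop (𝓝 (C * 0)) := by
    refine Tendsto.const_mul _ ((tendsto_rpow_neg_atTop (by linarith)).comp ?_)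
    exact tendsto_atTop_add_const_left _ _ tendsto_id
  rw [mul_zero] at h1
  obtain ⟨R, hR⟩ := eventually_atTop.1 (h1.eventually_lt_const hε)
  exact ⟨R, fun k hk => (h k).trans (hR _ hk).le⟩

end

variable {I : Type} [Fintype I] {n : I → ℕ} {K : I → Type} [∀ i, NontriviallyNormedField (K i)]
  [∀ i, ProperSpace (K i)]
  (H : Type) [Group H] [TopologicalSpace H] [IsTopologicalGroup H]
  {X : Type} [TopologicalSpace X] [T2Space X] [LocallyCompactSpace X] [SecondCountableTopology X]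
  [MulAction (GG n K × H) X] [ContinuousSMul (GG n K × H) X] [MeasurableSpace X] [BorelSpace X]

private theorem exists_test_below {μ : Measure X} [IsFiniteMeasure μ] {V : Set X}
    (hV : IsOpen V) (hV0 : μ V ≠ 0) : ∃ (M : ℝ) (f : X → ℝ), Test n K H M f ∧ (∀ x, 0 ≤ f x) ∧
      (∀ x, f x ≤ 1) ∧ tsupport f ⊆ V ∧ 0 < ∫ x, f x ∂μ := by
  obtain ⟨Q, hQV, hQ, hQ0⟩ := hV.exists_lt_isCompact (μ := μ) (pos_iff_ne_zero.2 hV0)
  obtain ⟨u, hu1, huc, huV, hu⟩ := exists_continuousMap_one_of_isCompact_subset_isOpen hQ hV hQV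
  have hcs : HasCompactSupport fun x => (1 / 2 : ℝ) * u x :=
    HasCompactSupport.mul_left (f := fun _ => (1 / 2 : ℝ)) huc
  have hcv : tsupport (fun x => (1 / 2 : ℝ) * u x) ⊆ V :=
    (tsupport_mul_subset_right (f := fun _ => (1 / 2 : ℝ)) (g := u)).trans huV
  obtain ⟨M, F, hF, hFu, hFV, hF0⟩ := lip_approx (n := n) (K := K) H
    (f := fun x => (1 / 2 : ℝ) * u x) (continuous_const.mul u.continuous) hcs hV hcv
    (show (0 : ℝ) < 1 / 4 by norm_num)
  have hF0' : ∀ x, 0 ≤ F x := hF0 fun x => mul_nonneg (by norm_num) (hu x).1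
  refine ⟨M, F, hF, hF0', fun x => ?_, hFV, ?_⟩
  · have h1 := (abs_le.1 (hFu x)).2
    have h2 := (hu x).2
    linarith
  · rw [integral_pos_iff_support_of_nonneg hF0' (hF.1.integrable_of_hasCompactSupport hF.2.1)]
    refine lt_of_lt_of_le hQ0 (measure_mono fun x hx => ?_)
    have h1 := (abs_le.1 (hFu x)).1
    have h2 : u x = 1 := hu1 hx
    rw [h2] at h1
    rw [Function.mem_support]
    linarith

private theorem exists_test_near {μ : Measure X} [IsFiniteMeasure μ] {B : Set X}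
    (hB : MeasurableSet B) {ε : ℝ} (hε : 0 < ε) : ∃ (M : ℝ) (f : X → ℝ), Test n K H M f ∧
      ∫ x, ‖f x - B.indicator (fun _ => (1 : ℝ)) x‖ ∂μ ≤ ε := by
  have hBi : Integrable (B.indicator fun _ => (1 : ℝ)) μ := (integrable_const 1).indicator hB
  obtain ⟨g, hgc, hg, hgcont, hgi⟩ := hBi.exists_hasCompactSupport_integral_sub_le (half_pos hε)
  have hm : 0 ≤ μ.real Set.univ := measureReal_nonneg
  obtain ⟨M, F, hF, hFg, -, -⟩ := lip_approx (n := n) (K := K) H hgcont hgc isOpen_univ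
    (Set.subset_univ _) (show (0 : ℝ) < ε / (2 * (μ.real Set.univ + 1)) by positivity)
  have hFi : Integrable F μ := hF.1.integrable_of_hasCompactSupport hF.2.1
  refine ⟨M, F, hF, ?_⟩
  have h1 : ∫ x, ‖F x - g x‖ ∂μ ≤ ε / 2 := by
    have h2 : ∫ x, ‖F x - g x‖ ∂μ ≤ ∫ _, ε / (2 * (μ.real Set.univ + 1)) ∂μ :=
      integral_mono (hFi.sub hgi).norm (integrable_const _) fun x => hFg x
    rw [integral_const, smul_eq_mul] at h2
    refine h2.trans ?_
    rw [mul_div_assoc', div_le_div_iff₀ (by positivity) (by positivity)]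
    nlinarith
  calc ∫ x, ‖F x - B.indicator (fun _ => (1 : ℝ)) x‖ ∂μ
      ≤ ∫ x, (‖F x - g x‖ + ‖B.indicator (fun _ => (1 : ℝ)) x - g x‖) ∂μ := by
        refine integral_mono (hFi.sub hBi).norm ((hFi.sub hgi).norm.add (hBi.sub hgi).norm)
          fun x => ?_
        have h3 := norm_sub_le (F x - g x) (B.indicator (fun _ => (1 : ℝ)) x - g x)
        rwa [sub_sub_sub_cancel_right] at h3
    _ = ∫ x, ‖F x - g x‖ ∂μ + ∫ x, ‖B.indicator (fun _ => (1 : ℝ)) x - g x‖ ∂μ :=
        integral_add (hFi.sub hgi).norm (hBi.sub hgi).norm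
    _ ≤ ε := by linarith

theorem mix_sets {π : ∀ i, (K i)ˣ} {μ : Measure X} [IsProbabilityMeasure μ]
    (h : WM n H π μ) {B V : Set X} (hB : MeasurableSet B) (hB0 : μ B ≠ 0) (hV : IsOpen V)
    (hV0 : μ V ≠ 0) : ∃ R : ℝ, ∀ k : Lat n, R ≤ len k → μ (B ∩ act H π k ⁻¹' V) ≠ 0 := by
  obtain ⟨M, f, hf, hf0, hf1, hfV, hα⟩ := exists_test_below (n := n) (K := K) H hV hV0
  have hfi : Integrable f μ := hf.1.integrable_of_hasCompactSupport hf.2.1
  have hα1 : ∫ x, f x ∂μ ≤ 1 := by
    have h1 : ∫ x, f x ∂μ ≤ ∫ _, (1 : ℝ) ∂μ := integral_mono hfi (integrable_const 1) hf1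
    simpa using h1
  have hb : 0 < μ.real B := ENNReal.toReal_pos hB0 (measure_ne_top μ B)
  set α : ℝ := ∫ x, f x ∂μ with hαdef
  have hε : 0 < α * μ.real B / 4 := by positivity
  obtain ⟨M', f', hf', hf'B⟩ := exists_test_near (n := n) (K := K) H (μ := μ) hB hε
  have hf'i : Integrable f' μ := hf'.1.integrable_of_hasCompactSupport hf'.2.1
  have hBi : Integrable (B.indicator fun _ => (1 : ℝ)) μ := (integrable_const 1).indicator hB
  have hBint : ∫ x, B.indicator (fun _ => (1 : ℝ)) x ∂μ = μ.real B := by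
    rw [integral_indicator hB, setIntegral_const, smul_eq_mul, mul_one]
  obtain ⟨R, hR⟩ := h M M' f f' hf hf' _ hε
  refine ⟨R, fun k hk h0 => ?_⟩
  have h1 := hR k hk
  rw [corr] at h1
  have h2 : |∫ x, f' x ∂μ - μ.real B| ≤ α * μ.real B / 4 := by
    have h20 : ∫ x, f' x ∂μ - μ.real B =
        ∫ x, (f' x - B.indicator (fun _ => (1 : ℝ)) x) ∂μ := by
      rw [integral_sub hf'i hBi, hBint]
    rw [h20, ← Real.norm_eq_abs]
    exact (norm_integral_le_integral_norm _).trans hf'B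
  have hc : Continuous fun x : X => f (act H π k x) := hf.1.comp (continuous_act H π k)
  have hfe : ∀ x, ‖f (act H π k x)‖ ≤ 1 := fun x => by
    rw [Real.norm_eq_abs, abs_of_nonneg (hf0 _)]
    exact hf1 _
  have hi1 : Integrable (fun x => f (act H π k x) * f' x) μ :=
    hf'i.bdd_mul hc.aestronglyMeasurable (Eventually.of_forall hfe)
  have hi2 : Integrable (fun x => f (act H π k x) * B.indicator (fun _ => (1 : ℝ)) x) μ :=
    hBi.bdd_mul hc.aestronglyMeasurable (Eventually.of_forall hfe)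
  have h3 : ∫ x, f (act H π k x) * B.indicator (fun _ => (1 : ℝ)) x ∂μ = 0 := by
    refine integral_eq_zero_of_ae ?_
    have h4 : ∀ᵐ x ∂μ, x ∉ B ∩ act H π k ⁻¹' V := measure_eq_zero_iff_ae_notMem.1 h0
    filter_upwards [h4] with x hx
    simp only [Pi.zero_apply]
    by_cases hxB : x ∈ B
    · have hxV : act H π k x ∉ V := fun hv => hx ⟨hxB, hv⟩
      have hz : f (act H π k x) = 0 := by
        by_contra hne
        exact hxV (hfV (subset_tsupport f hne))
      rw [hz, zero_mul]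
    · rw [Set.indicator_of_notMem hxB, mul_zero]
  have h5 : |∫ x, f (act H π k x) * f' x ∂μ| ≤ α * μ.real B / 4 := by
    have h6 : ∫ x, f (act H π k x) * f' x ∂μ = ∫ x, f (act H π k x) * (f' x -
        B.indicator (fun _ => (1 : ℝ)) x) ∂μ := by
      rw [← sub_zero (∫ x, f (act H π k x) * f' x ∂μ), ← h3, ← integral_sub hi1 hi2]
      refine integral_congr_ae (Eventually.of_forall fun x => ?_)
      simp only
      ring
    rw [h6, ← Real.norm_eq_abs]
    refine (norm_integral_le_integral_norm _).trans (le_trans ?_ hf'B)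
    refine integral_mono_of_nonneg (Eventually.of_forall fun x => norm_nonneg _)
      (hf'i.sub hBi).norm (Eventually.of_forall fun x => ?_)
    simp only [norm_mul]
    calc ‖f (act H π k x)‖ * ‖f' x - B.indicator (fun _ => (1 : ℝ)) x‖
        ≤ 1 * ‖f' x - B.indicator (fun _ => (1 : ℝ)) x‖ :=
          mul_le_mul_of_nonneg_right (hfe x) (norm_nonneg _)
      _ = ‖f' x - B.indicator (fun _ => (1 : ℝ)) x‖ := one_mul _
  rw [← hαdef] at h1
  have h7 : α * ∫ x, f' x ∂μ ≤ α * μ.real B / 4 + α * μ.real B / 4 := by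
    rw [abs_le] at h1 h5
    linarith [h1.1, h5.2]
  have h8 : μ.real B - α * μ.real B / 4 ≤ ∫ x, f' x ∂μ := by
    rw [abs_le] at h2
    linarith [h2.1]
  have h9 : α * (μ.real B - α * μ.real B / 4) ≤ α * ∫ x, f' x ∂μ :=
    mul_le_mul_of_nonneg_left h8 hα.le
  have h10 : α * (α * μ.real B) ≤ 1 * (α * μ.real B) :=
    mul_le_mul_of_nonneg_right hα1 (by positivity)
  nlinarith [mul_pos hα hb]

end Pool.Agent.Work.MP_67388f_an.EM
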