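import Pool.Agent.Work.MP_67388f_an.EM.CoDefs

/-!
# PF (size M): `SubProp` for the real numbers and the p-adic numbers

## Proof
Real: `S` contains `ϖ⁻¹ ^ m * c → 0`, nonzero, so `0` is not isolated in `S` and `S` is dense
(`AddSubgroup.dense_of_not_isolated_zero` or `AddSubgroup.dense_or_cyclic`), closed, so everything.
`ℚ_[p]`: `S` is closed and `ℤ`-stable, so stable under multiplication by `ℤ_[p]` (`ℤ` is dense in
`ℤ_[p]`: for `z ∈ ℤ_[p]`, `c ∈ S` there are integers `m_j → z`, `m_j c ∈ S`; e.g.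
`PadicInt.denseRange_intCast` or `PadicInt.appr`). Given `x ∈ ℚ_[p]` choose `m` with
`‖ϖ ^ m * c‖ ≥ ‖x‖`; `ϖ ^ m * c ∈ S`, and `x = (x / (ϖ ^ m c)) * (ϖ ^ m c)` with
`‖x / (ϖ ^ m c)‖ ≤ 1`.
-/

set_option autoImplicit false

namespace Pool.Agent.Work.MP_67388f_an.EM

open Filter Topology

theorem subProp_real : SubProp ℝ := by
  intro S hS hne ϖ hϖ h1 h2
  obtain ⟨c, hc, hc0⟩ := hne
  have hpow : ∀ m : ℕ, ϖ⁻¹ ^ m * c ∈ S := by
    intro m
    induction m with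
    | zero => simpa using hc
    | succ m ih =>
      rw [pow_succ', mul_assoc]
      exact h2 _ ih
  have hϖ0 : ϖ ≠ 0 := by
    rintro rfl
    simp at hϖ
    linarith
  have hdense : Dense (S : Set ℝ) := by
    apply AddSubgroup.dense_of_not_isolated_zero
    intro ε hε
    have hlim : Tendsto (fun m : ℕ => ‖ϖ⁻¹‖ ^ m * ‖c‖) atTop (𝓝 0) := by
      have e1 : ‖ϖ⁻¹‖ < 1 := by
        rw [norm_inv]
        exact inv_lt_one_of_one_lt₀ hϖ
      simpa using (tendsto_pow_atTop_nhds_zero_of_lt_one (norm_nonneg _) e1).mul_const ‖c‖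
    obtain ⟨m, hm⟩ := (hlim.eventually (gt_mem_nhds hε)).exists
    have hv0 : ϖ⁻¹ ^ m * c ≠ 0 := mul_ne_zero (pow_ne_zero _ (inv_ne_zero hϖ0)) hc0
    refine ⟨|ϖ⁻¹ ^ m * c|, ?_, abs_pos.2 hv0, ?_⟩
    · rcases abs_choice (ϖ⁻¹ ^ m * c) with h | h
      · rw [h]
        exact hpow m
      · rw [h]
        exact S.neg_mem (hpow m)
    · rw [← Real.norm_eq_abs, norm_mul, norm_pow]
      exact hm
  rw [AddSubgroup.eq_top_iff']
  intro x
  have := hdense x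
  rw [hS.closure_eq] at this
  exact this

theorem subProp_padic (p : ℕ) [Fact p.Prime] : SubProp ℚ_[p] := by
  intro S hS hne ϖ hϖ h1 h2
  obtain ⟨c, hc, hc0⟩ := hne
  have hint : ∀ (z : ℤ_[p]) (d : ℚ_[p]), d ∈ S → (z : ℚ_[p]) * d ∈ S := by
    intro z d hd
    have hcont : Continuous fun z : ℤ_[p] => (z : ℚ_[p]) * d :=
      (continuous_subtype_val).mul continuous_const
    have hcl : IsClosed ((fun z : ℤ_[p] => (z : ℚ_[p]) * d) ⁻¹' (S : Set ℚ_[p])) :=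
      hS.preimage hcont
    have hsub : Set.range (Int.cast : ℤ → ℤ_[p]) ⊆
        (fun z : ℤ_[p] => (z : ℚ_[p]) * d) ⁻¹' (S : Set ℚ_[p]) := by
      rintro _ ⟨m, rfl⟩
      show (((m : ℤ_[p]) : ℚ_[p])) * d ∈ S
      rw [PadicInt.coe_intCast, ← zsmul_eq_mul]
      exact S.zsmul_mem hd m
    have h3 := closure_minimal hsub hcl
    exact h3 (PadicInt.denseRange_intCast z)
  have hpow : ∀ m : ℕ, ϖ ^ m * c ∈ S := by
    intro m
    induction m with
    | zero => simpa using hc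
    | succ m ih =>
      rw [pow_succ', mul_assoc]
      exact h1 _ ih
  have hϖ0 : ϖ ≠ 0 := by
    rintro rfl
    rw [norm_zero] at hϖ
    linarith
  rw [AddSubgroup.eq_top_iff']
  intro x
  have hc' : 0 < ‖c‖ := norm_pos_iff.2 hc0
  obtain ⟨m, hm⟩ := pow_unbounded_of_one_lt (‖x‖ / ‖c‖) hϖ
  have hv0 : ϖ ^ m * c ≠ 0 := mul_ne_zero (pow_ne_zero _ hϖ0) hc0
  have hle : ‖x / (ϖ ^ m * c)‖ ≤ 1 := by
    rw [norm_div, div_le_one (norm_pos_iff.2 hv0), norm_mul, norm_pow]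
    rw [div_lt_iff₀ hc'] at hm
    exact hm.le
  have h3 := hint ⟨x / (ϖ ^ m * c), hle⟩ _ (hpow m)
  have h4 : x / (ϖ ^ m * c) * (ϖ ^ m * c) = x := div_mul_cancel₀ _ hv0
  rw [← h4]
  exact h3

end Pool.Agent.Work.MP_67388f_an.EM
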