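import Pool.Agent.Work.MP_67388f_an.EM.Lem

/-!
# RT (size M): the set of roots preserving the measure

## Proof
`root_trans` : for distinct `j, m, l` the commutator of `tv ⟨i,(j,m)⟩ c` and `tv ⟨i,(m,l)⟩ 1` is
`tv ⟨i,(j,l)⟩ c` (a product of four elements preserving `μ`: `fix_mul`, `fix_inv`, `tv_neg`). The
commutator formula for `Matrix.transvection` / `SpecialLinearGroup.transvection` is proved in
`Pool/Agent/Work/MP_67388f_an/HZ/Top.lean` (`trans_comm`), which may be copied; `tv` is
`Pi.mulSingle`, a homomorphism in each component.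
`fix_all` : every `g : GG n K` is the product of the `Pi.mulSingle i (g i)` (finite index type;
`Finset.noncommProd_mulSingle` or prove by induction over a Finset `s` that the element equal to
`g i` for `i ∈ s` and `1` otherwise preserves `μ`), so it suffices to treat
`Pi.mulSingle i x`, `x ∈ SL(n i, K i)`. If `n i ≤ 1` the group is trivial. If `n i ≥ 2` use
`Matrix.SpecialLinearGroup.diagonal_transvection_induction'` (Mathlib) with the predicate
`P x = Fix H μ (Pi.mulSingle i x)`; transvections are the hypothesis; the diagonal elements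
`diag2n hij c` (entries `c` at `i`, `c⁻¹` at `j`, else `1`) are products of six transvections, as in
the Mathlib proof for `SL(2)` (`Matrix.diag2_decompose`): with `t = transvection hij`,
`t' = transvection hij.symm`: `diag2n = t c * t' (-c⁻¹) * t c * t (-1) * t' 1 * t (-1)`.
(Alternatively use `Matrix.Pivot` or the argument in `HZ/Top.lean`, which also shows that a
subgroup containing all transvections is everything.)
-/

set_option autoImplicit false

namespace Pool.Agent.Work.MP_67388f_an.EM

open MeasureTheory Filter Topology Matrix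

section alg

variable {N : ℕ} {F : Type} [Field F]

private theorem trans_commF {i k j : Fin N} (hik : i ≠ k) (hkj : k ≠ j) (hij : i ≠ j) (s t : F) :
    SpecialLinearGroup.transvection hik s * SpecialLinearGroup.transvection hkj t *
      SpecialLinearGroup.transvection hik (-s) * SpecialLinearGroup.transvection hkj (-t)
      = SpecialLinearGroup.transvection hij (s * t) := by
  apply Subtype.ext
  show (1 + Matrix.single i k s) * (1 + Matrix.single k j t) * (1 + Matrix.single i k (-s)) *
    (1 + Matrix.single k j (-t)) = 1 + Matrix.single i j (s * t)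
  have hS : ∀ (p q : Fin N) (c : F), Matrix.single p q c = c • Matrix.single p q (1 : F) := by
    intro p q c
    rw [Matrix.smul_single, smul_eq_mul, mul_one]
  rw [hS i k s, hS k j t, hS i k (-s), hS k j (-t), hS i j (s * t)]
  set P := Matrix.single i k (1 : F) with hP
  set Q := Matrix.single k j (1 : F) with hQ
  set R := Matrix.single i j (1 : F) with hR
  have hPQ : P * Q = R := by simp [hP, hQ, hR]
  have hPP : P * P = 0 := by simp [hP, hik.symm]
  have hQQ : Q * Q = 0 := by simp [hQ, hkj.symm]
  have hQP : Q * P = 0 := by simp [hP, hQ, hij.symm]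
  have hRP : R * P = 0 := by simp [hR, hP, hij.symm]
  have hRQ : R * Q = 0 := by simp [hR, hQ, hkj.symm]
  simp only [add_mul, mul_add, one_mul, mul_one, smul_mul_assoc, mul_smul_comm, hPQ, hPP, hQQ, hQP,
    hRP, hRQ, smul_zero, zero_mul]
  module

/-- the element `T(c) T'(-c⁻¹) T(c)` -/
private theorem weyl {i j : Fin N} (hij : i ≠ j) {c d : F} (hc : c * d = 1) :
    (1 + Matrix.single i j c) * (1 + Matrix.single j i (-d)) * (1 + Matrix.single i j c) =
      (1 - Matrix.single i i (1 : F) - Matrix.single j j (1 : F)) + Matrix.single i j c -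
        Matrix.single j i d := by
  have hS : ∀ (p q : Fin N) (c : F), Matrix.single p q c = c • Matrix.single p q (1 : F) := by
    intro p q c
    rw [Matrix.smul_single, smul_eq_mul, mul_one]
  rw [hS i j c, hS j i (-d), hS j i d]
  set P := Matrix.single i j (1 : F) with hP
  set Q := Matrix.single j i (1 : F) with hQ
  set A := Matrix.single i i (1 : F) with hA
  set B := Matrix.single j j (1 : F) with hB
  have hPQ : P * Q = A := by simp [hP, hQ, hA]
  have hQP : Q * P = B := by simp [hP, hQ, hB]
  have hPP : P * P = 0 := by simp [hP, hij.symm]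
  have hAP : A * P = P := by simp [hA, hP]
  simp only [add_mul, mul_add, one_mul, mul_one, smul_mul_assoc, mul_smul_comm, hPQ, hPP, hQP,
    hAP, smul_zero]
  match_scalars <;> first | ring1 | linear_combination hc | linear_combination (-1 : F) * hc |
    linear_combination c * hc | linear_combination (-c) * hc

private theorem diag_eq {i j : Fin N} (hij : i ≠ j) {c : F} (hc : c ≠ 0) :
    SpecialLinearGroup.diag2n hij c hc =
      SpecialLinearGroup.transvection hij c * SpecialLinearGroup.transvection hij.symm (-c⁻¹) *
      SpecialLinearGroup.transvection hij c * (SpecialLinearGroup.transvection hij (-1) *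
      SpecialLinearGroup.transvection hij.symm 1 * SpecialLinearGroup.transvection hij (-1)) := by
  apply Subtype.ext
  show _ = (1 + Matrix.single i j c) * (1 + Matrix.single j i (-c⁻¹)) *
    (1 + Matrix.single i j c) * ((1 + Matrix.single i j (-1)) * (1 + Matrix.single j i 1) *
    (1 + Matrix.single i j (-1)))
  have h2 := weyl hij (c := (-1 : F)) (d := -1) (by norm_num)
  rw [neg_neg] at h2
  rw [weyl hij (mul_inv_cancel₀ hc), h2]
  have hS : ∀ (p q : Fin N) (c : F), Matrix.single p q c = c • Matrix.single p q (1 : F) := by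
    intro p q c
    rw [Matrix.smul_single, smul_eq_mul, mul_one]
  rw [hS i j c, hS j i (-1), hS j i c⁻¹, hS i j (-1)]
  have hD : (SpecialLinearGroup.diag2n hij c hc).1 = 1 + (c - 1) • Matrix.single i i (1 : F) +
      (c⁻¹ - 1) • Matrix.single j j (1 : F) := by
    rw [SpecialLinearGroup.diag2n_coe]
    ext p q
    rw [Matrix.add_apply, Matrix.add_apply, Matrix.smul_apply, Matrix.smul_apply,
      Matrix.single_apply, Matrix.single_apply, Matrix.diagonal_apply, Matrix.one_apply,
      smul_eq_mul, smul_eq_mul]
    by_cases hpq : p = q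
    · subst hpq
      by_cases hpi : p = i
      · subst hpi
        have h1 : ¬ (j = p ∧ j = p) := fun h => hij h.1.symm
        rw [if_pos rfl, if_pos rfl, if_pos rfl, if_pos ⟨rfl, rfl⟩, if_neg h1]
        ring
      · have h1 : ¬ (i = p ∧ i = p) := fun h => hpi h.1.symm
        by_cases hpj : p = j
        · subst hpj
          rw [if_pos rfl, if_neg hpi, if_pos rfl, if_pos rfl, if_neg h1, if_pos ⟨rfl, rfl⟩]
          ring
        · have h2 : ¬ (j = p ∧ j = p) := fun h => hpj h.1.symm
          rw [if_pos rfl, if_neg hpi, if_neg hpj, if_pos rfl, if_neg h1, if_neg h2]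
          ring
    · have h1 : ¬ (i = p ∧ i = q) := fun h => hpq (h.1.symm.trans h.2)
      have h2 : ¬ (j = p ∧ j = q) := fun h => hpq (h.1.symm.trans h.2)
      rw [if_neg hpq, if_neg hpq, if_neg h1, if_neg h2]
      ring
  rw [hD]
  set P := Matrix.single i j (1 : F) with hP
  set Q := Matrix.single j i (1 : F) with hQ
  set A := Matrix.single i i (1 : F) with hA
  set B := Matrix.single j j (1 : F) with hB
  have hPQ : P * Q = A := by simp [hP, hQ, hA]
  have hQP : Q * P = B := by simp [hP, hQ, hB]
  have hPP : P * P = 0 := by simp [hP, hij.symm]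
  have hQQ : Q * Q = 0 := by simp [hQ, hij]
  have hAP : A * P = P := by simp [hA, hP]
  have hPA : P * A = 0 := by simp [hA, hP, hij.symm]
  have hAQ : A * Q = 0 := by simp [hA, hQ, hij]
  have hQA : Q * A = Q := by simp [hA, hQ]
  have hBP : B * P = 0 := by simp [hB, hP, hij.symm]
  have hPB : P * B = P := by simp [hB, hP]
  have hBQ : B * Q = Q := by simp [hB, hQ]
  have hQB : Q * B = 0 := by simp [hB, hQ, hij]
  have hAA : A * A = A := by simp [hA]
  have hBB : B * B = B := by simp [hB]
  have hAB : A * B = 0 := by simp [hA, hB, hij]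
  have hBA : B * A = 0 := by simp [hA, hB, hij.symm]
  simp only [add_mul, mul_add, sub_mul, mul_sub, one_mul, mul_one, smul_mul_assoc, mul_smul_comm,
    hPQ, hPP, hQP, hQQ, hAP, hPA, hAQ, hQA, hBP, hPB, hBQ, hQB, hAA, hBB, hAB, hBA, smul_zero]
  module

end alg

variable {I : Type} {n : I → ℕ} {K : I → Type} [∀ i, NontriviallyNormedField (K i)]
  (H : Type) [Group H] [TopologicalSpace H]
  {X : Type} [TopologicalSpace X] [MulAction (GG n K × H) X] [ContinuousSMul (GG n K × H) X]
  [MeasurableSpace X] [BorelSpace X] {μ : Measure X}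

theorem root_trans (i : I) (j m l : Fin (n i)) (hjm : j ≠ m) (hml : m ≠ l) (hjl : j ≠ l)
    (h1 : ∀ c, Fix H μ (tv (K := K) (⟨i, (j, m)⟩ : Rt n) c))
    (h2 : ∀ c, Fix H μ (tv (K := K) (⟨i, (m, l)⟩ : Rt n) c)) :
    ∀ c, Fix H μ (tv (K := K) (⟨i, (j, l)⟩ : Rt n) c) := by
  classical
  intro c
  have e : tv (K := K) (⟨i, (j, l)⟩ : Rt n) c = tv (K := K) (⟨i, (j, m)⟩ : Rt n) c *
      tv (K := K) (⟨i, (m, l)⟩ : Rt n) 1 * tv (K := K) (⟨i, (j, m)⟩ : Rt n) (-c) *
      tv (K := K) (⟨i, (m, l)⟩ : Rt n) (-1) := by
    unfold tv
    rw [dif_pos hjl, dif_pos hjm, dif_pos hml, dif_pos hjm, dif_pos hml]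
    rw [← Pi.mulSingle_mul, ← Pi.mulSingle_mul, ← Pi.mulSingle_mul]
    congr 1
    rw [trans_commF hjm hml hjl, mul_one]
  rw [e]
  exact fix_mul H (fix_mul H (fix_mul H (h1 _) (h2 _)) (h1 _)) (h2 _)

theorem fix_all [Fintype I] (h : ∀ (φ : Rt n) (c : K φ.1), Off φ → Fix H μ (tv φ c))
    (g : GG n K) : Fix H μ g := by
  classical
  have htv : ∀ (i : I) (p q : Fin (n i)) (hpq : p ≠ q) (c : K i),
      Fix H μ (Pi.mulSingle i (SpecialLinearGroup.transvection hpq c) : GG n K) := by
    intro i p q hpq c
    have h1 := h ⟨i, (p, q)⟩ c hpq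
    unfold tv at h1
    rw [dif_pos hpq] at h1
    convert h1
  have hone : ∀ (i : I) (x : SpecialLinearGroup (Fin (n i)) (K i)),
      Fix H μ (Pi.mulSingle i x : GG n K) := by
    intro i x
    rcases Nat.lt_or_ge (n i) 2 with h2 | h2
    · have hsub : Subsingleton (Fin (n i)) := by
        refine ⟨fun a b => Fin.ext ?_⟩
        have := a.2
        have := b.2
        omega
      have hx : x = 1 := by
        refine Subtype.ext ?_
        ext a b
        obtain rfl : a = b := Subsingleton.elim _ _
        have h3 := x.2
        rw [Matrix.det_eq_elem_of_subsingleton x.1 a] at h3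
        change x.1 a a = (1 : Matrix (Fin (n i)) (Fin (n i)) (K i)) a a
        rw [h3, Matrix.one_apply_eq]
      rw [hx, Pi.mulSingle_one]
      exact fix_one H μ
    · have : Nontrivial (Fin (n i)) := Fin.nontrivial_iff_two_le.2 h2
      refine SpecialLinearGroup.diagonal_transvection_induction'
        (fun x => Fix H μ (Pi.mulSingle i x : GG n K)) x ?_ (htv i) ?_
      · intro p q hpq c hc
        rw [diag_eq hpq hc]
        simp only [Pi.mulSingle_mul]
        exact fix_mul H (fix_mul H (fix_mul H (htv _ _ _ _ _) (htv _ _ _ _ _)) (htv _ _ _ _ _))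
          (fix_mul H (fix_mul H (htv _ _ _ _ _) (htv _ _ _ _ _)) (htv _ _ _ _ _))
      · intro A B hA hB
        simp only [Pi.mulSingle_mul]
        exact fix_mul H hA hB
  have hs : ∀ s : Finset I, Fix H μ ((fun i => if i ∈ s then g i else 1) : GG n K) := by
    intro s
    induction s using Finset.induction_on with
    | empty =>
      simp only [Finset.notMem_empty, if_false]
      exact fix_one H μ
    | insert a s ha ih =>
      have e : ((fun i => if i ∈ insert a s then g i else 1) : GG n K) =
          (Pi.mulSingle a (g a) : GG n K) * (fun i => if i ∈ s then g i else 1) := by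
        funext i
        rw [Pi.mul_apply]
        by_cases hi : i = a
        · subst hi
          rw [Pi.mulSingle_eq_same, if_neg ha, if_pos (Finset.mem_insert_self _ _), mul_one]
        · rw [Pi.mulSingle_eq_of_ne hi, one_mul]
          by_cases his : i ∈ s
          · rw [if_pos his, if_pos (Finset.mem_insert_of_mem his)]
          · rw [if_neg his, if_neg (fun h => (Finset.mem_insert.1 h).elim hi his)]
      rw [e]
      exact fix_mul H (hone a _) ih
  have := hs Finset.univ
  simpa using this

end Pool.Agent.Work.MP_67388f_an.EM
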