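import Pool.Agent.Work.MP_67388f_an.EM.SAm
import Pool.Agent.Work.MP_67388f_an.EM.KerV

/-!
# SA (size M-L): the sampling sets under polynomial mixing (rank at least 3)

## Proof
Choose for each `φ` with `Off φ` vectors `e₁ φ, e₂ φ` from `ker_vec2`. Let `L ≥ len (e₁ φ),
len (e₂ φ), len (pl (1,0)), len (pl (0,1))`, `L ≥ 1`. Let `c = η / (4 L)`, `N s = ⌊c 2^s⌋₊` and
`g s = N s` (both at least 1 for `s ≥ s₁`; for `s < s₁` put `S s = ∅`). For a pair `(b, φ)` the key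
is `(φ, rv φ (pl b), b.1 / g s, b.2 / g s)` (integer division `Int.ediv`). For `b` in the box
`|b.1|, |b.2| ≤ C₁ 2^s` the number of keys is at most `#φ * (2 R + 1) * (2 R' + 1)^2` where
`R = O(2^s)` bounds `|rv φ (pl b)| ≤ len (pl b) ≤ (|b.1| + |b.2|) L` and
`R' = O(1)` bounds `|b.1| / g s + 1 ≤ C₁ 2^s / ⌊c 2^s⌋₊ + 1 ≤ 2 C₁ / c + 1`. Choose for every key that
occurs one `b₀` having it, and let `S s` be the set of the boxes `box (e₁ φ) (e₂ φ) (pl b₀) (N s)`.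
* rich: given `b, φ` take the box of the key of `(b, φ)`: for `k` in it
  `rv φ k = rv φ (pl b₀) = rv φ (pl b)` and
  `len (k - pl b) ≤ len (pl b₀ - pl b) + 2 N s L ≤ 2 g s L + 2 N s L ≤ 4 L c 2^s = η 2^s`
  (`|b₀.1 - b.1| ≤ g s` as the quotients agree; `pl b₀ - pl b = (b₀.1 - b.1) • pl (1,0) + ...`).
* summability: by `second_moment` and Chebyshev (`δ^2 μ {δ ≤ |G|} ≤ ∫ G^2`) each set of `S s` has
  `μ.real {..} ≤ δ^(-2) C' (N s)^(-ρ₀)`, `ρ₀ = min ρ (3/2) > 1` (`C, ρ` from `PolyMix` for `f' = f`;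
  `C'` is the maximum over `φ`), `N s ≥ c 2^s / 2`; so the sum over `S s` is at most
  `const * 2^s * 2^(-ρ₀ s)`, summable.
-/

set_option autoImplicit false

namespace Pool.Agent.Work.MP_67388f_an.EM

open MeasureTheory Filter Topology

private theorem sa_mem_box {I : Type} {n : I → ℕ} {e₁ e₂ k₀ k : Lat n} {N : ℕ}
    (hk : k ∈ box e₁ e₂ k₀ N) :
    ∃ a b : ℕ, a < N ∧ b < N ∧ k = k₀ + (a : ℤ) • e₁ + (b : ℤ) • e₂ := by
  classical
  unfold box at hk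
  obtain ⟨p, hp, rfl⟩ := Finset.mem_image.1 hk
  obtain ⟨h1, h2⟩ := Finset.mem_product.1 hp
  exact ⟨p.1, p.2, Finset.mem_range.1 h1, Finset.mem_range.1 h2, rfl⟩

private theorem sa_box_nonempty {I : Type} {n : I → ℕ} (e₁ e₂ k₀ : Lat n) {N : ℕ} (hN : 1 ≤ N) :
    (box e₁ e₂ k₀ N).Nonempty := by
  classical
  unfold box
  refine Finset.Nonempty.image ⟨(0, 0), ?_⟩ _
  rw [Finset.mem_product, Finset.mem_range]
  exact ⟨hN, hN⟩

private theorem sa_div {a b g : ℤ} (hg : 0 < g) (h : a / g = b / g) : |a - b| ≤ g := by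
  have h1 := Int.mul_ediv_add_emod a g
  have h2 := Int.mul_ediv_add_emod b g
  have h3 := Int.emod_nonneg a hg.ne'
  have h4 := Int.emod_nonneg b hg.ne'
  have h5 := Int.emod_lt_of_pos a hg
  have h6 := Int.emod_lt_of_pos b hg
  rw [h] at h1
  rw [abs_le]
  constructor <;> linarith

/-- the size of a quotient -/
private theorem sa_quot {b : ℤ} {g : ℕ} {A m : ℝ} (hg : 0 < g) (hb : |(b : ℝ)| ≤ m)
    (hm : m ≤ A * g) : |((b / (g : ℤ) : ℤ) : ℝ)| ≤ A + 1 := by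
  have hg' : (0 : ℤ) < (g : ℤ) := by exact_mod_cast hg
  have hgr : (0 : ℝ) < (g : ℝ) := by exact_mod_cast hg
  have h1 := Int.mul_ediv_add_emod b g
  have h3 := Int.emod_nonneg b hg'.ne'
  have h5 := Int.emod_lt_of_pos b hg'
  have h1' : (g : ℝ) * ((b / (g : ℤ) : ℤ) : ℝ) + ((b % (g : ℤ) : ℤ) : ℝ) = (b : ℝ) := by
    exact_mod_cast h1
  have h3' : (0 : ℝ) ≤ ((b % (g : ℤ) : ℤ) : ℝ) := by exact_mod_cast h3
  have h5' : ((b % (g : ℤ) : ℤ) : ℝ) < (g : ℝ) := by exact_mod_cast h5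
  set q : ℝ := ((b / (g : ℤ) : ℤ) : ℝ) with hq
  obtain ⟨hb1, hb2⟩ := abs_le.1 hb
  rw [abs_le]
  constructor
  · have h6 : (g : ℝ) * (-(A + 1)) ≤ g * q := by
      have e : (g : ℝ) * (-(A + 1)) = -(A * g) - g := by ring
      rw [e]
      linarith
    exact le_of_mul_le_mul_left h6 hgr
  · have h6 : (g : ℝ) * q ≤ g * (A + 1) := by
      have e : (g : ℝ) * (A + 1) = A * g + g := by ring
      rw [e]
      linarith
    exact le_of_mul_le_mul_left h6 hgr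

private theorem sa_card (R : ℕ) : (Finset.Icc (-(R : ℤ)) R).card = 2 * R + 1 := by
  rw [Int.card_Icc]
  omega

variable {I : Type} [Fintype I] {n : I → ℕ} {K : I → Type} [∀ i, NontriviallyNormedField (K i)]
  (H : Type) [Group H] [TopologicalSpace H]
  {X : Type} [TopologicalSpace X] [MulAction (GG n K × H) X] [ContinuousSMul (GG n K × H) X]
  [MeasurableSpace X] [BorelSpace X] {μ : Measure X} [IsProbabilityMeasure μ]

private theorem sa_cheb (π : ∀ i, (K i)ˣ) {M : ℝ} {f : X → ℝ} (hf : Test n K H M f)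
    (D : Finset (Lat n)) {δ B : ℝ} (hδ : 0 < δ)
    (hB : ∫ x, (avg H π D f x - ∫ y, f y ∂μ) ^ 2 ∂μ ≤ B) :
    μ.real {x | δ ≤ |avg H π D f x - ∫ y, f y ∂μ|} ≤ B / δ ^ 2 := by
  obtain ⟨hfc, -, hfb, -⟩ := hf
  have hcont : Continuous fun x : X => avg H π D f x - ∫ y, f y ∂μ := by
    unfold avg
    exact ((continuous_finsetSum D fun k _ => hfc.comp (continuous_act H π k)).div_const _).sub
      continuous_const
  have hbd : ∀ x : X, |avg H π D f x - ∫ y, f y ∂μ| ≤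
      (D.card : ℝ) * M / (D.card : ℝ) + |∫ y, f y ∂μ| := by
    intro x
    refine (abs_sub _ _).trans (add_le_add ?_ le_rfl)
    unfold avg
    rw [abs_div, abs_of_nonneg (Nat.cast_nonneg D.card : (0 : ℝ) ≤ (D.card : ℝ))]
    refine div_le_div_of_nonneg_right ?_ (Nat.cast_nonneg _)
    refine (Finset.abs_sum_le_sum_abs _ _).trans ((Finset.sum_le_sum fun k _ => hfb _).trans ?_)
    rw [Finset.sum_const, nsmul_eq_mul]
  have hint : Integrable (fun x : X => (avg H π D f x - ∫ y, f y ∂μ) ^ 2) μ :=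
    Integrable.of_bound (hcont.pow 2).measurable.aestronglyMeasurable
      (((D.card : ℝ) * M / (D.card : ℝ) + |∫ y, f y ∂μ|) ^ 2)
      (ae_of_all _ fun x => by
        rw [Real.norm_eq_abs, abs_pow]
        exact pow_le_pow_left₀ (abs_nonneg _) (hbd x) 2)
  have h := mul_meas_ge_le_integral_of_nonneg (μ := μ)
    (f := fun x : X => (avg H π D f x - ∫ y, f y ∂μ) ^ 2)
    (ae_of_all _ fun x => sq_nonneg _) hint (δ ^ 2)
  have hsub : {x : X | δ ≤ |avg H π D f x - ∫ y, f y ∂μ|} ⊆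
      {x | δ ^ 2 ≤ (avg H π D f x - ∫ y, f y ∂μ) ^ 2} := by
    intro x hx
    have h1 : δ ^ 2 ≤ |avg H π D f x - ∫ y, f y ∂μ| ^ 2 := pow_le_pow_left₀ hδ.le hx 2
    rwa [sq_abs] at h1
  have h2 : μ.real {x : X | δ ≤ |avg H π D f x - ∫ y, f y ∂μ|} ≤
      μ.real {x | δ ^ 2 ≤ (avg H π D f x - ∫ y, f y ∂μ) ^ 2} := measureReal_mono hsub
  rw [le_div_iff₀ (pow_pos hδ 2), mul_comm]
  exact (mul_le_mul_of_nonneg_left h2 (pow_pos hδ 2).le).trans (h.trans hB)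

theorem sampler_poly {π : ∀ i, (K i)ˣ} (hA : AInv n H π μ) (h : PolyMix n H π μ)
    (hr : 3 ≤ ∑ i, (n i - 1)) (pl : ℤ × ℤ →+ Lat n) {η : ℝ} (hη : 0 < η) (C₁ : ℝ) :
    HasSampler H π μ pl η C₁ := by
  classical
  have hex : ∀ φ : Rt n, ∃ e : Lat n × Lat n, Off φ → (rv φ e.1 = 0 ∧ rv φ e.2 = 0 ∧
      ∀ a b : ℤ, |(a : ℝ)| + |(b : ℝ)| ≤ len (a • e.1 + b • e.2)) := by
    intro φ
    by_cases hφ : Off φ
    · obtain ⟨e₁, e₂, h1, h2, h3⟩ := ker_vec2 hr φ hφ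
      exact ⟨(e₁, e₂), fun _ => ⟨h1, h2, h3⟩⟩
    · exact ⟨0, fun h => absurd h hφ⟩
  choose e he using hex
  obtain ⟨L, hL1, hLe1, hLe2, hLp1, hLp2⟩ : ∃ L : ℝ, 1 ≤ L ∧ (∀ φ : Rt n, len (e φ).1 ≤ L) ∧
      (∀ φ : Rt n, len (e φ).2 ≤ L) ∧ len (pl (1, 0)) ≤ L ∧ len (pl (0, 1)) ≤ L := by
    have s1 : 0 ≤ ∑ φ : Rt n, len (e φ).1 := Finset.sum_nonneg fun φ _ => len_nonneg _
    have s2 : 0 ≤ ∑ φ : Rt n, len (e φ).2 := Finset.sum_nonneg fun φ _ => len_nonneg _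
    have s3 := len_nonneg (pl (1, 0))
    have s4 := len_nonneg (pl (0, 1))
    refine ⟨1 + ∑ φ : Rt n, len (e φ).1 + ∑ φ : Rt n, len (e φ).2 + len (pl (1, 0)) +
      len (pl (0, 1)), by linarith, fun φ => ?_, fun φ => ?_, by linarith, by linarith⟩
    · have := Finset.single_le_sum (f := fun φ : Rt n => len (e φ).1)
        (fun φ _ => len_nonneg _) (Finset.mem_univ φ)
      linarith
    · have := Finset.single_le_sum (f := fun φ : Rt n => len (e φ).2)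
        (fun φ _ => len_nonneg _) (Finset.mem_univ φ)
      linarith
  have hL0 : 0 < L := by linarith
  have hlenpl : ∀ b : ℤ × ℤ, len (pl b) ≤ (|(b.1 : ℝ)| + |(b.2 : ℝ)|) * L := by
    intro b
    have e1 : b = b.1 • ((1 : ℤ), (0 : ℤ)) + b.2 • ((0 : ℤ), (1 : ℤ)) := by
      ext <;> simp
    have e2 : pl b = b.1 • pl (1, 0) + b.2 • pl (0, 1) := by
      conv_lhs => rw [e1]
      rw [map_add, map_zsmul, map_zsmul]
    rw [e2, add_mul]
    refine (len_add_le _ _).trans (add_le_add ?_ ?_)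
    · rw [len_zsmul]
      exact mul_le_mul_of_nonneg_left hLp1 (abs_nonneg _)
    · rw [len_zsmul]
      exact mul_le_mul_of_nonneg_left hLp2 (abs_nonneg _)
  set c : ℝ := η / (4 * L) with hc
  have hc0 : 0 < c := by positivity
  set N : ℕ → ℕ := fun s => ⌊c * 2 ^ s⌋₊ with hN
  obtain ⟨s₁, hs₁⟩ : ∃ s₁ : ℕ, ∀ s, s₁ ≤ s → 1 ≤ c * 2 ^ s := by
    obtain ⟨s₁, hs₁⟩ := pow_unbounded_of_one_lt c⁻¹ (by norm_num : (1 : ℝ) < 2)
    refine ⟨s₁, fun s hs => ?_⟩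
    have h1 : (2 : ℝ) ^ s₁ ≤ 2 ^ s := pow_le_pow_right₀ (by norm_num) hs
    have h2 : c * c⁻¹ ≤ c * 2 ^ s := mul_le_mul_of_nonneg_left (hs₁.le.trans h1) hc0.le
    rwa [mul_inv_cancel₀ hc0.ne'] at h2
  have hN1 : ∀ s, s₁ ≤ s → 1 ≤ N s := by
    intro s hs
    exact Nat.le_floor (by rw [Nat.cast_one]; exact hs₁ s hs)
  have hNle : ∀ s, (N s : ℝ) ≤ c * 2 ^ s := fun s => Nat.floor_le (by positivity)
  have hNge : ∀ s, s₁ ≤ s → c / 2 * 2 ^ s ≤ (N s : ℝ) := by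
    intro s hs
    have h1 := Nat.lt_floor_add_one (c * 2 ^ s)
    have h2 : (1 : ℝ) ≤ (N s : ℝ) := by exact_mod_cast hN1 s hs
    have h3 : c * 2 ^ s < (N s : ℝ) + 1 := h1
    have e : c / 2 * 2 ^ s = c * 2 ^ s / 2 := by ring
    rw [e]
    linarith
  set m : ℕ → ℕ := fun s => ⌊|C₁| * 2 ^ s⌋₊ with hm
  have hmle : ∀ s, (m s : ℝ) ≤ |C₁| * 2 ^ s := fun s => Nat.floor_le (by positivity)
  set Bx : ℕ → Finset (ℤ × ℤ) := fun s =>
    Finset.Icc (-(m s : ℤ)) (m s) ×ˢ Finset.Icc (-(m s : ℤ)) (m s) with hBx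
  have hBx1 : ∀ s (b : ℤ × ℤ), b ∈ Bx s → |(b.1 : ℝ)| ≤ m s ∧ |(b.2 : ℝ)| ≤ m s := by
    intro s b hb
    obtain ⟨h1, h2⟩ := Finset.mem_product.1 hb
    rw [Finset.mem_Icc] at h1 h2
    have h1' : |b.1| ≤ (m s : ℤ) := abs_le.2 h1
    have h2' : |b.2| ≤ (m s : ℤ) := abs_le.2 h2
    exact ⟨by exact_mod_cast h1', by exact_mod_cast h2'⟩
  set key : ℕ → Rt n → ℤ × ℤ → Rt n × ℤ × ℤ × ℤ := fun s φ b =>
    (φ, rv φ (pl b), b.1 / (N s : ℤ), b.2 / (N s : ℤ)) with hkey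
  set KK : ℕ → Finset (Rt n × ℤ × ℤ × ℤ) := fun s =>
    ((Finset.univ.filter fun φ : Rt n => Off φ) ×ˢ Bx s).image fun p => key s p.1 p.2 with hKK
  set rep : ℕ → (Rt n × ℤ × ℤ × ℤ) → ℤ × ℤ := fun s t =>
    if h : ∃ b, b ∈ Bx s ∧ key s t.1 b = t then h.choose else 0 with hrep
  set S : ℕ → Finset (Finset (Lat n)) := fun s => if s₁ ≤ s then
    (KK s).image fun t => box (e t.1).1 (e t.1).2 (pl (rep s t)) (N s) else ∅ with hS
  -- the number of the sets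
  set R' : ℕ := ⌈2 * |C₁| / c + 1⌉₊ with hR'
  set Q : ℝ := (Fintype.card (Rt n) : ℝ) * ((4 * |C₁| * L + 3) *
    ((2 * (R' : ℝ) + 1) * (2 * (R' : ℝ) + 1))) with hQ
  have hQ0 : 0 ≤ Q := by positivity
  have hcard : ∀ s, s₁ ≤ s → ((S s).card : ℝ) ≤ Q * 2 ^ s := by
    intro s hs
    set R : ℕ := ⌈2 * (m s : ℝ) * L⌉₊ with hR
    have hsub : KK s ⊆ (Finset.univ : Finset (Rt n)) ×ˢ (Finset.Icc (-(R : ℤ)) R ×ˢ
        (Finset.Icc (-(R' : ℤ)) R' ×ˢ Finset.Icc (-(R' : ℤ)) R')) := by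
      intro t ht
      obtain ⟨p, hp, rfl⟩ := Finset.mem_image.1 ht
      have hb := (Finset.mem_product.1 hp).2
      obtain ⟨h1, h2⟩ := hBx1 s p.2 hb
      have hNs : 0 < N s := hN1 s hs
      have hmA : (m s : ℝ) ≤ 2 * |C₁| / c * (N s : ℝ) := by
        refine (hmle s).trans ?_
        have h3 : 2 * |C₁| / c * (c / 2 * 2 ^ s) ≤ 2 * |C₁| / c * (N s : ℝ) :=
          mul_le_mul_of_nonneg_left (hNge s hs) (by positivity)
        have e3 : 2 * |C₁| / c * (c / 2 * 2 ^ s) = |C₁| * 2 ^ s := by field_simp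
        rwa [e3] at h3
      have hq1 := sa_quot hNs h1 hmA
      have hq2 := sa_quot hNs h2 hmA
      have hceil : 2 * |C₁| / c + 1 ≤ (R' : ℝ) := Nat.le_ceil _
      have hrv : |(rv p.1 (pl p.2) : ℝ)| ≤ (R : ℝ) := by
        refine (abs_rv_le_len _ _).trans ((hlenpl p.2).trans ?_)
        have h4 : (|(p.2.1 : ℝ)| + |(p.2.2 : ℝ)|) * L ≤ 2 * (m s : ℝ) * L :=
          mul_le_mul_of_nonneg_right (by linarith) hL0.le
        exact h4.trans (Nat.le_ceil _)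
      have k1 : |rv p.1 (pl p.2)| ≤ (R : ℤ) := by exact_mod_cast hrv
      have k2 : |p.2.1 / (N s : ℤ)| ≤ (R' : ℤ) := by exact_mod_cast hq1.trans hceil
      have k3 : |p.2.2 / (N s : ℤ)| ≤ (R' : ℤ) := by exact_mod_cast hq2.trans hceil
      simp only [hkey, Finset.mem_product, Finset.mem_univ, Finset.mem_Icc, true_and]
      exact ⟨abs_le.1 k1, abs_le.1 k2, abs_le.1 k3⟩
    have h1 := Finset.card_le_card hsub
    rw [Finset.card_product, Finset.card_product, Finset.card_product, sa_card, sa_card,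
      Finset.card_univ] at h1
    have h2 : (S s).card ≤ (KK s).card := by
      simp only [hS, if_pos hs]
      exact Finset.card_image_le
    have h3 : ((S s).card : ℝ) ≤ (Fintype.card (Rt n) : ℝ) * ((2 * (R : ℝ) + 1) *
        ((2 * (R' : ℝ) + 1) * (2 * (R' : ℝ) + 1))) := by
      exact_mod_cast h2.trans h1
    refine h3.trans ?_
    have h4 : (R : ℝ) ≤ 2 * (m s : ℝ) * L + 1 := (Nat.ceil_lt_add_one (by positivity)).le
    have h5 : 2 * (m s : ℝ) * L ≤ 2 * (|C₁| * 2 ^ s) * L :=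
      mul_le_mul_of_nonneg_right (mul_le_mul_of_nonneg_left (hmle s) (by norm_num)) hL0.le
    have h6 : (1 : ℝ) ≤ 2 ^ s := one_le_pow₀ (by norm_num)
    have h7 : 2 * (R : ℝ) + 1 ≤ (4 * |C₁| * L + 3) * 2 ^ s := by
      have e7 : (4 * |C₁| * L + 3) * (2 : ℝ) ^ s = 2 * (2 * (|C₁| * 2 ^ s) * L) + 3 * 2 ^ s := by
        ring
      rw [e7]
      linarith
    have h8 : 0 ≤ (2 * (R' : ℝ) + 1) * (2 * (R' : ℝ) + 1) := by positivity
    calc _ ≤ (Fintype.card (Rt n) : ℝ) * (((4 * |C₁| * L + 3) * 2 ^ s) *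
          ((2 * (R' : ℝ) + 1) * (2 * (R' : ℝ) + 1))) :=
          mul_le_mul_of_nonneg_left (mul_le_mul_of_nonneg_right h7 h8) (Nat.cast_nonneg _)
      _ = Q * 2 ^ s := by rw [hQ]; ring
  refine ⟨S, s₁, ?_, ?_, ?_⟩
  · -- nonempty
    intro s D hD
    simp only [hS] at hD
    split_ifs at hD with hs
    · obtain ⟨t, -, rfl⟩ := Finset.mem_image.1 hD
      exact sa_box_nonempty _ _ _ (hN1 s hs)
    · exact absurd hD (Finset.notMem_empty D)
  · -- rich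
    intro s hs b hb1 hb2 φ hφ
    have hbm : ∀ z : ℤ, |(z : ℝ)| ≤ C₁ * 2 ^ s → z ∈ Finset.Icc (-(m s : ℤ)) (m s) := by
      intro z hz
      have h1 : |(z : ℝ)| ≤ |C₁| * 2 ^ s :=
        hz.trans (mul_le_mul_of_nonneg_right (le_abs_self _) (by positivity))
      have h2 : ((z.natAbs : ℕ) : ℝ) ≤ |C₁| * 2 ^ s := by
        rw [Nat.cast_natAbs, Int.cast_abs]
        exact h1
      have h3 : z.natAbs ≤ m s := Nat.le_floor h2
      rw [Finset.mem_Icc]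
      omega
    have hbB : b ∈ Bx s := Finset.mem_product.2 ⟨hbm _ hb1, hbm _ hb2⟩
    have ht : key s φ b ∈ KK s := Finset.mem_image.2 ⟨(φ, b),
      Finset.mem_product.2 ⟨Finset.mem_filter.2 ⟨Finset.mem_univ _, hφ⟩, hbB⟩, rfl⟩
    have hexb : ∃ b', b' ∈ Bx s ∧ key s (key s φ b).1 b' = key s φ b := ⟨b, hbB, rfl⟩
    have hb₀ : key s φ (rep s (key s φ b)) = key s φ b := by
      have h1 : rep s (key s φ b) = hexb.choose := by
        simp only [hrep]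
        rw [dif_pos hexb]
      rw [h1]
      exact hexb.choose_spec.2
    set b₀ := rep s (key s φ b) with hb₀def
    simp only [hkey, Prod.mk.injEq, true_and] at hb₀
    obtain ⟨hrv, hq1, hq2⟩ := hb₀
    refine ⟨box (e φ).1 (e φ).2 (pl b₀) (N s), ?_, fun k hk => ?_⟩
    · simp only [hS, if_pos hs]
      exact Finset.mem_image.2 ⟨key s φ b, ht, rfl⟩
    · obtain ⟨a, d, ha, hd, rfl⟩ := sa_mem_box hk
      obtain ⟨he1, he2, -⟩ := he φ hφ
      have hNs : (0 : ℤ) < (N s : ℤ) := by exact_mod_cast hN1 s hs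
      constructor
      · rw [rv_add, rv_add, rv_zsmul, rv_zsmul, he1, he2, mul_zero, mul_zero, add_zero, add_zero,
          hrv]
      · have g1 : |b₀.1 - b.1| ≤ (N s : ℤ) := sa_div hNs hq1
        have g2 : |b₀.2 - b.2| ≤ (N s : ℤ) := sa_div hNs hq2
        have g1' : |((b₀.1 - b.1 : ℤ) : ℝ)| ≤ (N s : ℝ) := by exact_mod_cast g1
        have g2' : |((b₀.2 - b.2 : ℤ) : ℝ)| ≤ (N s : ℝ) := by exact_mod_cast g2
        have e1 : pl b₀ + (a : ℤ) • (e φ).1 + (d : ℤ) • (e φ).2 - pl b =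
            pl (b₀ - b) + (a : ℤ) • (e φ).1 + (d : ℤ) • (e φ).2 := by
          rw [map_sub]
          abel
        rw [e1]
        have l1 := len_add_le (pl (b₀ - b) + (a : ℤ) • (e φ).1) ((d : ℤ) • (e φ).2)
        have l2 := len_add_le (pl (b₀ - b)) ((a : ℤ) • (e φ).1)
        have l3 := hlenpl (b₀ - b)
        rw [Prod.fst_sub, Prod.snd_sub] at l3
        have l4 : len ((a : ℤ) • (e φ).1) ≤ (N s : ℝ) * L := by
          rw [len_zsmul]
          refine mul_le_mul ?_ (hLe1 φ) (len_nonneg _) (Nat.cast_nonneg _)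
          rw [Int.cast_natCast, Nat.abs_cast]
          exact_mod_cast ha.le
        have l5 : len ((d : ℤ) • (e φ).2) ≤ (N s : ℝ) * L := by
          rw [len_zsmul]
          refine mul_le_mul ?_ (hLe2 φ) (len_nonneg _) (Nat.cast_nonneg _)
          rw [Int.cast_natCast, Nat.abs_cast]
          exact_mod_cast hd.le
        have l6 : (|((b₀.1 - b.1 : ℤ) : ℝ)| + |((b₀.2 - b.2 : ℤ) : ℝ)|) * L ≤
            (2 * (N s : ℝ)) * L := mul_le_mul_of_nonneg_right (by linarith) hL0.le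
        have l7 : 4 * ((N s : ℝ) * L) ≤ η * 2 ^ s := by
          have h1 := mul_le_mul_of_nonneg_right (hNle s) hL0.le
          have e7 : c * 2 ^ s * L = η * 2 ^ s / 4 := by
            rw [hc]
            field_simp
          rw [e7] at h1
          linarith
        linarith
  · -- summability
    intro M f hf δ hδ
    obtain ⟨C, ρ, hρ, hcorr⟩ := h M M f f hf hf
    set ρ₀ : ℝ := min ρ (3 / 2) with hρ₀
    have hr1 : 1 < ρ₀ := lt_min hρ (by norm_num)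
    have hsm : ∀ φ : Rt n, ∃ C' : ℝ, Off φ → ∀ (k₀ : Lat n) (N : ℕ), 1 ≤ N →
        ∫ x, (avg H π (box (e φ).1 (e φ).2 k₀ N) f x - ∫ y, f y ∂μ) ^ 2 ∂μ ≤
          C' * (N : ℝ) ^ (-ρ₀) := by
      intro φ
      by_cases hφ : Off φ
      · obtain ⟨C', hC'⟩ := second_moment H hA (he φ hφ).2.2 hf hρ hcorr
        exact ⟨C', fun _ => hC'⟩
      · exact ⟨0, fun h => absurd h hφ⟩
    choose C' hC' using hsm
    set C₂ : ℝ := ∑ φ : Rt n, |C' φ| with hC₂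
    have hC₂0 : 0 ≤ C₂ := Finset.sum_nonneg fun φ _ => abs_nonneg _
    have hC₂le : ∀ φ, C' φ ≤ C₂ := fun φ => (le_abs_self _).trans
      (Finset.single_le_sum (f := fun φ : Rt n => |C' φ|) (fun φ _ => abs_nonneg _)
        (Finset.mem_univ φ))
    set θ : ℝ := 2 ^ (1 - ρ₀) with hθ
    have hθ0 : 0 ≤ θ := Real.rpow_nonneg (by norm_num) _
    have hθ1 : θ < 1 := Real.rpow_lt_one_of_one_lt_of_neg (by norm_num) (by linarith)
    have hθs : ∀ s : ℕ, (2 : ℝ) ^ s * ((2 : ℝ) ^ s) ^ (-ρ₀) = θ ^ s := by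
      intro s
      rw [← Real.rpow_pow_comm (by norm_num : (0 : ℝ) ≤ 2) (-ρ₀) s, ← mul_pow, hθ]
      congr 1
      rw [sub_eq_add_neg, Real.rpow_add (by norm_num), Real.rpow_one]
    refine Summable.of_nonneg_of_le (fun s => Finset.sum_nonneg fun D _ => measureReal_nonneg)
      (fun s => ?_) ((summable_geometric_of_lt_one hθ0 hθ1).mul_left
        (Q * (C₂ * (c / 2) ^ (-ρ₀) / δ ^ 2)))
    by_cases hs : s₁ ≤ s
    · have hD : ∀ D ∈ S s, μ.real {x : X | δ ≤ |avg H π D f x - ∫ y, f y ∂μ|} ≤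
          C₂ * (c / 2) ^ (-ρ₀) / δ ^ 2 * ((2 : ℝ) ^ s) ^ (-ρ₀) := by
        intro D hD
        simp only [hS, if_pos hs] at hD
        obtain ⟨t, ht, rfl⟩ := Finset.mem_image.1 hD
        obtain ⟨p, hp, rfl⟩ := Finset.mem_image.1 ht
        have hoff : Off p.1 := (Finset.mem_filter.1 (Finset.mem_product.1 hp).1).2
        have h1 := hC' p.1 hoff (pl (rep s (key s p.1 p.2))) (N s) (hN1 s hs)
        have hNpos : (0 : ℝ) < (N s : ℝ) := by exact_mod_cast hN1 s hs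
        have hpow : (N s : ℝ) ^ (-ρ₀) ≤ (c / 2) ^ (-ρ₀) * ((2 : ℝ) ^ s) ^ (-ρ₀) := by
          rw [← Real.mul_rpow (by positivity) (by positivity)]
          exact Real.rpow_le_rpow_of_nonpos (by positivity) (hNge s hs) (by linarith)
        have h2 : C' p.1 * (N s : ℝ) ^ (-ρ₀) ≤ C₂ * ((c / 2) ^ (-ρ₀) * ((2 : ℝ) ^ s) ^ (-ρ₀)) :=
          mul_le_mul (hC₂le p.1) hpow (Real.rpow_nonneg hNpos.le _) hC₂0
        refine (sa_cheb H π hf _ hδ (h1.trans h2)).trans (le_of_eq ?_)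
        ring
      calc ∑ D ∈ S s, μ.real {x : X | δ ≤ |avg H π D f x - ∫ y, f y ∂μ|}
          ≤ ∑ D ∈ S s, C₂ * (c / 2) ^ (-ρ₀) / δ ^ 2 * ((2 : ℝ) ^ s) ^ (-ρ₀) :=
            Finset.sum_le_sum hD
        _ = ((S s).card : ℝ) * (C₂ * (c / 2) ^ (-ρ₀) / δ ^ 2 * ((2 : ℝ) ^ s) ^ (-ρ₀)) := by
            rw [Finset.sum_const, nsmul_eq_mul]
        _ ≤ (Q * 2 ^ s) * (C₂ * (c / 2) ^ (-ρ₀) / δ ^ 2 * ((2 : ℝ) ^ s) ^ (-ρ₀)) :=
            mul_le_mul_of_nonneg_right (hcard s hs) (by positivity)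
        _ = Q * (C₂ * (c / 2) ^ (-ρ₀) / δ ^ 2) * ((2 : ℝ) ^ s * ((2 : ℝ) ^ s) ^ (-ρ₀)) := by ring
        _ = Q * (C₂ * (c / 2) ^ (-ρ₀) / δ ^ 2) * θ ^ s := by rw [hθs]
    · simp only [hS, if_neg hs, Finset.sum_empty]
      positivity

end Pool.Agent.Work.MP_67388f_an.EM
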