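import Mathlib

/-!
# SBn (size S-M): choice of parameters for the lacunary sampling

## Proof
`param` : take `B = β * (q + 1) + 2`; `(9/16)^q * B^4 → 0` as `q → ∞` (exponential beats
polynomial, e.g. `tendsto_pow_const_mul_const_pow_of_abs_lt_one`), so some `q` works.
`mlog_le` : `Nat.pow_log_le_self` for `⌊c 2^s⌋₊ ≥ 1`.
`mlog_summable` : for large `s` (`c 2^s ≥ 1`): `⌊c 2^s⌋₊ < B ^ (m + 1)` (`Nat.lt_pow_succ_log_self`),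
hence `c 2^s ≤ B ^ (m+1)` where `m = mlog B c s`; with `(9/16)^q ≤ B^(-4)`:
`4^s (9/16)^(q m) ≤ 4^s B^(-4 m) = 4^s B^4 B^(-4(m+1)) ≤ B^4 c^(-4) 4^s 16^(-s)`, a geometric series
(`Summable.of_norm_bounded_eventually_nat` or similar).
-/

set_option autoImplicit false

namespace Pool.Agent.Work.MP_67388f_an.EM

theorem param (β : ℕ) : ∃ q B : ℕ, 2 ≤ B ∧ β * (q + 1) ≤ B ∧ (9 / 16 : ℝ) ^ q * (B : ℝ) ^ 4 ≤ 1 := by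
  have h1 := tendsto_pow_const_mul_const_pow_of_abs_lt_one (r := (9 / 16 : ℝ)) 4
    (by rw [abs_of_pos] <;> norm_num)
  have hb : (0 : ℝ) < ((β : ℝ) + 2) ^ 4 := by positivity
  have h2 : ∀ᶠ n : ℕ in Filter.atTop, (n : ℝ) ^ 4 * (9 / 16 : ℝ) ^ n <
      (9 / 16 : ℝ) / ((β : ℝ) + 2) ^ 4 :=
    (tendsto_order.1 h1).2 _ (by positivity)
  obtain ⟨n, hn, hn1⟩ := (h2.and (Filter.eventually_ge_atTop 1)).exists
  obtain ⟨q, rfl⟩ : ∃ q, n = q + 1 := ⟨n - 1, by omega⟩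
  refine ⟨q, β * (q + 1) + 2, by omega, by omega, ?_⟩
  rw [lt_div_iff₀ hb] at hn
  push_cast at hn ⊢
  have h3 : (β : ℝ) * (q + 1) + 2 ≤ ((β : ℝ) + 2) * (q + 1) := by
    have : (0 : ℝ) ≤ q := Nat.cast_nonneg q
    nlinarith
  have h4 : ((β : ℝ) * (q + 1) + 2) ^ 4 ≤ (((β : ℝ) + 2) * (q + 1)) ^ 4 :=
    pow_le_pow_left₀ (by positivity) h3 4
  have h5 : (9 / 16 : ℝ) ^ q * ((β : ℝ) * (q + 1) + 2) ^ 4 ≤
      (9 / 16 : ℝ) ^ q * (((β : ℝ) + 2) * (q + 1)) ^ 4 :=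
    mul_le_mul_of_nonneg_left h4 (by positivity)
  refine h5.trans ?_
  rw [mul_pow]
  rw [pow_succ (9 / 16 : ℝ) q] at hn
  have h6 : (q + 1 : ℝ) ^ 4 * ((9 / 16 : ℝ) ^ q * (9 / 16)) * ((β : ℝ) + 2) ^ 4 =
      9 / 16 * ((9 / 16 : ℝ) ^ q * (((β : ℝ) + 2) ^ 4 * (q + 1) ^ 4)) := by ring
  rw [h6] at hn
  linarith

/-- the depth of the lacunary set at the scale `s` -/
noncomputable def mlog (B : ℕ) (c : ℝ) (s : ℕ) : ℕ := Nat.log B ⌊c * 2 ^ s⌋₊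

theorem mlog_le {B : ℕ} {c : ℝ} {s : ℕ} (h : 1 ≤ c * 2 ^ s) :
    (B : ℝ) ^ mlog B c s ≤ c * 2 ^ s := by
  have h1 : ⌊c * 2 ^ s⌋₊ ≠ 0 := (Nat.floor_pos.2 h).ne'
  have h2 : B ^ mlog B c s ≤ ⌊c * 2 ^ s⌋₊ := Nat.pow_log_le_self B h1
  have h3 : ((B ^ mlog B c s : ℕ) : ℝ) ≤ (⌊c * 2 ^ s⌋₊ : ℝ) := Nat.cast_le.2 h2
  rw [Nat.cast_pow] at h3
  exact h3.trans (Nat.floor_le (by linarith))

theorem mlog_summable {B q : ℕ} (hB : 2 ≤ B) (hq : (9 / 16 : ℝ) ^ q * (B : ℝ) ^ 4 ≤ 1) {c : ℝ}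
    (hc : 0 < c) : Summable fun s : ℕ => (4 : ℝ) ^ s * (9 / 16 : ℝ) ^ (q * mlog B c s) := by
  have hB0 : (0 : ℝ) < B := by
    have : 0 < B := by omega
    exact_mod_cast this
  have hs : Summable fun s : ℕ => ((B : ℝ) ^ 4 * (c ^ 4)⁻¹) * (1 / 4 : ℝ) ^ s :=
    (summable_geometric_of_lt_one (by norm_num) (by norm_num)).mul_left _
  refine Summable.of_nonneg_of_le (fun s => by positivity) (fun s => ?_) hs
  set m : ℕ := mlog B c s with hm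
  have h1 : ⌊c * 2 ^ s⌋₊ < B ^ (m + 1) := Nat.lt_pow_succ_log_self (by omega) _
  have h2 : c * 2 ^ s ≤ (B : ℝ) ^ (m + 1) := by
    have h3 : (⌊c * 2 ^ s⌋₊ : ℝ) + 1 ≤ ((B ^ (m + 1) : ℕ) : ℝ) := by exact_mod_cast h1
    rw [Nat.cast_pow] at h3
    exact (Nat.lt_floor_add_one _).le.trans h3
  have h3 : (c * 2 ^ s) ^ 4 ≤ ((B : ℝ) ^ (m + 1)) ^ 4 :=
    pow_le_pow_left₀ (by positivity) h2 4
  have h4 : ((9 / 16 : ℝ) ^ q * (B : ℝ) ^ 4) ^ m ≤ 1 := pow_le_one₀ (by positivity) hq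
  rw [mul_pow, ← pow_mul] at h4
  have h5 : ((B : ℝ) ^ (m + 1)) ^ 4 = ((B : ℝ) ^ 4) ^ m * (B : ℝ) ^ 4 := by ring
  rw [h5] at h3
  have h6 : (0 : ℝ) < ((B : ℝ) ^ 4) ^ m := by positivity
  have h7 : (9 / 16 : ℝ) ^ (q * m) ≤ (((B : ℝ) ^ 4) ^ m)⁻¹ := by
    rw [← one_div, le_div_iff₀ h6]
    exact h4
  have h8 : (((B : ℝ) ^ 4) ^ m)⁻¹ ≤ (B : ℝ) ^ 4 * ((c * 2 ^ s) ^ 4)⁻¹ := by
    have h9 : (0 : ℝ) < (c * 2 ^ s) ^ 4 := by positivity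
    rw [← div_eq_mul_inv, inv_eq_one_div, div_le_div_iff₀ h6 h9, one_mul]
    linarith
  have h10 : (4 : ℝ) ^ s * ((B : ℝ) ^ 4 * ((c * 2 ^ s) ^ 4)⁻¹) =
      (B : ℝ) ^ 4 * (c ^ 4)⁻¹ * (1 / 4) ^ s := by
    have e1 : (c * 2 ^ s) ^ 4 = c ^ 4 * (4 ^ s * 4 ^ s) := by
      rw [mul_pow, ← pow_mul, ← mul_pow, mul_comm s 4, pow_mul]
      norm_num
    rw [e1, mul_inv, mul_inv, one_div, inv_pow]
    have e2 : (4 : ℝ) ^ s ≠ 0 := by positivity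
    field_simp
  calc (4 : ℝ) ^ s * (9 / 16 : ℝ) ^ (q * m) ≤ (4 : ℝ) ^ s * ((B : ℝ) ^ 4 * ((c * 2 ^ s) ^ 4)⁻¹) :=
        mul_le_mul_of_nonneg_left (h7.trans h8) (by positivity)
    _ = _ := h10

end Pool.Agent.Work.MP_67388f_an.EM
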