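import Pool.Agent.Work.MP_67388f_an.EM.MCl
import Pool.Agent.Work.MP_67388f_an.EM.AmD
import Pool.Agent.Work.MP_67388f_an.EM.KerV
import Pool.Agent.Work.MP_67388f_an.EM.SBn

/-!
# SB (size M-L): the sampling sets under exponential mixing (rank at least 2)

## Proof
Choose for each `φ` with `Off φ` a vector `e φ ≠ 0`, `rv φ (e φ) = 0` (`ker_vec`). Put
`a₁ = 1`, `a₂ = len (e φ)`: `u ≤ len (u • e φ) = u * len (e φ)` (`len_nsmul`, `one_le_len`). Let
`MixClass` be from `mixClass_of_exp`, `β φ` from `large_dev`, `β` the maximum (or sum) over the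
finitely many `φ`; `q, B` from `param β`. Let `L ≥ len (e φ)` for all `φ`, `L ≥ 1`,
`c = η / (2 L)` and `m s = mlog B c s`. Put
`D b φ s = (cant B (m s)).image (fun u => pl b + u • e φ)` and let `S s` be the (finite) set of all
`D b φ s` with `Off φ` and `b` in the box `|b.1|, |b.2| ≤ ⌈|C₁|⌉ * 2^s` (integers).
* nonempty: `cant_card`.
* rich: for `s ≥ s₁` with `c 2^s₁ ≥ 1`: `rv φ (pl b + u • e φ) = rv φ (pl b)`,
  `len (u • e φ) = u len (e φ) ≤ 2 B^(m s) L ≤ 2 c 2^s L = η 2^s` (`cant_le`, `mlog_le`).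
* `u ↦ pl b + u • e φ` is injective (`e φ ≠ 0`, `len` of the difference), so
  `avg H π (D b φ s) f x - ∫ f = bigS T (e φ) B (m s) f₀ (act H π (pl b) x) / 2 ^ (m s)` with
  `f₀ = f - ∫ f` (which is `PC` with mean zero, `pc_sub_const`). Since `act H π (pl b)` preserves
  `μ`, the set `{δ ≤ |avg - ∫ f|}` has the measure of `{δ ≤ |bigS f₀ / 2^m|}`, at most
  `Kc φ * (9/16)^(q * m s)` by `large_dev`.
* summability: `∑ D ∈ S s, μ.real {..} ≤ (number of φ) * (2 ⌈|C₁|⌉ 2^s + 1)^2 * Kc (9/16)^(q m s)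
  ≤ const * 4^s * (9/16)^(q m s)`, summable by `mlog_summable`. (A sum over a `Finset.image` is at
  most the sum over the index set, for nonnegative terms: `Finset.sum_image_le_of_nonneg` or
  bound the cardinality with `Finset.card_image_le`.)
-/

set_option autoImplicit false

namespace Pool.Agent.Work.MP_67388f_an.EM

open MeasureTheory Filter Topology

variable {I : Type} [Fintype I] {n : I → ℕ} {K : I → Type} [∀ i, NontriviallyNormedField (K i)]
  (H : Type) [Group H] [TopologicalSpace H]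
  {X : Type} [TopologicalSpace X] [MulAction (GG n K × H) X] [ContinuousSMul (GG n K × H) X]
  [MeasurableSpace X] [BorelSpace X] {μ : Measure X} [IsProbabilityMeasure μ]

theorem sampler_exp {π : ∀ i, (K i)ˣ} (hπ : ∀ i, 1 < ‖(π i : K i)‖)
    (hA : AInv n H π μ) (h : ExpMix n H π μ) (hr : 2 ≤ ∑ i, (n i - 1))
    (pl : ℤ × ℤ →+ Lat n) {η : ℝ} (hη : 0 < η) (C₁ : ℝ) : HasSampler H π μ pl η C₁ := by
  classical
  have hX : Nonempty X := by
    by_contra hcon
    rw [not_nonempty_iff] at hcon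
    have h1 : μ Set.univ = 1 := measure_univ
    rw [Set.univ_eq_empty_iff.2 hcon, measure_empty] at h1
    exact zero_ne_one h1
  choose! e he0 he1 using ker_vec (n := n) hr
  obtain ⟨χ, κ, C, hMix⟩ := mixClass_of_exp H hπ hA h
  have hlen : ∀ φ : Rt n, Off φ → 1 ≤ len (e φ) := fun φ hφ => one_le_len (he0 φ hφ)
  have hdev := fun (φ : Rt n) (hφ : Off φ) =>
    large_dev hMix (e φ) (a₁ := 1) (a₂ := len (e φ)) one_pos
      (fun u => by
        rw [len_nsmul, one_mul]
        exact le_mul_of_one_le_right (Nat.cast_nonneg u) (hlen φ hφ))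
      (fun u => by rw [len_nsmul, mul_comm])
  choose! β hβ2 hβ using hdev
  obtain ⟨q, B, hB2, hqB, h916⟩ := param ((Finset.univ : Finset (Rt n)).sup β)
  have hβB : ∀ φ : Rt n, β φ * (q + 1) ≤ B := fun φ =>
    (Nat.mul_le_mul_right _ (Finset.le_sup (f := β) (Finset.mem_univ φ))).trans hqB
  obtain ⟨L, hLd⟩ : ∃ L, L = 1 + ∑ φ, len (e φ) := ⟨_, rfl⟩
  have hL0 : 0 ≤ ∑ φ, len (e φ) := Finset.sum_nonneg fun φ _ => len_nonneg _
  have hL : 0 < L := by rw [hLd]; linarith
  have heL : ∀ φ, len (e φ) ≤ L := by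
    intro φ
    have : len (e φ) ≤ ∑ φ, len (e φ) :=
      Finset.single_le_sum (f := fun φ => len (e φ)) (fun φ _ => len_nonneg _) (Finset.mem_univ φ)
    linarith
  obtain ⟨c, hcd⟩ : ∃ c, c = η / (2 * L) := ⟨_, rfl⟩
  have hc : 0 < c := by rw [hcd]; positivity
  obtain ⟨N, hNd⟩ : ∃ N : ℕ → ℤ, N = fun s => ((⌈|C₁|⌉₊ * 2 ^ s : ℕ) : ℤ) := ⟨_, rfl⟩
  have hN : ∀ s, N s = ((⌈|C₁|⌉₊ * 2 ^ s : ℕ) : ℤ) := fun s => by rw [hNd]
  obtain ⟨Db, hDbd⟩ : ∃ Db : ℤ × ℤ → Rt n → ℕ → Finset (Lat n), Db = fun b φ s =>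
    (cant B (mlog B c s)).image (fun u => pl b + u • e φ) := ⟨_, rfl⟩
  have hDb : ∀ b φ s, Db b φ s = (cant B (mlog B c s)).image (fun u => pl b + u • e φ) :=
    fun b φ s => by rw [hDbd]
  obtain ⟨S, hSd⟩ : ∃ S : ℕ → Finset (Finset (Lat n)), S = fun s =>
    (((Finset.univ : Finset (Rt n)).filter Off) ×ˢ
      (Finset.Icc (-N s) (N s) ×ˢ Finset.Icc (-N s) (N s))).image
        fun p => Db p.2 p.1 s := ⟨_, rfl⟩
  have hS : ∀ s D, D ∈ S s ↔ ∃ (b : ℤ × ℤ) (φ : Rt n), Off φ ∧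
      (b.1 ∈ Finset.Icc (-N s) (N s) ∧ b.2 ∈ Finset.Icc (-N s) (N s)) ∧ Db b φ s = D := by
    intro s D
    rw [hSd, Finset.mem_image]
    constructor
    · rintro ⟨⟨φ, b⟩, hp, hD⟩
      rw [Finset.mem_product, Finset.mem_filter, Finset.mem_product] at hp
      exact ⟨b, φ, hp.1.2, hp.2, hD⟩
    · rintro ⟨b, φ, hφ, hb, hD⟩
      exact ⟨(φ, b), Finset.mem_product.2 ⟨Finset.mem_filter.2 ⟨Finset.mem_univ _, hφ⟩,
        Finset.mem_product.2 hb⟩, hD⟩
  obtain ⟨s₁, hs₁⟩ := pow_unbounded_of_one_lt (1 / c) (one_lt_two)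
  refine ⟨S, s₁, ?_, ?_, ?_⟩
  · intro s D hD
    obtain ⟨b, φ, hφ, hb, rfl⟩ := (hS s D).1 hD
    rw [hDb]
    apply Finset.Nonempty.image
    rw [← Finset.card_pos, cant_card hB2]
    positivity
  · intro s hs b hb1 hb2 φ hφ
    have hCC : ∀ x : ℤ, |(x : ℝ)| ≤ C₁ * 2 ^ s → x ∈ Finset.Icc (-N s) (N s) := by
      intro x hx
      have h1 : |(x : ℝ)| ≤ ((N s : ℤ) : ℝ) := by
        rw [hN]
        push_cast
        refine hx.trans (mul_le_mul_of_nonneg_right ?_ (by positivity))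
        exact (le_abs_self C₁).trans (Nat.le_ceil _)
      rw [abs_le] at h1
      rw [Finset.mem_Icc]
      exact ⟨by exact_mod_cast h1.1, by exact_mod_cast h1.2⟩
    refine ⟨Db b φ s, (hS s _).2 ⟨b, φ, hφ, ⟨hCC _ hb1, hCC _ hb2⟩, rfl⟩, ?_⟩
    intro k hk
    rw [hDb, Finset.mem_image] at hk
    obtain ⟨u, hu, rfl⟩ := hk
    have h1 : (1 : ℝ) ≤ c * 2 ^ s := by
      have h2 : (2 : ℝ) ^ s₁ ≤ 2 ^ s := pow_le_pow_right₀ (by norm_num) hs
      rw [div_lt_iff₀ hc] at hs₁
      nlinarith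
    constructor
    · rw [rv_add, ← natCast_zsmul, rv_zsmul, he1 φ hφ, mul_zero, add_zero]
    · rw [add_sub_cancel_left, len_nsmul]
      have h2 : (u : ℝ) ≤ 2 * (c * 2 ^ s) := by
        have h3 : (u : ℝ) ≤ 2 * (B : ℝ) ^ mlog B c s := by exact_mod_cast cant_le hB2 _ u hu
        have h4 := mlog_le (B := B) h1
        linarith
      calc (u : ℝ) * len (e φ) ≤ 2 * (c * 2 ^ s) * L :=
            mul_le_mul h2 (heL φ) (len_nonneg _) (by positivity)
        _ = η * 2 ^ s := by
            rw [hcd]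
            field_simp
  · intro M f hf δ hδ
    obtain ⟨J, hJd⟩ : ∃ J, J = ∫ y, f y ∂μ := ⟨_, rfl⟩
    rw [← hJd]
    have hfi : Integrable f μ := Integrable.of_bound hf.1.measurable.aestronglyMeasurable M
      (ae_of_all _ fun x => by rw [Real.norm_eq_abs]; exact hf.2.2.1 x)
    have hpc := pc_sub_const (K := K) (n := n) H hf J
    have hf0 : ∫ x, (f x - J) ∂μ = 0 := by
      rw [integral_sub hfi (integrable_const J), integral_const, probReal_univ, one_smul, hJd,
        sub_self]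
    have hK := fun (φ : Rt n) (hφ : Off φ) => hβ φ hφ q B (hβB φ) _ _ hpc hf0 δ hδ
    choose! Kc hKc using hK
    obtain ⟨KK, hKKd⟩ : ∃ KK, KK = ∑ φ, |Kc φ| := ⟨_, rfl⟩
    have hKK0 : 0 ≤ KK := by rw [hKKd]; positivity
    have hKK : ∀ φ, Kc φ ≤ KK := by
      intro φ
      rw [hKKd]
      exact (le_abs_self _).trans (Finset.single_le_sum (f := fun φ => |Kc φ|)
        (fun φ _ => abs_nonneg _) (Finset.mem_univ φ))
    -- the measure for one sampling set
    have hone : ∀ s b φ, Off φ → μ.real {x | δ ≤ |avg H π (Db b φ s) f x - J|} ≤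
        KK * (9 / 16 : ℝ) ^ (q * mlog B c s) := by
      intro s b φ hφ
      have hinj : Function.Injective fun u : ℕ => pl b + u • e φ := by
        intro u v huv
        have h1 : u • e φ = v • e φ := add_left_cancel huv
        have h2 : ((u : ℤ) - (v : ℤ)) • e φ = 0 := by
          rw [sub_smul, natCast_zsmul, natCast_zsmul, h1, sub_self]
        by_contra hne
        have h3 := congrArg len h2
        rw [len_zsmul, len_zero] at h3
        have h4 : (0 : ℝ) < |(((u : ℤ) - (v : ℤ) : ℤ) : ℝ)| := by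
          rw [abs_pos, Int.cast_ne_zero, sub_ne_zero]
          exact fun h => hne (Int.ofNat_inj.1 h)
        have h5 := hlen φ hφ
        have h6 : 0 < |(((u : ℤ) - (v : ℤ) : ℤ) : ℝ)| * len (e φ) := mul_pos h4 (by linarith)
        exact absurd h3 h6.ne'
      have havg : ∀ x, avg H π (Db b φ s) f x - J =
          bigS (fun (k : Lat n) (x : X) => act H π k x) (e φ) B (mlog B c s)
            (fun x => f x - J) (act H π (pl b) x) / 2 ^ mlog B c s := by
        intro x
        unfold avg bigS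
        rw [hDb, Finset.sum_image fun u _ v _ huv => hinj huv,
          Finset.card_image_of_injective _ hinj, cant_card hB2, Finset.sum_sub_distrib,
          Finset.sum_const, cant_card hB2, nsmul_eq_mul]
        have h1 : ∑ u ∈ cant B (mlog B c s), f (act H π (pl b + u • e φ) x) =
            ∑ u ∈ cant B (mlog B c s), f (act H π (u • e φ) (act H π (pl b) x)) := by
          refine Finset.sum_congr rfl fun u _ => ?_
          rw [add_comm, act_add]
        rw [h1]
        push_cast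
        have h2 : (2 : ℝ) ^ mlog B c s ≠ 0 := by positivity
        field_simp
      have hset : {x | δ ≤ |avg H π (Db b φ s) f x - J|} = (act H π (pl b) : X → X) ⁻¹'
          {y | δ ≤ |bigS (fun (k : Lat n) (x : X) => act H π k x) (e φ) B (mlog B c s)
            (fun x => f x - J) y / 2 ^ mlog B c s|} := by
        ext x
        rw [Set.mem_preimage, Set.mem_ofPred_eq, Set.mem_ofPred_eq, havg]
      have hcont : Continuous fun y : X =>
          bigS (fun (k : Lat n) (x : X) => act H π k x) (e φ) B (mlog B c s)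
            (fun x => f x - J) y := by
        unfold bigS
        exact continuous_finsetSum _ fun u _ =>
          (hf.1.comp (continuous_act H π (u • e φ))).sub continuous_const
      have hmeas : MeasurableSet {y : X |
          δ ≤ |bigS (fun (k : Lat n) (x : X) => act H π k x) (e φ) B (mlog B c s)
            (fun x => f x - J) y / 2 ^ mlog B c s|} :=
        (isClosed_le continuous_const (hcont.div_const _).abs).measurableSet
      rw [hset, (measurePreserving_act H hA (pl b)).measureReal_preimage hmeas.nullMeasurableSet]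
      refine (hKc φ hφ (mlog B c s)).trans ?_
      exact mul_le_mul_of_nonneg_right (hKK φ) (by positivity)
    -- the sum
    obtain ⟨R, hRd⟩ : ∃ R : ℝ, R = ((Finset.univ : Finset (Rt n)).card : ℝ) *
      (2 * (⌈|C₁|⌉₊ : ℝ) + 1) ^ 2 := ⟨_, rfl⟩
    have hcard : ∀ s, ((S s).card : ℝ) ≤ R * 4 ^ s := by
      intro s
      have h1 : (S s).card ≤ (((Finset.univ : Finset (Rt n)).filter Off) ×ˢ
          (Finset.Icc (-N s) (N s) ×ˢ Finset.Icc (-N s) (N s))).card := by
        rw [hSd]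
        exact Finset.card_image_le
      rw [Finset.card_product, Finset.card_product, Int.card_Icc] at h1
      have h2 : (N s + 1 - -N s).toNat = 2 * (⌈|C₁|⌉₊ * 2 ^ s) + 1 := by
        rw [hN]
        omega
      rw [h2] at h1
      have h3 : ((Finset.univ : Finset (Rt n)).filter Off).card ≤
          (Finset.univ : Finset (Rt n)).card := Finset.card_filter_le _ _
      have h4 : ((S s).card : ℝ) ≤ ((Finset.univ : Finset (Rt n)).card : ℝ) *
          ((2 * (⌈|C₁|⌉₊ * 2 ^ s) + 1) * (2 * (⌈|C₁|⌉₊ * 2 ^ s) + 1)) := by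
        have h5 := h1.trans (Nat.mul_le_mul_right _ h3)
        exact_mod_cast h5
      refine h4.trans ?_
      rw [hRd, mul_assoc]
      refine mul_le_mul_of_nonneg_left ?_ (Nat.cast_nonneg _)
      have h6 : (4 : ℝ) ^ s = (2 ^ s) ^ 2 := by
        rw [← pow_mul, mul_comm s 2, pow_mul]
        norm_num
      have h7 : (1 : ℝ) ≤ 2 ^ s := one_le_pow₀ (by norm_num)
      have h8 : (2 * ((⌈|C₁|⌉₊ : ℝ) * 2 ^ s) + 1) ≤ (2 * (⌈|C₁|⌉₊ : ℝ) + 1) * 2 ^ s := by
        linarith
      calc (2 * ((⌈|C₁|⌉₊ : ℝ) * 2 ^ s) + 1) * (2 * ((⌈|C₁|⌉₊ : ℝ) * 2 ^ s) + 1) ≤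
            ((2 * (⌈|C₁|⌉₊ : ℝ) + 1) * 2 ^ s) * ((2 * (⌈|C₁|⌉₊ : ℝ) + 1) * 2 ^ s) :=
            mul_le_mul h8 h8 (by positivity) (by positivity)
        _ = (2 * (⌈|C₁|⌉₊ : ℝ) + 1) ^ 2 * 4 ^ s := by
            rw [h6]
            ring
    refine Summable.of_nonneg_of_le (fun s => Finset.sum_nonneg fun D _ => measureReal_nonneg)
      (fun s => ?_) ((mlog_summable hB2 h916 hc).mul_left (R * KK))
    calc ∑ D ∈ S s, μ.real {x | δ ≤ |avg H π D f x - J|} ≤
          (S s).card • (KK * (9 / 16 : ℝ) ^ (q * mlog B c s)) := by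
          refine Finset.sum_le_card_nsmul _ _ _ fun D hD => ?_
          obtain ⟨b, φ, hφ, hb, rfl⟩ := (hS s D).1 hD
          exact hone s b φ hφ
      _ = ((S s).card : ℝ) * (KK * (9 / 16 : ℝ) ^ (q * mlog B c s)) := by rw [nsmul_eq_mul]
      _ ≤ (R * 4 ^ s) * (KK * (9 / 16 : ℝ) ^ (q * mlog B c s)) :=
          mul_le_mul_of_nonneg_right (hcard s) (by positivity)
      _ = R * KK * (4 ^ s * (9 / 16 : ℝ) ^ (q * mlog B c s)) := by ring

end Pool.Agent.Work.MP_67388f_an.EM
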