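import Pool.Agent.Work.MP_67388f_an.EM.FId
import Pool.Agent.Work.MP_67388f_an.EM.FIe
import Pool.Agent.Work.MP_67388f_an.EM.LF
import Pool.Agent.Work.MP_67388f_an.EM.RT
import Pool.Agent.Work.MP_67388f_an.EM.SA
import Pool.Agent.Work.MP_67388f_an.EM.SB
import Pool.Agent.Work.MP_67388f_an.EM.GEb

/-!
# The general rigidity theorem (assembly)
-/

set_option autoImplicit false

namespace Pool.Agent.Work.MP_67388f_an.EM

open MeasureTheory Filter Topology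

variable {I : Type} [Fintype I] {n : I → ℕ} {K : I → Type} [∀ i, NontriviallyNormedField (K i)]
  [∀ i, ProperSpace (K i)]
  (H : Type) [Group H] [TopologicalSpace H] [IsTopologicalGroup H] [LocallyCompactSpace H]
  [SecondCountableTopology H] [T2Space H]
  {X : Type} [TopologicalSpace X] [T2Space X] [LocallyCompactSpace X] [SecondCountableTopology X]
  [MulAction (GG n K × H) X] [ContinuousSMul (GG n K × H) X]
  [MulAction.IsPretransitive (GG n K × H) X] [MeasurableSpace X] [BorelSpace X]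
  {μ : Measure X} [IsProbabilityMeasure μ]

theorem rigidity {π : ∀ i, (K i)ˣ} (hπ : ∀ i, 1 < ‖(π i : K i)‖) (hNI : ∀ i, NIProp (K i))
    (hSub : ∀ i, SubProp (K i)) (hA : AInv n H π μ)
    (hmix : (2 ≤ ∑ i, (n i - 1) ∧ ExpMix n H π μ) ∨ (3 ≤ ∑ i, (n i - 1) ∧ PolyMix n H π μ)) :
    (∀ g : GG n K, Fix H μ g) ∨ ∃ x, μ = Measure.dirac x := by
  classical
  by_contra hcon
  rw [not_or] at hcon
  obtain ⟨hcon1, hcon2⟩ := hcon
  have hnd : ∀ x, μ ≠ Measure.dirac x := fun x hx => hcon2 ⟨x, hx⟩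
  have hW : WM n H π μ := by
    rcases hmix with ⟨-, h⟩ | ⟨-, h⟩
    · exact wm_of_exp H h
    · exact wm_of_poly H h
  let J : ∀ i, Finset (Fin (n i) × Fin (n i)) := fun i =>
    Finset.univ.filter fun φ => φ.1 ≠ φ.2 ∧ ∀ c, Fix H μ (tv (K := K) (⟨i, φ⟩ : Rt n) c)
  have hmem : ∀ i φ, φ ∈ J i ↔ φ.1 ≠ φ.2 ∧ ∀ c, Fix H μ (tv (K := K) (⟨i, φ⟩ : Rt n) c) := by
    intro i φ
    simp only [J, Finset.mem_filter, Finset.mem_univ, true_and]
  have hJ : ∀ i, ∀ φ ∈ J i, φ.1 ≠ φ.2 := fun i φ h => ((hmem i φ).1 h).1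
  have hfix : ∀ i, ∀ φ ∈ J i, ∀ c, Fix H μ (tv (K := K) (⟨i, φ⟩ : Rt n) c) :=
    fun i φ h => ((hmem i φ).1 h).2
  have htrans : ∀ i j m l, (j, m) ∈ J i → (m, l) ∈ J i → j ≠ l → (j, l) ∈ J i := by
    intro i j m l h1 h2 hjl
    rw [hmem] at h1 h2 ⊢
    exact ⟨hjl, root_trans H i j m l h1.1 h2.1 hjl h1.2 h2.2⟩
  have hne : ∃ φ : Rt n, Off φ ∧ φ.2 ∉ J φ.1 := by
    by_contra hno
    push Not at hno
    exact hcon1 fun g => fix_all H (fun φ c hφ => hfix φ.1 φ.2 (hno φ hφ) c) g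
  obtain ⟨ρ₀, hρ₀, N₀, hN₀, hnull⟩ := leaf_null H hπ hA hW J hJ htrans hne hnd
  obtain ⟨pl, q, hpl, hq, hqq⟩ := exists_plane n
  obtain ⟨η, C₁, Q, hη, hC₁, hD⟩ := displacement hπ pl q hpl hq hqq
  have hS : HasSampler H π μ pl η C₁ := by
    rcases hmix with ⟨hr, h⟩ | ⟨hr, h⟩
    · exact sampler_exp H hπ hA h hr pl hη C₁
    · exact sampler_poly H hA h hr pl hη C₁
  obtain ⟨φ, w, ⟨hφ, hφJ⟩, hw, hf⟩ := exact_inv H (μ := μ)
    (fun φ : Rt n => Off φ ∧ φ.2 ∉ J φ.1) Q (by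
      intro F hF ε hε
      obtain ⟨φ, w, h1, h2, h3, h4, h5⟩ := almost_inv H hNI J hJ htrans hfix hρ₀ hN₀ hnull hD hS
        F hF hε
      exact ⟨φ, w, ⟨h1, h2⟩, h3, h4, h5⟩)
  refine hφJ ((hmem φ.1 φ.2).2 ⟨hφ, fun c => ?_⟩)
  exact full_root H hπ hA hφ (hSub φ.1) hw hf c

end Pool.Agent.Work.MP_67388f_an.EM
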