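import Pool.Agent.Work.MP_67388f_an.EM.CoR
import Pool.Agent.Work.MP_67388f_an.EM.CoQ
import Pool.Agent.Work.MP_67388f_an.EM.PF
import Pool.Agent.Work.MP_67388f_an.EM.Top

/-!
# Fields isometrically isomorphic to the real or p-adic numbers
-/

set_option autoImplicit false

namespace Pool.Agent.Work.MP_67388f_an.EM

open MeasureTheory Filter Topology

/-- The normed field `K` is isometrically isomorphic to `ℝ` or to some `ℚ_[p]`. -/
def IsPlace (K : Type) [NontriviallyNormedField K] : Prop :=
  (∃ e : K ≃+* ℝ, ∀ x, ‖e x‖ = ‖x‖) ∨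
    ∃ (p : ℕ) (_ : Fact p.Prime) (e : K ≃+* ℚ_[p]), ∀ x, ‖e x‖ = ‖x‖

section transfer

variable {K L : Type} [NontriviallyNormedField K] [NontriviallyNormedField L] (e : K ≃+* L)
  (he : ∀ x, ‖e x‖ = ‖x‖)

include he

theorem symm_norm (y : L) : ‖e.symm y‖ = ‖y‖ := by
  rw [← he, RingEquiv.apply_symm_apply]

theorem iso_of : Isometry e := by
  refine AddMonoidHomClass.isometry_of_norm e he

theorem iso_symm : Isometry e.symm :=
  AddMonoidHomClass.isometry_of_norm e.symm (symm_norm e he)

theorem proper_transfer [ProperSpace L] : ProperSpace K :=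
  AntilipschitzWith.properSpace (iso_symm e he).antilipschitz (iso_symm e he).continuous
    e.symm.surjective

theorem sub_transfer (h : SubProp L) : SubProp K := by
  intro S hS hne ϖ hϖ h1 h2
  obtain ⟨c, hc, hc0⟩ := hne
  let S' : AddSubgroup L := S.comap e.symm.toAddMonoidHom
  have hmem : ∀ y, y ∈ S' ↔ e.symm y ∈ S := fun y => Iff.rfl
  have hS' : IsClosed (S' : Set L) := hS.preimage (iso_symm e he).continuous
  have htop := h S' hS' ⟨e c, (hmem _).2 (by rwa [RingEquiv.symm_apply_apply]),
    (map_ne_zero_iff e e.injective).2 hc0⟩ (e ϖ) (by rwa [he])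
    (fun y hy => (hmem _).2 (by
      rw [map_mul, RingEquiv.symm_apply_apply]
      exact h1 _ ((hmem _).1 hy)))
    (fun y hy => (hmem _).2 (by
      rw [map_mul, map_inv₀, RingEquiv.symm_apply_apply]
      exact h2 _ ((hmem _).1 hy)))
  rw [eq_top_iff]
  intro x _
  have h3 : e x ∈ S' := by
    rw [htop]
    trivial
  have h4 := (hmem _).1 h3
  rwa [RingEquiv.symm_apply_apply] at h4

theorem ni_transfer (h : NIProp L) : NIProp K := by
  intro ι _
  obtain ⟨ν, θ, C, hσ, hν⟩ := h ι
  let mL : MeasurableSpace (ι → L) := borel _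
  let mK : MeasurableSpace (ι → K) := borel _
  have bL : BorelSpace (ι → L) := ⟨rfl⟩
  have bK : BorelSpace (ι → K) := ⟨rfl⟩
  let E : (ι → L) ≃ₜ (ι → K) :=
    { toFun := fun x i => e.symm (x i)
      invFun := fun x i => e (x i)
      left_inv := fun x => by funext i; exact e.apply_symm_apply _
      right_inv := fun x => by funext i; exact e.symm_apply_apply _
      continuous_toFun := continuous_pi fun i =>
        (iso_symm e he).continuous.comp (continuous_apply i)
      continuous_invFun := continuous_pi fun i => (iso_of e he).continuous.comp (continuous_apply i) }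
  have hE : ∀ x, ‖E x‖ = ‖x‖ := by
    intro x
    refine le_antisymm ?_ ?_
    · rw [pi_norm_le_iff_of_nonneg (norm_nonneg _)]
      intro i
      exact (symm_norm e he (x i)).le.trans (norm_le_pi_norm x i)
    · rw [pi_norm_le_iff_of_nonneg (norm_nonneg _)]
      intro i
      exact (symm_norm e he (x i)).ge.trans (norm_le_pi_norm (E x) i)
  have hE' : ∀ x, ‖E.symm x‖ = ‖x‖ := by
    intro x
    rw [← hE, Homeomorph.apply_symm_apply]
  have hsub : ∀ x y, E x - E y = E (x - y) := by
    intro x y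
    funext i
    exact (map_sub e.symm _ _).symm
  have hsub' : ∀ x y, E.symm x - E.symm y = E.symm (x - y) := by
    intro x y
    funext i
    exact (map_sub e _ _).symm
  have hme : ∀ s : Set (ι → K), (ν.map E) s = ν (E ⁻¹' s) := fun s =>
    E.toMeasurableEquiv.map_apply s
  have hball : ∀ ρ : ℝ, E ⁻¹' {x | ‖x‖ ≤ ρ} = {x | ‖x‖ ≤ ρ} := by
    intro ρ
    ext x
    change ‖E x‖ ≤ ρ ↔ ‖x‖ ≤ ρ
    rw [hE]
  refine ⟨ν.map E, θ, C, E.toMeasurableEquiv.sigmaFinite_map, ?_⟩
  refine ⟨hν.theta_pos, hν.C_lt, fun ρ => ?_, fun ρ hρ => ?_, fun ρ ψ hρ hψ s hs => ?_⟩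
  · rw [hme, hball]
    exact hν.ball_lt ρ
  · rw [hme, hball]
    exact hν.ball_pos ρ hρ
  · rw [hme, hme, Set.preimage_inter, hball]
    have h1 := hν.ni ρ (fun x => E.symm (ψ (E x))) hρ (fun x y hx hy => by
      have h2 := hψ (E x) (E y) (by rwa [hE]) (by rwa [hE])
      rw [hsub'] 
      have h3 : x - y = E.symm (E x - E y) := by
        rw [hsub, Homeomorph.symm_apply_apply]
      rw [h3, hsub', hE', hE']
      exact h2) (E ⁻¹' s) (E.continuous.measurable hs)
    refine le_trans (le_of_eq ?_) h1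
    congr 1
    ext x
    change (‖x‖ ≤ ρ ∧ ψ (E x) ∈ s) ↔ (‖x‖ ≤ ρ ∧ E (E.symm (ψ (E x))) ∈ s)
    rw [Homeomorph.apply_symm_apply]

end transfer

theorem IsPlace.proper {K : Type} [NontriviallyNormedField K] (h : IsPlace K) : ProperSpace K := by
  rcases h with ⟨e, he⟩ | ⟨p, hp, e, he⟩
  · exact proper_transfer e he
  · exact proper_transfer e he

theorem IsPlace.sub {K : Type} [NontriviallyNormedField K] (h : IsPlace K) : SubProp K := by
  rcases h with ⟨e, he⟩ | ⟨p, hp, e, he⟩
  · exact sub_transfer e he subProp_real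
  · exact sub_transfer e he (subProp_padic p)

theorem IsPlace.ni {K : Type} [NontriviallyNormedField K] (h : IsPlace K) : NIProp K := by
  rcases h with ⟨e, he⟩ | ⟨p, hp, e, he⟩
  · exact ni_transfer e he niProp_real
  · exact ni_transfer e he (niProp_padic p)

end Pool.Agent.Work.MP_67388f_an.EM
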