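import Pool.Agent.Work.MP_67388f_an.EM.Lem

/-!
# SAm (size M): the variance of averages over two-dimensional boxes

## Proof of `second_moment`
Let `ρ₀ = min ρ (3/2) ∈ (1, 2)`, so `|corr F F k| ≤ |C| (1 + len k)^(-ρ₀)`. The map
`(a, b) ↦ k₀ + a e₁ + b e₂` is injective (`hind`), so `box` has `N^2` elements and
`∫ (avg (box k₀ N) F - ∫F)^2 = N^(-4) ∑_{p, p'} (∫ F∘a_{k_p} F∘a_{k_p'} - (∫F)^2)
 = N^(-4) ∑_{p,p'} corr F F (k_p - k_p')` by invariance (`act (k - k') (act k' x) = act k x`).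
Here `k_p - k_p' = (p.1 - p'.1) e₁ + (p.2 - p'.2) e₂` and, with `a = p.1 - p'.1`, `b = p.2 - p'.2`,
`(1 + len)^(-ρ₀) ≤ (1 + |a| + |b|)^(-ρ₀) ≤ (1 + |a|)^(-ρ₀/2) (1 + |b|)^(-ρ₀/2)`. For fixed `p` the sum
over `p'` is at most `(2 ∑_{t < N} (1 + t)^(-ρ₀/2))^2 ≤ (c N^(1 - ρ₀/2))^2` since `ρ₀ / 2 < 1`
(compare with an integral, or prove `∑_{t<N} (1+t)^(-s) ≤ c N^(1-s)` by induction using
`N^(1-s) - (N-1)^(1-s) ≥ (1-s) N^(-s)`). Total: `|C| N^(-4) N^2 c^2 N^(2 - ρ₀) = C' N^(-ρ₀)`.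
-/

set_option autoImplicit false

namespace Pool.Agent.Work.MP_67388f_an.EM

open MeasureTheory Filter Topology

open Classical in
/-- two-dimensional boxes -/
noncomputable def box {I : Type} {n : I → ℕ} (e₁ e₂ k₀ : Lat n) (N : ℕ) : Finset (Lat n) :=
  (Finset.range N ×ˢ Finset.range N).image fun p => k₀ + (p.1 : ℤ) • e₁ + (p.2 : ℤ) • e₂

private theorem sam_step {s : ℝ} (hs : 0 < s) (hs1 : s < 1) (t : ℕ) :
    (1 - s) * (1 + (t : ℝ)) ^ (-s) ≤ ((t + 1 : ℕ) : ℝ) ^ (1 - s) - (t : ℝ) ^ (1 - s) := by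
  have hx : (0 : ℝ) < 1 + (t : ℝ) := by positivity
  have ht : (0 : ℝ) ≤ (t : ℝ) := Nat.cast_nonneg t
  have h1 : (-1 : ℝ) ≤ -(1 + (t : ℝ))⁻¹ := by
    have : (1 + (t : ℝ))⁻¹ ≤ 1 := inv_le_one_of_one_le₀ (by linarith)
    linarith
  have h2 := rpow_one_add_le_one_add_mul_self h1 (by linarith : 0 ≤ 1 - s)
    (by linarith : 1 - s ≤ 1)
  have e1 : (t : ℝ) = (1 + (t : ℝ)) * (1 + -(1 + (t : ℝ))⁻¹) := by
    field_simp
    ring
  have h3 : (t : ℝ) ^ (1 - s) = (1 + (t : ℝ)) ^ (1 - s) * (1 + -(1 + (t : ℝ))⁻¹) ^ (1 - s) := by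
    conv_lhs => rw [e1]
    exact Real.mul_rpow hx.le (by linarith)
  have e2 : (1 + (t : ℝ)) ^ (-s) = (1 + (t : ℝ)) ^ (1 - s) * (1 + (t : ℝ))⁻¹ := by
    rw [← Real.rpow_neg_one, ← Real.rpow_add hx]
    congr 1
    ring
  have e3 : ((t + 1 : ℕ) : ℝ) = 1 + (t : ℝ) := by push_cast; ring
  have h4 := mul_le_mul_of_nonneg_left h2 (Real.rpow_nonneg hx.le (1 - s))
  rw [h3, e2, e3]
  linarith

theorem sum_rpow_le {s : ℝ} (hs : 0 < s) (hs1 : s < 1) :
    ∃ c : ℝ, ∀ N : ℕ, 1 ≤ N → ∑ t ∈ Finset.range N, (1 + (t : ℝ)) ^ (-s) ≤ c * (N : ℝ) ^ (1 - s) := by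
  refine ⟨(1 - s)⁻¹, fun N _ => ?_⟩
  have h1 : ∑ t ∈ Finset.range N, (1 - s) * (1 + (t : ℝ)) ^ (-s) ≤ (N : ℝ) ^ (1 - s) := by
    calc ∑ t ∈ Finset.range N, (1 - s) * (1 + (t : ℝ)) ^ (-s)
        ≤ ∑ t ∈ Finset.range N, (((t + 1 : ℕ) : ℝ) ^ (1 - s) - (t : ℝ) ^ (1 - s)) :=
          Finset.sum_le_sum fun t _ => sam_step hs hs1 t
      _ = (N : ℝ) ^ (1 - s) - ((0 : ℕ) : ℝ) ^ (1 - s) :=
          Finset.sum_range_sub (fun t : ℕ => (t : ℝ) ^ (1 - s)) N
      _ = (N : ℝ) ^ (1 - s) := by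
          rw [Nat.cast_zero, Real.zero_rpow (by linarith), sub_zero]
  rw [← Finset.mul_sum] at h1
  rw [inv_mul_eq_div, le_div_iff₀ (by linarith), mul_comm]
  exact h1

private theorem sam_two {f : ℕ → ℝ} (hf : ∀ t, 0 ≤ f t) {a N : ℕ} (ha : a < N) :
    ∑ b ∈ Finset.range N, f (((a : ℤ) - b).natAbs) ≤ 2 * ∑ t ∈ Finset.range N, f t := by
  have hmaps : ∀ b ∈ Finset.range N, ((a : ℤ) - b).natAbs ∈ Finset.range N := by
    intro b hb
    rw [Finset.mem_range] at *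
    omega
  rw [← Finset.sum_fiberwise_of_maps_to hmaps, Finset.mul_sum]
  refine Finset.sum_le_sum fun t _ => ?_
  have h1 : ∀ b ∈ (Finset.range N).filter (fun b : ℕ => ((a : ℤ) - b).natAbs = t),
      f (((a : ℤ) - b).natAbs) = f t := by
    intro b hb
    rw [(Finset.mem_filter.1 hb).2]
  rw [Finset.sum_congr rfl h1, Finset.sum_const, nsmul_eq_mul]
  refine mul_le_mul_of_nonneg_right ?_ (hf t)
  have h2 : (Finset.range N).filter (fun b : ℕ => ((a : ℤ) - b).natAbs = t) ⊆ {a - t, a + t} := by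
    intro b hb
    have h3 := (Finset.mem_filter.1 hb).2
    rw [Finset.mem_insert, Finset.mem_singleton]
    omega
  have h3 := (Finset.card_le_card h2).trans Finset.card_le_two
  exact_mod_cast h3

variable {I : Type} [Fintype I] {n : I → ℕ} {K : I → Type} [∀ i, NontriviallyNormedField (K i)]
  (H : Type) [Group H] [TopologicalSpace H]
  {X : Type} [TopologicalSpace X] [MulAction (GG n K × H) X] [ContinuousSMul (GG n K × H) X]
  [MeasurableSpace X] [BorelSpace X] {μ : Measure X} [IsProbabilityMeasure μ]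

theorem second_moment {π : ∀ i, (K i)ˣ} (hA : AInv n H π μ) {e₁ e₂ : Lat n}
    (hind : ∀ a b : ℤ, |(a : ℝ)| + |(b : ℝ)| ≤ len (a • e₁ + b • e₂)) {M : ℝ} {F : X → ℝ}
    (hF : Test n K H M F) {C ρ : ℝ} (hρ : 1 < ρ)
    (hc : ∀ k : Lat n, |corr H π μ F F k| ≤ C * (1 + len k) ^ (-ρ)) :
    ∃ C' : ℝ, ∀ (k₀ : Lat n) (N : ℕ), 1 ≤ N →
      ∫ x, (avg H π (box e₁ e₂ k₀ N) F x - ∫ y, F y ∂μ) ^ 2 ∂μ ≤
        C' * (N : ℝ) ^ (-min ρ (3 / 2)) := by
  classical
  set ρ₀ : ℝ := min ρ (3 / 2) with hρ₀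
  have hr1 : 1 < ρ₀ := lt_min hρ (by norm_num)
  have hr2 : ρ₀ ≤ 3 / 2 := min_le_right _ _
  have hrr : ρ₀ ≤ ρ := min_le_left _ _
  obtain ⟨c, hc'⟩ := sum_rpow_le (s := ρ₀ / 2) (by linarith) (by linarith)
  set c₀ : ℝ := ∫ y, F y ∂μ with hc₀
  refine ⟨|C| * (2 * c) ^ 2, fun k₀ N hN => ?_⟩
  have hN0 : (0 : ℝ) < (N : ℝ) := by exact_mod_cast hN
  set kp : ℕ × ℕ → Lat n := fun p => k₀ + (p.1 : ℤ) • e₁ + (p.2 : ℤ) • e₂ with hkp
  have hdiff : ∀ p p' : ℕ × ℕ, kp p - kp p' =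
      ((p.1 : ℤ) - p'.1) • e₁ + ((p.2 : ℤ) - p'.2) • e₂ := by
    intro p p'
    simp only [hkp, sub_smul]
    abel
  have hlen : ∀ p p' : ℕ × ℕ, |(((p.1 : ℤ) - p'.1 : ℤ) : ℝ)| + |(((p.2 : ℤ) - p'.2 : ℤ) : ℝ)| ≤
      len (kp p - kp p') := by
    intro p p'
    rw [hdiff]
    exact hind _ _
  have hinj : Function.Injective kp := by
    intro p p' h
    have h1 := hlen p p'
    rw [h, sub_self, len_zero] at h1
    have h2 := abs_nonneg ((((p.1 : ℤ) - p'.1 : ℤ) : ℝ))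
    have h3 := abs_nonneg ((((p.2 : ℤ) - p'.2 : ℤ) : ℝ))
    have h4 : |(((p.1 : ℤ) - p'.1 : ℤ) : ℝ)| = 0 := by linarith
    have h5 : |(((p.2 : ℤ) - p'.2 : ℤ) : ℝ)| = 0 := by linarith
    have h6 : (p.1 : ℤ) - p'.1 = 0 := by exact_mod_cast abs_eq_zero.1 h4
    have h7 : (p.2 : ℤ) - p'.2 = 0 := by exact_mod_cast abs_eq_zero.1 h5
    exact Prod.ext (by omega) (by omega)
  set Q : Finset (ℕ × ℕ) := Finset.range N ×ˢ Finset.range N with hQ
  have hQc : (Q.card : ℝ) = (N : ℝ) ^ 2 := by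
    rw [hQ, Finset.card_product, Finset.card_range]
    push_cast
    ring
  have hbox : box e₁ e₂ k₀ N = Q.image kp := by
    have hdec : ∀ d1 d2 : DecidableEq (Lat n),
        @Finset.image _ _ d1 kp Q = @Finset.image _ _ d2 kp Q := by
      intro d1 d2
      rw [Subsingleton.elim d1 d2]
    unfold box
    exact hdec _ _
  have havg : ∀ x : X, avg H π (box e₁ e₂ k₀ N) F x - c₀ =
      (∑ p ∈ Q, (F (act H π (kp p) x) - c₀)) / (N : ℝ) ^ 2 := by
    intro x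
    unfold avg
    rw [hbox, Finset.sum_image fun a _ b _ h => hinj h, Finset.card_image_of_injective _ hinj, hQc,
      Finset.sum_sub_distrib, Finset.sum_const, nsmul_eq_mul, hQc]
    field_simp
  obtain ⟨hFc, -, hFb, -⟩ := hF
  have hcont : ∀ k : Lat n, Continuous fun x : X => F (act H π k x) := fun k =>
    hFc.comp (continuous_act H π k)
  have hint1 : ∀ k : Lat n, Integrable (fun x : X => F (act H π k x)) μ := fun k =>
    Integrable.of_bound (hcont k).measurable.aestronglyMeasurable M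
      (ae_of_all _ fun x => by rw [Real.norm_eq_abs]; exact hFb _)
  have hint2 : ∀ k k' : Lat n, Integrable (fun x : X => F (act H π k x) * F (act H π k' x)) μ :=
    fun k k' =>
    Integrable.of_bound ((hcont k).mul (hcont k')).measurable.aestronglyMeasurable (M * M)
      (ae_of_all _ fun x => by
        rw [Real.norm_eq_abs, abs_mul]
        exact mul_le_mul (hFb _) (hFb _) (abs_nonneg _) ((abs_nonneg _).trans (hFb (act H π k x))))
  have hcorr : ∀ k k' : Lat n, ∫ x, (F (act H π k x) - c₀) * (F (act H π k' x) - c₀) ∂μ =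
      corr H π μ F F (k - k') := by
    intro k k'
    have i1 : Integrable (fun x : X => c₀ * F (act H π k x) + c₀ * F (act H π k' x)) μ :=
      ((hint1 k).const_mul c₀).add ((hint1 k').const_mul c₀)
    have i2 : Integrable (fun x : X => F (act H π k x) * F (act H π k' x) -
        (c₀ * F (act H π k x) + c₀ * F (act H π k' x))) μ := (hint2 k k').sub i1
    have e : (fun x : X => (F (act H π k x) - c₀) * (F (act H π k' x) - c₀)) =
        fun x => (F (act H π k x) * F (act H π k' x) -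
          (c₀ * F (act H π k x) + c₀ * F (act H π k' x))) + c₀ ^ 2 := by
      funext x; ring
    have e2 : ∫ x, F (act H π (k - k') x) * F x ∂μ =
        ∫ x, F (act H π k x) * F (act H π k' x) ∂μ := by
      have h1 := integral_act H hA k' (fun x => F (act H π (k - k') x) * F x)
        ((hcont _).mul hFc)
      rw [← h1]
      congr 1
      funext x
      rw [← act_add, sub_add_cancel]
    unfold corr
    rw [e, integral_add i2 (integrable_const _), integral_sub (hint2 k k') i1,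
      integral_add ((hint1 k).const_mul c₀) ((hint1 k').const_mul c₀), integral_const_mul,
      integral_const_mul, integral_act H hA k F hFc, integral_act H hA k' F hFc, e2,
      integral_const, ← hc₀]
    simp
    ring
  set g : ℕ → ℝ := fun t => (1 + (t : ℝ)) ^ (-(ρ₀ / 2)) with hg
  have hg0 : ∀ t, 0 ≤ g t := fun t => Real.rpow_nonneg (by positivity) _
  have hpair : ∀ p p' : ℕ × ℕ, corr H π μ F F (kp p - kp p') ≤
      |C| * (g (((p.1 : ℤ) - p'.1).natAbs) * g (((p.2 : ℤ) - p'.2).natAbs)) := by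
    intro p p'
    set a : ℤ := (p.1 : ℤ) - p'.1 with ha
    set b : ℤ := (p.2 : ℤ) - p'.2 with hb
    have h1 := (le_abs_self _).trans (hc (kp p - kp p'))
    have h2 : |(a : ℝ)| + |(b : ℝ)| ≤ len (kp p - kp p') := hlen p p'
    have ha0 := abs_nonneg (a : ℝ)
    have hb0 := abs_nonneg (b : ℝ)
    have hl1 : 1 ≤ 1 + len (kp p - kp p') := by linarith
    have h3 : (1 + len (kp p - kp p')) ^ (-ρ) ≤ (1 + len (kp p - kp p')) ^ (-ρ₀) :=
      Real.rpow_le_rpow_of_exponent_le hl1 (by linarith)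
    have ea : (1 + |(a : ℝ)|) ^ (-(ρ₀ / 2)) = g a.natAbs := by
      simp only [hg, Nat.cast_natAbs, Int.cast_abs]
    have eb : (1 + |(b : ℝ)|) ^ (-(ρ₀ / 2)) = g b.natAbs := by
      simp only [hg, Nat.cast_natAbs, Int.cast_abs]
    have h4 : (1 + len (kp p - kp p')) ^ (-ρ₀) ≤ g a.natAbs * g b.natAbs := by
      rw [← ea, ← eb]
      have e1 : -ρ₀ = -(ρ₀ / 2) + -(ρ₀ / 2) := by ring
      rw [e1, Real.rpow_add (by linarith)]
      refine mul_le_mul ?_ ?_ (Real.rpow_nonneg (by linarith) _) (Real.rpow_nonneg (by linarith) _)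
      · exact Real.rpow_le_rpow_of_nonpos (by linarith) (by linarith) (by linarith)
      · exact Real.rpow_le_rpow_of_nonpos (by linarith) (by linarith) (by linarith)
    have h5 : 0 ≤ (1 + len (kp p - kp p')) ^ (-ρ) := Real.rpow_nonneg (by linarith) _
    calc _ ≤ C * (1 + len (kp p - kp p')) ^ (-ρ) := h1
      _ ≤ |C| * (1 + len (kp p - kp p')) ^ (-ρ) := mul_le_mul_of_nonneg_right (le_abs_self C) h5
      _ ≤ |C| * (g a.natAbs * g b.natAbs) :=
          mul_le_mul_of_nonneg_left (h3.trans h4) (abs_nonneg C)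
  have hS : ∫ x, (∑ p ∈ Q, (F (act H π (kp p) x) - c₀)) ^ 2 ∂μ =
      ∑ p ∈ Q, ∑ p' ∈ Q, corr H π μ F F (kp p - kp p') := by
    have hb1 : ∀ k : Lat n, ∀ x : X, |F (act H π k x) - c₀| ≤ M + |c₀| := fun k x =>
      (abs_sub _ _).trans (add_le_add (hFb _) le_rfl)
    have hi : ∀ k k' : Lat n, Integrable (fun x : X => (F (act H π k x) - c₀) *
        (F (act H π k' x) - c₀)) μ := fun k k' =>
      Integrable.of_bound (((hcont k).sub continuous_const).mul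
        ((hcont k').sub continuous_const)).measurable.aestronglyMeasurable
        ((M + |c₀|) * (M + |c₀|))
        (ae_of_all _ fun x => by
          rw [Real.norm_eq_abs, abs_mul]
          exact mul_le_mul (hb1 k x) (hb1 k' x) (abs_nonneg _) ((abs_nonneg _).trans (hb1 k x)))
    have e : (fun x : X => (∑ p ∈ Q, (F (act H π (kp p) x) - c₀)) ^ 2) = fun x =>
        ∑ p ∈ Q, ∑ p' ∈ Q, (F (act H π (kp p) x) - c₀) * (F (act H π (kp p') x) - c₀) := by
      funext x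
      rw [sq, Finset.sum_mul_sum]
    rw [e, integral_finsetSum Q fun p _ => integrable_finsetSum Q fun p' _ => hi _ _]
    refine Finset.sum_congr rfl fun p _ => ?_
    rw [integral_finsetSum Q fun p' _ => hi _ _]
    exact Finset.sum_congr rfl fun p' _ => hcorr _ _
  have hrow : ∀ p ∈ Q, ∑ p' ∈ Q, corr H π μ F F (kp p - kp p') ≤
      |C| * (2 * (c * (N : ℝ) ^ (1 - ρ₀ / 2))) ^ 2 := by
    intro p hp
    obtain ⟨hp1, hp2⟩ := Finset.mem_product.1 hp
    rw [Finset.mem_range] at hp1 hp2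
    have hgs := hc' N hN
    have hgs0 : 0 ≤ ∑ t ∈ Finset.range N, g t := Finset.sum_nonneg fun t _ => hg0 t
    have h1 : ∑ a ∈ Finset.range N, g (((p.1 : ℤ) - a).natAbs) ≤
        2 * (c * (N : ℝ) ^ (1 - ρ₀ / 2)) :=
      (sam_two hg0 hp1).trans (mul_le_mul_of_nonneg_left hgs (by norm_num))
    have h2 : ∑ a ∈ Finset.range N, g (((p.2 : ℤ) - a).natAbs) ≤
        2 * (c * (N : ℝ) ^ (1 - ρ₀ / 2)) :=
      (sam_two hg0 hp2).trans (mul_le_mul_of_nonneg_left hgs (by norm_num))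
    have h20 : 0 ≤ ∑ a ∈ Finset.range N, g (((p.2 : ℤ) - a).natAbs) :=
      Finset.sum_nonneg fun a _ => hg0 _
    have h10 : 0 ≤ ∑ a ∈ Finset.range N, g (((p.1 : ℤ) - a).natAbs) :=
      Finset.sum_nonneg fun a _ => hg0 _
    calc ∑ p' ∈ Q, corr H π μ F F (kp p - kp p')
        ≤ ∑ p' ∈ Q, |C| * (g (((p.1 : ℤ) - p'.1).natAbs) * g (((p.2 : ℤ) - p'.2).natAbs)) :=
          Finset.sum_le_sum fun p' _ => hpair p p'
      _ = |C| * ((∑ a ∈ Finset.range N, g (((p.1 : ℤ) - a).natAbs)) *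
            ∑ b ∈ Finset.range N, g (((p.2 : ℤ) - b).natAbs)) := by
          rw [← Finset.mul_sum, hQ, Finset.sum_product, Finset.sum_mul_sum]
      _ ≤ |C| * (2 * (c * (N : ℝ) ^ (1 - ρ₀ / 2))) ^ 2 := by
          refine mul_le_mul_of_nonneg_left ?_ (abs_nonneg C)
          rw [sq]
          exact mul_le_mul h1 h2 h20 (h10.trans h1)
  have e1 : (fun x : X => (avg H π (box e₁ e₂ k₀ N) F x - c₀) ^ 2) =
      fun x => (∑ p ∈ Q, (F (act H π (kp p) x) - c₀)) ^ 2 / ((N : ℝ) ^ 2) ^ 2 := by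
    funext x
    rw [havg x, div_pow]
  rw [e1, integral_div, hS]
  have h1 : ∑ p ∈ Q, ∑ p' ∈ Q, corr H π μ F F (kp p - kp p') ≤
      (N : ℝ) ^ 2 * (|C| * (2 * (c * (N : ℝ) ^ (1 - ρ₀ / 2))) ^ 2) := by
    refine (Finset.sum_le_sum hrow).trans ?_
    rw [Finset.sum_const, nsmul_eq_mul, hQc]
  refine (div_le_div_of_nonneg_right h1 (by positivity)).trans (le_of_eq ?_)
  have e2 : ((N : ℝ) ^ (1 - ρ₀ / 2)) ^ 2 = (N : ℝ) ^ 2 * (N : ℝ) ^ (-ρ₀) := by
    rw [← Real.rpow_natCast, ← Real.rpow_mul hN0.le, ← Real.rpow_two, ← Real.rpow_add hN0]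
    congr 1
    push_cast
    ring
  rw [mul_pow, mul_pow, e2]
  field_simp

end Pool.Agent.Work.MP_67388f_an.EM
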