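import Pool.Agent.Work.MP_67388f_an.EM.LA

/-!
# ST (size M): test functions determine the stabilizer; the stabilizer is closed

## Proof
`integral_eq_of_test` : two finite measures giving the same integral to all test functions are
equal: for `f` continuous with compact support and `ε > 0` `lip_approx` (with `U = univ`) gives a
test function `F` with `|F - f| ≤ ε`, so `|∫ f ∂μ - ∫ f ∂ν| ≤ 2 ε max(mass)`; hence all integrals of
compactly supported continuous functions agree, and the measures are equal (regular Borel measures
on a locally compact second countable Hausdorff space; e.g.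
`MeasureTheory.Measure.ext_of_integral_eq_on_compactlySupported` or the like; finite Borel
measures are regular since the space is second countable locally compact: `Measure.Regular`
instances, a second countable locally compact Hausdorff space is Polish / σ-compact metrizable).
`fix_of_test` : apply it to `μ.map ((g,1) • ·)` and `μ` (`integral_map`).
`isClosed_fix` : `Fix H μ g` iff `∫ f ((g,1) • x) ∂μ = ∫ f ∂μ` for all test functions `f`; each
condition is closed in `g` since `g ↦ ∫ f ((g,1) • x) ∂μ` is continuous (dominated convergence: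
`f` bounded continuous, `GG n K` is first countable: `instSC`).
-/

set_option autoImplicit false

namespace Pool.Agent.Work.MP_67388f_an.EM

open MeasureTheory Filter Topology
open scoped CompactlySupported

variable {I : Type} [Fintype I] {n : I → ℕ} {K : I → Type} [∀ i, NontriviallyNormedField (K i)]
  [∀ i, ProperSpace (K i)]
  (H : Type) [Group H] [TopologicalSpace H] [IsTopologicalGroup H]
  {X : Type} [TopologicalSpace X] [T2Space X] [LocallyCompactSpace X] [SecondCountableTopology X]
  [MulAction (GG n K × H) X] [ContinuousSMul (GG n K × H) X] [MeasurableSpace X] [BorelSpace X]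

theorem integral_eq_of_test {μ ν : Measure X} [IsFiniteMeasure μ] [IsFiniteMeasure ν]
    (h : ∀ (M : ℝ) (F : X → ℝ), Test n K H M F → ∫ x, F x ∂μ = ∫ x, F x ∂ν) : μ = ν := by
  have key : ∀ f : C_c(X, ℝ), ∫ x, f x ∂μ = ∫ x, f x ∂ν := by
    intro f
    have hint : ∀ (ρ : Measure X) [IsFiniteMeasure ρ], Integrable (fun x => f x) ρ := fun ρ _ =>
      f.integrable
    have hb : ∀ ε : ℝ, 0 < ε → |∫ x, f x ∂μ - ∫ x, f x ∂ν| ≤ ε * (μ.real Set.univ + ν.real Set.univ) := by
      intro ε hε
      obtain ⟨M, F, hF, hFf, -, -⟩ := lip_approx H (n := n) (K := K) f.continuous f.hasCompactSupport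
        isOpen_univ (Set.subset_univ _) hε
      have hFi : ∀ (ρ : Measure X) [IsFiniteMeasure ρ], Integrable F ρ := fun ρ _ =>
        hF.1.integrable_of_hasCompactSupport hF.2.1
      have hd : ∀ (ρ : Measure X) [IsFiniteMeasure ρ], |∫ x, F x ∂ρ - ∫ x, f x ∂ρ| ≤
          ε * ρ.real Set.univ := by
        intro ρ _
        rw [← integral_sub (hFi ρ) (hint ρ)]
        have h1 : ‖∫ x, (F x - f x) ∂ρ‖ ≤ ε * ρ.real Set.univ :=
          norm_integral_le_of_norm_le_const (Filter.Eventually.of_forall fun x => by
            rw [Real.norm_eq_abs]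
            exact hFf x)
        rwa [Real.norm_eq_abs] at h1
      have h1 := hd μ
      have h2 := hd ν
      have h3 := h M F hF
      rw [h3] at h1
      rw [abs_le] at h1 h2 ⊢
      constructor <;> nlinarith [h1.1, h1.2, h2.1, h2.2]
    have hm : 0 ≤ μ.real Set.univ + ν.real Set.univ := by positivity
    by_contra hne
    have hpos : 0 < |∫ x, f x ∂μ - ∫ x, f x ∂ν| := abs_pos.2 (sub_ne_zero.2 hne)
    have h1 := hb (|∫ x, f x ∂μ - ∫ x, f x ∂ν| / (2 * (μ.real Set.univ + ν.real Set.univ + 1)))
      (by positivity)
    have h2 : |∫ x, f x ∂μ - ∫ x, f x ∂ν| / (2 * (μ.real Set.univ + ν.real Set.univ + 1)) *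
        (μ.real Set.univ + ν.real Set.univ) ≤ |∫ x, f x ∂μ - ∫ x, f x ∂ν| / 2 := by
      rw [div_mul_eq_mul_div, div_le_div_iff₀ (by positivity) (by positivity)]
      nlinarith
    linarith
  exact Measure.ext_of_integral_eq_on_compactlySupported key

theorem fix_of_test {μ : Measure X} [IsFiniteMeasure μ] {g : GG n K}
    (h : ∀ (M : ℝ) (F : X → ℝ), Test n K H M F → ∫ x, F ((g, (1 : H)) • x) ∂μ = ∫ x, F x ∂μ) :
    Fix H μ g := by
  have hc : Continuous fun x : X => (g, (1 : H)) • x := continuous_smul_left H g 1
  have : IsFiniteMeasure (μ.map (fun x : X => (g, (1 : H)) • x)) := by infer_instance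
  refine integral_eq_of_test (n := n) (K := K) H (fun M F hF => ?_)
  rw [integral_map hc.measurable.aemeasurable hF.1.aestronglyMeasurable]
  exact h M F hF

theorem continuous_integral_smul {μ : Measure X} [IsFiniteMeasure μ] {f : X → ℝ}
    (hf : Continuous f) (hc : HasCompactSupport f) :
    Continuous fun g : GG n K => ∫ x, f ((g, (1 : H)) • x) ∂μ := by
  obtain ⟨C, hC⟩ := hc.exists_bound_of_continuous hf
  refine continuous_of_dominated (F := fun (g : GG n K) (x : X) => f ((g, (1 : H)) • x))
    (bound := fun _ => C) ?_ ?_ ?_ ?_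
  · intro g
    exact (hf.comp (continuous_smul_left H g 1)).aestronglyMeasurable
  · intro g
    exact Filter.Eventually.of_forall fun x => hC _
  · exact integrable_const C
  · refine Filter.Eventually.of_forall fun x => ?_
    have h1 : Continuous fun g : GG n K => (g, (1 : H)) • x :=
      (continuous_id.prodMk continuous_const).smul continuous_const
    exact hf.comp h1

theorem isClosed_fix {μ : Measure X} [IsFiniteMeasure μ] :
    IsClosed {g : GG n K | Fix H μ g} := by
  have h1 : {g : GG n K | Fix H μ g} = ⋂ (M : ℝ) (F : X → ℝ) (_ : Test n K H M F),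
      {g : GG n K | ∫ x, F ((g, (1 : H)) • x) ∂μ = ∫ x, F x ∂μ} := by
    ext g
    simp only [Set.mem_ofPred_eq, Set.mem_iInter]
    constructor
    · intro hg M F hF
      have h2 : μ.map (fun x : X => (g, (1 : H)) • x) = μ := hg
      have h3 := integral_map (μ := μ) (continuous_smul_left H g 1 (X := X)).measurable.aemeasurable
        (f := F) hF.1.aestronglyMeasurable
      rw [h2] at h3
      exact h3.symm
    · intro hg
      exact fix_of_test H hg
  rw [h1]
  refine isClosed_iInter fun M => isClosed_iInter fun F => isClosed_iInter fun hF => ?_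
  exact isClosed_eq (continuous_integral_smul H hF.1 hF.2.1) continuous_const

end Pool.Agent.Work.MP_67388f_an.EM
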